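import Mathlib

set_option autoImplicit false

namespace Pool.Agent.H244R2

open Filter Topology

/-- averaging a function that is nearly constant on a set carrying almost all the weight -/
lemma avg_bounds {ι : Type*} (t h : ι → ℝ) (D : ι → Prop) [DecidablePred D] {S η c ε : ℝ}
    (ht : ∀ i, 0 ≤ t i) (hs : Summable t) (hS : ∑' i, t i = S)
    (h0 : ∀ i, 0 ≤ h i) (h1 : ∀ i, h i ≤ 1) (hc : 0 ≤ c)
    (hD : ∑' i, (if D i then 0 else t i) ≤ η * S)
    (hw : ∀ i, D i → c * Real.exp (-ε) ≤ h i ∧ h i ≤ c * Real.exp ε) :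
    c * Real.exp (-ε) * (1 - η) * S ≤ ∑' i, h i * t i ∧
      ∑' i, h i * t i ≤ (c * Real.exp ε + η) * S := by
  have hht : Summable (fun i => h i * t i) :=
    Summable.of_nonneg_of_le (fun i => mul_nonneg (h0 i) (ht i))
      (fun i => mul_le_of_le_one_left (ht i) (h1 i)) hs
  have hDs : Summable (fun i => if D i then 0 else t i) := by
    refine Summable.of_nonneg_of_le (fun i => ?_) (fun i => ?_) hs
    · split_ifs
      · exact le_rfl
      · exact ht i
    · split_ifs
      · exact ht i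
      · exact le_rfl
  constructor
  · have h2 : ∑' i, (c * Real.exp (-ε) * t i - c * Real.exp (-ε) * (if D i then 0 else t i)) ≤
        ∑' i, h i * t i := by
      apply Summable.tsum_le_tsum _ ((hs.mul_left _).sub (hDs.mul_left _)) hht
      intro i
      by_cases hi : D i
      · simp only [hi, if_true, mul_zero, sub_zero]
        exact mul_le_mul_of_nonneg_right (hw i hi).1 (ht i)
      · simp only [hi, if_false, sub_self]
        exact mul_nonneg (h0 i) (ht i)
    rw [Summable.tsum_sub (hs.mul_left _) (hDs.mul_left _), tsum_mul_left, tsum_mul_left, hS] at h2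
    have h3 : c * Real.exp (-ε) * ∑' i, (if D i then 0 else t i) ≤ c * Real.exp (-ε) * (η * S) :=
      mul_le_mul_of_nonneg_left hD (by positivity)
    calc c * Real.exp (-ε) * (1 - η) * S = c * Real.exp (-ε) * S - c * Real.exp (-ε) * (η * S) := by
          ring
      _ ≤ _ := by linarith
  · have h2 : ∑' i, h i * t i ≤ ∑' i, (c * Real.exp ε * t i + (if D i then 0 else t i)) := by
      apply Summable.tsum_le_tsum _ hht ((hs.mul_left _).add hDs)
      intro i
      by_cases hi : D i
      · simp only [hi, if_true, add_zero]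
        exact mul_le_mul_of_nonneg_right (hw i hi).2 (ht i)
      · simp only [hi, if_false]
        have h4 : h i * t i ≤ t i := mul_le_of_le_one_left (ht i) (h1 i)
        have h5 : 0 ≤ c * Real.exp ε * t i := mul_nonneg (by positivity) (ht i)
        linarith
    rw [Summable.tsum_add (hs.mul_left _) hDs, tsum_mul_left, hS] at h2
    calc _ ≤ c * Real.exp ε * S + ∑' i, (if D i then 0 else t i) := h2
      _ ≤ c * Real.exp ε * S + η * S := by linarith
      _ = _ := by ring

/-- existence of the (principal) Lambert value -/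
lemma exists_lambert {x : ℝ} (hx : 0 ≤ x) : ∃ w : ℝ, 0 ≤ w ∧ w * Real.exp w = x := by
  have hcont : ContinuousOn (fun w : ℝ => w * Real.exp w) (Set.Icc 0 x) := by fun_prop
  have h := intermediate_value_Icc hx hcont
  have hmem : x ∈ Set.Icc (0 * Real.exp 0) (x * Real.exp x) := by
    constructor
    · simpa using hx
    · have : 1 ≤ Real.exp x := Real.one_le_exp hx
      nlinarith
  obtain ⟨w, hw1, hw2⟩ := h hmem
  exact ⟨w, hw1.1, hw2⟩

open Classical in
/-- the Lambert function on `[0,∞)`: `lamW x * exp (lamW x) = x` -/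
noncomputable def lamW (x : ℝ) : ℝ := if hx : 0 ≤ x then (exists_lambert hx).choose else 0

lemma lamW_nonneg (x : ℝ) : 0 ≤ lamW x := by
  unfold lamW
  split_ifs with hx
  · exact (exists_lambert hx).choose_spec.1
  · exact le_rfl

lemma lamW_eq {x : ℝ} (hx : 0 ≤ x) : lamW x * Real.exp (lamW x) = x := by
  unfold lamW
  rw [dif_pos hx]
  exact (exists_lambert hx).choose_spec.2

lemma tendsto_lamW : Tendsto lamW atTop atTop := by
  rw [tendsto_atTop]
  intro M
  filter_upwards [eventually_gt_atTop (max 0 (|M| * Real.exp |M|))] with x hx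
  have hx0 : 0 ≤ x := (le_max_left _ _).trans hx.le
  by_contra h
  push Not at h
  have h1 := lamW_eq hx0
  have h2 := lamW_nonneg x
  have h3 : lamW x ≤ |M| := h.le.trans (le_abs_self M)
  have h4 : lamW x * Real.exp (lamW x) ≤ |M| * Real.exp |M| := by
    apply mul_le_mul h3 (Real.exp_le_exp.2 h3) (Real.exp_pos _).le (abs_nonneg M)
  have h5 := (le_max_right 0 (|M| * Real.exp |M|)).trans_lt hx
  linarith

/-- `w^k * exp(-w/4) → 0` -/
lemma tendsto_pow_mul_exp_neg_quarter (k : ℕ) :
    Tendsto (fun w : ℝ => w ^ k * Real.exp (-(w / 4))) atTop (𝓝 0) := by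
  have h := (Real.tendsto_pow_mul_exp_neg_atTop_nhds_zero k).comp
    (tendsto_id.atTop_div_const (show (0:ℝ) < 4 by norm_num))
  have h2 := h.const_mul ((4:ℝ) ^ k)
  rw [mul_zero] at h2
  refine h2.congr (fun w => ?_)
  simp only [Function.comp, id]
  rw [div_pow]
  field_simp

/-- the tail error is negligible against `exp (-(w^2))` -/
lemma tendsto_tail_error :
    Tendsto (fun w : ℝ => 8 * Real.exp (w / 4) * Real.exp (w ^ 2) * Real.exp (-Real.exp (w / 2)))
      atTop (𝓝 0) := by
  have h1 : Tendsto (fun w : ℝ => w / 4 + w ^ 2 - Real.exp (w / 2)) atTop atBot := by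
    have h2 : ∀ᶠ w : ℝ in atTop, w / 4 + w ^ 2 - Real.exp (w / 2) ≤ - w := by
      have h3 : Tendsto (fun w : ℝ => w ^ 2 / Real.exp (w / 2)) atTop (𝓝 0) := by
        have h := (Real.tendsto_pow_mul_exp_neg_atTop_nhds_zero 2).comp
          (tendsto_id.atTop_div_const (show (0:ℝ) < 2 by norm_num))
        have h2 := h.const_mul ((2:ℝ) ^ 2)
        rw [mul_zero] at h2
        refine h2.congr (fun w => ?_)
        simp only [Function.comp, id]
        rw [div_pow, Real.exp_neg]
        field_simp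
      have h4 := h3.eventually (gt_mem_nhds (show (0:ℝ) < 1 / 4 by norm_num))
      filter_upwards [h4, eventually_gt_atTop 4] with w hw hw4
      rw [div_lt_iff₀ (Real.exp_pos _)] at hw
      nlinarith
    exact tendsto_atBot_mono' _ h2 tendsto_neg_atTop_atBot
  have h2 := (Real.tendsto_exp_atBot.comp h1).const_mul 8
  rw [mul_zero] at h2
  refine h2.congr (fun w => ?_)
  simp only [Function.comp]
  rw [sub_eq_add_neg, Real.exp_add, Real.exp_add]
  ring

lemma one_sub_ge_exp {u : ℝ} (hu0 : 0 ≤ u) (hu1 : u ≤ 1 / 2) :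
    Real.exp (-u - 2 * u ^ 2) ≤ 1 - u := by
  have h1 : 0 < 1 - u := by linarith
  have h2 := Real.one_sub_inv_le_log_of_pos h1
  have h3 : -u - 2 * u ^ 2 ≤ 1 - (1 - u)⁻¹ := by
    have h4 : (1 - u)⁻¹ ≤ 1 + u + 2 * u ^ 2 := by
      rw [inv_le_iff_one_le_mul₀ h1]
      nlinarith [mul_nonneg hu0 hu0, mul_nonneg (mul_nonneg hu0 hu0) hu0]
    linarith
  calc Real.exp (-u - 2 * u ^ 2) ≤ Real.exp (Real.log (1 - u)) := by
        apply Real.exp_le_exp.2; linarith
    _ = 1 - u := Real.exp_log h1

lemma prod_one_sub_le {n : ℕ} {u : ℕ → ℝ} (hu1 : ∀ i < n, u i ≤ 1) :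
    ∏ i ∈ Finset.range n, (1 - u i) ≤ Real.exp (-∑ i ∈ Finset.range n, u i) := by
  rw [← Finset.sum_neg_distrib, Real.exp_sum]
  apply Finset.prod_le_prod
  · intro i hi
    have := hu1 i (Finset.mem_range.1 hi)
    linarith
  · intro i _
    exact Real.one_sub_le_exp_neg _

lemma prod_one_sub_ge {n : ℕ} {u : ℕ → ℝ} (hu0 : ∀ i < n, 0 ≤ u i) (hu1 : ∀ i < n, u i ≤ 1 / 2) :
    Real.exp (-∑ i ∈ Finset.range n, u i - 2 * ∑ i ∈ Finset.range n, u i ^ 2) ≤
      ∏ i ∈ Finset.range n, (1 - u i) := by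
  have h : -∑ i ∈ Finset.range n, u i - 2 * ∑ i ∈ Finset.range n, u i ^ 2 =
      ∑ i ∈ Finset.range n, (-u i - 2 * u i ^ 2) := by
    rw [Finset.sum_sub_distrib, Finset.sum_neg_distrib, Finset.mul_sum]
  rw [h, Real.exp_sum]
  apply Finset.prod_le_prod
  · intro i _
    exact (Real.exp_pos _).le
  · intro i hi
    exact one_sub_ge_exp (hu0 i (Finset.mem_range.1 hi)) (hu1 i (Finset.mem_range.1 hi))

end Pool.Agent.H244R2
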