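import Pool.Agent.H244R2.GraphAsym2

set_option autoImplicit false

namespace Pool.Agent.H244R2

open Filter Topology Finset Nat

/-- `C(ab,n) / (a! b!)` -/
noncomputable def bTerm (n : ℕ) (p : ℕ × ℕ) : ℝ :=
  ((p.1 * p.2).choose n : ℝ) / ((p.1 ! : ℝ) * (p.2 ! : ℝ))

/-- `∑ C(ab,n) / (a! b!)` -/
noncomputable def bSum (n : ℕ) : ℝ := ∑' p, bTerm n p

/-- correction factor -/
noncomputable def hb (n : ℕ) (p : ℕ × ℕ) : ℝ :=
  ((p.1 * p.2).choose n : ℝ) * (n ! : ℝ) / ((p.1 : ℝ) * p.2) ^ n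

lemma hb_eq_prod (n : ℕ) {p : ℕ × ℕ} (hp1 : 0 < p.1) (hp2 : 0 < p.2) :
    hb n p = ∏ i ∈ range n, (1 - ((i:ℝ) / ((p.1:ℝ) * p.2))) := by
  unfold hb
  have h1 : ((p.1 * p.2).choose n : ℝ) * (n ! : ℝ) = (((p.1 * p.2).descFactorial n : ℕ) : ℝ) := by
    rw [Nat.descFactorial_eq_factorial_mul_choose]
    push_cast; ring
  have hm1 : (p.1:ℝ) ≠ 0 := by positivity
  have hm2 : (p.2:ℝ) ≠ 0 := by positivity
  rw [h1, cast_descFactorial_eq_prod]
  have h2 : ((p.1:ℝ) * p.2) ^ n = ∏ _i ∈ range n, ((p.1:ℝ) * p.2) := by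
    rw [Finset.prod_const, card_range]
  rw [h2, ← Finset.prod_div_distrib]
  apply Finset.prod_congr rfl
  intro i _
  push_cast
  field_simp

lemma hb_nonneg (n : ℕ) (p : ℕ × ℕ) : 0 ≤ hb n p := by unfold hb; positivity

lemma hb_le_one (n : ℕ) (p : ℕ × ℕ) : hb n p ≤ 1 := by
  unfold hb
  have h1 : ((p.1 * p.2).choose n : ℝ) * (n ! : ℝ) = (((p.1 * p.2).descFactorial n : ℕ) : ℝ) := by
    rw [Nat.descFactorial_eq_factorial_mul_choose]
    push_cast; ring
  rw [h1]
  have h2 : (((p.1 * p.2).descFactorial n : ℕ) : ℝ) ≤ ((p.1:ℝ) * p.2) ^ n := by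
    have := Nat.descFactorial_le_pow (p.1 * p.2) n
    have h3 : (((p.1 * p.2).descFactorial n : ℕ) : ℝ) ≤ (((p.1 * p.2) ^ n : ℕ) : ℝ) := by
      exact_mod_cast this
    push_cast at h3
    exact h3
  rcases (by positivity : 0 ≤ ((p.1:ℝ) * p.2) ^ n).eq_or_lt with h0 | h0
  · rw [← h0]; simp
  · rw [div_le_one h0]; exact h2

/-- product weights -/
noncomputable def dob2 (n : ℕ) (p : ℕ × ℕ) : ℝ := dob n p.1 * dob n p.2

lemma dob2_nonneg (n : ℕ) (p : ℕ × ℕ) : 0 ≤ dob2 n p :=
  mul_nonneg (dob_nonneg _ _) (dob_nonneg _ _)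

lemma summable_dob2 (n : ℕ) : Summable (dob2 n) :=
  (summable_dob n).mul_of_nonneg (summable_dob n) (dob_nonneg n) (dob_nonneg n)

lemma tsum_dob2 (n : ℕ) : ∑' p, dob2 n p = (∑' m, dob n m) ^ 2 := by
  have := (summable_dob n).tsum_mul_tsum (summable_dob n) (summable_dob2 n)
  rw [sq, this]
  rfl

lemma bTerm_eq {n : ℕ} (hn : 0 < n) (p : ℕ × ℕ) :
    bTerm n p = (1 / (n ! : ℝ)) * (hb n p * dob2 n p) := by
  unfold bTerm hb dob2 dob
  rcases Nat.eq_zero_or_pos p.1 with h1 | h1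
  · have : (0:ℕ).choose n = 0 := Nat.choose_eq_zero_of_lt hn
    rw [h1]; simp [this]
  rcases Nat.eq_zero_or_pos p.2 with h2 | h2
  · have : (0:ℕ).choose n = 0 := Nat.choose_eq_zero_of_lt hn
    rw [h2]; simp [this]
  have hm1 : (p.1:ℝ) ≠ 0 := by positivity
  have hm2 : (p.2:ℝ) ≠ 0 := by positivity
  have hn' : (n ! : ℝ) ≠ 0 := by positivity
  have hf1 : (p.1 ! : ℝ) ≠ 0 := by positivity
  have hf2 : (p.2 ! : ℝ) ≠ 0 := by positivity
  rw [mul_pow]
  field_simp

lemma bTerm_nonneg (n : ℕ) (p : ℕ × ℕ) : 0 ≤ bTerm n p := by unfold bTerm; positivity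

lemma summable_bTerm (n : ℕ) : Summable (bTerm n) := by
  rcases Nat.eq_zero_or_pos n with rfl | hn
  · refine (summable_dob2 0).congr (fun p => ?_)
    simp [bTerm, dob2, dob]
    ring
  · have h1 : Summable (fun p => hb n p * dob2 n p) :=
      Summable.of_nonneg_of_le (fun p => mul_nonneg (hb_nonneg n p) (dob2_nonneg _ p))
        (fun p => mul_le_of_le_one_left (dob2_nonneg _ p) (hb_le_one n p)) (summable_dob2 n)
    refine (h1.mul_left (1 / (n ! : ℝ))).congr (fun p => ?_)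
    rw [bTerm_eq hn]

lemma bSum_eq {n : ℕ} (hn : 0 < n) :
    bSum n = (1 / (n ! : ℝ)) * ∑' p, hb n p * dob2 n p := by
  unfold bSum
  rw [← tsum_mul_left]
  exact tsum_congr (bTerm_eq hn)

set_option maxHeartbeats 2000000 in
/-- the correction factor in the window -/
lemma hb_window {n : ℕ} {p : ℕ × ℕ} {w : ℝ} (hw : 16 ≤ w) (hN : w * Real.exp w = (n : ℝ))
    (hm : |(p.1:ℝ) - Real.exp w| ≤ 3 * (Real.exp w * Real.exp (-(w / 4))))
    (hm' : |(p.2:ℝ) - Real.exp w| ≤ 3 * (Real.exp w * Real.exp (-(w / 4)))) :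
    Real.exp (-(w ^ 2 / 2)) * Real.exp (-(60 * (w ^ 3 * Real.exp (-(w / 4))))) ≤ hb n p ∧
      hb n p ≤ Real.exp (-(w ^ 2 / 2)) * Real.exp (60 * (w ^ 3 * Real.exp (-(w / 4)))) := by
  set μ := Real.exp w with hμd
  set δ := Real.exp (-(w / 4)) with hδd
  have hμ : 0 < μ := Real.exp_pos _
  have hδ : 0 < δ := Real.exp_pos _
  have hδ1 : δ ≤ 1 / 50 := by
    have h1 : δ ≤ Real.exp (-4) := Real.exp_le_exp.2 (by linarith)
    have h2 : Real.exp (-4) ≤ 1 / 50 := by
      rw [Real.exp_neg, inv_le_comm₀ (Real.exp_pos _) (by norm_num)]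
      have h3 : (2.7:ℝ) ≤ Real.exp 1 := by linarith [Real.exp_one_gt_d9]
      have h4 : Real.exp 4 = Real.exp 1 ^ 4 := by rw [← Real.exp_nat_mul]; norm_num
      rw [h4]
      calc (1 / 50 : ℝ)⁻¹ ≤ 2.7 ^ 4 := by norm_num
        _ ≤ _ := pow_le_pow_left₀ (by norm_num) h3 4
    exact h1.trans h2
  have hμδ : 1 / μ ≤ δ := by
    rw [one_div, ← Real.exp_neg]
    exact Real.exp_le_exp.2 (by linarith)
  rw [abs_le] at hm hm'
  set a := (p.1:ℝ) with ha
  set b := (p.2:ℝ) with hb'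
  have ha1 : μ / 2 ≤ a := by nlinarith
  have hb1 : μ / 2 ≤ b := by nlinarith
  have ha2 : a ≤ 2 * μ := by nlinarith
  have hb2 : b ≤ 2 * μ := by nlinarith
  have ha0 : 0 < a := by linarith [half_pos hμ]
  have hb0 : 0 < b := by linarith [half_pos hμ]
  have hp1 : 0 < p.1 := by
    have h := ha0
    rw [ha] at h
    exact_mod_cast h
  have hp2 : 0 < p.2 := by
    have h := hb0
    rw [hb'] at h
    exact_mod_cast h
  have hn : (n:ℝ) = w * μ := hN.symm
  have hn0 : (0:ℝ) ≤ n := by positivity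
  have hab : μ ^ 2 / 4 ≤ a * b := by nlinarith
  have hab0 : 0 < a * b := by positivity
  have habd : |μ ^ 2 - a * b| ≤ 9 * (μ ^ 2 * δ) := by
    have h1 : μ ^ 2 - a * b = (μ - a) * b + μ * (μ - b) := by ring
    rw [h1]
    have h2 : |(μ - a) * b| ≤ 3 * (μ * δ) * (2 * μ) := by
      rw [abs_mul, abs_of_pos hb0]
      apply mul_le_mul _ hb2 hb0.le (by positivity)
      rw [abs_le]; constructor <;> linarith
    have h3 : |μ * (μ - b)| ≤ μ * (3 * (μ * δ)) := by
      rw [abs_mul, abs_of_pos hμ]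
      apply mul_le_mul_of_nonneg_left _ hμ.le
      rw [abs_le]; constructor <;> linarith
    calc _ ≤ |(μ - a) * b| + |μ * (μ - b)| := abs_add_le _ _
      _ ≤ 3 * (μ * δ) * (2 * μ) + μ * (3 * (μ * δ)) := by linarith
      _ = _ := by ring
  set q := (n:ℝ) ^ 2 / (a * b) with hq
  have hqd : |q - w ^ 2| ≤ 36 * w ^ 2 * δ := by
    have h1 : q - w ^ 2 = w ^ 2 * (μ ^ 2 - a * b) / (a * b) := by
      rw [hq, hn]; field_simp
    rw [h1, abs_div, abs_mul, abs_of_pos hab0, abs_of_nonneg (sq_nonneg w),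
      div_le_iff₀ hab0]
    calc w ^ 2 * |μ ^ 2 - a * b| ≤ w ^ 2 * (9 * (μ ^ 2 * δ)) := by gcongr
      _ = 36 * w ^ 2 * δ * (μ ^ 2 / 4) := by ring
      _ ≤ 36 * w ^ 2 * δ * (a * b) := by gcongr
  have hnab : (n:ℝ) / (a * b) ≤ 4 * w * δ := by
    calc (n:ℝ) / (a * b) ≤ n / (μ ^ 2 / 4) := by gcongr
      _ = 4 * w * (1 / μ) := by rw [hn]; field_simp
      _ ≤ 4 * w * δ := by gcongr
  have hnab2 : (n:ℝ) / (a * b) ≤ 1 / 2 := by
    calc (n:ℝ) / (a * b) ≤ n / (μ ^ 2 / 4) := by gcongr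
      _ = 4 * w / μ := by rw [hn]; field_simp
      _ ≤ 1 / 2 := by
          rw [div_le_iff₀ hμ]
          have h3 : μ = Real.exp (w / 2) ^ 2 := by
            rw [hμd, ← Real.exp_nat_mul]; congr 1; push_cast; ring
          have h4 : w / 2 + 1 ≤ Real.exp (w / 2) := Real.add_one_le_exp _
          have h6 : (28:ℝ) ≤ Real.exp (w / 2) := by
            have h7 : Real.exp 8 ≤ Real.exp (w / 2) := Real.exp_le_exp.2 (by linarith)
            have h8 : Real.exp 8 = Real.exp 1 ^ 8 := by rw [← Real.exp_nat_mul]; norm_num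
            have h9 : (2:ℝ) ≤ Real.exp 1 := by linarith [Real.exp_one_gt_d9]
            have h10 : (2:ℝ) ^ 8 ≤ Real.exp 1 ^ 8 := pow_le_pow_left₀ (by norm_num) h9 8
            rw [h8] at h7
            linarith
          rw [h3]
          nlinarith
  have hqw : q ≤ 4 * w ^ 2 := by
    calc q ≤ (n:ℝ) ^ 2 / (μ ^ 2 / 4) := by rw [hq]; gcongr
      _ = 4 * w ^ 2 := by rw [hn]; field_simp
  set u : ℕ → ℝ := fun i => (i:ℝ) / (a * b) with hu
  have hu0 : ∀ i < n, 0 ≤ u i := by intro i _; simp only [hu]; positivity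
  have hub : ∀ i < n, u i ≤ n / (a * b) := by
    intro i hi
    have : (i:ℝ) ≤ n := by exact_mod_cast hi.le
    simp only [hu]
    gcongr
  have hu1 : ∀ i < n, u i ≤ 1 / 2 := fun i hi => (hub i hi).trans hnab2
  have hsum : ∑ i ∈ range n, u i = q / 2 - (n / (a * b)) / 2 := by
    simp only [hu]
    rw [← Finset.sum_div]
    have h1 : ∑ i ∈ range n, (i:ℝ) = n * (n - 1) / 2 := by
      have := Finset.sum_range_id_mul_two n
      have h2 : ((∑ i ∈ range n, i : ℕ) : ℝ) * 2 = n * ((n - 1 : ℕ) : ℝ) := by exact_mod_cast this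
      rcases Nat.eq_zero_or_pos n with h0 | h0
      · subst h0; simp
      · rw [Nat.cast_sub (by omega)] at h2
        push_cast at h2
        linarith
    rw [h1, hq]
    field_simp
  have hsq : ∑ i ∈ range n, u i ^ 2 ≤ 16 * w ^ 3 * δ := by
    calc ∑ i ∈ range n, u i ^ 2 ≤ ∑ i ∈ range n, (n / (a * b)) ^ 2 := by
          apply Finset.sum_le_sum
          intro i hi
          exact pow_le_pow_left₀ (hu0 i (mem_range.1 hi)) (hub i (mem_range.1 hi)) 2
      _ = q * (n / (a * b)) := by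
          rw [Finset.sum_const, card_range, nsmul_eq_mul, hq]; field_simp
      _ ≤ (4 * w ^ 2) * (4 * w * δ) := by
          apply mul_le_mul hqw hnab (by positivity) (by positivity)
      _ = 16 * w ^ 3 * δ := by ring
  have hdiff : |∑ i ∈ range n, u i - w ^ 2 / 2| ≤ 20 * w ^ 2 * δ := by
    rw [hsum]
    have h1 : q / 2 - (n / (a * b)) / 2 - w ^ 2 / 2 = (q - w ^ 2) / 2 - (n / (a * b)) / 2 := by ring
    rw [h1]
    have h4 := abs_sub ((q - w ^ 2) / 2) ((n / (a * b)) / 2)
    have h5 : |(q - w ^ 2) / 2| ≤ 18 * w ^ 2 * δ := by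
      rw [abs_div, abs_of_pos (by norm_num : (0:ℝ) < 2)]
      linarith
    have h6 : |(n / (a * b)) / 2| ≤ 2 * w * δ := by
      rw [abs_of_nonneg (by positivity)]
      linarith
    have h7 : w * δ ≤ w ^ 2 * δ := by
      have : 0 ≤ w * δ * (w - 1) := by
        apply mul_nonneg (by positivity) (by linarith)
      nlinarith
    linarith
  have hw23 : w ^ 2 * δ ≤ w ^ 3 * δ / 16 := by
    have : 0 ≤ w ^ 2 * δ * (w - 16) := by
      apply mul_nonneg (by positivity) (by linarith)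
    nlinarith
  have hw3 : 0 ≤ w ^ 3 * δ := by positivity
  rw [abs_le] at hdiff
  rw [hb_eq_prod n hp1 hp2]
  constructor
  · refine le_trans ?_ (prod_one_sub_ge hu0 hu1)
    rw [← Real.exp_add]
    apply Real.exp_le_exp.2
    linarith [hdiff.2]
  · refine (prod_one_sub_le (fun i hi => (hu1 i hi).trans (by norm_num))).trans ?_
    rw [← Real.exp_add]
    apply Real.exp_le_exp.2
    linarith [hdiff.1]

set_option maxHeartbeats 2000000 in
/-- asymptotics of the main sum in terms of the Lambert function -/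
theorem bSum_asym : Tendsto (fun n : ℕ => bSum n /
    (Real.exp 1 ^ 2 * ((Nat.bell n : ℝ) ^ 2 / (n ! : ℝ) *
      Real.exp (-(lamW (n : ℝ) ^ 2 / 2))))) atTop (𝓝 1) := by
  have hwt : Tendsto (fun n : ℕ => lamW (n : ℝ)) atTop atTop :=
    tendsto_lamW.comp tendsto_natCast_atTop_atTop
  apply ratio_tendsto hwt (C := 60)
  filter_upwards [hwt.eventually_ge_atTop 16, eventually_gt_atTop 0] with n hw hn
  set w := lamW (n : ℝ) with hwdef
  have hN : w * Real.exp w = (n : ℝ) := lamW_eq (by positivity)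
  obtain ⟨hδ1, hμδ⟩ := window_params hw
  have htail := window_tail (N := n) (by linarith) hN (Real.exp_pos _) hδ1 hμδ
  set S := ∑' m, dob n m with hS
  have hSpos : 0 < S := (summable_dob _).tsum_pos (dob_nonneg _) 1 (dob_pos _ one_pos)
  set c := Real.exp (-(w ^ 2 / 2)) with hc
  have hcpos : 0 < c := Real.exp_pos _
  set η := 4 / Real.exp (-(w / 4)) * Real.exp (-(Real.exp w * Real.exp (-(w / 4)) ^ 2)) with hη
  set D : ℕ → Prop := fun m => |(m:ℝ) - Real.exp w| ≤ 3 * (Real.exp w * Real.exp (-(w / 4))) with hD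
  have hDdec : DecidablePred D := Classical.decPred D
  have htail' : ∑' m : ℕ, (if D m then 0 else dob n m) ≤ η * S := by
    convert htail
  have hDs : Summable (fun m : ℕ => if D m then 0 else dob n m) := by
    refine Summable.of_nonneg_of_le (fun i => ?_) (fun i => ?_) (summable_dob n)
    · split_ifs
      · exact le_rfl
      · exact dob_nonneg n i
    · split_ifs
      · exact dob_nonneg n i
      · exact le_rfl
  have hDnn : ∀ m : ℕ, 0 ≤ (if D m then 0 else dob n m) := by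
    intro i
    split_ifs
    · exact le_rfl
    · exact dob_nonneg n i
  have hs1 : Summable (fun p : ℕ × ℕ => (if D p.1 then 0 else dob n p.1) * dob n p.2) :=
    hDs.mul_of_nonneg (summable_dob n) hDnn (dob_nonneg n)
  have hs2 : Summable (fun p : ℕ × ℕ => dob n p.1 * (if D p.2 then 0 else dob n p.2)) :=
    (summable_dob n).mul_of_nonneg hDs (dob_nonneg n) hDnn
  have htail2 : ∑' p : ℕ × ℕ, (if (D p.1 ∧ D p.2) then 0 else dob2 n p) ≤ (2 * η) * S ^ 2 := by
    have h1 : ∑' p : ℕ × ℕ, (if (D p.1 ∧ D p.2) then 0 else dob2 n p) ≤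
        ∑' p : ℕ × ℕ, ((if D p.1 then 0 else dob n p.1) * dob n p.2 +
          dob n p.1 * (if D p.2 then 0 else dob n p.2)) := by
      apply Summable.tsum_le_tsum
      · intro p
        have h3 := dob_nonneg n p.1
        have h4 := dob_nonneg n p.2
        have h5 := mul_nonneg h3 h4
        unfold dob2
        by_cases hd1 : D p.1 <;> by_cases hd2 : D p.2 <;> simp [hd1, hd2, h5]
      · refine Summable.of_nonneg_of_le (fun p => ?_) (fun p => ?_) (summable_dob2 n)
        · split_ifs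
          · exact le_rfl
          · exact dob2_nonneg n p
        · split_ifs
          · exact dob2_nonneg n p
          · exact le_rfl
      · exact hs1.add hs2
    rw [Summable.tsum_add hs1 hs2] at h1
    have h2 := hDs.tsum_mul_tsum (summable_dob n) hs1
    have h3 := (summable_dob n).tsum_mul_tsum hDs hs2
    rw [← h2, ← h3, ← hS] at h1
    calc _ ≤ _ := h1
      _ ≤ (η * S) * S + S * (η * S) := by gcongr
      _ = _ := by ring
  have havg := avg_bounds (dob2 n) (hb n) (fun p : ℕ × ℕ => D p.1 ∧ D p.2)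
    (dob2_nonneg _) (summable_dob2 _) (tsum_dob2 n) (hb_nonneg n) (hb_le_one n) hcpos.le htail2
    (fun p hp => hb_window hw hN hp.1 hp.2)
  have hη2 := eta_le (w := w)
  rw [← hη] at hη2
  have hη0 : 0 ≤ η := by rw [hη]; positivity
  have hE0 := tailErr_nonneg w
  have hηE : 2 * η ≤ tailErr w := by
    have : Real.exp (-w ^ 2) ≤ 1 := by
      rw [Real.exp_le_one_iff]; nlinarith
    nlinarith
  have hηc : 2 * η ≤ tailErr w * c := by
    have h1 : Real.exp (-w ^ 2) ≤ c := by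
      rw [hc]; apply Real.exp_le_exp.2; nlinarith
    nlinarith
  have hgs : bSum n / (Real.exp 1 ^ 2 * ((Nat.bell n : ℝ) ^ 2 / (n ! : ℝ) * c)) =
      (∑' p, hb n p * dob2 n p) / (c * S ^ 2) := by
    rw [bSum_eq hn, hS, tsum_dob]
    have hb : (Nat.bell n : ℝ) ≠ 0 := by exact_mod_cast (bell_pos _).ne'
    have hn' : (n ! : ℝ) ≠ 0 := by positivity
    field_simp
  rw [hgs]
  constructor
  · rw [le_div_iff₀ (by positivity)]
    calc _ ≤ Real.exp (-(60 * (w ^ 3 * Real.exp (-(w / 4))))) * (1 - 2 * η) * (c * S ^ 2) := by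
          gcongr
      _ = c * Real.exp (-(60 * (w ^ 3 * Real.exp (-(w / 4))))) * (1 - 2 * η) * S ^ 2 := by ring
      _ ≤ _ := havg.1
  · rw [div_le_iff₀ (by positivity)]
    refine havg.2.trans ?_
    calc (c * Real.exp (60 * (w ^ 3 * Real.exp (-(w / 4)))) + 2 * η) * S ^ 2
        ≤ (c * Real.exp (60 * (w ^ 3 * Real.exp (-(w / 4)))) + tailErr w * c) * S ^ 2 := by gcongr
      _ = _ := by ring

/-- conversion of the Lambert expression to elementary functions, bipartite case -/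
theorem conv1 : Tendsto (fun n : ℕ =>
    Real.exp (-(lamW (n : ℝ) ^ 2 / 2)) /
      (Real.exp (-(1 / 2) * Real.log (n / Real.log n) ^ 2) / Real.log n)) atTop (𝓝 1) := by
  have hwt : Tendsto (fun n : ℕ => lamW (n : ℝ)) atTop atTop :=
    tendsto_lamW.comp tendsto_natCast_atTop_atTop
  have hlim : Tendsto (fun w : ℝ => (w * ((Real.log w - 0) / w -
      Real.log (1 + (Real.log w - 0) / w))) + 1 / 2 * (Real.log (1 + (Real.log w - 0) / w)) ^ 2 +
      Real.log (1 + (Real.log w - 0) / w))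
      atTop (𝓝 0) := by
    have := ((tendsto_corr 0).add (((tendsto_beta 0).pow 2).const_mul (1/2))).add (tendsto_beta 0)
    simpa using this
  have h3 := (Real.continuous_exp.tendsto _).comp (hlim.comp hwt)
  rw [Real.exp_zero] at h3
  refine h3.congr' ?_
  filter_upwards [hwt.eventually_ge_atTop 16, eventually_gt_atTop 0] with n hw hn
  simp only [Function.comp, sub_zero]
  set w := lamW (n : ℝ) with hwdef
  have hN : w * Real.exp w = (n : ℝ) := lamW_eq (by positivity)
  have hw0 : 0 < w := by linarith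
  have hn0 : (0:ℝ) < n := by exact_mod_cast hn
  have hlogw : 0 ≤ Real.log w := Real.log_nonneg (by linarith)
  set a := Real.log w / w with ha
  have ha0 : 0 ≤ a := div_nonneg hlogw hw0.le
  have hwa : w * a = Real.log w := by rw [ha]; field_simp
  have hlogn : Real.log n = w * (1 + a) := by
    rw [← hN, Real.log_mul hw0.ne' (Real.exp_pos _).ne', Real.log_exp, mul_add, mul_one, hwa]
    ring
  have hlogn0 : 0 < Real.log n := by rw [hlogn]; positivity
  have hLL : Real.log (n / Real.log n) = w - Real.log (1 + a) := by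
    rw [Real.log_div (by positivity) hlogn0.ne', hlogn,
      Real.log_mul hw0.ne' (by positivity), mul_add, mul_one, hwa]
    ring
  rw [hLL]
  have hlog : Real.log n = Real.exp (Real.log w + Real.log (1 + a)) := by
    rw [← Real.log_mul hw0.ne' (by positivity), Real.exp_log (by positivity), hlogn]
  rw [hlog, ← Real.exp_sub, ← Real.exp_sub]
  congr 1
  rw [← hwa]
  ring

end Pool.Agent.H244R2
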