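import Pool.Agent.H244R2.GraphErr

set_option autoImplicit false
set_option linter.unusedSectionVars false

namespace Pool.Agent.H244R2

open Finset Nat

/-- ratio bound for binomial coefficients -/
lemma choose_sub_le {N n : ℕ} {x : ℝ} (hx : 0 ≤ x) (hN : (n : ℝ) ≤ x * ((N : ℝ) - n + 1))
    (hNn : n ≤ N) : ∀ j ≤ n, ((N.choose (n - j) : ℕ) : ℝ) ≤ (N.choose n : ℝ) * x ^ j := by
  intro j
  induction j with
  | zero => intro _; simp
  | succ j ih =>
    intro hj
    have h1 := ih (by omega)
    obtain ⟨k, hk⟩ : ∃ k, k = n - (j + 1) := ⟨_, rfl⟩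
    rw [← hk]
    have hk2 : n - j = k + 1 := by omega
    rw [hk2] at h1
    have h2 : ((N.choose (k+1) : ℕ) : ℝ) * ((k : ℝ) + 1) = (N.choose k : ℝ) * ((N : ℝ) - k) := by
      have := Nat.choose_succ_right_eq N k
      have h3 : ((N.choose (k+1) * (k+1) : ℕ) : ℝ) = ((N.choose k * (N - k) : ℕ) : ℝ) := by
        exact_mod_cast this
      push_cast at h3
      rw [Nat.cast_sub (by omega)] at h3
      exact h3
    have hkn : (k : ℝ) + 1 ≤ n := by
      have : k + 1 ≤ n := by omega
      exact_mod_cast this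
    have hnN : (n:ℝ) ≤ N := by exact_mod_cast hNn
    have h4 : (k : ℝ) + 1 ≤ x * ((N:ℝ) - k) := by
      calc (k : ℝ) + 1 ≤ n := hkn
        _ ≤ x * ((N : ℝ) - n + 1) := hN
        _ ≤ x * ((N:ℝ) - k) := by
            apply mul_le_mul_of_nonneg_left _ hx
            linarith
    have h5 : 0 < (N:ℝ) - k := by linarith
    have h6 : ((N.choose k : ℕ) : ℝ) ≤ (N.choose (k+1) : ℝ) * x := by
      have h7 : ((N.choose k : ℕ) : ℝ) * ((N : ℝ) - k) ≤ ((N.choose (k+1) : ℝ) * x) * ((N:ℝ) - k) := by
        rw [← h2]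
        calc ((N.choose (k+1) : ℕ) : ℝ) * ((k : ℝ) + 1) ≤ (N.choose (k+1) : ℝ) * (x * ((N:ℝ) - k)) := by
              gcongr
          _ = _ := by ring
      exact le_of_mul_le_mul_right h7 h5
    calc ((N.choose k : ℕ) : ℝ) ≤ (N.choose (k+1) : ℝ) * x := h6
      _ ≤ ((N.choose n : ℝ) * x ^ j) * x := by gcongr
      _ = _ := by ring

lemma choose_mul_pow_le (N k : ℕ) {z : ℝ} (hz : 0 ≤ z) :
    (N.choose k : ℝ) * z ^ k ≤ (1 + z) ^ N := by
  by_cases hk : k ≤ N
  · rw [add_comm, add_pow]
    have : (N.choose k : ℝ) * z ^ k = z ^ k * 1 ^ (N - k) * (N.choose k : ℝ) := by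
      rw [one_pow]; ring
    rw [this]
    exact Finset.single_le_sum (f := fun m => z ^ m * 1 ^ (N - m) * (N.choose m : ℝ))
      (fun i _ => by positivity) (mem_range.2 (by omega))
  · rw [Nat.choose_eq_zero_of_lt (by omega)]
    simp only [Nat.cast_zero, zero_mul]
    positivity

section

variable {V : Type*} [DecidableEq V] [Fintype V]

lemma QT_image (τ : Equiv.Perm V) :
    (QT τ.support).image (Equiv.finsetCongr τ) = QT τ.support := by
  ext e
  simp only [QT, mem_image, mem_filter, mem_powersetCard, Equiv.finsetCongr_apply]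
  constructor
  · rintro ⟨f, ⟨⟨_, hf2⟩, hf3⟩, rfl⟩
    refine ⟨⟨subset_univ _, by simpa using hf2⟩, ?_⟩
    rw [disjoint_map_support]; exact hf3
  · rintro ⟨⟨_, h2⟩, h3⟩
    refine ⟨e.map τ.symm.toEmbedding, ⟨⟨subset_univ _, by simpa using h2⟩, ?_⟩, ?_⟩
    · rw [← disjoint_map_support (τ := τ)]
      convert h3
      rw [Finset.map_map]
      ext v; simp
    · rw [Finset.map_map]
      ext v; simp

lemma card_fixed_le (τ : Equiv.Perm V) :
    ((QT τ.support).filter (fun e => Equiv.finsetCongr τ e = e)).card ≤ τ.support.card := by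
  calc ((QT τ.support).filter (fun e => Equiv.finsetCongr τ e = e)).card
      ≤ (τ.support.image (fun v => ({v, τ v} : Finset V))).card := by
        apply card_le_card
        intro e he
        rw [mem_filter, QT, mem_filter, mem_powersetCard, Equiv.finsetCongr_apply] at he
        obtain ⟨⟨⟨_, h2⟩, h3⟩, h4⟩ := he
        rw [Finset.not_disjoint_iff] at h3
        obtain ⟨v, hv1, hv2⟩ := h3
        rw [mem_image]
        refine ⟨v, hv2, ?_⟩
        have hv3 : τ v ∈ e := by
          rw [← h4]; simpa using hv1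
        have hne : v ≠ τ v := fun h => (Equiv.Perm.mem_support.1 hv2) h.symm
        apply Finset.eq_of_subset_of_card_le
        · intro w hw
          rw [mem_insert, mem_singleton] at hw
          rcases hw with rfl | rfl
          · exact hv1
          · exact hv3
        · rw [h2, card_pair hne]
    _ ≤ _ := card_image_le

lemma card_QT_le (T : Finset V) : (QT T).card ≤ T.card * Fintype.card V := by
  calc (QT T).card ≤ ((T ×ˢ (univ : Finset V)).image (fun p => ({p.1, p.2} : Finset V))).card := by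
        apply card_le_card
        intro e he
        simp only [QT, mem_filter, mem_powersetCard] at he
        obtain ⟨⟨_, h2⟩, h3⟩ := he
        rw [Finset.not_disjoint_iff] at h3
        obtain ⟨v, hv1, hv2⟩ := h3
        rw [card_eq_two] at h2
        obtain ⟨a, b, hab, rfl⟩ := h2
        rw [mem_image]
        rw [mem_insert, mem_singleton] at hv1
        rcases hv1 with rfl | rfl
        · exact ⟨(v, b), by simp [hv2], rfl⟩
        · exact ⟨(v, a), by simp [hv2], by simp [Finset.pair_comm]⟩
    _ ≤ (T ×ˢ (univ : Finset V)).card := card_image_le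
    _ = _ := by rw [card_product, Finset.card_univ]

/-- generating function of invariant edge sets -/
lemma inv_bound (τ : Equiv.Perm V) {z : ℝ} (hz : 0 ≤ z) :
    ∑ E ∈ invSets (Equiv.finsetCongr τ) (QT τ.support), z ^ E.card ≤
      Real.exp (τ.support.card * (z + Fintype.card V * z ^ 2 / 2)) := by
  refine (invSets_sum_le (Equiv.finsetCongr τ) hz _ (QT_image τ)).trans ?_
  set s := τ.support.card with hs
  set K := Fintype.card V with hK
  have h1 : (1 + z) ^ ((QT τ.support).filter (fun e => Equiv.finsetCongr τ e = e)).card ≤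
      Real.exp (s * z) := by
    calc (1 + z) ^ ((QT τ.support).filter (fun e => Equiv.finsetCongr τ e = e)).card
        ≤ (1 + z) ^ s := pow_le_pow_right₀ (by linarith) (card_fixed_le τ)
      _ ≤ (Real.exp z) ^ s := by
          apply pow_le_pow_left₀ (by linarith)
          linarith [Real.add_one_le_exp z]
      _ = Real.exp (s * z) := by rw [← Real.exp_nat_mul]
  have hsq : Real.sqrt (1 + z ^ 2) ≤ Real.exp (z ^ 2 / 2) := by
    rw [Real.sqrt_le_left (Real.exp_pos _).le, ← Real.exp_nat_mul]
    have := Real.add_one_le_exp (z ^ 2)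
    have h : ((2:ℕ):ℝ) * (z ^ 2 / 2) = z ^ 2 := by push_cast; ring
    rw [h]; linarith
  have hsq1 : 1 ≤ Real.sqrt (1 + z ^ 2) := by
    rw [Real.one_le_sqrt]
    nlinarith [sq_nonneg z]
  have h2 : (Real.sqrt (1 + z ^ 2)) ^
      ((QT τ.support).filter (fun e => Equiv.finsetCongr τ e ≠ e)).card ≤
      Real.exp (s * (K * z ^ 2 / 2)) := by
    calc (Real.sqrt (1 + z ^ 2)) ^ ((QT τ.support).filter (fun e => Equiv.finsetCongr τ e ≠ e)).card
        ≤ (Real.sqrt (1 + z ^ 2)) ^ (s * K) :=
          pow_le_pow_right₀ hsq1 ((card_filter_le _ _).trans (card_QT_le _))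
      _ ≤ (Real.exp (z ^ 2 / 2)) ^ (s * K) := pow_le_pow_left₀ (Real.sqrt_nonneg _) hsq _
      _ = Real.exp (s * (K * z ^ 2 / 2)) := by
          rw [← Real.exp_nat_mul]; congr 1; push_cast; ring
  calc _ ≤ Real.exp (s * z) * Real.exp (s * (K * z ^ 2 / 2)) := by
        apply mul_le_mul h1 h2 (by positivity) (by positivity)
    _ = _ := by rw [← Real.exp_add]; congr 1; ring

/-- the contribution of a permutation, estimated -/
lemma CC_sum_le (τ : Equiv.Perm V) (n : ℕ) {z v z₁ : ℝ} (hz : 0 < z) (hv : 1 ≤ v) (hz₁ : 0 < z₁)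
    (hz₁1 : z₁ ≤ 1) (R₀ : ℕ) (hR₀ : ∀ r, R₀ ≤ r → n ≤ r.choose 2 ∧
      (n : ℝ) ≤ (z / v ^ 2) * (((r.choose 2 : ℕ) : ℝ) - n + 1)) :
    ∑ E ∈ CC τ n, gSum (n - E.card) ≤
      (v⁻¹) ^ τ.support.card * Real.exp (τ.support.card * (z + Fintype.card V * z ^ 2 / 2)) * gSum n +
      Real.exp 1 * ((z₁⁻¹) ^ n * (1 + z₁) ^ (R₀.choose 2) *
        Real.exp (τ.support.card * (z₁ + Fintype.card V * z₁ ^ 2 / 2))) := by
  set s := τ.support.card with hs
  set K := Fintype.card V with hK
  set G := Real.exp (s * (z + K * z ^ 2 / 2)) with hG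
  set G₁ := Real.exp (s * (z₁ + K * z₁ ^ 2 / 2)) with hG₁
  have hv0 : 0 < v := by linarith
  have hx0 : 0 ≤ z / v ^ 2 := by positivity
  have hCCsub : CC τ n ⊆ invSets (Equiv.finsetCongr τ) (QT τ.support) := filter_subset _ _
  have hinv := inv_bound τ hz.le
  have hinv₁ := inv_bound τ hz₁.le
  -- pointwise in r
  have key : ∀ r : ℕ, ∑ E ∈ CC τ n, gTerm (n - E.card) r ≤
      (v⁻¹) ^ s * G * gTerm n r + ((z₁⁻¹) ^ n * (1 + z₁) ^ (R₀.choose 2) * G₁) * (1 / (r ! : ℝ)) := by
    intro r
    by_cases hr : R₀ ≤ r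
    · obtain ⟨h1, h2⟩ := hR₀ r hr
      have h3 : ∑ E ∈ CC τ n, gTerm (n - E.card) r ≤ (v⁻¹) ^ s * G * gTerm n r := by
        calc ∑ E ∈ CC τ n, gTerm (n - E.card) r
            ≤ ∑ E ∈ CC τ n, (gTerm n r * (v⁻¹) ^ s) * z ^ E.card := by
              apply Finset.sum_le_sum
              intro E hE
              simp only [CC, mem_filter] at hE
              obtain ⟨_, hE2, hE3⟩ := hE
              have h4 := choose_sub_le hx0 h2 h1 E.card hE3
              unfold gTerm
              have h5 : (z / v ^ 2) ^ E.card ≤ (v⁻¹) ^ s * z ^ E.card := by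
                rw [div_pow, ← pow_mul, div_eq_mul_inv, mul_comm, inv_pow]
                apply mul_le_mul_of_nonneg_right _ (by positivity)
                apply inv_anti₀ (by positivity)
                exact pow_le_pow_right₀ hv hE2
              calc (((r.choose 2).choose (n - E.card) : ℕ) : ℝ) / (r ! : ℝ)
                  ≤ (((r.choose 2).choose n : ℝ) * ((v⁻¹) ^ s * z ^ E.card)) / (r ! : ℝ) := by
                    gcongr
                    exact h4.trans (by gcongr)
                _ = _ := by ring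
          _ = (gTerm n r * (v⁻¹) ^ s) * ∑ E ∈ CC τ n, z ^ E.card := by rw [Finset.mul_sum]
          _ ≤ (gTerm n r * (v⁻¹) ^ s) * G := by
              apply mul_le_mul_of_nonneg_left
              · refine le_trans ?_ hinv
                apply Finset.sum_le_sum_of_subset_of_nonneg hCCsub
                intros; positivity
              · have := gTerm_nonneg n r
                positivity
          _ = _ := by ring
      have h6 : 0 ≤ ((z₁⁻¹) ^ n * (1 + z₁) ^ (R₀.choose 2) * G₁) * (1 / (r ! : ℝ)) := by positivity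
      linarith
    · push Not at hr
      have h3 : ∑ E ∈ CC τ n, gTerm (n - E.card) r ≤
          ((z₁⁻¹) ^ n * (1 + z₁) ^ (R₀.choose 2) * G₁) * (1 / (r ! : ℝ)) := by
        calc ∑ E ∈ CC τ n, gTerm (n - E.card) r
            ≤ ∑ E ∈ CC τ n, ((z₁⁻¹) ^ n * (1 + z₁) ^ (R₀.choose 2) * (1 / (r ! : ℝ))) *
                z₁ ^ E.card := by
              apply Finset.sum_le_sum
              intro E hE
              simp only [CC, mem_filter] at hE
              obtain ⟨_, hE2, hE3⟩ := hE
              have h4 := choose_mul_pow_le (r.choose 2) (n - E.card) hz₁.le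
              have h5 : (1 + z₁) ^ (r.choose 2) ≤ (1 + z₁) ^ (R₀.choose 2) :=
                pow_le_pow_right₀ (by linarith) (Nat.choose_le_choose 2 hr.le)
              have h6 : (((r.choose 2).choose (n - E.card) : ℕ) : ℝ) ≤
                  (z₁⁻¹) ^ n * (1 + z₁) ^ (R₀.choose 2) * z₁ ^ E.card := by
                have h7 : (z₁⁻¹) ^ n * z₁ ^ E.card = (z₁ ^ (n - E.card))⁻¹ := by
                  rw [inv_pow]
                  have : z₁ ^ n = z₁ ^ (n - E.card) * z₁ ^ E.card := by
                    rw [← pow_add]; congr 1; omega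
                  rw [this]
                  field_simp
                calc (((r.choose 2).choose (n - E.card) : ℕ) : ℝ)
                    ≤ (1 + z₁) ^ (R₀.choose 2) * (z₁ ^ (n - E.card))⁻¹ := by
                      rw [← div_eq_mul_inv, le_div_iff₀ (by positivity)]
                      exact h4.trans h5
                  _ = _ := by rw [← h7]; ring
              unfold gTerm
              calc (((r.choose 2).choose (n - E.card) : ℕ) : ℝ) / (r ! : ℝ)
                  ≤ ((z₁⁻¹) ^ n * (1 + z₁) ^ (R₀.choose 2) * z₁ ^ E.card) / (r ! : ℝ) := by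
                    gcongr
                _ = _ := by ring
          _ = ((z₁⁻¹) ^ n * (1 + z₁) ^ (R₀.choose 2) * (1 / (r ! : ℝ))) *
                ∑ E ∈ CC τ n, z₁ ^ E.card := by rw [Finset.mul_sum]
          _ ≤ ((z₁⁻¹) ^ n * (1 + z₁) ^ (R₀.choose 2) * (1 / (r ! : ℝ))) * G₁ := by
              apply mul_le_mul_of_nonneg_left
              · refine le_trans ?_ hinv₁
                apply Finset.sum_le_sum_of_subset_of_nonneg hCCsub
                intros; positivity
              · positivity
          _ = _ := by ring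
      have h6 : 0 ≤ (v⁻¹) ^ s * G * gTerm n r := by
        have := gTerm_nonneg n r
        positivity
      linarith
  have hE : Summable (fun k : ℕ => (1:ℝ) / (k ! : ℝ)) := by
    have := Real.summable_pow_div_factorial 1
    refine this.congr (fun k => ?_)
    rw [one_pow]
  have hE1 : ∑' k : ℕ, (1:ℝ) / (k ! : ℝ) = Real.exp 1 := by
    rw [Real.exp_eq_exp_ℝ, NormedSpace.exp_eq_tsum_div]
    simp
  have hsum1 : Summable (fun r => ∑ E ∈ CC τ n, gTerm (n - E.card) r) :=
    summable_sum (f := fun (E : Finset (Finset V)) r => gTerm (n - E.card) r)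
      (fun E _ => summable_gTerm (n - E.card))
  have hsum2 : Summable (fun r => (v⁻¹) ^ s * G * gTerm n r +
          ((z₁⁻¹) ^ n * (1 + z₁) ^ (R₀.choose 2) * G₁) * (1 / (r ! : ℝ))) :=
    ((summable_gTerm n).mul_left _).add (hE.mul_left _)
  calc ∑ E ∈ CC τ n, gSum (n - E.card) = ∑' r, ∑ E ∈ CC τ n, gTerm (n - E.card) r := by
        exact (Summable.tsum_finsetSum (s := CC τ n)
          (f := fun (E : Finset (Finset V)) r => gTerm (n - E.card) r)
          (fun E _ => summable_gTerm (n - E.card))).symm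
    _ ≤ ∑' r, ((v⁻¹) ^ s * G * gTerm n r +
          ((z₁⁻¹) ^ n * (1 + z₁) ^ (R₀.choose 2) * G₁) * (1 / (r ! : ℝ))) := by
        exact Summable.tsum_le_tsum key hsum1 hsum2
    _ = _ := by
        rw [Summable.tsum_add ((summable_gTerm n).mul_left _) (hE.mul_left _), tsum_mul_left,
          tsum_mul_left, hE1]
        unfold gSum
        ring

end

end Pool.Agent.H244R2
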