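import Pool.Agent.H244R2.BipAsym
import Pool.Agent.H244R2.GraphErr2

set_option autoImplicit false
set_option linter.unusedSectionVars false

namespace Pool.Agent.H244R2

open Finset Nat

section basics

variable {V W : Type*} [DecidableEq V] [DecidableEq W]

/-- bipartite graphs with `n` edges on the vertex sets `S`, `T` -/
def BG (S : Finset V) (T : Finset W) (n : ℕ) : Finset (Finset (V × W)) := (S ×ˢ T).powersetCard n

/-- covered rows -/
def P1 (E : Finset (V × W)) : Finset V := E.image Prod.fst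
/-- covered columns -/
def P2 (E : Finset (V × W)) : Finset W := E.image Prod.snd

lemma card_BG (S : Finset V) (T : Finset W) (n : ℕ) :
    (BG S T n).card = (S.card * T.card).choose n := by
  simp [BG, card_powersetCard, card_product]

lemma mem_BG {S : Finset V} {T : Finset W} {n : ℕ} {E : Finset (V × W)} :
    E ∈ BG S T n ↔ (∀ e ∈ E, e.1 ∈ S ∧ e.2 ∈ T) ∧ E.card = n := by
  simp only [BG, mem_powersetCard]
  constructor
  · rintro ⟨h1, h2⟩
    exact ⟨fun e he => mem_product.1 (h1 he), h2⟩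
  · rintro ⟨h1, h2⟩
    exact ⟨fun e he => mem_product.2 (h1 e he), h2⟩

lemma mem_P1 {E : Finset (V × W)} {v : V} : v ∈ P1 E ↔ ∃ e ∈ E, e.1 = v := by simp [P1]
lemma mem_P2 {E : Finset (V × W)} {v : W} : v ∈ P2 E ↔ ∃ e ∈ E, e.2 = v := by simp [P2]

lemma P1_subset {S : Finset V} {T : Finset W} {n : ℕ} {E : Finset (V × W)} (h : E ∈ BG S T n) :
    P1 E ⊆ S := by
  intro v hv
  obtain ⟨e, he, rfl⟩ := mem_P1.1 hv
  exact ((mem_BG.1 h).1 e he).1

lemma P2_subset {S : Finset V} {T : Finset W} {n : ℕ} {E : Finset (V × W)} (h : E ∈ BG S T n) :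
    P2 E ⊆ T := by
  intro v hv
  obtain ⟨e, he, rfl⟩ := mem_P2.1 hv
  exact ((mem_BG.1 h).1 e he).2

lemma card_P1_le (E : Finset (V × W)) : (P1 E).card ≤ E.card := card_image_le
lemma card_P2_le (E : Finset (V × W)) : (P2 E).card ≤ E.card := card_image_le

/-- covering bipartite graphs -/
def cov (S : Finset V) (T : Finset W) (n : ℕ) : Finset (Finset (V × W)) :=
  (BG S T n).filter (fun E => P1 E = S ∧ P2 E = T)

lemma filter_P_eq {S S' : Finset V} {T T' : Finset W} {n : ℕ} (hS : S' ⊆ S) (hT : T' ⊆ T) :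
    (BG S T n).filter (fun E => (P1 E, P2 E) = (S', T')) = cov S' T' n := by
  ext E
  simp only [cov, mem_filter, mem_BG, Prod.mk.injEq]
  constructor
  · rintro ⟨⟨h1, h2⟩, h3, h4⟩
    refine ⟨⟨fun e he => ⟨?_, ?_⟩, h2⟩, h3, h4⟩
    · rw [← h3]; exact mem_P1.2 ⟨e, he, rfl⟩
    · rw [← h4]; exact mem_P2.2 ⟨e, he, rfl⟩
  · rintro ⟨⟨h1, h2⟩, h3, h4⟩
    exact ⟨⟨fun e he => ⟨hS (h1 e he).1, hT (h1 e he).2⟩, h2⟩, h3, h4⟩

lemma sum_BG_eq (S : Finset V) (T : Finset W) (n : ℕ) (g : ℕ → ℕ → ℝ) :
    ∑ E ∈ BG S T n, g (P1 E).card (P2 E).card =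
      ∑ S' ∈ S.powerset, ∑ T' ∈ T.powerset, ((cov S' T' n).card : ℝ) * g S'.card T'.card := by
  have hmaps : ∀ E ∈ BG S T n, (P1 E, P2 E) ∈ S.powerset ×ˢ T.powerset := fun E hE =>
    mem_product.2 ⟨mem_powerset.2 (P1_subset hE), mem_powerset.2 (P2_subset hE)⟩
  rw [← Finset.sum_fiberwise_of_maps_to hmaps, Finset.sum_product]
  apply Finset.sum_congr rfl
  intro S' hS'
  apply Finset.sum_congr rfl
  intro T' hT'
  rw [filter_P_eq (mem_powerset.1 hS') (mem_powerset.1 hT')]
  rw [Finset.sum_congr rfl (g := fun _ => g S'.card T'.card)]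
  · rw [sum_const, nsmul_eq_mul]
  · intro E hE
    have := (mem_filter.1 hE).2
    rw [this.1, this.2]

/-- the numbers `C(kl,n)` -/
noncomputable def bc (n k l : ℕ) : ℝ := ((k * l).choose n : ℝ)

/-- the number of covering bipartite graphs -/
noncomputable def L2 (n k l : ℕ) : ℝ := Lrec (fun l' => Lrec (fun k' => bc n k' l') k) l

lemma sum_cov (S : Finset V) (T : Finset W) (n : ℕ) :
    ∑ S' ∈ S.powerset, ∑ T' ∈ T.powerset, ((cov S' T' n).card : ℝ) = bc n S.card T.card := by
  have := sum_BG_eq S T n (fun _ _ => 1)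
  simp only [mul_one, sum_const, nsmul_eq_mul] at this
  rw [← this, card_BG]
  rfl

lemma card_cov (S : Finset V) (T : Finset W) (n : ℕ) :
    ((cov S T n).card : ℝ) = L2 n S.card T.card := by
  have h1 : ∀ (T : Finset W) (S : Finset V), ∑ T' ∈ T.powerset, ((cov S T' n).card : ℝ) =
      Lrec (fun k' => bc n k' T.card) S.card := by
    intro T
    apply eq_Lrec (fun k' => bc n k' T.card) (fun S => ∑ T' ∈ T.powerset, ((cov S T' n).card : ℝ))
    intro S
    exact sum_cov S T n
  exact eq_Lrec (fun l' => Lrec (fun k' => bc n k' l') S.card) (fun T => ((cov S T n).card : ℝ))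
    (fun T => h1 T S) T

end basics

lemma L2_nonneg (n k l : ℕ) : 0 ≤ L2 n k l := by
  have := card_cov (univ : Finset (Fin k)) (univ : Finset (Fin l)) n
  rw [Finset.card_univ, Fintype.card_fin, Finset.card_univ, Fintype.card_fin] at this
  rw [← this]
  positivity

lemma L2_zero_left {n k : ℕ} (l : ℕ) (h : n < k) : L2 n k l = 0 := by
  have := card_cov (univ : Finset (Fin k)) (univ : Finset (Fin l)) n
  rw [Finset.card_univ, Fintype.card_fin, Finset.card_univ, Fintype.card_fin] at this
  rw [← this, Nat.cast_eq_zero, Finset.card_eq_zero, cov, filter_eq_empty_iff]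
  intro E hE hU
  have h1 := card_P1_le E
  rw [hU.1, Finset.card_univ, Fintype.card_fin, (mem_BG.1 hE).2] at h1
  omega

lemma L2_zero_right {n l : ℕ} (k : ℕ) (h : n < l) : L2 n k l = 0 := by
  have := card_cov (univ : Finset (Fin k)) (univ : Finset (Fin l)) n
  rw [Finset.card_univ, Fintype.card_fin, Finset.card_univ, Fintype.card_fin] at this
  rw [← this, Nat.cast_eq_zero, Finset.card_eq_zero, cov, filter_eq_empty_iff]
  intro E hE hU
  have h1 := card_P2_le E
  rw [hU.2, Finset.card_univ, Fintype.card_fin, (mem_BG.1 hE).2] at h1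
  omega

/-- one-sided covering count -/
noncomputable def M2 (n k l : ℕ) : ℝ := Lrec (fun k' => bc n k' l) k

lemma M2_eq (n k l : ℕ) : M2 n k l = ∑ l' ∈ range (l + 1), (l.choose l' : ℝ) * L2 n k l' :=
  Lrec_spec (fun l' => Lrec (fun k' => bc n k' l') k) l

lemma M2_nonneg (n k l : ℕ) : 0 ≤ M2 n k l := by
  rw [M2_eq]
  exact Finset.sum_nonneg (fun i _ => mul_nonneg (by positivity) (L2_nonneg n k i))

lemma M2_zero {n k : ℕ} (l : ℕ) (h : n < k) : M2 n k l = 0 := by
  rw [M2_eq]
  apply Finset.sum_eq_zero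
  intro i _
  rw [L2_zero_left i h, mul_zero]

lemma bSum_eq_L (n : ℕ) : bSum n = Real.exp 1 ^ 2 *
    ∑ k ∈ range (n + 1), ∑ l ∈ range (n + 1), L2 n k l / ((k ! : ℝ) * (l ! : ℝ)) := by
  -- sum over the first variable
  have h1 : ∀ b : ℕ, ∑' a, bc n a b / (a ! : ℝ) =
      Real.exp 1 * ∑ k ∈ range (n + 1), M2 n k b / (k ! : ℝ) := by
    intro b
    have hz : ∀ k ∉ range (n + 1), M2 n k b / (k ! : ℝ) = 0 := by
      intro k hk
      rw [mem_range] at hk
      rw [M2_zero b (by omega), zero_div]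
    have hs : Summable (fun k => ‖Lrec (fun k' => bc n k' b) k / (k ! : ℝ)‖) := by
      apply summable_of_ne_finset_zero (s := range (n + 1))
      intro k hk
      have := hz k hk
      unfold M2 at this
      rw [this, norm_zero]
    have h2 := (tsum_c_div_factorial (fun k' => bc n k' b) hs).1
    rw [h2]
    congr 1
    exact tsum_eq_sum hz
  have h2 : ∀ k : ℕ, ∑' b, M2 n k b / (b ! : ℝ) =
      Real.exp 1 * ∑ l ∈ range (n + 1), L2 n k l / (l ! : ℝ) ∧
      Summable (fun b => M2 n k b / (b ! : ℝ)) := by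
    intro k
    have hz : ∀ l ∉ range (n + 1), L2 n k l / (l ! : ℝ) = 0 := by
      intro l hl
      rw [mem_range] at hl
      rw [L2_zero_right k (by omega), zero_div]
    have hs : Summable (fun l => ‖Lrec (fun l' => M2 n k l') l / (l ! : ℝ)‖) := by
      apply summable_of_ne_finset_zero (s := range (n + 1))
      intro l hl
      have := hz l hl
      unfold L2 at this
      unfold M2
      rw [this, norm_zero]
    have h3 := tsum_c_div_factorial (fun l' => M2 n k l') hs
    refine ⟨?_, h3.2⟩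
    rw [h3.1]
    congr 1
    exact tsum_eq_sum hz
  have h3 : bSum n = ∑' b, ∑' a, bTerm n (a, b) := by
    unfold bSum
    have hsw : Summable (fun p : ℕ × ℕ => bTerm n p.swap) := by
      refine (summable_bTerm n).comp_injective Prod.swap_injective
    have h4 := hsw.tsum_prod
    exact ((Equiv.prodComm ℕ ℕ).tsum_eq (bTerm n)).symm.trans h4
  rw [h3]
  have h4 : ∀ b : ℕ, ∑' a, bTerm n (a, b) =
      ∑ k ∈ range (n + 1), (Real.exp 1 / (k ! : ℝ)) * (M2 n k b / (b ! : ℝ)) := by
    intro b
    have h5 : ∀ a : ℕ, bTerm n (a, b) = (1 / (b ! : ℝ)) * (bc n a b / (a ! : ℝ)) := by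
      intro a
      unfold bTerm bc
      simp only
      have hf1 : (a ! : ℝ) ≠ 0 := by positivity
      have hf2 : (b ! : ℝ) ≠ 0 := by positivity
      field_simp
    simp_rw [h5]
    rw [tsum_mul_left, h1, Finset.mul_sum, Finset.mul_sum]
    apply Finset.sum_congr rfl
    intro k _
    ring
  simp_rw [h4]
  rw [Summable.tsum_finsetSum (fun k _ => (h2 k).2.mul_left _), Finset.mul_sum]
  apply Finset.sum_congr rfl
  intro k _
  rw [tsum_mul_left, (h2 k).1, Finset.mul_sum, Finset.mul_sum, Finset.mul_sum]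
  apply Finset.sum_congr rfl
  intro l _
  have hf1 : (k ! : ℝ) ≠ 0 := by positivity
  have hf2 : (l ! : ℝ) ≠ 0 := by positivity
  field_simp

section sums

variable {V W : Type*} [DecidableEq V] [DecidableEq W]

lemma sum_powerset2 (S : Finset V) (T : Finset W) (f : ℕ → ℕ → ℝ) :
    ∑ S' ∈ S.powerset, ∑ T' ∈ T.powerset, f S'.card T'.card =
      ∑ k ∈ range (S.card + 1), ∑ l ∈ range (T.card + 1),
        (S.card.choose k : ℝ) * (T.card.choose l : ℝ) * f k l := by
  have h1 : ∀ S' ∈ S.powerset, ∑ T' ∈ T.powerset, f S'.card T'.card =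
      (fun k => ∑ l ∈ range (T.card + 1), (T.card.choose l : ℝ) * f k l) S'.card := by
    intro S' _
    rw [Finset.sum_powerset_apply_card (fun l => f S'.card l)]
    simp only [nsmul_eq_mul]
  rw [Finset.sum_congr rfl h1, Finset.sum_powerset_apply_card
    (fun k => ∑ l ∈ range (T.card + 1), (T.card.choose l : ℝ) * f k l)]
  apply Finset.sum_congr rfl
  intro k _
  rw [nsmul_eq_mul, Finset.mul_sum]
  apply Finset.sum_congr rfl
  intro l _
  ring

/-- the main sum, exactly -/
lemma main_sum2 (S : Finset V) (T : Finset W) (n : ℕ) (hS : n ≤ S.card) (hT : n ≤ T.card) :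
    ∑ E ∈ BG S T n, ((S.card - (P1 E).card)! : ℝ) * ((T.card - (P2 E).card)! : ℝ) =
      (S.card ! : ℝ) * (T.card ! : ℝ) * (bSum n / Real.exp 1 ^ 2) := by
  rw [sum_BG_eq S T n (fun k l => ((S.card - k)! : ℝ) * ((T.card - l)! : ℝ))]
  have h1 : ∑ S' ∈ S.powerset, ∑ T' ∈ T.powerset, ((cov S' T' n).card : ℝ) *
      (((S.card - S'.card)! : ℝ) * ((T.card - T'.card)! : ℝ)) =
      ∑ S' ∈ S.powerset, ∑ T' ∈ T.powerset,
        (fun k l => L2 n k l * (((S.card - k)! : ℝ) * ((T.card - l)! : ℝ))) S'.card T'.card := by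
    apply Finset.sum_congr rfl
    intro S' _
    apply Finset.sum_congr rfl
    intro T' _
    rw [card_cov]
  rw [h1, sum_powerset2 S T (fun k l => L2 n k l * (((S.card - k)! : ℝ) * ((T.card - l)! : ℝ))),
    bSum_eq_L, mul_div_cancel_left₀ _ (pow_pos (Real.exp_pos 1) 2).ne']
  have h2 : ∑ k ∈ range (n + 1), ∑ l ∈ range (n + 1), L2 n k l / ((k ! : ℝ) * (l ! : ℝ)) =
      ∑ k ∈ range (S.card + 1), ∑ l ∈ range (T.card + 1), L2 n k l / ((k ! : ℝ) * (l ! : ℝ)) := by
    have h3 : ∀ k, ∑ l ∈ range (n + 1), L2 n k l / ((k ! : ℝ) * (l ! : ℝ)) =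
        ∑ l ∈ range (T.card + 1), L2 n k l / ((k ! : ℝ) * (l ! : ℝ)) := by
      intro k
      apply Finset.sum_subset
      · intro l hl
        rw [mem_range] at *
        omega
      · intro l _ hl
        rw [mem_range] at hl
        rw [L2_zero_right k (by omega), zero_div]
    simp_rw [h3]
    apply Finset.sum_subset
    · intro k hk
      rw [mem_range] at *
      omega
    · intro k _ hk
      rw [mem_range] at hk
      apply Finset.sum_eq_zero
      intro l _
      rw [L2_zero_left l (by omega), zero_div]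
  rw [h2, Finset.mul_sum]
  apply Finset.sum_congr rfl
  intro k hk
  rw [mem_range] at hk
  rw [Finset.mul_sum]
  apply Finset.sum_congr rfl
  intro l hl
  rw [mem_range] at hl
  have h3 := choose_mul_factorial_div (show k ≤ S.card by omega)
  have h4 := choose_mul_factorial_div (show l ≤ T.card by omega)
  calc (S.card.choose k : ℝ) * (T.card.choose l : ℝ) *
        (L2 n k l * (((S.card - k)! : ℝ) * ((T.card - l)! : ℝ)))
      = ((S.card.choose k : ℝ) * ((S.card - k)! : ℝ)) *
        ((T.card.choose l : ℝ) * ((T.card - l)! : ℝ)) * L2 n k l := by ring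
    _ = _ := by
        rw [h3, h4]
        have hf1 : (k ! : ℝ) ≠ 0 := by positivity
        have hf2 : (l ! : ℝ) ≠ 0 := by positivity
        field_simp

/-- the same sum, as an inequality without the size condition -/
lemma sub_sum2 (S : Finset V) (T : Finset W) (n : ℕ) :
    ∑ E ∈ BG S T n, ((S.card - (P1 E).card)! : ℝ) * ((T.card - (P2 E).card)! : ℝ) ≤
      (S.card ! : ℝ) * (T.card ! : ℝ) * bSum n := by
  rw [sum_BG_eq S T n (fun k l => ((S.card - k)! : ℝ) * ((T.card - l)! : ℝ))]
  have h1 : ∑ S' ∈ S.powerset, ∑ T' ∈ T.powerset, ((cov S' T' n).card : ℝ) *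
      (((S.card - S'.card)! : ℝ) * ((T.card - T'.card)! : ℝ)) ≤
      ∑ S' ∈ S.powerset, ∑ T' ∈ T.powerset,
        (fun k l => bc n k l * (((S.card - k)! : ℝ) * ((T.card - l)! : ℝ))) S'.card T'.card := by
    apply Finset.sum_le_sum
    intro S' _
    apply Finset.sum_le_sum
    intro T' _
    have : ((cov S' T' n).card : ℝ) ≤ bc n S'.card T'.card := by
      unfold bc cov
      rw [← card_BG]
      exact_mod_cast card_filter_le _ _
    simp only
    gcongr
  refine h1.trans ?_
  rw [sum_powerset2 S T (fun k l => bc n k l * (((S.card - k)! : ℝ) * ((T.card - l)! : ℝ)))]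
  have h2 : ∑ k ∈ range (S.card + 1), ∑ l ∈ range (T.card + 1),
        (S.card.choose k : ℝ) * (T.card.choose l : ℝ) *
          (bc n k l * (((S.card - k)! : ℝ) * ((T.card - l)! : ℝ))) =
      (S.card ! : ℝ) * (T.card ! : ℝ) *
        ∑ p ∈ range (S.card + 1) ×ˢ range (T.card + 1), bTerm n p := by
    rw [Finset.sum_product, Finset.mul_sum]
    apply Finset.sum_congr rfl
    intro k hk
    rw [mem_range] at hk
    rw [Finset.mul_sum]
    apply Finset.sum_congr rfl
    intro l hl
    rw [mem_range] at hl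
    have h3 := choose_mul_factorial_div (show k ≤ S.card by omega)
    have h4 := choose_mul_factorial_div (show l ≤ T.card by omega)
    calc (S.card.choose k : ℝ) * (T.card.choose l : ℝ) *
          (bc n k l * (((S.card - k)! : ℝ) * ((T.card - l)! : ℝ)))
        = ((S.card.choose k : ℝ) * ((S.card - k)! : ℝ)) *
          ((T.card.choose l : ℝ) * ((T.card - l)! : ℝ)) * bc n k l := by ring
      _ = _ := by
          rw [h3, h4]
          unfold bc bTerm
          simp only
          have hf1 : (k ! : ℝ) ≠ 0 := by positivity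
          have hf2 : (l ! : ℝ) ≠ 0 := by positivity
          field_simp
  rw [h2]
  apply mul_le_mul_of_nonneg_left _ (by positivity)
  exact (summable_bTerm n).sum_le_tsum _ (fun i _ => bTerm_nonneg n i)

end sums

end Pool.Agent.H244R2
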