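import Pool.Agent.H244R2.BipCount

set_option autoImplicit false
set_option linter.unusedSectionVars false

namespace Pool.Agent.H244R2

open Finset Nat

/-- generic restriction lemma: a permutation preserving `S` splits -/
noncomputable def resP {V : Type*} [DecidableEq V] (S : Finset V) (σ : Equiv.Perm V) :
    Equiv.Perm V :=
  open Classical in
  if h : ∀ v, v ∈ S ↔ σ v ∈ S then
      Equiv.Perm.ofSubtype (σ.subtypePerm (p := fun v => v ∈ S) (fun v => (h v).symm)) else 1

lemma resP_mem {V : Type*} [DecidableEq V] {S : Finset V} {σ : Equiv.Perm V}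
    (h : ∀ v, v ∈ S ↔ σ v ∈ S) {v : V} (hv : v ∈ S) : resP S σ v = σ v := by
  unfold resP
  rw [dif_pos h, Equiv.Perm.ofSubtype_apply_of_mem _ hv]
  simp

lemma resP_notMem {V : Type*} [DecidableEq V] (S : Finset V) (σ : Equiv.Perm V)
    {v : V} (hv : v ∉ S) : resP S σ v = v := by
  unfold resP
  split_ifs with h
  · exact Equiv.Perm.ofSubtype_apply_of_not_mem _ hv
  · simp

section

variable {V W : Type*} [DecidableEq V] [DecidableEq W] [Fintype V] [Fintype W]

/-- action on sets of cells -/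
def act2 (g : Equiv.Perm V) (h : Equiv.Perm W) (E : Finset (V × W)) : Finset (V × W) :=
  E.image (Equiv.prodCongr g h)

lemma mem_act2 {g : Equiv.Perm V} {h : Equiv.Perm W} {E : Finset (V × W)} {e : V × W} :
    e ∈ act2 g h E ↔ ∃ f ∈ E, (g f.1, h f.2) = e := by
  simp [act2]

lemma act2_eq_of_fix {g : Equiv.Perm V} {h : Equiv.Perm W} {E : Finset (V × W)}
    (h1 : ∀ v ∈ P1 E, g v = v) (h2 : ∀ v ∈ P2 E, h v = v) : act2 g h E = E := by
  ext e
  rw [mem_act2]
  constructor
  · rintro ⟨f, hf, rfl⟩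
    rw [h1 _ (mem_P1.2 ⟨f, hf, rfl⟩), h2 _ (mem_P2.2 ⟨f, hf, rfl⟩)]
    exact hf
  · intro he
    exact ⟨e, he, by rw [h1 _ (mem_P1.2 ⟨e, he, rfl⟩), h2 _ (mem_P2.2 ⟨e, he, rfl⟩)]⟩

lemma stab_lower2 (E : Finset (V × W)) :
    (Fintype.card V - (P1 E).card)! * (Fintype.card W - (P2 E).card)! ≤
      ((univ : Finset (Equiv.Perm V × Equiv.Perm W)).filter (fun p => act2 p.1 p.2 E = E)).card := by
  rw [← card_fix (P1 E), ← card_fix (P2 E), ← card_product]
  apply card_le_card
  intro p hp
  rw [mem_product, mem_filter, mem_filter] at hp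
  rw [mem_filter]
  exact ⟨mem_univ _, act2_eq_of_fix hp.1.2 hp.2.2⟩

lemma mem_P1_of_act2 {E : Finset (V × W)} {g : Equiv.Perm V} {h : Equiv.Perm W}
    (hE : act2 g h E = E) (v : V) : v ∈ P1 E ↔ g v ∈ P1 E := by
  constructor
  · intro hv
    obtain ⟨e, he, rfl⟩ := mem_P1.1 hv
    refine mem_P1.2 ⟨(g e.1, h e.2), ?_, rfl⟩
    rw [← hE]; exact mem_act2.2 ⟨e, he, rfl⟩
  · intro hv
    obtain ⟨e, he, hev⟩ := mem_P1.1 hv
    rw [← hE] at he
    obtain ⟨f, hf, rfl⟩ := mem_act2.1 he
    refine mem_P1.2 ⟨f, hf, g.injective hev⟩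

lemma mem_P2_of_act2 {E : Finset (V × W)} {g : Equiv.Perm V} {h : Equiv.Perm W}
    (hE : act2 g h E = E) (v : W) : v ∈ P2 E ↔ h v ∈ P2 E := by
  constructor
  · intro hv
    obtain ⟨e, he, rfl⟩ := mem_P2.1 hv
    refine mem_P2.2 ⟨(g e.1, h e.2), ?_, rfl⟩
    rw [← hE]; exact mem_act2.2 ⟨e, he, rfl⟩
  · intro hv
    obtain ⟨e, he, hev⟩ := mem_P2.1 hv
    rw [← hE] at he
    obtain ⟨f, hf, rfl⟩ := mem_act2.1 he
    refine mem_P2.2 ⟨f, hf, h.injective hev⟩

lemma stab_upper2 (E : Finset (V × W)) :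
    ((univ : Finset (Equiv.Perm V × Equiv.Perm W)).filter (fun p => act2 p.1 p.2 E = E)).card ≤
      ((univ : Finset (Equiv.Perm V × Equiv.Perm W)).filter
        (fun p => act2 p.1 p.2 E = E ∧ p.1.support ⊆ P1 E ∧ p.2.support ⊆ P2 E)).card *
        ((Fintype.card V - (P1 E).card)! * (Fintype.card W - (P2 E).card)!) := by
  rw [← card_fix (P1 E), ← card_fix (P2 E), ← card_product, ← card_product]
  apply card_le_card_of_injOn (fun p => ((resP (P1 E) p.1, resP (P2 E) p.2),
    ((resP (P1 E) p.1)⁻¹ * p.1, (resP (P2 E) p.2)⁻¹ * p.2)))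
  · intro p hp
    simp only [coe_filter, mem_univ, true_and, Set.mem_ofPred_eq] at hp
    simp only [coe_product, Set.mem_prod, coe_filter, mem_univ, true_and, Set.mem_ofPred_eq]
    have h1 := mem_P1_of_act2 hp
    have h2 := mem_P2_of_act2 hp
    refine ⟨⟨?_, ?_, ?_⟩, ?_, ?_⟩
    · conv_rhs => rw [← hp]
      unfold act2
      apply Finset.image_congr
      intro e he
      simp only [Equiv.prodCongr_apply, Prod.map]
      rw [resP_mem h1 (mem_P1.2 ⟨e, he, rfl⟩), resP_mem h2 (mem_P2.2 ⟨e, he, rfl⟩)]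
    · intro v hv
      by_contra hcon
      exact (Equiv.Perm.mem_support.1 hv) (resP_notMem _ _ hcon)
    · intro v hv
      by_contra hcon
      exact (Equiv.Perm.mem_support.1 hv) (resP_notMem _ _ hcon)
    · intro v hv
      rw [Equiv.Perm.mul_apply, Equiv.Perm.inv_eq_iff_eq]
      exact (resP_mem h1 hv).symm
    · intro v hv
      rw [Equiv.Perm.mul_apply, Equiv.Perm.inv_eq_iff_eq]
      exact (resP_mem h2 hv).symm
  · rintro ⟨σ, σ'⟩ _ ⟨ρ, ρ'⟩ _ h
    simp only [Prod.mk.injEq] at h
    obtain ⟨⟨h1, h2⟩, h3, h4⟩ := h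
    rw [h1] at h3
    rw [h2] at h4
    rw [Prod.mk.injEq]
    exact ⟨mul_left_cancel h3, mul_left_cancel h4⟩

/-- cells meeting the supports -/
def QQ (A : Finset V) (B : Finset W) : Finset (V × W) :=
  (univ : Finset (V × W)).filter (fun e => e.1 ∈ A ∨ e.2 ∈ B)

/-- invariant covering families -/
def CC2 (g : Equiv.Perm V) (h : Equiv.Perm W) (n : ℕ) : Finset (Finset (V × W)) :=
  (invSets (Equiv.prodCongr g h) (QQ g.support h.support)).filter
    (fun E => g.support.card + h.support.card ≤ 2 * E.card ∧ E.card ≤ n)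

/-- contribution of a single pair of permutations -/
lemma perm_contrib2 (g : Equiv.Perm V) (h : Equiv.Perm W) (n : ℕ) :
    ∑ E ∈ (BG (univ : Finset V) (univ : Finset W) n).filter
        (fun E => act2 g h E = E ∧ g.support ⊆ P1 E ∧ h.support ⊆ P2 E),
      ((Fintype.card V - (P1 E).card)! : ℝ) * ((Fintype.card W - (P2 E).card)! : ℝ) ≤
      ((Fintype.card V - g.support.card)! : ℝ) * ((Fintype.card W - h.support.card)! : ℝ) *
        ∑ E ∈ CC2 g h n, bSum (n - E.card) := by
  set A := g.support with hA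
  set B := h.support with hB
  have hAc : Aᶜ.card = Fintype.card V - A.card := Finset.card_compl A
  have hBc : Bᶜ.card = Fintype.card W - B.card := Finset.card_compl B
  have h1 : ∑ E ∈ (BG (univ : Finset V) (univ : Finset W) n).filter
        (fun E => act2 g h E = E ∧ A ⊆ P1 E ∧ B ⊆ P2 E),
      ((Fintype.card V - (P1 E).card)! : ℝ) * ((Fintype.card W - (P2 E).card)! : ℝ) ≤
      ∑ x ∈ (CC2 g h n).sigma (fun E₁ => BG Aᶜ Bᶜ (n - E₁.card)),
        ((Aᶜ.card - (P1 x.2).card)! : ℝ) * ((Bᶜ.card - (P2 x.2).card)! : ℝ) := by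
    apply sum_le_sum_of_injOn
      (i := fun E => (⟨E.filter (fun e => e.1 ∈ A ∨ e.2 ∈ B),
        E.filter (fun e => ¬ (e.1 ∈ A ∨ e.2 ∈ B))⟩ :
        Σ _ : Finset (V × W), Finset (V × W)))
    · intro E hE
      rw [mem_filter] at hE
      obtain ⟨hEG, hact, hA1, hB1⟩ := hE
      rw [mem_BG] at hEG
      rw [mem_sigma]
      have hcard : (E.filter (fun e => e.1 ∈ A ∨ e.2 ∈ B)).card +
          (E.filter (fun e => ¬ (e.1 ∈ A ∨ e.2 ∈ B))).card = n := by
        rw [Finset.card_filter_add_card_filter_not, hEG.2]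
      refine ⟨?_, ?_⟩
      · simp only [CC2, mem_filter, invSets, mem_powerset]
        refine ⟨⟨?_, ?_⟩, ?_, ?_⟩
        · intro e he
          rw [mem_filter] at he
          rw [QQ, mem_filter]
          exact ⟨mem_univ _, he.2⟩
        · ext e
          simp only [mem_image, mem_filter]
          constructor
          · rintro ⟨f, ⟨hf1, hf2⟩, rfl⟩
            simp only [Equiv.prodCongr_apply, Prod.map]
            refine ⟨?_, ?_⟩
            · rw [← hact]; exact mem_act2.2 ⟨f, hf1, rfl⟩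
            · rw [hA, hB, Equiv.Perm.apply_mem_support, Equiv.Perm.apply_mem_support]; exact hf2
          · rintro ⟨he1, he2⟩
            rw [← hact] at he1
            obtain ⟨f, hf, rfl⟩ := mem_act2.1 he1
            refine ⟨f, ⟨hf, ?_⟩, rfl⟩
            rw [hA, hB, Equiv.Perm.apply_mem_support, Equiv.Perm.apply_mem_support] at he2
            exact he2
        · rw [← hA, ← hB]
          have hA2 : A.card ≤ (E.filter (fun e => e.1 ∈ A ∨ e.2 ∈ B)).card := by
            refine le_trans ?_ (card_P1_le _)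
            apply card_le_card
            intro v hv
            obtain ⟨e, he, rfl⟩ := mem_P1.1 (hA1 hv)
            exact mem_P1.2 ⟨e, mem_filter.2 ⟨he, Or.inl hv⟩, rfl⟩
          have hB2 : B.card ≤ (E.filter (fun e => e.1 ∈ A ∨ e.2 ∈ B)).card := by
            refine le_trans ?_ (card_P2_le _)
            apply card_le_card
            intro v hv
            obtain ⟨e, he, rfl⟩ := mem_P2.1 (hB1 hv)
            exact mem_P2.2 ⟨e, mem_filter.2 ⟨he, Or.inr hv⟩, rfl⟩
          omega
        · omega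
      · rw [mem_BG]
        refine ⟨?_, by simp only; omega⟩
        intro e he
        simp only at he
        rw [mem_filter] at he
        push Not at he
        rw [mem_compl, mem_compl]
        exact he.2
    · intro E _ F _ h
      simp only [Sigma.mk.injEq, heq_eq_eq] at h
      rw [← Finset.filter_union_filter_not_eq (fun e : V × W => e.1 ∈ A ∨ e.2 ∈ B) E, h.1, h.2,
        Finset.filter_union_filter_not_eq]
    · intro E hE
      rw [mem_filter] at hE
      obtain ⟨hEG, hact, hA1, hB1⟩ := hE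
      simp only
      have h2 : A.card + (P1 (E.filter (fun e => ¬ (e.1 ∈ A ∨ e.2 ∈ B)))).card ≤ (P1 E).card := by
        rw [← card_union_of_disjoint]
        · apply card_le_card
          apply union_subset hA1
          intro v hv
          obtain ⟨e, he, hve⟩ := mem_P1.1 hv
          exact mem_P1.2 ⟨e, (mem_filter.1 he).1, hve⟩
        · rw [Finset.disjoint_right]
          intro v hv
          obtain ⟨e, he, rfl⟩ := mem_P1.1 hv
          exact fun h => (mem_filter.1 he).2 (Or.inl h)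
      have h3 : B.card + (P2 (E.filter (fun e => ¬ (e.1 ∈ A ∨ e.2 ∈ B)))).card ≤ (P2 E).card := by
        rw [← card_union_of_disjoint]
        · apply card_le_card
          apply union_subset hB1
          intro v hv
          obtain ⟨e, he, hve⟩ := mem_P2.1 hv
          exact mem_P2.2 ⟨e, (mem_filter.1 he).1, hve⟩
        · rw [Finset.disjoint_right]
          intro v hv
          obtain ⟨e, he, rfl⟩ := mem_P2.1 hv
          exact fun h => (mem_filter.1 he).2 (Or.inr h)
      rw [hAc, hBc]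
      have h4 : Fintype.card V - (P1 E).card ≤ Fintype.card V - A.card -
          (P1 (E.filter (fun e => ¬ (e.1 ∈ A ∨ e.2 ∈ B)))).card := by omega
      have h5 : Fintype.card W - (P2 E).card ≤ Fintype.card W - B.card -
          (P2 (E.filter (fun e => ¬ (e.1 ∈ A ∨ e.2 ∈ B)))).card := by omega
      have h6 : ((Fintype.card V - (P1 E).card)! : ℝ) ≤ ((Fintype.card V - A.card -
          (P1 (E.filter (fun e => ¬ (e.1 ∈ A ∨ e.2 ∈ B)))).card)! : ℝ) := by
        exact_mod_cast Nat.factorial_le h4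
      have h7 : ((Fintype.card W - (P2 E).card)! : ℝ) ≤ ((Fintype.card W - B.card -
          (P2 (E.filter (fun e => ¬ (e.1 ∈ A ∨ e.2 ∈ B)))).card)! : ℝ) := by
        exact_mod_cast Nat.factorial_le h5
      exact mul_le_mul h6 h7 (by positivity) (by positivity)
    · intro b _
      positivity
  refine h1.trans ?_
  rw [Finset.sum_sigma, Finset.mul_sum]
  apply Finset.sum_le_sum
  intro E₁ _
  rw [← hAc, ← hBc]
  exact sub_sum2 Aᶜ Bᶜ (n - E₁.card)

lemma sum_perm_eq_le (g : ℕ → ℝ) (hg0 : ∀ s, 0 ≤ g s) :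
    ∑ τ : Equiv.Perm V, ((Fintype.card V - τ.support.card)! : ℝ) * g τ.support.card ≤
      ((Fintype.card V)! : ℝ) * (g 0 + ∑ s ∈ Finset.Icc 2 (Fintype.card V), g s) := by
  rw [← Finset.add_sum_erase _ _ (mem_univ (1 : Equiv.Perm V))]
  have h1 := sum_perm_le (V := V) g hg0
  rw [mul_add]
  apply _root_.add_le_add _ h1
  simp

/-- summing over all non-trivial pairs of permutations -/
lemma sum_perm_le2 (G : ℝ) (ρ : ℝ) (hρ : 0 ≤ ρ) (hG : 0 ≤ G) :
    ∑ p ∈ (univ : Finset (Equiv.Perm V × Equiv.Perm W)).erase 1,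
      ((Fintype.card V - p.1.support.card)! : ℝ) * ((Fintype.card W - p.2.support.card)! : ℝ) *
        (G * ρ ^ (p.1.support.card + p.2.support.card)) ≤
      ((Fintype.card V)! : ℝ) * ((Fintype.card W)! : ℝ) * (G *
        ((1 + ∑ s ∈ Finset.Icc 2 (Fintype.card V), ρ ^ s) *
          (1 + ∑ s ∈ Finset.Icc 2 (Fintype.card W), ρ ^ s) - 1)) := by
  have h1 := sum_perm_eq_le (V := V) (fun s => ρ ^ s) (fun s => by positivity)
  have h2 := sum_perm_eq_le (V := W) (fun s => ρ ^ s) (fun s => by positivity)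
  simp only [pow_zero] at h1 h2
  have h3 : ∑ p ∈ (univ : Finset (Equiv.Perm V × Equiv.Perm W)).erase 1,
      ((Fintype.card V - p.1.support.card)! : ℝ) * ((Fintype.card W - p.2.support.card)! : ℝ) *
        (G * ρ ^ (p.1.support.card + p.2.support.card)) =
      G * ((∑ τ : Equiv.Perm V, ((Fintype.card V - τ.support.card)! : ℝ) * ρ ^ τ.support.card) *
      (∑ τ : Equiv.Perm W, ((Fintype.card W - τ.support.card)! : ℝ) * ρ ^ τ.support.card)) -
      ((Fintype.card V)! : ℝ) * ((Fintype.card W)! : ℝ) * G := by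
    have h4 : ∑ p : Equiv.Perm V × Equiv.Perm W,
      ((Fintype.card V - p.1.support.card)! : ℝ) * ((Fintype.card W - p.2.support.card)! : ℝ) *
        (G * ρ ^ (p.1.support.card + p.2.support.card)) =
      G * ((∑ τ : Equiv.Perm V, ((Fintype.card V - τ.support.card)! : ℝ) * ρ ^ τ.support.card) *
      (∑ τ : Equiv.Perm W, ((Fintype.card W - τ.support.card)! : ℝ) * ρ ^ τ.support.card)) := by
      rw [Fintype.sum_prod_type, Finset.sum_mul_sum, Finset.mul_sum]
      apply Finset.sum_congr rfl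
      intro x _
      rw [Finset.mul_sum]
      apply Finset.sum_congr rfl
      intro y _
      rw [pow_add]
      ring
    rw [← h4, ← Finset.add_sum_erase _ _ (mem_univ (1 : Equiv.Perm V × Equiv.Perm W))]
    simp
  rw [h3]
  have h5 : 0 ≤ ∑ τ : Equiv.Perm W, ((Fintype.card W - τ.support.card)! : ℝ) * ρ ^ τ.support.card :=
    Finset.sum_nonneg (fun _ _ => by positivity)
  have h6 : 0 ≤ ∑ s ∈ Finset.Icc 2 (Fintype.card V), ρ ^ s :=
    Finset.sum_nonneg (fun _ _ => by positivity)
  have h7 := mul_le_mul h1 h2 h5 (by positivity)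
  have h8 := mul_le_mul_of_nonneg_left h7 hG
  calc _ ≤ G * (((Fintype.card V)! : ℝ) * (1 + ∑ s ∈ Finset.Icc 2 (Fintype.card V), ρ ^ s) *
        (((Fintype.card W)! : ℝ) * (1 + ∑ s ∈ Finset.Icc 2 (Fintype.card W), ρ ^ s))) -
        ((Fintype.card V)! : ℝ) * ((Fintype.card W)! : ℝ) * G := by linarith
    _ = _ := by ring

end

end Pool.Agent.H244R2
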