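import Pool.Agent.H244R2.GraphErr2

set_option autoImplicit false

namespace Pool.Agent.H244R2

open Finset Nat Filter Topology

/-- `n^(1/20)` -/
noncomputable def tt (n : ℕ) : ℝ := (n : ℝ) ^ ((1:ℝ) / 20)

lemma tt_pow (n : ℕ) : tt n ^ 20 = n := by
  unfold tt
  rw [← Real.rpow_natCast, ← Real.rpow_mul (by positivity)]
  norm_num

lemma tt_tendsto : Tendsto tt atTop atTop := by
  unfold tt
  exact (tendsto_rpow_atTop (by norm_num)).comp tendsto_natCast_atTop_atTop

lemma log_eq (n : ℕ) : Real.log n = 20 * Real.log (tt n) := by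
  rw [← tt_pow n, Real.log_pow]; norm_num

/-- lower bound for the main sum -/
lemma gSum_lower : ∀ᶠ n : ℕ in atTop, Real.exp (14 * (n * Real.log (tt n))) ≤ gSum n := by
  have h1 : Tendsto (fun n => Real.log (tt n)) atTop atTop := Real.tendsto_log_atTop.comp tt_tendsto
  filter_upwards [tt_tendsto.eventually_ge_atTop 10, h1.eventually_ge_atTop 4,
    eventually_gt_atTop 0] with n ht hlog hn
  set t := tt n with htd
  have hnt : (n:ℝ) = t ^ 20 := (tt_pow n).symm
  have ht0 : 0 < t := by linarith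
  have hn0 : (0:ℝ) < n := by exact_mod_cast hn
  set r := ⌈t ^ 18⌉₊ with hr
  have hr1 : t ^ 18 ≤ r := Nat.le_ceil _
  have ht18 : (1:ℝ) ≤ t ^ 18 := one_le_pow₀ (by linarith)
  have hr2 : (r:ℝ) ≤ 2 * t ^ 18 := by
    have := Nat.ceil_lt_add_one (show 0 ≤ t ^ 18 by positivity)
    linarith
  have hrpos : (0:ℝ) < r := by linarith
  set N := r.choose 2 with hN
  have hN1 : t ^ 36 / 4 ≤ (N:ℝ) := by
    rw [hN, Nat.cast_choose_two]
    have h2 : (2:ℝ) ≤ t ^ 18 := by
      have : t ≤ t ^ 18 := le_self_pow₀ (by linarith) (by norm_num)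
      linarith
    have h3 : t ^ 36 = t ^ 18 * t ^ 18 := by ring
    nlinarith
  have h20 : t ^ 20 * 8 ≤ t ^ 36 := by
    have h16 : (8:ℝ) ≤ t ^ 16 := by
      have : t ≤ t ^ 16 := le_self_pow₀ (by linarith) (by norm_num)
      linarith
    calc t ^ 20 * 8 ≤ t ^ 20 * t ^ 16 := by gcongr
      _ = t ^ 36 := by ring
  have hnN : n ≤ N := by
    have : (n:ℝ) ≤ N := by rw [hnt]; linarith
    exact_mod_cast this
  have hch : (t ^ 16 / 8) ^ n ≤ (N.choose n : ℝ) := by
    have h2 : ((N + 1 - n : ℕ) ^ n : ℝ) ≤ (n ! : ℝ) * (N.choose n : ℝ) := by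
      have h3 := Nat.pow_sub_le_descFactorial N n
      rw [Nat.descFactorial_eq_factorial_mul_choose] at h3
      exact_mod_cast h3
    have h3 : t ^ 36 / 8 ≤ ((N + 1 - n : ℕ) : ℝ) := by
      rw [Nat.cast_sub (by omega)]
      push_cast
      rw [hnt]
      linarith
    have h4 : (n ! : ℝ) ≤ (n:ℝ) ^ n := by exact_mod_cast Nat.factorial_le_pow n
    have h5 : (t ^ 36 / 8) ^ n ≤ (n:ℝ) ^ n * (N.choose n : ℝ) := by
      calc (t ^ 36 / 8) ^ n ≤ ((N + 1 - n : ℕ) ^ n : ℝ) := by
            apply pow_le_pow_left₀ (by positivity) h3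
        _ ≤ (n ! : ℝ) * (N.choose n : ℝ) := h2
        _ ≤ _ := by gcongr
    have h6 : t ^ 36 / 8 = (n:ℝ) * (t ^ 16 / 8) := by rw [hnt]; ring
    rw [h6, mul_pow] at h5
    exact le_of_mul_le_mul_left h5 (by positivity)
  have hfac : (r ! : ℝ) ≤ Real.exp (38 * (t ^ 18 * Real.log t)) := by
    calc (r ! : ℝ) ≤ (r:ℝ) ^ r := by exact_mod_cast Nat.factorial_le_pow r
      _ = Real.exp (r * Real.log r) := by
          rw [mul_comm, Real.exp_mul, Real.exp_log hrpos, Real.rpow_natCast]
      _ ≤ Real.exp (38 * (t ^ 18 * Real.log t)) := by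
          apply Real.exp_le_exp.2
          have h2 : Real.log r ≤ 19 * Real.log t := by
            calc Real.log r ≤ Real.log (t ^ 19) := by
                  apply Real.log_le_log hrpos
                  calc (r:ℝ) ≤ 2 * t ^ 18 := hr2
                    _ ≤ t * t ^ 18 := by gcongr; linarith
                    _ = t ^ 19 := by ring
              _ = 19 * Real.log t := by rw [Real.log_pow]; norm_num
          have h3 : 0 ≤ Real.log t := by linarith
          calc (r:ℝ) * Real.log r ≤ (2 * t ^ 18) * (19 * Real.log t) := by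
                apply mul_le_mul hr2 h2 _ (by positivity)
                apply Real.log_nonneg
                linarith
            _ = _ := by ring
  have hg : (N.choose n : ℝ) / (r ! : ℝ) ≤ gSum n :=
    (summable_gTerm n).le_tsum r (fun j _ => gTerm_nonneg n j)
  refine le_trans ?_ hg
  rw [le_div_iff₀ (by positivity)]
  refine le_trans ?_ hch
  have h8 : t ^ 16 / 8 = Real.exp (16 * Real.log t - Real.log 8) := by
    rw [Real.exp_sub, Real.exp_log (by norm_num : (0:ℝ) < 8)]
    congr 1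
    rw [← Real.log_rpow ht0, Real.exp_log (by positivity)]
    norm_cast
  calc Real.exp (14 * (n * Real.log t)) * (r ! : ℝ)
      ≤ Real.exp (14 * (n * Real.log t)) * Real.exp (38 * (t ^ 18 * Real.log t)) := by gcongr
    _ = Real.exp (14 * (n * Real.log t) + 38 * (t ^ 18 * Real.log t)) := by rw [Real.exp_add]
    _ ≤ Real.exp (n * (16 * Real.log t - Real.log 8)) := by
        apply Real.exp_le_exp.2
        have hl8 : Real.log 8 ≤ 3 := by
          have : Real.log 8 = 3 * Real.log 2 := by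
            rw [show (8:ℝ) = 2 ^ 3 by norm_num, Real.log_pow]; norm_num
          rw [this]
          linarith [Real.log_two_lt_d9]
        have h9 : t ^ 18 * 100 ≤ n := by
          rw [hnt]
          have : (100:ℝ) ≤ t ^ 2 := by nlinarith
          calc t ^ 18 * 100 ≤ t ^ 18 * t ^ 2 := by gcongr
            _ = _ := by ring
        have h10 : 38 * (t ^ 18 * Real.log t) ≤ n * Real.log t := by
          have h11 : 0 ≤ t ^ 18 * Real.log t := by positivity
          have h12 : t ^ 18 * 100 * Real.log t ≤ n * Real.log t := by gcongr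
          nlinarith
        have h13 : (n:ℝ) * Real.log 8 ≤ n * 3 := by gcongr
        have h14 : (n:ℝ) * 4 ≤ n * Real.log t := by gcongr
        nlinarith
    _ = (t ^ 16 / 8) ^ n := by rw [h8, ← Real.exp_nat_mul]

/-- the bound on a single permutation -/
noncomputable def Yb (n s : ℕ) : ℝ :=
  (Real.exp 2 / (tt n / 3)) ^ s * gSum n +
    Real.exp 1 * Real.exp (12 * (n * Real.log (tt n)) + 2 * n + 2 * s)

lemma gSum_nonneg (n : ℕ) : 0 ≤ gSum n := tsum_nonneg (gTerm_nonneg n)

lemma Yb_nonneg (n s : ℕ) : 0 ≤ Yb n s := by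
  unfold Yb
  have := gSum_nonneg n
  have h : 0 ≤ tt n := by unfold tt; positivity
  positivity

lemma CC_le_Yb : ∀ᶠ n : ℕ in atTop, ∀ τ : Equiv.Perm (Fin (2 * n)),
    ∑ E ∈ CC τ n, gSum (n - E.card) ≤ Yb n τ.support.card := by
  filter_upwards [tt_tendsto.eventually_ge_atTop 10, eventually_gt_atTop 0] with n ht hn
  intro τ
  set t := tt n with htd
  have hnt : (n:ℝ) = t ^ 20 := (tt_pow n).symm
  have ht0 : 0 < t := by linarith
  have hn0 : (0:ℝ) < n := by exact_mod_cast hn
  have hz1 : (t ^ 12)⁻¹ ≤ 1 := by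
    apply inv_le_one_of_one_le₀
    exact one_le_pow₀ (by linarith)
  have h := CC_sum_le τ n (z := (t ^ 10)⁻¹) (v := t / 3) (z₁ := (t ^ 12)⁻¹) (by positivity)
    (by linarith) (by positivity) hz1 ⌈t ^ 16⌉₊ (by
      intro r hr
      have hr1 : t ^ 16 ≤ r := (Nat.le_ceil _).trans (by exact_mod_cast hr)
      have h2 : (2:ℝ) ≤ t ^ 16 := by
        have : t ≤ t ^ 16 := le_self_pow₀ (by linarith) (by norm_num)
        linarith
      have hN1 : t ^ 32 / 4 ≤ ((r.choose 2 : ℕ):ℝ) := by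
        rw [Nat.cast_choose_two]
        have h3 : t ^ 32 = t ^ 16 * t ^ 16 := by ring
        nlinarith
      have h20 : t ^ 20 * 10 ≤ t ^ 32 := by
        have h16 : (10:ℝ) ≤ t ^ 12 := by
          have : t ≤ t ^ 12 := le_self_pow₀ (by linarith) (by norm_num)
          linarith
        calc t ^ 20 * 10 ≤ t ^ 20 * t ^ 12 := by gcongr
          _ = t ^ 32 := by ring
      constructor
      · have : (n:ℝ) ≤ (r.choose 2 : ℕ) := by
          rw [hnt]
          nlinarith [pow_pos ht0 20]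
        exact_mod_cast this
      · have h5 : t ^ 32 / 9 ≤ ((r.choose 2 : ℕ):ℝ) - n + 1 := by
          rw [hnt]
          nlinarith [pow_pos ht0 20]
        calc (n:ℝ) = (t ^ 10)⁻¹ / (t / 3) ^ 2 * (t ^ 32 / 9) := by
              rw [hnt]; field_simp
              norm_num
          _ ≤ _ := by gcongr)
  refine h.trans ?_
  unfold Yb
  rw [← htd, Fintype.card_fin]
  set s := τ.support.card with hs
  have hs0 : (0:ℝ) ≤ s := by positivity
  apply _root_.add_le_add
  · apply mul_le_mul_of_nonneg_right _ (gSum_nonneg n)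
    rw [div_pow, ← Real.exp_nat_mul, inv_pow, mul_comm, div_eq_mul_inv]
    apply mul_le_mul_of_nonneg_right _ (by positivity)
    apply Real.exp_le_exp.2
    apply mul_le_mul_of_nonneg_left _ hs0
    push_cast
    rw [hnt]
    have h6 : (t ^ 10)⁻¹ ≤ 1 := by
      apply inv_le_one_of_one_le₀
      exact one_le_pow₀ (by linarith)
    have h7 : 2 * t ^ 20 * ((t ^ 10)⁻¹) ^ 2 / 2 = 1 := by
      field_simp
    linarith
  · apply mul_le_mul_of_nonneg_left _ (Real.exp_pos 1).le
    rw [inv_inv]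
    have h8 : (t ^ 12) ^ n = Real.exp (12 * (n * Real.log t)) := by
      have : (12 * (n * Real.log t)) = n * (12 * Real.log t) := by ring
      rw [this, Real.exp_nat_mul]
      congr 1
      rw [← Real.log_rpow ht0, Real.exp_log (by positivity)]
      norm_cast
    have h9 : (1 + (t ^ 12)⁻¹) ^ (⌈t ^ 16⌉₊.choose 2) ≤ Real.exp (2 * n) := by
      have hR : (⌈t ^ 16⌉₊ : ℝ) ≤ 2 * t ^ 16 := by
        have := Nat.ceil_lt_add_one (show 0 ≤ t ^ 16 by positivity)
        have h1 : (1:ℝ) ≤ t ^ 16 := one_le_pow₀ (by linarith)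
        linarith
      have hR0 : (0:ℝ) ≤ (⌈t ^ 16⌉₊ : ℝ) := by positivity
      have hR2 : ((⌈t ^ 16⌉₊.choose 2 : ℕ) : ℝ) ≤ 2 * t ^ 32 := by
        rw [Nat.cast_choose_two]
        have h3 : t ^ 32 = t ^ 16 * t ^ 16 := by ring
        nlinarith [pow_pos ht0 16]
      calc (1 + (t ^ 12)⁻¹) ^ (⌈t ^ 16⌉₊.choose 2)
          ≤ (Real.exp ((t ^ 12)⁻¹)) ^ (⌈t ^ 16⌉₊.choose 2) := by
            apply pow_le_pow_left₀ (by positivity)
            linarith [Real.add_one_le_exp ((t ^ 12)⁻¹)]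
        _ = Real.exp ((⌈t ^ 16⌉₊.choose 2 : ℕ) * (t ^ 12)⁻¹) := by rw [← Real.exp_nat_mul]
        _ ≤ Real.exp (2 * n) := by
            apply Real.exp_le_exp.2
            calc ((⌈t ^ 16⌉₊.choose 2 : ℕ) : ℝ) * (t ^ 12)⁻¹ ≤ (2 * t ^ 32) * (t ^ 12)⁻¹ := by gcongr
              _ = 2 * n := by rw [hnt]; field_simp
    have h10 : Real.exp (s * ((t ^ 12)⁻¹ + ((2 * n : ℕ) : ℝ) * ((t ^ 12)⁻¹) ^ 2 / 2)) ≤
        Real.exp (2 * s) := by
      apply Real.exp_le_exp.2
      have h11 : ((2 * n : ℕ) : ℝ) * ((t ^ 12)⁻¹) ^ 2 / 2 ≤ 1 := by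
        push_cast
        rw [hnt]
        have : 2 * t ^ 20 * ((t ^ 12)⁻¹) ^ 2 / 2 = (t ^ 4)⁻¹ := by field_simp
        rw [this]
        apply inv_le_one_of_one_le₀
        exact one_le_pow₀ (by linarith)
      nlinarith
    rw [h8, Real.exp_add, Real.exp_add]
    gcongr

end Pool.Agent.H244R2
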