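import Pool.Agent.H244R2.GraphCount

set_option autoImplicit false
set_option linter.unusedSectionVars false

namespace Pool.Agent.H244R2

open Finset Nat MulAction
open scoped Pointwise

/-- The number `f_n(G)` of orbits of a group `G`, acting on `X`, on the set of all `n`-element
subsets of `X`. -/
noncomputable def numOrbits (G X : Type) [Group G] [MulAction G X] [DecidableEq X] (n : ℕ) : ℕ :=
  Nat.card (MulAction.orbitRel.Quotient G (Set.powersetCard X n))

section gen

variable {V : Type} [DecidableEq V]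

/-- the action of a permutation on families of sets (no finiteness of `V`) -/
def act' (σ : Equiv.Perm V) (E : Finset (Finset V)) : Finset (Finset V) :=
  E.image (fun e => e.map σ.toEmbedding)

lemma mem_act' {σ : Equiv.Perm V} {E : Finset (Finset V)} {e : Finset V} :
    e ∈ act' σ E ↔ ∃ f ∈ E, f.map σ.toEmbedding = e := by
  simp [act']

/-- the edge set of an `n`-set of pairs -/
def toG {n : ℕ} (A : Set.powersetCard (Set.powersetCard V 2) n) : Finset (Finset V) :=
  A.1.map (Function.Embedding.subtype _)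

lemma mem_toG {n : ℕ} {A : Set.powersetCard (Set.powersetCard V 2) n} {e : Finset V} :
    e ∈ toG A ↔ ∃ h : e.card = 2, (⟨e, h⟩ : Set.powersetCard V 2) ∈ A.1 := by
  simp only [toG, Finset.mem_map, Function.Embedding.subtype_apply]
  constructor
  · rintro ⟨a, ha, rfl⟩
    exact ⟨a.2, ha⟩
  · rintro ⟨h, hA⟩
    exact ⟨_, hA, rfl⟩

lemma toG_injective {n : ℕ} :
    Function.Injective (toG : Set.powersetCard (Set.powersetCard V 2) n → Finset (Finset V)) := by
  intro A B h
  apply Subtype.ext
  exact Finset.map_injective _ h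

lemma toG_card {n : ℕ} (A : Set.powersetCard (Set.powersetCard V 2) n) : (toG A).card = n := by
  rw [toG, card_map]
  exact A.2

lemma toG_two {n : ℕ} (A : Set.powersetCard (Set.powersetCard V 2) n) (e : Finset V)
    (he : e ∈ toG A) : e.card = 2 := (mem_toG.1 he).1

lemma exists_toG {n : ℕ} {E : Finset (Finset V)} (h1 : ∀ e ∈ E, e.card = 2) (h2 : E.card = n) :
    ∃ A : Set.powersetCard (Set.powersetCard V 2) n, toG A = E := by
  classical
  refine ⟨⟨E.subtype (fun e => e ∈ Set.powersetCard V 2), ?_⟩, ?_⟩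
  · rw [Set.powersetCard.mem_iff, card_subtype, ← h2]
    congr 1
    rw [filter_eq_self]
    exact h1
  · unfold toG
    ext e
    simp only [Finset.mem_map, mem_subtype, Function.Embedding.subtype_apply, Subtype.exists]
    constructor
    · rintro ⟨a, ha, hb, rfl⟩
      exact hb
    · intro he
      exact ⟨e, h1 e he, he, rfl⟩

lemma toG_smul {n : ℕ} (σ : Equiv.Perm V) (A : Set.powersetCard (Set.powersetCard V 2) n) :
    toG (σ • A) = act' σ (toG A) := by
  ext e
  rw [mem_act']
  have h1 : ∀ a : Set.powersetCard V 2, ((σ • a : Set.powersetCard V 2) : Finset V) =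
      (a : Finset V).map σ.toEmbedding := by
    intro a
    rw [Set.powersetCard.coe_smul]
    ext v
    rw [mem_smul_finset, Finset.mem_map]
    rfl
  simp only [toG, Finset.mem_map, Function.Embedding.subtype_apply]
  constructor
  · rintro ⟨a, ha, rfl⟩
    rw [Set.powersetCard.coe_smul, mem_smul_finset] at ha
    obtain ⟨b, hb, rfl⟩ := ha
    exact ⟨b.1, ⟨b, hb, rfl⟩, (h1 b).symm⟩
  · rintro ⟨f, ⟨b, hb, rfl⟩, rfl⟩
    refine ⟨σ • b, ?_, h1 b⟩
    rw [Set.powersetCard.coe_smul, mem_smul_finset]
    exact ⟨b, hb, rfl⟩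

lemma orbit_iff {n : ℕ} (A B : Set.powersetCard (Set.powersetCard V 2) n) :
    (orbitRel (Equiv.Perm V) _ A B) ↔ ∃ σ : Equiv.Perm V, toG A = act' σ (toG B) := by
  rw [orbitRel_apply, mem_orbit_iff]
  constructor
  · rintro ⟨σ, rfl⟩
    exact ⟨σ, toG_smul σ B⟩
  · rintro ⟨σ, h⟩
    refine ⟨σ, ?_⟩
    apply toG_injective
    rw [toG_smul, h]

end gen

section transfer

variable {V Ω : Type} [DecidableEq V] [DecidableEq Ω]

/-- push forward along an embedding -/
def push (ι : V ↪ Ω) (E : Finset (Finset V)) : Finset (Finset Ω) := E.image (fun e => e.map ι)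

lemma mem_push {ι : V ↪ Ω} {E : Finset (Finset V)} {e : Finset Ω} :
    e ∈ push ι E ↔ ∃ f ∈ E, f.map ι = e := by simp [push]

lemma push_injective (ι : V ↪ Ω) : Function.Injective (push ι) := by
  intro E F h
  ext e
  have := congrArg (fun X => e.map ι ∈ X) h
  simp only [mem_push, eq_iff_iff] at this
  constructor
  · intro he
    obtain ⟨f, hf, hfe⟩ := this.1 ⟨e, he, rfl⟩
    rwa [← Finset.map_injective _ hfe]
  · intro he
    obtain ⟨f, hf, hfe⟩ := this.2 ⟨e, he, rfl⟩
    rwa [← Finset.map_injective _ hfe]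

lemma U_push (ι : V ↪ Ω) (E : Finset (Finset V)) : U (push ι E) = (U E).map ι := by
  ext v
  rw [mem_U, Finset.mem_map]
  constructor
  · rintro ⟨e, he, hv⟩
    obtain ⟨f, hf, rfl⟩ := mem_push.1 he
    obtain ⟨a, ha, rfl⟩ := Finset.mem_map.1 hv
    exact ⟨a, mem_U.2 ⟨f, hf, ha⟩, rfl⟩
  · rintro ⟨a, ha, rfl⟩
    obtain ⟨f, hf, haf⟩ := mem_U.1 ha
    exact ⟨f.map ι, mem_push.2 ⟨f, hf, rfl⟩, Finset.mem_map.2 ⟨a, haf, rfl⟩⟩

lemma U_act' (σ : Equiv.Perm V) (E : Finset (Finset V)) : U (act' σ E) = (U E).map σ.toEmbedding :=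
  U_push σ.toEmbedding E

lemma act'_eq_push (σ : Equiv.Perm V) (E : Finset (Finset V)) : act' σ E = push σ.toEmbedding E :=
  rfl

lemma push_act' (ι : V ↪ Ω) (σ : Equiv.Perm V) (g : Equiv.Perm Ω) (E : Finset (Finset V))
    (h : ∀ v ∈ U E, ι (σ v) = g (ι v)) : push ι (act' σ E) = act' g (push ι E) := by
  have key : ∀ f ∈ E, (f.map σ.toEmbedding).map ι = (f.map ι).map g.toEmbedding := by
    intro f hf
    rw [Finset.map_map, Finset.map_map]
    ext v
    simp only [Finset.mem_map, Function.Embedding.trans_apply, Equiv.coe_toEmbedding]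
    constructor
    · rintro ⟨a, ha, rfl⟩
      exact ⟨a, ha, (h a (mem_U.2 ⟨f, hf, ha⟩)).symm⟩
    · rintro ⟨a, ha, rfl⟩
      exact ⟨a, ha, h a (mem_U.2 ⟨f, hf, ha⟩)⟩
  ext e
  rw [mem_push, mem_act']
  constructor
  · rintro ⟨f, hf, rfl⟩
    obtain ⟨f', hf', rfl⟩ := mem_act'.1 hf
    exact ⟨f'.map ι, mem_push.2 ⟨f', hf', rfl⟩, (key f' hf').symm⟩
  · rintro ⟨f, hf, rfl⟩
    obtain ⟨f', hf', rfl⟩ := mem_push.1 hf
    exact ⟨f'.map σ.toEmbedding, mem_act'.2 ⟨f', hf', rfl⟩, key f' hf'⟩

/-- the relation transfers along embeddings of a finite type -/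
lemma transfer_iff [Fintype V] (ι : V ↪ Ω) (E F : Finset (Finset V)) :
    (∃ σ : Equiv.Perm V, E = act' σ F) ↔ ∃ g : Equiv.Perm Ω, push ι E = act' g (push ι F) := by
  constructor
  · rintro ⟨σ, rfl⟩
    refine ⟨σ.viaEmbedding ι, ?_⟩
    apply push_act'
    intro v _
    rw [Equiv.Perm.viaEmbedding_apply]
  · rintro ⟨g, hg⟩
    have hU : (U E).map ι = ((U F).map ι).map g.toEmbedding := by
      rw [← U_push, hg, U_act', U_push]
    set t : Finset Ω := (univ : Finset V).map ι with ht
    have hcard : Fintype.card V = t.card := by rw [ht, card_map, Finset.card_univ]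
    have himg : (U F).image (fun v => g (ι v)) ⊆ t := by
      intro w hw
      obtain ⟨v, hv, rfl⟩ := mem_image.1 hw
      have : g (ι v) ∈ (U E).map ι := by
        rw [hU]
        exact Finset.mem_map.2 ⟨ι v, Finset.mem_map.2 ⟨v, hv, rfl⟩, rfl⟩
      obtain ⟨a, _, ha⟩ := Finset.mem_map.1 this
      rw [ht, Finset.mem_map]
      exact ⟨a, mem_univ _, ha⟩
    obtain ⟨g', hg'⟩ := Finset.exists_equiv_extend_of_card_eq hcard himg
      (fun a _ b _ hab => ι.injective (g.injective hab))
    have hmem : ∀ w : t, ∃ v : V, ι v = w := by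
      intro w
      obtain ⟨v, _, hv⟩ := Finset.mem_map.1 w.2
      exact ⟨v, hv⟩
    choose r hr using hmem
    have hinj : Function.Injective (fun v => r (g' v)) := by
      intro a b hab
      apply g'.injective
      apply Subtype.ext
      rw [← hr (g' a), ← hr (g' b)]
      exact congrArg ι hab
    have hbij : Function.Bijective (fun v => r (g' v)) :=
      (Finite.injective_iff_bijective).1 hinj
    refine ⟨Equiv.ofBijective _ hbij, ?_⟩
    apply push_injective ι
    rw [hg, push_act' ι _ g]
    intro v hv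
    rw [Equiv.ofBijective_apply, hr]
    exact hg' v hv

/-- every small graph can be moved into the image of an embedding -/
lemma exists_push [Fintype V] (ι : V ↪ Ω) (C : Finset (Finset Ω)) [Infinite Ω]
    (hC : (U C).card ≤ Fintype.card V) :
    ∃ (g : Equiv.Perm Ω) (E : Finset (Finset V)), push ι E = act' g C := by
  obtain ⟨S, hS1, hS2⟩ := Infinite.exists_superset_card_eq (U C) (Fintype.card V) hC
  have hpre : IsPretransitive (Equiv.Perm Ω) (Set.powersetCard Ω (Fintype.card V)) :=
    Set.powersetCard.isPretransitive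
  obtain ⟨g, hg⟩ := hpre.exists_smul_eq (⟨S, hS2⟩ : Set.powersetCard Ω (Fintype.card V))
    ⟨(univ : Finset V).map ι, by rw [Set.powersetCard.mem_iff, card_map, Finset.card_univ]⟩
  have hg2 : g • S = (univ : Finset V).map ι := by
    have := congrArg Subtype.val hg
    rwa [Set.powersetCard.coe_smul] at this
  refine ⟨g, (univ : Finset (Finset V)).filter (fun e => e.map ι ∈ act' g C), ?_⟩
  ext c
  rw [mem_push]
  constructor
  · rintro ⟨f, hf, rfl⟩
    exact (mem_filter.1 hf).2
  · intro hc
    have hsub : c ⊆ (univ : Finset V).map ι := by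
      obtain ⟨f, hf, rfl⟩ := mem_act'.1 hc
      intro w hw
      obtain ⟨a, ha, rfl⟩ := Finset.mem_map.1 hw
      rw [← hg2, mem_smul_finset]
      exact ⟨a, hS1 (mem_U.2 ⟨f, hf, ha⟩), rfl⟩
    refine ⟨univ.filter (fun v => ι v ∈ c), ?_, ?_⟩
    · rw [mem_filter]
      refine ⟨mem_univ _, ?_⟩
      convert hc
      ext w
      simp only [Finset.mem_map, mem_filter, mem_univ, true_and]
      constructor
      · rintro ⟨a, ha, rfl⟩; exact ha
      · intro hw
        obtain ⟨a, _, rfl⟩ := Finset.mem_map.1 (hsub hw)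
        exact ⟨a, hw, rfl⟩
    · ext w
      simp only [Finset.mem_map, mem_filter, mem_univ, true_and]
      constructor
      · rintro ⟨a, ha, rfl⟩; exact ha
      · intro hw
        obtain ⟨a, _, rfl⟩ := Finset.mem_map.1 (hsub hw)
        exact ⟨a, hw, rfl⟩

end transfer

/-- the infinite orbit count equals a finite one -/
theorem numOrbits_eq_fin {Ω : Type} [DecidableEq Ω] [Infinite Ω] (n K : ℕ) (hK : 2 * n ≤ K) :
    numOrbits (Equiv.Perm Ω) (Set.powersetCard Ω 2) n =
      numOrbits (Equiv.Perm (Fin K)) (Set.powersetCard (Fin K) 2) n := by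
  symm
  unfold numOrbits
  obtain ⟨ι⟩ : Nonempty (Fin K ↪ Ω) := by
    have h := Infinite.natEmbedding Ω
    exact ⟨Fin.valEmbedding.trans h⟩
  have hpush : ∀ A : Set.powersetCard (Set.powersetCard (Fin K) 2) n,
      ∃ B : Set.powersetCard (Set.powersetCard Ω 2) n, toG B = push ι (toG A) := by
    intro A
    apply exists_toG
    · intro e he
      obtain ⟨f, hf, rfl⟩ := mem_push.1 he
      rw [card_map]
      exact toG_two A f hf
    · rw [push, Finset.card_image_of_injective _ (Finset.map_injective ι), toG_card]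
  choose Φ hΦ using hpush
  have hrel : ∀ A B, orbitRel (Equiv.Perm (Fin K)) _ A B ↔
      orbitRel (Equiv.Perm Ω) _ (Φ A) (Φ B) := by
    intro A B
    rw [orbit_iff, orbit_iff, hΦ, hΦ]
    exact transfer_iff ι _ _
  let f : orbitRel.Quotient (Equiv.Perm (Fin K)) (Set.powersetCard (Set.powersetCard (Fin K) 2) n) →
      orbitRel.Quotient (Equiv.Perm Ω) (Set.powersetCard (Set.powersetCard Ω 2) n) :=
    Quotient.map' Φ (fun A B h => (hrel A B).1 h)
  apply Nat.card_eq_of_bijective f
  constructor
  · intro a b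
    induction a using Quotient.inductionOn' with
    | h A =>
    induction b using Quotient.inductionOn' with
    | h B =>
    intro h
    simp only [f, Quotient.map'_mk''] at h
    exact Quotient.sound' ((hrel A B).2 (Quotient.exact' h))
  · intro c
    induction c using Quotient.inductionOn' with
    | h C =>
    have hUC : (U (toG C)).card ≤ Fintype.card (Fin K) := by
      rw [Fintype.card_fin]
      have := card_U_le (toG_two C)
      rw [toG_card] at this
      omega
    obtain ⟨g, E, hE⟩ := exists_push ι (toG C) hUC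
    have hE2 : ∀ e ∈ E, e.card = 2 := by
      intro e he
      have : e.map ι ∈ act' g (toG C) := by
        rw [← hE]; exact mem_push.2 ⟨e, he, rfl⟩
      obtain ⟨f, hf, hfe⟩ := mem_act'.1 this
      have h2 := toG_two C f hf
      have h3 := congrArg card hfe
      rw [card_map, card_map, h2] at h3
      exact h3.symm
    have hEc : E.card = n := by
      have h3 := congrArg card hE
      rw [push, Finset.card_image_of_injective _ (Finset.map_injective ι), act',
        Finset.card_image_of_injective _ (Finset.map_injective _), toG_card] at h3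
      exact h3
    obtain ⟨A, hA⟩ := exists_toG hE2 hEc
    refine ⟨Quotient.mk'' A, ?_⟩
    simp only [f, Quotient.map'_mk'']
    apply Quotient.sound'
    change orbitRel (Equiv.Perm Ω) _ (Φ A) C
    rw [orbit_iff]
    exact ⟨g, by rw [hΦ, hA, hE]⟩

lemma act_eq_act' {V : Type} [DecidableEq V] [Fintype V] (σ : Equiv.Perm V)
    (E : Finset (Finset V)) : act σ E = act' σ E := by
  ext e
  rw [mem_act, mem_act']

/-- Burnside for the finite problem -/
theorem burnside_fin {V : Type} [DecidableEq V] [Fintype V] (n : ℕ) :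
    ∑ σ : Equiv.Perm V, ((GG (univ : Finset V) n).filter (fun E => act σ E = E)).card =
      numOrbits (Equiv.Perm V) (Set.powersetCard V 2) n * (Fintype.card V)! := by
  classical
  have h := MulAction.sum_card_fixedBy_eq_card_orbits_mul_card_group (Equiv.Perm V)
    (Set.powersetCard (Set.powersetCard V 2) n)
  unfold numOrbits
  rw [Nat.card_eq_fintype_card]
  rw [Fintype.card_perm] at h
  rw [← h]
  apply Finset.sum_congr rfl
  intro σ _
  symm
  rw [← Fintype.card_coe]
  have hmem : ∀ A : fixedBy (Set.powersetCard (Set.powersetCard V 2) n) σ,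
      toG A.1 ∈ (GG (univ : Finset V) n).filter (fun E => act σ E = E) := by
    intro A
    rw [mem_filter, mem_GG]
    refine ⟨⟨fun e he => ⟨subset_univ _, toG_two A.1 e he⟩, toG_card A.1⟩, ?_⟩
    rw [act_eq_act', ← toG_smul, A.2]
  apply Fintype.card_of_bijective (f := fun A => ⟨toG A.1, hmem A⟩)
  constructor
  · intro A B hAB
    apply Subtype.ext
    apply toG_injective
    exact congrArg Subtype.val hAB
  · rintro ⟨E, hE⟩
    have hE' := hE
    rw [mem_filter, mem_GG] at hE'
    obtain ⟨⟨h1, h2⟩, h3⟩ := hE'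
    obtain ⟨A, rfl⟩ := exists_toG (fun e he => (h1 e he).2) h2
    refine ⟨⟨A, ?_⟩, rfl⟩
    rw [mem_fixedBy]
    apply toG_injective
    rw [toG_smul, ← act_eq_act', h3]

end Pool.Agent.H244R2
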