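import Pool.Agent.H244R2.GraphAsym2
import Pool.Agent.H244R2.GraphFin
import Pool.Agent.H244R2.GraphOrbits

set_option autoImplicit false

namespace Pool.Agent.H244R2

open Finset Nat Filter Topology

lemma sum_geom_tail {ρ : ℝ} (h0 : 0 ≤ ρ) (h1 : ρ ≤ 1 / 2) (M : ℕ) :
    ∑ s ∈ Finset.Icc 2 M, ρ ^ s ≤ 2 * ρ ^ 2 := by
  have h2 : ρ < 1 := by linarith
  calc ∑ s ∈ Finset.Icc 2 M, ρ ^ s ≤ ∑ s ∈ (Finset.range M).image (fun i => i + 2), ρ ^ s := by
        apply Finset.sum_le_sum_of_subset_of_nonneg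
        · intro s hs
          rw [mem_Icc] at hs
          rw [mem_image]
          exact ⟨s - 2, mem_range.2 (by omega), by omega⟩
        · intros; positivity
    _ = ∑ i ∈ Finset.range M, ρ ^ (i + 2) := by
        rw [Finset.sum_image]
        intro a _ b _ h
        simpa using h
    _ = ρ ^ 2 * ∑ i ∈ Finset.range M, ρ ^ i := by
        rw [Finset.mul_sum]
        apply Finset.sum_congr rfl
        intro i _
        ring
    _ ≤ ρ ^ 2 * (1 - ρ)⁻¹ := by
        apply mul_le_mul_of_nonneg_left _ (by positivity)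
        rw [← tsum_geometric_of_lt_one h0 h2]
        exact (summable_geometric_of_lt_one h0 h2).sum_le_tsum _ (fun i _ => by positivity)
    _ ≤ ρ ^ 2 * 2 := by
        apply mul_le_mul_of_nonneg_left _ (by positivity)
        rw [inv_le_comm₀ (by linarith) (by norm_num)]
        linarith
    _ = _ := by ring

/-- the error term -/
noncomputable def errT (n : ℕ) : ℝ :=
  2 * (Real.exp 2 / (tt n / 3)) ^ 2 + 2 * Real.exp 1 * (n * Real.exp (-(2 * n)))

lemma errT_tendsto : Tendsto errT atTop (𝓝 0) := by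
  unfold errT
  have h1 : Tendsto (fun n => Real.exp 2 / (tt n / 3)) atTop (𝓝 0) :=
    tendsto_const_nhds.div_atTop (tt_tendsto.atTop_div_const (by norm_num))
  have h2 : Tendsto (fun n : ℕ => (n:ℝ) * Real.exp (-(2 * n))) atTop (𝓝 0) := by
    have h := (Real.tendsto_pow_mul_exp_neg_atTop_nhds_zero 1).comp
      ((tendsto_natCast_atTop_atTop (R := ℝ)).const_mul_atTop (show (0:ℝ) < 2 by norm_num))
    have h3 := h.const_mul (1/2)
    rw [mul_zero] at h3
    refine h3.congr (fun n => ?_)
    simp only [Function.comp, pow_one]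
    ring
  have := ((h1.pow 2).const_mul 2).add (h2.const_mul (2 * Real.exp 1))
  simpa using this

lemma sum_Yb_le : ∀ᶠ n : ℕ in atTop,
    ∑ s ∈ Finset.Icc 2 (2 * n), Yb n s ≤ errT n * gSum n := by
  have h1 : Tendsto (fun n => Real.log (tt n)) atTop atTop := Real.tendsto_log_atTop.comp tt_tendsto
  filter_upwards [tt_tendsto.eventually_ge_atTop 100, h1.eventually_ge_atTop 5,
    eventually_gt_atTop 0, gSum_lower] with n ht hlog hn hlow
  set t := tt n with htd
  have ht0 : 0 < t := by linarith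
  have hn0 : (0:ℝ) < n := by exact_mod_cast hn
  unfold Yb errT
  rw [← htd, Finset.sum_add_distrib, ← Finset.sum_mul, ← Finset.mul_sum, add_mul]
  apply _root_.add_le_add
  · apply mul_le_mul_of_nonneg_right _ (gSum_nonneg n)
    apply sum_geom_tail (by positivity)
    rw [div_le_iff₀ (by positivity)]
    have : Real.exp 2 ≤ 8 := by
      have h3 : Real.exp 1 ≤ 2.7182818286 := Real.exp_one_lt_d9.le
      have h4 : Real.exp 2 = Real.exp 1 ^ 2 := by rw [← Real.exp_nat_mul]; norm_num
      rw [h4]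
      calc Real.exp 1 ^ 2 ≤ 2.7182818286 ^ 2 := pow_le_pow_left₀ (Real.exp_pos 1).le h3 2
        _ ≤ 8 := by norm_num
    linarith
  · have h2 : ∑ s ∈ Finset.Icc 2 (2 * n), Real.exp (12 * (n * Real.log t) + 2 * n + 2 * s) ≤
        2 * n * Real.exp (12 * (n * Real.log t) + 6 * n) := by
      calc _ ≤ ∑ s ∈ Finset.Icc 2 (2 * n), Real.exp (12 * (n * Real.log t) + 6 * n) := by
            apply Finset.sum_le_sum
            intro s hs
            rw [mem_Icc] at hs
            apply Real.exp_le_exp.2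
            have : (s:ℝ) ≤ 2 * n := by exact_mod_cast hs.2
            linarith
        _ = ((2 * n + 1 - 2 : ℕ) : ℝ) * Real.exp (12 * (n * Real.log t) + 6 * n) := by
            rw [sum_const, Nat.card_Icc, nsmul_eq_mul]
        _ ≤ _ := by
            apply mul_le_mul_of_nonneg_right _ (Real.exp_pos _).le
            have : ((2 * n + 1 - 2 : ℕ) : ℝ) ≤ ((2 * n : ℕ) : ℝ) := by
              exact_mod_cast (by omega : 2 * n + 1 - 2 ≤ 2 * n)
            push_cast at this ⊢
            exact this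
    have h3 : Real.exp (12 * (n * Real.log t) + 6 * n) ≤ Real.exp (-(2 * n)) * gSum n := by
      calc Real.exp (12 * (n * Real.log t) + 6 * n)
          ≤ Real.exp (-(2 * n) + 14 * (n * Real.log t)) := by
            apply Real.exp_le_exp.2
            have : (n:ℝ) * 5 ≤ n * Real.log t := by gcongr
            nlinarith
        _ = Real.exp (-(2 * n)) * Real.exp (14 * (n * Real.log t)) := Real.exp_add _ _
        _ ≤ _ := by gcongr
    calc Real.exp 1 * ∑ s ∈ Finset.Icc 2 (2 * n), Real.exp (12 * (n * Real.log t) + 2 * n + 2 * s)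
        ≤ Real.exp 1 * (2 * n * (Real.exp (-(2 * n)) * gSum n)) := by
          gcongr
          exact h2.trans (by gcongr)
      _ = _ := by ring

lemma gSum_pos_eventually : ∀ᶠ n : ℕ in atTop, 0 < gSum n := by
  filter_upwards [gSum_lower] with n hn
  exact (Real.exp_pos _).trans_le hn

/-- the number of orbits is asymptotic to the main sum -/
theorem orbits_sim_gSum {Ω : Type} [DecidableEq Ω] [Infinite Ω] :
    Tendsto (fun n : ℕ => (numOrbits (Equiv.Perm Ω) (Set.powersetCard Ω 2) n : ℝ) /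
      (gSum n / Real.exp 1)) atTop (𝓝 1) := by
  have hup : Tendsto (fun n => 1 + Real.exp 1 * errT n) atTop (𝓝 1) := by
    have := (errT_tendsto.const_mul (Real.exp 1)).const_add 1
    simpa using this
  refine tendsto_of_tendsto_of_tendsto_of_le_of_le' tendsto_const_nhds hup ?_ ?_
  · filter_upwards [gSum_pos_eventually] with n hpos
    rw [numOrbits_eq_fin n (2 * n) le_rfl, le_div_iff₀ (by positivity), one_mul]
    have h1 := fixed_pairs_ge (V := Fin (2 * n)) n (by rw [Fintype.card_fin])
    have h2 := burnside_fin (V := Fin (2 * n)) n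
    rw [Fintype.card_fin] at h1 h2
    have h3 : ∑ σ : Equiv.Perm (Fin (2 * n)),
        (((GG (univ : Finset (Fin (2 * n))) n).filter (fun E => act σ E = E)).card : ℝ) =
        (numOrbits (Equiv.Perm (Fin (2 * n))) (Set.powersetCard (Fin (2 * n)) 2) n : ℝ) *
          ((2 * n)! : ℝ) := by exact_mod_cast h2
    rw [h3, mul_comm] at h1
    exact le_of_mul_le_mul_right h1 (by positivity)
  · filter_upwards [gSum_pos_eventually, CC_le_Yb, sum_Yb_le] with n hpos hCC hYb
    rw [numOrbits_eq_fin n (2 * n) le_rfl, div_le_iff₀ (by positivity)]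
    have h1 := fixed_pairs_le (V := Fin (2 * n)) n (by rw [Fintype.card_fin]) (Yb n) (Yb_nonneg n)
      (fun τ _ => hCC τ)
    have h2 := burnside_fin (V := Fin (2 * n)) n
    rw [Fintype.card_fin] at h1 h2
    have h3 : ∑ σ : Equiv.Perm (Fin (2 * n)),
        (((GG (univ : Finset (Fin (2 * n))) n).filter (fun E => act σ E = E)).card : ℝ) =
        (numOrbits (Equiv.Perm (Fin (2 * n))) (Set.powersetCard (Fin (2 * n)) 2) n : ℝ) *
          ((2 * n)! : ℝ) := by exact_mod_cast h2
    rw [h3, mul_comm] at h1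
    have h4 := le_of_mul_le_mul_left h1 (by positivity)
    refine h4.trans ?_
    have he : Real.exp 1 ≠ 0 := (Real.exp_pos 1).ne'
    calc gSum n / Real.exp 1 + ∑ s ∈ Finset.Icc 2 (2 * n), Yb n s
        ≤ gSum n / Real.exp 1 + errT n * gSum n := by linarith
      _ = (1 + Real.exp 1 * errT n) * (gSum n / Real.exp 1) := by field_simp

/-- final asymptotic formula, graph case -/
theorem graph_orbits_asymptotic {Ω : Type} [DecidableEq Ω] [Infinite Ω] :
    Tendsto (fun n : ℕ => (numOrbits (Equiv.Perm Ω) (Set.powersetCard Ω 2) n : ℝ) /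
      ((Nat.bell (2 * n) : ℝ) / (2 ^ n * (n ! : ℝ) * Real.sqrt n) *
        Real.exp (-(1 / 4) * Real.log (2 * n / Real.log n) ^ 2))) atTop (𝓝 1) := by
  have h1 := ((orbits_sim_gSum (Ω := Ω)).mul gSum_asym).mul conv2
  simp only [mul_one] at h1
  refine h1.congr' ?_
  filter_upwards [gSum_pos_eventually, eventually_gt_atTop 0] with n hpos hn
  have hb : (Nat.bell (2 * n) : ℝ) ≠ 0 := by exact_mod_cast (bell_pos _).ne'
  have hf : (n ! : ℝ) ≠ 0 := by positivity
  have he : Real.exp 1 ≠ 0 := (Real.exp_pos 1).ne'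
  have hn0 : (0:ℝ) < n := by exact_mod_cast hn
  have hs : Real.sqrt n ≠ 0 := (Real.sqrt_pos.2 hn0).ne'
  have hc : Real.exp (-(lamW ((2 * n : ℕ) : ℝ) / 2) - lamW ((2 * n : ℕ) : ℝ) ^ 2 / 4) ≠ 0 :=
    (Real.exp_pos _).ne'
  have hd : Real.exp (-(1 / 4) * Real.log (2 * n / Real.log n) ^ 2) ≠ 0 := (Real.exp_pos _).ne'
  field_simp

end Pool.Agent.H244R2
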