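import Pool.Agent.H244R2.BipErr
import Pool.Agent.H244R2.GraphFinal

set_option autoImplicit false
set_option linter.unusedSectionVars false

namespace Pool.Agent.H244R2

open Finset Nat Filter Topology

section

variable {V W : Type*} [DecidableEq V] [DecidableEq W] [Fintype V] [Fintype W]

lemma sum_stab_eq2 (n : ℕ) :
    ∑ p : Equiv.Perm V × Equiv.Perm W,
      (((BG (univ : Finset V) (univ : Finset W) n).filter
        (fun E => act2 p.1 p.2 E = E)).card : ℝ)
      = ∑ E ∈ BG (univ : Finset V) (univ : Finset W) n,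
        (((univ : Finset (Equiv.Perm V × Equiv.Perm W)).filter
          (fun p => act2 p.1 p.2 E = E)).card : ℝ) := by
  simp only [card_filter]
  push_cast
  rw [Finset.sum_comm]

/-- total number of fixed pairs, upper bound -/
theorem fixed_pairs_le2 (n : ℕ) (hV : n ≤ Fintype.card V) (hW : n ≤ Fintype.card W)
    {G₁ G₂ ρ : ℝ} (hG₁ : 0 ≤ G₁) (hG₂ : 0 ≤ G₂) (hρ : 0 ≤ ρ)
    (hCC : ∀ (g : Equiv.Perm V) (h : Equiv.Perm W), ∑ E ∈ CC2 g h n, bSum (n - E.card) ≤
      G₁ * ρ ^ (g.support.card + h.support.card) + G₂) :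
    ∑ p : Equiv.Perm V × Equiv.Perm W,
      (((BG (univ : Finset V) (univ : Finset W) n).filter
        (fun E => act2 p.1 p.2 E = E)).card : ℝ) ≤
      ((Fintype.card V)! : ℝ) * ((Fintype.card W)! : ℝ) * (bSum n / Real.exp 1 ^ 2 +
        G₁ * ((1 + ∑ s ∈ Finset.Icc 2 (Fintype.card V), ρ ^ s) *
          (1 + ∑ s ∈ Finset.Icc 2 (Fintype.card W), ρ ^ s) - 1) +
        G₂ * ((1 + (Fintype.card V : ℝ)) * (1 + (Fintype.card W : ℝ)) - 1)) := by
  set K := Fintype.card V with hK
  set K' := Fintype.card W with hK'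
  rw [sum_stab_eq2]
  have h2 : ∑ E ∈ BG (univ : Finset V) (univ : Finset W) n,
        (((univ : Finset (Equiv.Perm V × Equiv.Perm W)).filter
          (fun p => act2 p.1 p.2 E = E)).card : ℝ) ≤
      ∑ E ∈ BG (univ : Finset V) (univ : Finset W) n,
        (((univ : Finset (Equiv.Perm V × Equiv.Perm W)).filter
        (fun p => act2 p.1 p.2 E = E ∧ p.1.support ⊆ P1 E ∧ p.2.support ⊆ P2 E)).card : ℝ) *
        (((K - (P1 E).card)! : ℝ) * ((K' - (P2 E).card)! : ℝ)) := by
    apply Finset.sum_le_sum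
    intro E _
    exact_mod_cast stab_upper2 E
  have h3 : ∑ E ∈ BG (univ : Finset V) (univ : Finset W) n,
        (((univ : Finset (Equiv.Perm V × Equiv.Perm W)).filter
        (fun p => act2 p.1 p.2 E = E ∧ p.1.support ⊆ P1 E ∧ p.2.support ⊆ P2 E)).card : ℝ) *
        (((K - (P1 E).card)! : ℝ) * ((K' - (P2 E).card)! : ℝ)) =
      ∑ p : Equiv.Perm V × Equiv.Perm W, ∑ E ∈ (BG (univ : Finset V) (univ : Finset W) n).filter
        (fun E => act2 p.1 p.2 E = E ∧ p.1.support ⊆ P1 E ∧ p.2.support ⊆ P2 E),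
          ((K - (P1 E).card)! : ℝ) * ((K' - (P2 E).card)! : ℝ) := by
    simp only [card_filter]
    push_cast
    simp_rw [Finset.sum_mul, Finset.sum_filter]
    rw [Finset.sum_comm]
    apply Finset.sum_congr rfl
    intro τ _
    apply Finset.sum_congr rfl
    intro E _
    split_ifs <;> simp
  have h4 : ∑ p : Equiv.Perm V × Equiv.Perm W,
      ∑ E ∈ (BG (univ : Finset V) (univ : Finset W) n).filter
        (fun E => act2 p.1 p.2 E = E ∧ p.1.support ⊆ P1 E ∧ p.2.support ⊆ P2 E),
          ((K - (P1 E).card)! : ℝ) * ((K' - (P2 E).card)! : ℝ) =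
      ∑ E ∈ BG (univ : Finset V) (univ : Finset W) n,
          ((K - (P1 E).card)! : ℝ) * ((K' - (P2 E).card)! : ℝ) +
      ∑ p ∈ (univ : Finset (Equiv.Perm V × Equiv.Perm W)).erase 1,
        ∑ E ∈ (BG (univ : Finset V) (univ : Finset W) n).filter
        (fun E => act2 p.1 p.2 E = E ∧ p.1.support ⊆ P1 E ∧ p.2.support ⊆ P2 E),
          ((K - (P1 E).card)! : ℝ) * ((K' - (P2 E).card)! : ℝ) := by
    rw [← Finset.add_sum_erase _ _ (mem_univ (1 : Equiv.Perm V × Equiv.Perm W))]
    congr 1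
    apply Finset.sum_congr _ (fun _ _ => rfl)
    rw [Finset.filter_eq_self]
    intro E _
    refine ⟨act2_eq_of_fix (fun _ _ => rfl) (fun _ _ => rfl), by simp, by simp⟩
  have h5 := main_sum2 (univ : Finset V) (univ : Finset W) n (by rw [Finset.card_univ]; exact hV)
    (by rw [Finset.card_univ]; exact hW)
  rw [Finset.card_univ, Finset.card_univ, ← hK, ← hK'] at h5
  have h6 : ∑ p ∈ (univ : Finset (Equiv.Perm V × Equiv.Perm W)).erase 1,
        ∑ E ∈ (BG (univ : Finset V) (univ : Finset W) n).filter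
        (fun E => act2 p.1 p.2 E = E ∧ p.1.support ⊆ P1 E ∧ p.2.support ⊆ P2 E),
          ((K - (P1 E).card)! : ℝ) * ((K' - (P2 E).card)! : ℝ) ≤
      ∑ p ∈ (univ : Finset (Equiv.Perm V × Equiv.Perm W)).erase 1,
        ((K - p.1.support.card)! : ℝ) * ((K' - p.2.support.card)! : ℝ) *
        (G₁ * ρ ^ (p.1.support.card + p.2.support.card)) +
      ∑ p ∈ (univ : Finset (Equiv.Perm V × Equiv.Perm W)).erase 1,
        ((K - p.1.support.card)! : ℝ) * ((K' - p.2.support.card)! : ℝ) *
        (G₂ * 1 ^ (p.1.support.card + p.2.support.card)) := by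
    rw [← Finset.sum_add_distrib]
    apply Finset.sum_le_sum
    intro p _
    refine (perm_contrib2 p.1 p.2 n).trans ?_
    rw [← mul_add, one_pow, mul_one]
    exact mul_le_mul_of_nonneg_left (hCC p.1 p.2) (by positivity)
  have h7 := sum_perm_le2 (V := V) (W := W) G₁ ρ hρ hG₁
  have h8 := sum_perm_le2 (V := V) (W := W) G₂ 1 zero_le_one hG₂
  rw [← hK, ← hK'] at h7 h8
  have h9 : (1 + ∑ s ∈ Finset.Icc 2 K, (1:ℝ) ^ s) * (1 + ∑ s ∈ Finset.Icc 2 K', (1:ℝ) ^ s) - 1 ≤
      (1 + (K : ℝ)) * (1 + (K' : ℝ)) - 1 := by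
    have h10 : ∀ M : ℕ, ∑ s ∈ Finset.Icc 2 M, (1:ℝ) ^ s ≤ M := by
      intro M
      simp only [one_pow, sum_const, Nat.card_Icc, nsmul_eq_mul, mul_one]
      exact_mod_cast (by omega : M + 1 - 2 ≤ M)
    have h11 := h10 K
    have h12 := h10 K'
    have h13 : 0 ≤ ∑ s ∈ Finset.Icc 2 K', (1:ℝ) ^ s := Finset.sum_nonneg (fun _ _ => by positivity)
    have : (1 + ∑ s ∈ Finset.Icc 2 K, (1:ℝ) ^ s) * (1 + ∑ s ∈ Finset.Icc 2 K', (1:ℝ) ^ s) ≤
      (1 + (K : ℝ)) * (1 + (K' : ℝ)) := by gcongr
    linarith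
  have h10 := mul_le_mul_of_nonneg_left h9 hG₂
  have h11 : 0 ≤ (K ! : ℝ) * (K' ! : ℝ) := by positivity
  have h12 := mul_le_mul_of_nonneg_left h10 h11
  calc _ ≤ _ := h2
    _ = _ := h3
    _ = _ := h4
    _ ≤ _ := by
        rw [h5]
        refine (_root_.add_le_add le_rfl (h6.trans (_root_.add_le_add h7 (h8.trans h12)))).trans
          (le_of_eq ?_)
        ring

/-- total number of fixed pairs, lower bound -/
theorem fixed_pairs_ge2 (n : ℕ) (hV : n ≤ Fintype.card V) (hW : n ≤ Fintype.card W) :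
    ((Fintype.card V)! : ℝ) * ((Fintype.card W)! : ℝ) * (bSum n / Real.exp 1 ^ 2) ≤
    ∑ p : Equiv.Perm V × Equiv.Perm W,
      (((BG (univ : Finset V) (univ : Finset W) n).filter
        (fun E => act2 p.1 p.2 E = E)).card : ℝ) := by
  rw [sum_stab_eq2]
  have h5 := main_sum2 (univ : Finset V) (univ : Finset W) n (by rw [Finset.card_univ]; exact hV)
    (by rw [Finset.card_univ]; exact hW)
  rw [Finset.card_univ, Finset.card_univ] at h5
  rw [← h5]
  apply Finset.sum_le_sum
  intro E _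
  exact_mod_cast stab_lower2 E

lemma QQ_image (g : Equiv.Perm V) (h : Equiv.Perm W) :
    (QQ g.support h.support).image (Equiv.prodCongr g h) = QQ g.support h.support := by
  ext e
  simp only [QQ, mem_image, mem_filter, mem_univ, true_and]
  constructor
  · rintro ⟨f, hf, rfl⟩
    simp only [Equiv.prodCongr_apply, Prod.map]
    rw [Equiv.Perm.apply_mem_support, Equiv.Perm.apply_mem_support]; exact hf
  · intro he
    refine ⟨(g.symm e.1, h.symm e.2), ?_, by simp⟩
    have h1 : g.symm e.1 ∈ g.support ↔ e.1 ∈ g.support := by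
      rw [← Equiv.Perm.apply_mem_support, Equiv.apply_symm_apply]
    have h2 : h.symm e.2 ∈ h.support ↔ e.2 ∈ h.support := by
      rw [← Equiv.Perm.apply_mem_support, Equiv.apply_symm_apply]
    simp only
    rw [h1, h2]
    exact he

lemma card_QQ_le (A : Finset V) (B : Finset W) :
    (QQ A B).card ≤ A.card * Fintype.card W + Fintype.card V * B.card := by
  calc (QQ A B).card ≤ (A ×ˢ (univ : Finset W) ∪ (univ : Finset V) ×ˢ B).card := by
        apply card_le_card
        intro e he
        simp only [QQ, mem_filter, mem_univ, true_and] at he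
        rw [mem_union, mem_product, mem_product]
        rcases he with h | h
        · exact Or.inl ⟨h, mem_univ _⟩
        · exact Or.inr ⟨mem_univ _, h⟩
    _ ≤ _ := card_union_le _ _
    _ = _ := by rw [card_product, card_product, Finset.card_univ, Finset.card_univ]

/-- generating function of invariant cell sets -/
lemma inv_bound2 (g : Equiv.Perm V) (h : Equiv.Perm W) {K : ℕ} (hV : Fintype.card V = K)
    (hW : Fintype.card W = K) {z : ℝ} (hz : 0 ≤ z) :
    ∑ E ∈ invSets (Equiv.prodCongr g h) (QQ g.support h.support), z ^ E.card ≤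
      Real.exp ((g.support.card + h.support.card : ℕ) * (K * z ^ 2 / 2)) := by
  refine (invSets_sum_le (Equiv.prodCongr g h) hz _ (QQ_image g h)).trans ?_
  have hfix : ((QQ g.support h.support).filter (fun e => (Equiv.prodCongr g h) e = e)) = ∅ := by
    rw [filter_eq_empty_iff]
    intro e he hcon
    simp only [QQ, mem_filter, mem_univ, true_and] at he
    simp only [Equiv.prodCongr_apply, Prod.map] at hcon
    rcases he with h1 | h1
    · exact (Equiv.Perm.mem_support.1 h1) (congrArg Prod.fst hcon)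
    · exact (Equiv.Perm.mem_support.1 h1) (congrArg Prod.snd hcon)
  rw [hfix, card_empty, pow_zero, one_mul]
  have hsq : Real.sqrt (1 + z ^ 2) ≤ Real.exp (z ^ 2 / 2) := by
    rw [Real.sqrt_le_left (Real.exp_pos _).le, ← Real.exp_nat_mul]
    have := Real.add_one_le_exp (z ^ 2)
    have h : ((2:ℕ):ℝ) * (z ^ 2 / 2) = z ^ 2 := by push_cast; ring
    rw [h]; linarith
  have hsq1 : 1 ≤ Real.sqrt (1 + z ^ 2) := by
    rw [Real.one_le_sqrt]
    nlinarith [sq_nonneg z]
  have hc : ((QQ g.support h.support).filter (fun e => (Equiv.prodCongr g h) e ≠ e)).card ≤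
      (g.support.card + h.support.card) * K := by
    refine (card_filter_le _ _).trans ((card_QQ_le _ _).trans ?_)
    rw [hV, hW]
    apply le_of_eq; ring
  calc _ ≤ (Real.sqrt (1 + z ^ 2)) ^ ((g.support.card + h.support.card) * K) :=
          pow_le_pow_right₀ hsq1 hc
    _ ≤ (Real.exp (z ^ 2 / 2)) ^ ((g.support.card + h.support.card) * K) :=
          pow_le_pow_left₀ (Real.sqrt_nonneg _) hsq _
    _ = _ := by
          rw [← Real.exp_nat_mul]; congr 1; push_cast; ring

set_option maxHeartbeats 1000000 in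
/-- the contribution of a pair of permutations, estimated -/
lemma CC2_sum_le (g : Equiv.Perm V) (h : Equiv.Perm W) {K : ℕ} (hV : Fintype.card V = K)
    (hW : Fintype.card W = K) (n : ℕ) {z v z₁ : ℝ} (hz : 0 < z) (hv : 1 ≤ v) (hz₁ : 0 < z₁)
    (M₀ : ℕ) (hM₀ : ∀ N, M₀ ≤ N → n ≤ N ∧
      (n : ℝ) ≤ (z / v ^ 2) * ((N : ℝ) - n + 1)) :
    ∑ E ∈ CC2 g h n, bSum (n - E.card) ≤
      (v⁻¹) ^ (g.support.card + h.support.card) *
        Real.exp ((g.support.card + h.support.card : ℕ) * (K * z ^ 2 / 2)) * bSum n +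
      Real.exp 1 ^ 2 * ((z₁⁻¹) ^ n * (1 + z₁) ^ M₀ *
        Real.exp ((g.support.card + h.support.card : ℕ) * (K * z₁ ^ 2 / 2))) := by
  set s := g.support.card + h.support.card with hs
  set G := Real.exp ((s : ℕ) * (K * z ^ 2 / 2)) with hG
  set G₁ := Real.exp ((s : ℕ) * (K * z₁ ^ 2 / 2)) with hG₁
  have hv0 : 0 < v := by linarith
  have hx0 : 0 ≤ z / v ^ 2 := by positivity
  have hCCsub : CC2 g h n ⊆ invSets (Equiv.prodCongr g h) (QQ g.support h.support) :=
    filter_subset _ _
  have hinv := inv_bound2 g h hV hW hz.le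
  have hinv₁ := inv_bound2 g h hV hW hz₁.le
  rw [← hs] at hinv hinv₁
  -- pointwise
  have key : ∀ r : ℕ × ℕ, ∑ E ∈ CC2 g h n, bTerm (n - E.card) r ≤
      (v⁻¹) ^ s * G * bTerm n r + ((z₁⁻¹) ^ n * (1 + z₁) ^ M₀ * G₁) *
        ((1 / (r.1 ! : ℝ)) * (1 / (r.2 ! : ℝ))) := by
    intro r
    by_cases hr : M₀ ≤ r.1 * r.2
    · obtain ⟨h1, h2⟩ := hM₀ _ hr
      have h3 : ∑ E ∈ CC2 g h n, bTerm (n - E.card) r ≤ (v⁻¹) ^ s * G * bTerm n r := by
        calc ∑ E ∈ CC2 g h n, bTerm (n - E.card) r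
            ≤ ∑ E ∈ CC2 g h n, (bTerm n r * (v⁻¹) ^ s) * z ^ E.card := by
              apply Finset.sum_le_sum
              intro E hE
              simp only [CC2, mem_filter] at hE
              obtain ⟨_, hE2, hE3⟩ := hE
              have h4 := choose_sub_le hx0 h2 h1 E.card hE3
              unfold bTerm
              have h5 : (z / v ^ 2) ^ E.card ≤ (v⁻¹) ^ s * z ^ E.card := by
                rw [div_pow, ← pow_mul, div_eq_mul_inv, mul_comm, inv_pow]
                apply mul_le_mul_of_nonneg_right _ (by positivity)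
                apply inv_anti₀ (by positivity)
                exact pow_le_pow_right₀ hv hE2
              calc (((r.1 * r.2).choose (n - E.card) : ℕ) : ℝ) / ((r.1 ! : ℝ) * (r.2 ! : ℝ))
                  ≤ (((r.1 * r.2).choose n : ℝ) * ((v⁻¹) ^ s * z ^ E.card)) /
                    ((r.1 ! : ℝ) * (r.2 ! : ℝ)) := by
                    gcongr
                    exact h4.trans (by gcongr)
                _ = _ := by ring
          _ = (bTerm n r * (v⁻¹) ^ s) * ∑ E ∈ CC2 g h n, z ^ E.card := by rw [Finset.mul_sum]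
          _ ≤ (bTerm n r * (v⁻¹) ^ s) * G := by
              apply mul_le_mul_of_nonneg_left
              · refine le_trans ?_ hinv
                apply Finset.sum_le_sum_of_subset_of_nonneg hCCsub
                intros; positivity
              · have := bTerm_nonneg n r
                positivity
          _ = _ := by ring
      have h6 : 0 ≤ ((z₁⁻¹) ^ n * (1 + z₁) ^ M₀ * G₁) *
        ((1 / (r.1 ! : ℝ)) * (1 / (r.2 ! : ℝ))) := by positivity
      linarith
    · push Not at hr
      have h3 : ∑ E ∈ CC2 g h n, bTerm (n - E.card) r ≤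
          ((z₁⁻¹) ^ n * (1 + z₁) ^ M₀ * G₁) *
        ((1 / (r.1 ! : ℝ)) * (1 / (r.2 ! : ℝ))) := by
        calc ∑ E ∈ CC2 g h n, bTerm (n - E.card) r
            ≤ ∑ E ∈ CC2 g h n, ((z₁⁻¹) ^ n * (1 + z₁) ^ M₀ *
                ((1 / (r.1 ! : ℝ)) * (1 / (r.2 ! : ℝ)))) * z₁ ^ E.card := by
              apply Finset.sum_le_sum
              intro E hE
              simp only [CC2, mem_filter] at hE
              obtain ⟨_, hE2, hE3⟩ := hE
              have h4 := choose_mul_pow_le (r.1 * r.2) (n - E.card) hz₁.le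
              have h5 : (1 + z₁) ^ (r.1 * r.2) ≤ (1 + z₁) ^ M₀ :=
                pow_le_pow_right₀ (by linarith) hr.le
              have h6 : (((r.1 * r.2).choose (n - E.card) : ℕ) : ℝ) ≤
                  (z₁⁻¹) ^ n * (1 + z₁) ^ M₀ * z₁ ^ E.card := by
                have h7 : (z₁⁻¹) ^ n * z₁ ^ E.card = (z₁ ^ (n - E.card))⁻¹ := by
                  rw [inv_pow]
                  have : z₁ ^ n = z₁ ^ (n - E.card) * z₁ ^ E.card := by
                    rw [← pow_add]; congr 1; omega
                  rw [this]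
                  field_simp
                calc (((r.1 * r.2).choose (n - E.card) : ℕ) : ℝ)
                    ≤ (1 + z₁) ^ M₀ * (z₁ ^ (n - E.card))⁻¹ := by
                      rw [← div_eq_mul_inv, le_div_iff₀ (by positivity)]
                      exact h4.trans h5
                  _ = _ := by rw [← h7]; ring
              unfold bTerm
              calc (((r.1 * r.2).choose (n - E.card) : ℕ) : ℝ) / ((r.1 ! : ℝ) * (r.2 ! : ℝ))
                  ≤ ((z₁⁻¹) ^ n * (1 + z₁) ^ M₀ * z₁ ^ E.card) / ((r.1 ! : ℝ) * (r.2 ! : ℝ)) := by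
                    gcongr
                _ = _ := by
                    have hf1 : (r.1 ! : ℝ) ≠ 0 := by positivity
                    have hf2 : (r.2 ! : ℝ) ≠ 0 := by positivity
                    field_simp
          _ = ((z₁⁻¹) ^ n * (1 + z₁) ^ M₀ * ((1 / (r.1 ! : ℝ)) * (1 / (r.2 ! : ℝ)))) *
                ∑ E ∈ CC2 g h n, z₁ ^ E.card := by rw [Finset.mul_sum]
          _ ≤ ((z₁⁻¹) ^ n * (1 + z₁) ^ M₀ * ((1 / (r.1 ! : ℝ)) * (1 / (r.2 ! : ℝ)))) * G₁ := by
              apply mul_le_mul_of_nonneg_left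
              · refine le_trans ?_ hinv₁
                apply Finset.sum_le_sum_of_subset_of_nonneg hCCsub
                intros; positivity
              · positivity
          _ = _ := by ring
      have h6 : 0 ≤ (v⁻¹) ^ s * G * bTerm n r := by
        have := bTerm_nonneg n r
        positivity
      linarith
  have hE : Summable (fun k : ℕ => (1:ℝ) / (k ! : ℝ)) := by
    have := Real.summable_pow_div_factorial 1
    refine this.congr (fun k => ?_)
    rw [one_pow]
  have hE1 : ∑' k : ℕ, (1:ℝ) / (k ! : ℝ) = Real.exp 1 := by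
    rw [Real.exp_eq_exp_ℝ, NormedSpace.exp_eq_tsum_div]
    simp
  have hE2 : Summable (fun r : ℕ × ℕ => (1 / (r.1 ! : ℝ)) * (1 / (r.2 ! : ℝ))) :=
    hE.mul_of_nonneg hE (fun _ => by positivity) (fun _ => by positivity)
  have hE3 : ∑' r : ℕ × ℕ, (1 / (r.1 ! : ℝ)) * (1 / (r.2 ! : ℝ)) = Real.exp 1 ^ 2 := by
    have := hE.tsum_mul_tsum hE hE2
    rw [← this, hE1, sq]
  have hsum1 : Summable (fun r => ∑ E ∈ CC2 g h n, bTerm (n - E.card) r) :=
    summable_sum (f := fun (E : Finset (V × W)) r => bTerm (n - E.card) r)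
      (fun E _ => summable_bTerm (n - E.card))
  have hsum2 : Summable (fun r : ℕ × ℕ => (v⁻¹) ^ s * G * bTerm n r +
      ((z₁⁻¹) ^ n * (1 + z₁) ^ M₀ * G₁) * ((1 / (r.1 ! : ℝ)) * (1 / (r.2 ! : ℝ)))) :=
    ((summable_bTerm n).mul_left _).add (hE2.mul_left _)
  calc ∑ E ∈ CC2 g h n, bSum (n - E.card) = ∑' r, ∑ E ∈ CC2 g h n, bTerm (n - E.card) r := by
        exact (Summable.tsum_finsetSum (s := CC2 g h n)
          (f := fun (E : Finset (V × W)) r => bTerm (n - E.card) r)
          (fun E _ => summable_bTerm (n - E.card))).symm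
    _ ≤ ∑' r : ℕ × ℕ, ((v⁻¹) ^ s * G * bTerm n r +
      ((z₁⁻¹) ^ n * (1 + z₁) ^ M₀ * G₁) * ((1 / (r.1 ! : ℝ)) * (1 / (r.2 ! : ℝ)))) := by
        exact Summable.tsum_le_tsum key hsum1 hsum2
    _ = _ := by
        rw [Summable.tsum_add ((summable_bTerm n).mul_left _) (hE2.mul_left _), tsum_mul_left,
          tsum_mul_left, hE3]
        unfold bSum
        ring

end

end Pool.Agent.H244R2
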