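import Pool.Agent.H244R2.BipErr2

set_option autoImplicit false

namespace Pool.Agent.H244R2

open Finset Nat Filter Topology

lemma bSum_nonneg (n : ℕ) : 0 ≤ bSum n := tsum_nonneg (bTerm_nonneg n)

/-- lower bound for the main sum -/
lemma bSum_lower : ∀ᶠ n : ℕ in atTop, Real.exp (14 * (n * Real.log (tt n))) ≤ bSum n := by
  have h1 : Tendsto (fun n => Real.log (tt n)) atTop atTop := Real.tendsto_log_atTop.comp tt_tendsto
  filter_upwards [tt_tendsto.eventually_ge_atTop 10, h1.eventually_ge_atTop 4,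
    eventually_gt_atTop 0] with n ht hlog hn
  set t := tt n with htd
  have hnt : (n:ℝ) = t ^ 20 := (tt_pow n).symm
  have ht0 : 0 < t := by linarith
  have hn0 : (0:ℝ) < n := by exact_mod_cast hn
  set r := ⌈t ^ 18⌉₊ with hr
  have hr1 : t ^ 18 ≤ r := Nat.le_ceil _
  have ht18 : (1:ℝ) ≤ t ^ 18 := one_le_pow₀ (by linarith)
  have hr2 : (r:ℝ) ≤ 2 * t ^ 18 := by
    have := Nat.ceil_lt_add_one (show 0 ≤ t ^ 18 by positivity)
    linarith
  have hrpos : (0:ℝ) < r := by linarith
  set N := r * r with hN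
  have hN1 : t ^ 36 ≤ (N:ℝ) := by
    rw [hN]
    push_cast
    have h3 : t ^ 36 = t ^ 18 * t ^ 18 := by ring
    rw [h3]
    gcongr
  have h20 : t ^ 20 * 8 ≤ t ^ 36 := by
    have h16 : (8:ℝ) ≤ t ^ 16 := by
      have : t ≤ t ^ 16 := le_self_pow₀ (by linarith) (by norm_num)
      linarith
    calc t ^ 20 * 8 ≤ t ^ 20 * t ^ 16 := by gcongr
      _ = t ^ 36 := by ring
  have hnN : n ≤ N := by
    have : (n:ℝ) ≤ N := by rw [hnt]; nlinarith [pow_pos ht0 20]
    exact_mod_cast this
  have hch : (t ^ 16 / 8) ^ n ≤ (N.choose n : ℝ) := by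
    have h2 : ((N + 1 - n : ℕ) ^ n : ℝ) ≤ (n ! : ℝ) * (N.choose n : ℝ) := by
      have h3 := Nat.pow_sub_le_descFactorial N n
      rw [Nat.descFactorial_eq_factorial_mul_choose] at h3
      exact_mod_cast h3
    have h3 : t ^ 36 / 8 ≤ ((N + 1 - n : ℕ) : ℝ) := by
      rw [Nat.cast_sub (by omega)]
      push_cast
      rw [hnt]
      nlinarith [pow_pos ht0 20]
    have h4 : (n ! : ℝ) ≤ (n:ℝ) ^ n := by exact_mod_cast Nat.factorial_le_pow n
    have h5 : (t ^ 36 / 8) ^ n ≤ (n:ℝ) ^ n * (N.choose n : ℝ) := by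
      calc (t ^ 36 / 8) ^ n ≤ ((N + 1 - n : ℕ) ^ n : ℝ) := by
            apply pow_le_pow_left₀ (by positivity) h3
        _ ≤ (n ! : ℝ) * (N.choose n : ℝ) := h2
        _ ≤ _ := by gcongr
    have h6 : t ^ 36 / 8 = (n:ℝ) * (t ^ 16 / 8) := by rw [hnt]; ring
    rw [h6, mul_pow] at h5
    exact le_of_mul_le_mul_left h5 (by positivity)
  have hfac : (r ! : ℝ) ≤ Real.exp (38 * (t ^ 18 * Real.log t)) := by
    calc (r ! : ℝ) ≤ (r:ℝ) ^ r := by exact_mod_cast Nat.factorial_le_pow r
      _ = Real.exp (r * Real.log r) := by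
          rw [mul_comm, Real.exp_mul, Real.exp_log hrpos, Real.rpow_natCast]
      _ ≤ Real.exp (38 * (t ^ 18 * Real.log t)) := by
          apply Real.exp_le_exp.2
          have h2 : Real.log r ≤ 19 * Real.log t := by
            calc Real.log r ≤ Real.log (t ^ 19) := by
                  apply Real.log_le_log hrpos
                  calc (r:ℝ) ≤ 2 * t ^ 18 := hr2
                    _ ≤ t * t ^ 18 := by gcongr; linarith
                    _ = t ^ 19 := by ring
              _ = 19 * Real.log t := by rw [Real.log_pow]; norm_num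
          have h3 : 0 ≤ Real.log t := by linarith
          calc (r:ℝ) * Real.log r ≤ (2 * t ^ 18) * (19 * Real.log t) := by
                apply mul_le_mul hr2 h2 _ (by positivity)
                apply Real.log_nonneg
                linarith
            _ = _ := by ring
  have hg : (N.choose n : ℝ) / ((r ! : ℝ) * (r ! : ℝ)) ≤ bSum n :=
    (summable_bTerm n).le_tsum (r, r) (fun j _ => bTerm_nonneg n j)
  refine le_trans ?_ hg
  rw [le_div_iff₀ (by positivity)]
  refine le_trans ?_ hch
  have h8 : t ^ 16 / 8 = Real.exp (16 * Real.log t - Real.log 8) := by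
    rw [Real.exp_sub, Real.exp_log (by norm_num : (0:ℝ) < 8)]
    congr 1
    rw [← Real.log_rpow ht0, Real.exp_log (by positivity)]
    norm_cast
  calc Real.exp (14 * (n * Real.log t)) * ((r ! : ℝ) * (r ! : ℝ))
      ≤ Real.exp (14 * (n * Real.log t)) * (Real.exp (38 * (t ^ 18 * Real.log t)) *
          Real.exp (38 * (t ^ 18 * Real.log t))) := by gcongr
    _ = Real.exp (14 * (n * Real.log t) + 76 * (t ^ 18 * Real.log t)) := by
        rw [← Real.exp_add, ← Real.exp_add]; congr 1; ring
    _ ≤ Real.exp (n * (16 * Real.log t - Real.log 8)) := by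
        apply Real.exp_le_exp.2
        have hl8 : Real.log 8 ≤ 3 := by
          have : Real.log 8 = 3 * Real.log 2 := by
            rw [show (8:ℝ) = 2 ^ 3 by norm_num, Real.log_pow]; norm_num
          rw [this]
          linarith [Real.log_two_lt_d9]
        have h9 : t ^ 18 * 100 ≤ n := by
          rw [hnt]
          have : (100:ℝ) ≤ t ^ 2 := by nlinarith
          calc t ^ 18 * 100 ≤ t ^ 18 * t ^ 2 := by gcongr
            _ = _ := by ring
        have h10 : 76 * (t ^ 18 * Real.log t) ≤ n * Real.log t := by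
          have h11 : 0 ≤ t ^ 18 * Real.log t := by positivity
          have h12 : t ^ 18 * 100 * Real.log t ≤ n * Real.log t := by gcongr
          nlinarith
        have h13 : (n:ℝ) * Real.log 8 ≤ n * 3 := by gcongr
        have h14 : (n:ℝ) * 4 ≤ n * Real.log t := by gcongr
        nlinarith
    _ = (t ^ 16 / 8) ^ n := by rw [h8, ← Real.exp_nat_mul]

/-- ratio parameter -/
noncomputable def rhoB (n : ℕ) : ℝ := Real.exp 2 / (tt n / 3)

/-- second error term -/
noncomputable def GB (n : ℕ) : ℝ :=
  Real.exp 1 ^ 2 * Real.exp (12 * (n * Real.log (tt n)) + 4 * n)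

lemma CC2_le : ∀ᶠ n : ℕ in atTop, ∀ g h : Equiv.Perm (Fin n),
    ∑ E ∈ CC2 g h n, bSum (n - E.card) ≤
      bSum n * rhoB n ^ (g.support.card + h.support.card) + GB n := by
  filter_upwards [tt_tendsto.eventually_ge_atTop 10, eventually_gt_atTop 0] with n ht hn
  intro g h
  set t := tt n with htd
  have hnt : (n:ℝ) = t ^ 20 := (tt_pow n).symm
  have ht0 : 0 < t := by linarith
  have hn0 : (0:ℝ) < n := by exact_mod_cast hn
  have hmain := CC2_sum_le g h (Fintype.card_fin n) (Fintype.card_fin n) n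
    (z := (t ^ 10)⁻¹) (v := t / 3) (z₁ := (t ^ 12)⁻¹) (by positivity)
    (by linarith) (by positivity) ⌈t ^ 32⌉₊ (by
      intro N hN
      have hN1 : t ^ 32 ≤ N := (Nat.le_ceil _).trans (by exact_mod_cast hN)
      have h20 : t ^ 20 * 10 ≤ t ^ 32 := by
        have h16 : (10:ℝ) ≤ t ^ 12 := by
          have : t ≤ t ^ 12 := le_self_pow₀ (by linarith) (by norm_num)
          linarith
        calc t ^ 20 * 10 ≤ t ^ 20 * t ^ 12 := by gcongr
          _ = t ^ 32 := by ring
      constructor
      · have : (n:ℝ) ≤ N := by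
          rw [hnt]
          nlinarith [pow_pos ht0 20]
        exact_mod_cast this
      · have h5 : t ^ 32 / 9 ≤ (N:ℝ) - n + 1 := by
          rw [hnt]
          nlinarith [pow_pos ht0 20]
        calc (n:ℝ) = (t ^ 10)⁻¹ / (t / 3) ^ 2 * (t ^ 32 / 9) := by
              rw [hnt]; field_simp
              norm_num
          _ ≤ _ := by gcongr)
  refine hmain.trans ?_
  unfold GB rhoB
  rw [← htd]
  have hsn : g.support.card + h.support.card ≤ 2 * n := by
    have h1 := card_le_univ g.support
    have h2 := card_le_univ h.support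
    rw [Fintype.card_fin] at h1 h2
    omega
  set s := g.support.card + h.support.card with hs
  have hs0 : (0:ℝ) ≤ s := by positivity
  have hsn' : (s:ℝ) ≤ 2 * n := by exact_mod_cast hsn
  apply _root_.add_le_add
  · rw [mul_comm (bSum n)]
    apply mul_le_mul_of_nonneg_right _ (bSum_nonneg n)
    rw [div_pow, ← Real.exp_nat_mul, inv_pow, mul_comm, div_eq_mul_inv]
    apply mul_le_mul_of_nonneg_right _ (by positivity)
    apply Real.exp_le_exp.2
    apply mul_le_mul_of_nonneg_left _ hs0
    rw [hnt]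
    have h7 : t ^ 20 * ((t ^ 10)⁻¹) ^ 2 / 2 = 1 / 2 := by
      field_simp
    linarith
  · apply mul_le_mul_of_nonneg_left _ (by positivity)
    rw [inv_inv]
    have h8 : (t ^ 12) ^ n = Real.exp (12 * (n * Real.log t)) := by
      have : (12 * (n * Real.log t)) = n * (12 * Real.log t) := by ring
      rw [this, Real.exp_nat_mul]
      congr 1
      rw [← Real.log_rpow ht0, Real.exp_log (by positivity)]
      norm_cast
    have h9 : (1 + (t ^ 12)⁻¹) ^ ⌈t ^ 32⌉₊ ≤ Real.exp (2 * n) := by
      have hR : (⌈t ^ 32⌉₊ : ℝ) ≤ 2 * t ^ 32 := by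
        have := Nat.ceil_lt_add_one (show 0 ≤ t ^ 32 by positivity)
        have h1 : (1:ℝ) ≤ t ^ 32 := one_le_pow₀ (by linarith)
        linarith
      calc (1 + (t ^ 12)⁻¹) ^ ⌈t ^ 32⌉₊
          ≤ (Real.exp ((t ^ 12)⁻¹)) ^ ⌈t ^ 32⌉₊ := by
            apply pow_le_pow_left₀ (by positivity)
            linarith [Real.add_one_le_exp ((t ^ 12)⁻¹)]
        _ = Real.exp ((⌈t ^ 32⌉₊ : ℕ) * (t ^ 12)⁻¹) := by rw [← Real.exp_nat_mul]
        _ ≤ Real.exp (2 * n) := by
            apply Real.exp_le_exp.2
            calc (⌈t ^ 32⌉₊ : ℝ) * (t ^ 12)⁻¹ ≤ (2 * t ^ 32) * (t ^ 12)⁻¹ := by gcongr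
              _ = 2 * n := by rw [hnt]; field_simp
    have h10 : Real.exp ((s : ℕ) * ((n : ℕ) * ((t ^ 12)⁻¹) ^ 2 / 2)) ≤ Real.exp (2 * n) := by
      apply Real.exp_le_exp.2
      have h11 : (n : ℝ) * ((t ^ 12)⁻¹) ^ 2 / 2 ≤ 1 := by
        rw [hnt]
        have : t ^ 20 * ((t ^ 12)⁻¹) ^ 2 / 2 = (t ^ 4)⁻¹ / 2 := by field_simp
        rw [this]
        have : (t ^ 4)⁻¹ ≤ 1 := by
          apply inv_le_one_of_one_le₀
          exact one_le_pow₀ (by linarith)
        linarith
      have h12 : 0 ≤ (n : ℝ) * ((t ^ 12)⁻¹) ^ 2 / 2 := by positivity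
      nlinarith
    have h13 : 12 * (n * Real.log t) + 4 * n = 12 * (n * Real.log t) + 2 * n + 2 * n := by ring
    rw [h8, h13, Real.exp_add, Real.exp_add]
    gcongr

/-- sets of cells fixed by an element of the non-trivial coset -/
lemma swap_fixed_le {K n : ℕ} (g h : Equiv.Perm (Fin K)) {z : ℝ} (hz : 0 < z) :
    ((((univ : Finset (Fin K × Fin K)).powersetCard n).filter
      (fun E => E.image (Equiv.prodCongr g h * Equiv.prodComm (Fin K) (Fin K) :
        Equiv.Perm (Fin K × Fin K)) = E)).card : ℝ) ≤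
      (z⁻¹) ^ n * Real.exp (K * z + (K:ℝ) ^ 2 * z ^ 2 / 2) := by
  set π : Equiv.Perm (Fin K × Fin K) := Equiv.prodCongr g h * Equiv.prodComm (Fin K) (Fin K) with hπ
  have h1 := invSets_sum_le π hz.le (univ : Finset (Fin K × Fin K)) (by
    ext e
    simp only [mem_image, mem_univ, true_and, iff_true]
    exact ⟨π.symm e, by simp⟩)
  have hfix : ((univ : Finset (Fin K × Fin K)).filter (fun a => π a = a)).card ≤ K := by
    calc ((univ : Finset (Fin K × Fin K)).filter (fun a => π a = a)).card
        ≤ (univ : Finset (Fin K)).card := by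
          apply card_le_card_of_injOn (fun e => e.1)
          · intro e _
            exact mem_coe.2 (mem_univ _)
          · intro e he f hf hef
            simp only [coe_filter, mem_univ, true_and, Set.mem_ofPred_eq] at he hf
            simp only at hef
            have h2 : h e.1 = e.2 := by
              have := congrArg Prod.snd he
              simpa [hπ] using this
            have h3 : h f.1 = f.2 := by
              have := congrArg Prod.snd hf
              simpa [hπ] using this
            rw [Prod.ext_iff]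
            exact ⟨hef, by rw [← h2, ← h3, hef]⟩
      _ = K := by rw [Finset.card_univ, Fintype.card_fin]
  have hsq : Real.sqrt (1 + z ^ 2) ≤ Real.exp (z ^ 2 / 2) := by
    rw [Real.sqrt_le_left (Real.exp_pos _).le, ← Real.exp_nat_mul]
    have := Real.add_one_le_exp (z ^ 2)
    have h : ((2:ℕ):ℝ) * (z ^ 2 / 2) = z ^ 2 := by push_cast; ring
    rw [h]; linarith
  have hsq1 : 1 ≤ Real.sqrt (1 + z ^ 2) := by
    rw [Real.one_le_sqrt]
    nlinarith [sq_nonneg z]
  have h2 : (1 + z) ^ ((univ : Finset (Fin K × Fin K)).filter (fun a => π a = a)).card ≤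
      Real.exp (K * z) := by
    calc _ ≤ (1 + z) ^ K := pow_le_pow_right₀ (by linarith) hfix
      _ ≤ (Real.exp z) ^ K := by
          apply pow_le_pow_left₀ (by linarith)
          linarith [Real.add_one_le_exp z]
      _ = Real.exp (K * z) := by rw [← Real.exp_nat_mul]
  have h3 : (Real.sqrt (1 + z ^ 2)) ^
      ((univ : Finset (Fin K × Fin K)).filter (fun a => π a ≠ a)).card ≤
      Real.exp ((K:ℝ) ^ 2 * z ^ 2 / 2) := by
    have hc : ((univ : Finset (Fin K × Fin K)).filter (fun a => π a ≠ a)).card ≤ K ^ 2 := by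
      refine (card_filter_le _ _).trans ?_
      rw [Finset.card_univ, Fintype.card_prod, Fintype.card_fin, sq]
    calc _ ≤ (Real.sqrt (1 + z ^ 2)) ^ (K ^ 2) := pow_le_pow_right₀ hsq1 hc
      _ ≤ (Real.exp (z ^ 2 / 2)) ^ (K ^ 2) := pow_le_pow_left₀ (Real.sqrt_nonneg _) hsq _
      _ = _ := by rw [← Real.exp_nat_mul]; congr 1; push_cast; ring
  have h4 : z ^ n * ((((univ : Finset (Fin K × Fin K)).powersetCard n).filter
      (fun E => E.image π = E)).card : ℝ) ≤ ∑ E ∈ invSets π univ, z ^ E.card := by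
    calc _ = ∑ E ∈ ((univ : Finset (Fin K × Fin K)).powersetCard n).filter
              (fun E => E.image π = E), z ^ E.card := by
          rw [Finset.sum_congr rfl (g := fun _ => z ^ n)]
          · rw [sum_const, nsmul_eq_mul, mul_comm]
          · intro E hE
            rw [(mem_powersetCard.1 (mem_filter.1 hE).1).2]
      _ ≤ _ := by
          apply Finset.sum_le_sum_of_subset_of_nonneg
          · intro E hE
            rw [mem_filter, mem_powersetCard] at hE
            rw [invSets, mem_filter, mem_powerset]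
            exact ⟨hE.1.1, hE.2⟩
          · intros; positivity
  have h5 : z ^ n * ((((univ : Finset (Fin K × Fin K)).powersetCard n).filter
      (fun E => E.image π = E)).card : ℝ) ≤ Real.exp (K * z + (K:ℝ) ^ 2 * z ^ 2 / 2) := by
    refine h4.trans (h1.trans ?_)
    rw [Real.exp_add]
    exact mul_le_mul h2 h3 (by positivity) (by positivity)
  rw [inv_pow, ← div_eq_inv_mul, le_div_iff₀ (by positivity), mul_comm]
  exact h5

end Pool.Agent.H244R2
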