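import Pool.Agent.H244R2.BipOrbits

set_option autoImplicit false

namespace Pool.Agent.H244R2

open Finset Nat Filter Topology

/-- the error term -/
noncomputable def errB (n : ℕ) : ℝ :=
  Real.exp 1 ^ 2 * (8 * rhoB n ^ 2) +
    (Real.exp 1 ^ 2 * Real.exp 1 ^ 2 * 3 + Real.exp 1 ^ 2) * (n ^ 2 * Real.exp (-(2 * n)))

lemma errB_tendsto : Tendsto errB atTop (𝓝 0) := by
  unfold errB rhoB
  have h1 : Tendsto (fun n => Real.exp 2 / (tt n / 3)) atTop (𝓝 0) :=
    tendsto_const_nhds.div_atTop (tt_tendsto.atTop_div_const (by norm_num))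
  have h2 : Tendsto (fun n : ℕ => (n:ℝ) ^ 2 * Real.exp (-(2 * n))) atTop (𝓝 0) := by
    have h := (Real.tendsto_pow_mul_exp_neg_atTop_nhds_zero 2).comp
      ((tendsto_natCast_atTop_atTop (R := ℝ)).const_mul_atTop (show (0:ℝ) < 2 by norm_num))
    have h3 := h.const_mul (1/4)
    rw [mul_zero] at h3
    refine h3.congr (fun n => ?_)
    simp only [Function.comp]
    ring
  have := (((h1.pow 2).const_mul 8).const_mul (Real.exp 1 ^ 2)).add
    (h2.const_mul (Real.exp 1 ^ 2 * Real.exp 1 ^ 2 * 3 + Real.exp 1 ^ 2))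
  simpa using this

lemma bSum_pos_eventually : ∀ᶠ n : ℕ in atTop, 0 < bSum n := by
  filter_upwards [bSum_lower] with n hn
  exact (Real.exp_pos _).trans_le hn

set_option maxHeartbeats 3000000 in
/-- bounds for the number of orbits -/
lemma wreath_bounds : ∀ᶠ n : ℕ in atTop,
    bSum n / Real.exp 1 ^ 2 ≤ 2 * (numOrbits (wreathPower (Fin n)) (Fin n × Fin n) n : ℝ) ∧
    2 * (numOrbits (wreathPower (Fin n)) (Fin n × Fin n) n : ℝ) ≤
      (1 + errB n) * (bSum n / Real.exp 1 ^ 2) := by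
  have h1 : Tendsto (fun n => Real.log (tt n)) atTop atTop := Real.tendsto_log_atTop.comp tt_tendsto
  filter_upwards [tt_tendsto.eventually_ge_atTop 100, h1.eventually_ge_atTop 5,
    eventually_ge_atTop 2, bSum_lower, CC2_le] with n ht hlog hn hlow hCC
  set t := tt n with htd
  have hnt : (n:ℝ) = t ^ 20 := (tt_pow n).symm
  have ht0 : 0 < t := by linarith
  have hn0 : (0:ℝ) < n := by positivity
  have hn1 : (1:ℝ) ≤ n := by exact_mod_cast (by omega : 1 ≤ n)
  have hbpos : 0 < bSum n := (Real.exp_pos _).trans_le hlow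
  have hb := burnside_wreath (n := n) hn
  have hb' : ∑ p : Equiv.Perm (Fin n) × Equiv.Perm (Fin n),
      (((BG (univ : Finset (Fin n)) (univ : Finset (Fin n)) n).filter
        (fun E => act2 p.1 p.2 E = E)).card : ℝ) +
    ∑ p : Equiv.Perm (Fin n) × Equiv.Perm (Fin n),
      ((((univ : Finset (Fin n × Fin n)).powersetCard n).filter
      (fun E => E.image (Equiv.prodCongr p.1 p.2 * Equiv.prodComm (Fin n) (Fin n) :
        Equiv.Perm (Fin n × Fin n)) = E)).card : ℝ) =
      (numOrbits (wreathPower (Fin n)) (Fin n × Fin n) n : ℝ) *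
        (2 * ((n ! : ℝ) * (n ! : ℝ))) := by exact_mod_cast hb
  have hge := fixed_pairs_ge2 (V := Fin n) (W := Fin n) n (by rw [Fintype.card_fin])
    (by rw [Fintype.card_fin])
  have hρ0 : 0 ≤ rhoB n := by unfold rhoB; rw [← htd]; positivity
  have hρ1 : rhoB n ≤ 1 / 2 := by
    unfold rhoB
    rw [← htd, div_le_iff₀ (by positivity)]
    have : Real.exp 2 ≤ 8 := by
      have h3 : Real.exp 1 ≤ 2.7182818286 := Real.exp_one_lt_d9.le
      have h4 : Real.exp 2 = Real.exp 1 ^ 2 := by rw [← Real.exp_nat_mul]; norm_num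
      rw [h4]
      calc Real.exp 1 ^ 2 ≤ 2.7182818286 ^ 2 := pow_le_pow_left₀ (Real.exp_pos 1).le h3 2
        _ ≤ 8 := by norm_num
    linarith
  have hGB : 0 ≤ GB n := by unfold GB; positivity
  have hle := fixed_pairs_le2 (V := Fin n) (W := Fin n) n (by rw [Fintype.card_fin])
    (by rw [Fintype.card_fin]) hbpos.le hGB hρ0 hCC
  rw [Fintype.card_fin] at hge hle
  have hz : (0:ℝ) < (t ^ 10)⁻¹ := by positivity
  have hsw : ∀ p : Equiv.Perm (Fin n) × Equiv.Perm (Fin n),
      ((((univ : Finset (Fin n × Fin n)).powersetCard n).filter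
      (fun E => E.image (Equiv.prodCongr p.1 p.2 * Equiv.prodComm (Fin n) (Fin n) :
        Equiv.Perm (Fin n × Fin n)) = E)).card : ℝ) ≤
        Real.exp (10 * (n * Real.log t) + 2 * n) := by
    intro p
    refine (swap_fixed_le (n := n) p.1 p.2 hz).trans ?_
    rw [inv_inv, Real.exp_add]
    have h8 : (t ^ 10) ^ n = Real.exp (10 * (n * Real.log t)) := by
      have : (10 * (n * Real.log t)) = n * (10 * Real.log t) := by ring
      rw [this, Real.exp_nat_mul]
      congr 1
      rw [← Real.log_rpow ht0, Real.exp_log (by positivity)]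
      norm_cast
    rw [h8, ← Real.exp_add, Real.exp_add (10 * (n * Real.log t))]
    apply mul_le_mul_of_nonneg_left _ (Real.exp_pos _).le
    apply Real.exp_le_exp.2
    have h9 : (t ^ 10)⁻¹ ≤ 1 := by
      apply inv_le_one_of_one_le₀
      exact one_le_pow₀ (by linarith)
    have h10 : (n:ℝ) * (t ^ 10)⁻¹ ≤ n := by nlinarith
    have h11 : (n:ℝ) ^ 2 * ((t ^ 10)⁻¹) ^ 2 / 2 = n / 2 := by
      have : ((t ^ 10)⁻¹) ^ 2 = (n:ℝ)⁻¹ := by
        rw [hnt, inv_pow, ← pow_mul]
      rw [this]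
      field_simp
    linarith
  have hB : ∑ p : Equiv.Perm (Fin n) × Equiv.Perm (Fin n),
      ((((univ : Finset (Fin n × Fin n)).powersetCard n).filter
      (fun E => E.image (Equiv.prodCongr p.1 p.2 * Equiv.prodComm (Fin n) (Fin n) :
        Equiv.Perm (Fin n × Fin n)) = E)).card : ℝ) ≤
      ((n ! : ℝ) * (n ! : ℝ)) * Real.exp (10 * (n * Real.log t) + 2 * n) := by
    calc _ ≤ ∑ p : Equiv.Perm (Fin n) × Equiv.Perm (Fin n),
          Real.exp (10 * (n * Real.log t) + 2 * n) := Finset.sum_le_sum (fun p _ => hsw p)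
      _ = _ := by
          rw [sum_const, nsmul_eq_mul, Finset.card_univ, Fintype.card_prod, Fintype.card_perm,
            Fintype.card_fin]
          push_cast
          ring
  have hB0 : 0 ≤ ∑ p : Equiv.Perm (Fin n) × Equiv.Perm (Fin n),
      ((((univ : Finset (Fin n × Fin n)).powersetCard n).filter
      (fun E => E.image (Equiv.prodCongr p.1 p.2 * Equiv.prodComm (Fin n) (Fin n) :
        Equiv.Perm (Fin n × Fin n)) = E)).card : ℝ) := Finset.sum_nonneg (fun _ _ => by positivity)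
  have hff : (0:ℝ) < (n ! : ℝ) * (n ! : ℝ) := by positivity
  constructor
  · have h2 : ((n ! : ℝ) * (n ! : ℝ)) * (bSum n / Real.exp 1 ^ 2) ≤
        ((n ! : ℝ) * (n ! : ℝ)) *
          (2 * (numOrbits (wreathPower (Fin n)) (Fin n × Fin n) n : ℝ)) := by
      calc _ ≤ _ := hge
        _ ≤ _ := le_add_of_nonneg_right hB0
        _ = _ := hb'
        _ = _ := by ring
    exact le_of_mul_le_mul_left h2 hff
  · have h2 : ((n ! : ℝ) * (n ! : ℝ)) *
          (2 * (numOrbits (wreathPower (Fin n)) (Fin n × Fin n) n : ℝ)) ≤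
        ((n ! : ℝ) * (n ! : ℝ)) * ((bSum n / Real.exp 1 ^ 2 +
        bSum n * ((1 + ∑ s ∈ Finset.Icc 2 n, rhoB n ^ s) *
          (1 + ∑ s ∈ Finset.Icc 2 n, rhoB n ^ s) - 1) +
        GB n * ((1 + (n : ℝ)) * (1 + (n : ℝ)) - 1)) +
          Real.exp (10 * (n * Real.log t) + 2 * n)) := by
      calc _ = (numOrbits (wreathPower (Fin n)) (Fin n × Fin n) n : ℝ) *
            (2 * ((n ! : ℝ) * (n ! : ℝ))) := by ring
        _ = _ := hb'.symm
        _ ≤ _ := _root_.add_le_add hle hB
        _ = _ := by ring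
    have h3 := le_of_mul_le_mul_left h2 hff
    refine h3.trans ?_
    have hg := sum_geom_tail hρ0 hρ1 n
    have hg0 : 0 ≤ ∑ s ∈ Finset.Icc 2 n, rhoB n ^ s := Finset.sum_nonneg (fun _ _ => by positivity)
    have hA : (1 + ∑ s ∈ Finset.Icc 2 n, rhoB n ^ s) *
          (1 + ∑ s ∈ Finset.Icc 2 n, rhoB n ^ s) - 1 ≤ 8 * rhoB n ^ 2 := by
      set q := ∑ s ∈ Finset.Icc 2 n, rhoB n ^ s
      have h4 : q ≤ 1 := by
        have : rhoB n ^ 2 ≤ 1 / 4 := by nlinarith
        linarith
      nlinarith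
    have hC : (1 + (n : ℝ)) * (1 + (n : ℝ)) - 1 ≤ 3 * (n:ℝ) ^ 2 := by nlinarith
    have hD : Real.exp (12 * (n * Real.log t) + 4 * n) ≤ Real.exp (-(2 * n)) * bSum n := by
      calc Real.exp (12 * (n * Real.log t) + 4 * n)
          ≤ Real.exp (-(2 * n) + 14 * (n * Real.log t)) := by
            apply Real.exp_le_exp.2
            have : (n:ℝ) * 5 ≤ n * Real.log t := by gcongr
            nlinarith
        _ = Real.exp (-(2 * n)) * Real.exp (14 * (n * Real.log t)) := Real.exp_add _ _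
        _ ≤ _ := by gcongr
    have hE : Real.exp (10 * (n * Real.log t) + 2 * n) ≤ n ^ 2 * (Real.exp (-(2 * n)) * bSum n) := by
      calc Real.exp (10 * (n * Real.log t) + 2 * n)
          ≤ Real.exp (12 * (n * Real.log t) + 4 * n) := by
            apply Real.exp_le_exp.2
            have : 0 ≤ n * Real.log t := by positivity
            linarith
        _ ≤ Real.exp (-(2 * n)) * bSum n := hD
        _ ≤ n ^ 2 * (Real.exp (-(2 * n)) * bSum n) := by
            have h5 : (1:ℝ) ≤ (n:ℝ) ^ 2 := one_le_pow₀ hn1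
            have h6 : 0 ≤ Real.exp (-(2 * n)) * bSum n := by positivity
            nlinarith
    have hF : GB n * ((1 + (n : ℝ)) * (1 + (n : ℝ)) - 1) ≤
        (Real.exp 1 ^ 2 * (Real.exp (-(2 * n)) * bSum n)) * (3 * (n:ℝ) ^ 2) := by
      unfold GB
      rw [← htd]
      apply mul_le_mul _ hC _ (by positivity)
      · gcongr
      · nlinarith
    have he : Real.exp 1 ^ 2 ≠ 0 := by positivity
    calc _ ≤ (bSum n / Real.exp 1 ^ 2 + bSum n * (8 * rhoB n ^ 2) +
          (Real.exp 1 ^ 2 * (Real.exp (-(2 * n)) * bSum n)) * (3 * (n:ℝ) ^ 2)) +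
          n ^ 2 * (Real.exp (-(2 * n)) * bSum n) := by gcongr
      _ = (1 + errB n) * (bSum n / Real.exp 1 ^ 2) := by
          unfold errB
          field_simp
          ring

/-- the number of orbits is asymptotic to half the main sum -/
theorem orbits_sim_bSum {Ω : Type} [DecidableEq Ω] [Infinite Ω] :
    Tendsto (fun n : ℕ => (numOrbits (wreathPower Ω) (Ω × Ω) n : ℝ) /
      (bSum n / Real.exp 1 ^ 2 / 2)) atTop (𝓝 1) := by
  have hup : Tendsto (fun n => 1 + errB n) atTop (𝓝 1) := by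
    have := errB_tendsto.const_add 1
    simpa using this
  refine tendsto_of_tendsto_of_tendsto_of_le_of_le' tendsto_const_nhds hup ?_ ?_
  · filter_upwards [bSum_pos_eventually, wreath_bounds] with n hpos hb
    rw [numOrbitsW_eq_fin Ω n n le_rfl, le_div_iff₀ (by positivity), one_mul]
    linarith [hb.1]
  · filter_upwards [bSum_pos_eventually, wreath_bounds] with n hpos hb
    rw [numOrbitsW_eq_fin Ω n n le_rfl, div_le_iff₀ (by positivity)]
    have := hb.2
    linarith

/-- final asymptotic formula, product action case -/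
theorem wreath_orbits_asymptotic {Ω : Type} [DecidableEq Ω] [Infinite Ω] :
    Tendsto (fun n : ℕ => (numOrbits (wreathPower Ω) (Ω × Ω) n : ℝ) /
      ((Nat.bell n : ℝ) ^ 2 / (2 * (n ! : ℝ) * Real.log n) *
        Real.exp (-(1 / 2) * Real.log (n / Real.log n) ^ 2))) atTop (𝓝 1) := by
  have h1 := ((orbits_sim_bSum (Ω := Ω)).mul bSum_asym).mul conv1
  simp only [mul_one] at h1
  refine h1.congr' ?_
  filter_upwards [bSum_pos_eventually, eventually_gt_atTop 1] with n hpos hn
  have hb : (Nat.bell n : ℝ) ≠ 0 := by exact_mod_cast (bell_pos _).ne'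
  have hf : (n ! : ℝ) ≠ 0 := by positivity
  have he : Real.exp 1 ≠ 0 := (Real.exp_pos 1).ne'
  have hlog : Real.log n ≠ 0 := (Real.log_pos (by exact_mod_cast hn)).ne'
  have hc : Real.exp (-(lamW (n : ℝ) ^ 2 / 2)) ≠ 0 := (Real.exp_pos _).ne'
  have hd : Real.exp (-(1 / 2) * Real.log (n / Real.log n) ^ 2) ≠ 0 := (Real.exp_pos _).ne'
  field_simp

end Pool.Agent.H244R2
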