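import Pool.Agent.H244R2.BipFin

set_option autoImplicit false
set_option linter.unusedSectionVars false

namespace Pool.Agent.H244R2

open Finset Nat MulAction
open scoped Pointwise

/-- The wreath product `Sym(Ω) Wr S₂` in its power (product) action on `Ω × Ω`: the group of
permutations of `Ω × Ω` generated by the base group `Sym(Ω) × Sym(Ω)`, acting coordinatewise, and
the swap of the two coordinates. -/
def wreathPower (Ω : Type) : Subgroup (Equiv.Perm (Ω × Ω)) :=
  Subgroup.closure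
    ({σ | ∃ g h : Equiv.Perm Ω, σ = Equiv.prodCongr g h} ∪ {Equiv.prodComm Ω Ω})

section elements

variable {Ω : Type}

/-- the swap as a permutation -/
def sw (Ω : Type) : Equiv.Perm (Ω × Ω) := Equiv.prodComm Ω Ω

/-- a base group element -/
def bs (g h : Equiv.Perm Ω) : Equiv.Perm (Ω × Ω) := Equiv.prodCongr g h

lemma bs_mul (g h g' h' : Equiv.Perm Ω) : bs g h * bs g' h' = bs (g * g') (h * h') := by
  ext x <;> rfl

lemma sw_mul_bs (g h : Equiv.Perm Ω) : sw Ω * bs g h = bs h g * sw Ω := by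
  ext x <;> rfl

lemma sw_mul_sw : sw Ω * sw Ω = 1 := by
  ext x <;> rfl

lemma bs_one : bs (1 : Equiv.Perm Ω) 1 = 1 := by
  ext x <;> rfl

/-- the explicit subgroup -/
def wreathExplicit (Ω : Type) : Subgroup (Equiv.Perm (Ω × Ω)) where
  carrier := {σ | ∃ g h : Equiv.Perm Ω, σ = bs g h ∨ σ = bs g h * sw Ω}
  one_mem' := ⟨1, 1, Or.inl bs_one.symm⟩
  mul_mem' := by
    rintro a b ⟨g, h, ha⟩ ⟨g', h', hb⟩
    rcases ha with rfl | rfl <;> rcases hb with rfl | rfl
    · exact ⟨g * g', h * h', Or.inl (bs_mul _ _ _ _)⟩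
    · exact ⟨g * g', h * h', Or.inr (by rw [← mul_assoc, bs_mul])⟩
    · exact ⟨g * h', h * g', Or.inr (by rw [mul_assoc, sw_mul_bs, ← mul_assoc, bs_mul])⟩
    · refine ⟨g * h', h * g', Or.inl ?_⟩
      rw [mul_assoc, ← mul_assoc (sw Ω), sw_mul_bs, mul_assoc, sw_mul_sw, mul_one, bs_mul]
  inv_mem' := by
    rintro a ⟨g, h, ha⟩
    have h1 : (bs g h)⁻¹ = bs g⁻¹ h⁻¹ := by
      rw [inv_eq_iff_mul_eq_one, bs_mul, mul_inv_cancel, mul_inv_cancel, bs_one]
    rcases ha with rfl | rfl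
    · exact ⟨g⁻¹, h⁻¹, Or.inl h1⟩
    · refine ⟨h⁻¹, g⁻¹, Or.inr ?_⟩
      have h2 : (sw Ω)⁻¹ = sw Ω := by
        rw [inv_eq_iff_mul_eq_one, sw_mul_sw]
      rw [mul_inv_rev, h1, h2, sw_mul_bs]

lemma wreathPower_eq : wreathPower Ω = wreathExplicit Ω := by
  apply le_antisymm
  · unfold wreathPower
    rw [Subgroup.closure_le]
    rintro σ (⟨g, h, rfl⟩ | hσ)
    · exact ⟨g, h, Or.inl rfl⟩
    · rw [Set.mem_singleton_iff] at hσ
      subst hσ
      exact ⟨1, 1, Or.inr (by rw [bs_one, one_mul]; rfl)⟩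
  · rintro σ ⟨g, h, hσ⟩
    have h1 : bs g h ∈ wreathPower Ω := Subgroup.subset_closure (Or.inl ⟨g, h, rfl⟩)
    have h2 : sw Ω ∈ wreathPower Ω := Subgroup.subset_closure (Or.inr rfl)
    rcases hσ with rfl | rfl
    · exact h1
    · exact mul_mem h1 h2

lemma mem_wreathPower {σ : Equiv.Perm (Ω × Ω)} :
    σ ∈ wreathPower Ω ↔ ∃ g h : Equiv.Perm Ω, σ = bs g h ∨ σ = bs g h * sw Ω := by
  rw [wreathPower_eq]
  rfl

end elements

section rel

variable {V : Type} [DecidableEq V]

/-- coordinatewise action on sets of cells -/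
def actP (g h : Equiv.Perm V) (E : Finset (V × V)) : Finset (V × V) := E.image (bs g h)

/-- swap of a set of cells -/
def swE (E : Finset (V × V)) : Finset (V × V) := E.image (sw V)

lemma mem_actP {g h : Equiv.Perm V} {E : Finset (V × V)} {e : V × V} :
    e ∈ actP g h E ↔ ∃ f ∈ E, (g f.1, h f.2) = e := by
  simp only [actP, mem_image]
  rfl

/-- the orbit relation on `n`-subsets -/
def setRel (G X : Type) [Group G] [MulAction G X] [DecidableEq X] (n : ℕ) :
    Setoid (Set.powersetCard X n) := orbitRel G (Set.powersetCard X n)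

lemma numOrbits_eq_setRel (G X : Type) [Group G] [MulAction G X] [DecidableEq X] (n : ℕ) :
    numOrbits G X n = Nat.card (Quotient (setRel G X n)) := rfl

lemma orbitRel_iff_gen {G X : Type} [Group G] [MulAction G X] [DecidableEq X] {n : ℕ}
    (A B : Set.powersetCard X n) :
    setRel G X n A B ↔ ∃ g : G, A.1 = B.1.image (fun x => g • x) := by
  unfold setRel
  rw [orbitRel_apply, mem_orbit_iff]
  constructor
  · rintro ⟨g, rfl⟩
    exact ⟨g, by rw [Set.powersetCard.coe_smul]; rfl⟩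
  · rintro ⟨g, hg⟩
    refine ⟨g, ?_⟩
    apply Subtype.ext
    rw [Set.powersetCard.coe_smul, hg]; rfl

lemma relW_iff (A B : Finset (V × V)) :
    (∃ g : wreathPower V, A = B.image (fun x => g • x)) ↔
      ∃ g h : Equiv.Perm V, A = actP g h B ∨ A = actP g h (swE B) := by
  constructor
  · rintro ⟨σ, rfl⟩
    obtain ⟨g, h, hσ⟩ := mem_wreathPower.1 σ.2
    refine ⟨g, h, ?_⟩
    rcases hσ with hσ | hσ
    · left
      unfold actP
      rw [← hσ]; rfl
    · right
      rw [actP, swE, Finset.image_image]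
      have : (bs g h : V × V → V × V) ∘ (sw V) = ((bs g h * sw V : Equiv.Perm (V × V)) : V × V → V × V) := rfl
      rw [this, ← hσ]; rfl
  · rintro ⟨g, h, hA | hA⟩
    · exact ⟨⟨bs g h, mem_wreathPower.2 ⟨g, h, Or.inl rfl⟩⟩, hA⟩
    · refine ⟨⟨bs g h * sw V, mem_wreathPower.2 ⟨g, h, Or.inr rfl⟩⟩, ?_⟩
      rw [hA, actP, swE, Finset.image_image]
      rfl

end rel

section transfer

variable {V Ω : Type} [DecidableEq V] [DecidableEq Ω]

/-- extend a partial map to a permutation -/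
lemma ext_perm [Fintype V] (ι : V ↪ Ω) (g : Equiv.Perm Ω) (S : Finset V)
    (hS : ∀ v ∈ S, ∃ w, ι w = g (ι v)) : ∃ σ : Equiv.Perm V, ∀ v ∈ S, ι (σ v) = g (ι v) := by
  set t : Finset Ω := (univ : Finset V).map ι with ht
  have hcard : Fintype.card V = t.card := by rw [ht, card_map, Finset.card_univ]
  have himg : S.image (fun v => g (ι v)) ⊆ t := by
    intro w hw
    obtain ⟨v, hv, rfl⟩ := mem_image.1 hw
    obtain ⟨a, ha⟩ := hS v hv
    rw [ht, Finset.mem_map]
    exact ⟨a, mem_univ _, ha⟩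
  obtain ⟨g', hg'⟩ := Finset.exists_equiv_extend_of_card_eq hcard himg
    (fun a _ b _ hab => ι.injective (g.injective hab))
  have hmem : ∀ w : t, ∃ v : V, ι v = w := by
    intro w
    obtain ⟨v, _, hv⟩ := Finset.mem_map.1 w.2
    exact ⟨v, hv⟩
  choose r hr using hmem
  have hinj : Function.Injective (fun v => r (g' v)) := by
    intro a b hab
    apply g'.injective
    apply Subtype.ext
    rw [← hr (g' a), ← hr (g' b)]
    exact congrArg ι hab
  have hbij : Function.Bijective (fun v => r (g' v)) :=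
    (Finite.injective_iff_bijective).1 hinj
  refine ⟨Equiv.ofBijective _ hbij, ?_⟩
  intro v hv
  rw [Equiv.ofBijective_apply, hr]
  exact hg' v hv

/-- push forward of cell sets -/
def pushP (ι : V ↪ Ω) (E : Finset (V × V)) : Finset (Ω × Ω) := E.map (ι.prodMap ι)

lemma mem_pushP {ι : V ↪ Ω} {E : Finset (V × V)} {e : Ω × Ω} :
    e ∈ pushP ι E ↔ ∃ f ∈ E, (ι f.1, ι f.2) = e := by
  simp only [pushP, Finset.mem_map]
  rfl

lemma pushP_injective (ι : V ↪ Ω) : Function.Injective (pushP ι) := Finset.map_injective _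

lemma pushP_swE (ι : V ↪ Ω) (E : Finset (V × V)) : pushP ι (swE E) = swE (pushP ι E) := by
  ext e
  simp only [mem_pushP, swE, mem_image]
  constructor
  · rintro ⟨f, ⟨f', hf', rfl⟩, rfl⟩
    exact ⟨(ι f'.1, ι f'.2), ⟨f', hf', rfl⟩, rfl⟩
  · rintro ⟨f, ⟨f', hf', rfl⟩, rfl⟩
    exact ⟨sw V f', ⟨f', hf', rfl⟩, rfl⟩

lemma pushP_actP (ι : V ↪ Ω) (σ τ : Equiv.Perm V) (g h : Equiv.Perm Ω) (E : Finset (V × V))
    (h1 : ∀ v ∈ P1 E, ι (σ v) = g (ι v)) (h2 : ∀ v ∈ P2 E, ι (τ v) = h (ι v)) :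
    pushP ι (actP σ τ E) = actP g h (pushP ι E) := by
  ext e
  rw [mem_pushP, mem_actP]
  constructor
  · rintro ⟨f, hf, rfl⟩
    obtain ⟨f', hf', rfl⟩ := mem_actP.1 hf
    refine ⟨(ι f'.1, ι f'.2), mem_pushP.2 ⟨f', hf', rfl⟩, ?_⟩
    rw [h1 _ (mem_P1.2 ⟨f', hf', rfl⟩), h2 _ (mem_P2.2 ⟨f', hf', rfl⟩)]
  · rintro ⟨f, hf, rfl⟩
    obtain ⟨f', hf', rfl⟩ := mem_pushP.1 hf
    refine ⟨(σ f'.1, τ f'.2), mem_actP.2 ⟨f', hf', rfl⟩, ?_⟩
    rw [h1 _ (mem_P1.2 ⟨f', hf', rfl⟩), h2 _ (mem_P2.2 ⟨f', hf', rfl⟩)]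

lemma transferP_iff [Fintype V] (ι : V ↪ Ω) (E F : Finset (V × V)) :
    (∃ σ τ : Equiv.Perm V, E = actP σ τ F) ↔
      ∃ g h : Equiv.Perm Ω, pushP ι E = actP g h (pushP ι F) := by
  constructor
  · rintro ⟨σ, τ, rfl⟩
    refine ⟨σ.viaEmbedding ι, τ.viaEmbedding ι, ?_⟩
    apply pushP_actP
    · intro v _
      rw [Equiv.Perm.viaEmbedding_apply]
    · intro v _
      rw [Equiv.Perm.viaEmbedding_apply]
  · rintro ⟨g, h, hgh⟩
    have key : ∀ f ∈ F, ∃ e ∈ E, (ι e.1, ι e.2) = (g (ι f.1), h (ι f.2)) := by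
      intro f hf
      have : (g (ι f.1), h (ι f.2)) ∈ pushP ι E := by
        rw [hgh]
        exact mem_actP.2 ⟨(ι f.1, ι f.2), mem_pushP.2 ⟨f, hf, rfl⟩, rfl⟩
      exact mem_pushP.1 this
    obtain ⟨σ, hσ⟩ := ext_perm ι g (P1 F) (by
      intro v hv
      obtain ⟨f, hf, rfl⟩ := mem_P1.1 hv
      obtain ⟨e, _, he⟩ := key f hf
      exact ⟨e.1, congrArg Prod.fst he⟩)
    obtain ⟨τ, hτ⟩ := ext_perm ι h (P2 F) (by
      intro v hv
      obtain ⟨f, hf, rfl⟩ := mem_P2.1 hv
      obtain ⟨e, _, he⟩ := key f hf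
      exact ⟨e.2, congrArg Prod.snd he⟩)
    refine ⟨σ, τ, ?_⟩
    apply pushP_injective ι
    rw [hgh, pushP_actP ι σ τ g h F hσ hτ]

lemma move_set [Fintype V] [Infinite Ω] (ι : V ↪ Ω) (S : Finset Ω)
    (hS : S.card ≤ Fintype.card V) : ∃ g : Equiv.Perm Ω, ∀ v ∈ S, ∃ w, ι w = g v := by
  obtain ⟨S', hS1, hS2⟩ := Infinite.exists_superset_card_eq S (Fintype.card V) hS
  have hpre : IsPretransitive (Equiv.Perm Ω) (Set.powersetCard Ω (Fintype.card V)) :=
    Set.powersetCard.isPretransitive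
  obtain ⟨g, hg⟩ := hpre.exists_smul_eq (⟨S', hS2⟩ : Set.powersetCard Ω (Fintype.card V))
    ⟨(univ : Finset V).map ι, by rw [Set.powersetCard.mem_iff, card_map, Finset.card_univ]⟩
  have hg2 : g • S' = (univ : Finset V).map ι := by
    have := congrArg Subtype.val hg
    rwa [Set.powersetCard.coe_smul] at this
  refine ⟨g, ?_⟩
  intro v hv
  have : g • v ∈ g • S' := Finset.smul_mem_smul_finset (hS1 hv)
  rw [hg2, Finset.mem_map] at this
  obtain ⟨a, _, ha⟩ := this
  exact ⟨a, ha⟩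

lemma exists_pushP [Fintype V] [Infinite Ω] (ι : V ↪ Ω) (C : Finset (Ω × Ω))
    (h1 : (P1 C).card ≤ Fintype.card V) (h2 : (P2 C).card ≤ Fintype.card V) :
    ∃ (g h : Equiv.Perm Ω) (E : Finset (V × V)), pushP ι E = actP g h C := by
  obtain ⟨g, hg⟩ := move_set ι (P1 C) h1
  obtain ⟨h, hh⟩ := move_set ι (P2 C) h2
  refine ⟨g, h, (univ : Finset (V × V)).filter (fun e => (ι e.1, ι e.2) ∈ actP g h C), ?_⟩
  ext c
  rw [mem_pushP]
  constructor
  · rintro ⟨f, hf, rfl⟩
    exact (mem_filter.1 hf).2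
  · intro hc
    have hc' := hc
    obtain ⟨f, hf, rfl⟩ := mem_actP.1 hc'
    obtain ⟨a, ha⟩ := hg f.1 (mem_P1.2 ⟨f, hf, rfl⟩)
    obtain ⟨b, hb⟩ := hh f.2 (mem_P2.2 ⟨f, hf, rfl⟩)
    refine ⟨(a, b), ?_, by simp only [ha, hb]⟩
    rw [mem_filter]
    simp only [ha, hb]
    exact ⟨mem_univ _, hc⟩

/-- the infinite orbit count equals a finite one -/
theorem numOrbitsW_eq_fin (Ω : Type) [DecidableEq Ω] [Infinite Ω] (n K : ℕ) (hK : n ≤ K) :
    numOrbits (wreathPower Ω) (Ω × Ω) n =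
      numOrbits (wreathPower (Fin K)) (Fin K × Fin K) n := by
  symm
  rw [numOrbits_eq_setRel, numOrbits_eq_setRel]
  obtain ⟨ι⟩ : Nonempty (Fin K ↪ Ω) := by
    have h := Infinite.natEmbedding Ω
    exact ⟨Fin.valEmbedding.trans h⟩
  let Φ : Set.powersetCard (Fin K × Fin K) n → Set.powersetCard (Ω × Ω) n := fun A =>
    ⟨pushP ι A.1, by
      rw [Set.powersetCard.mem_iff, pushP, card_map]
      exact A.2⟩
  have hΦ : ∀ A, (Φ A).1 = pushP ι A.1 := fun _ => rfl
  have hrel : ∀ A B : Set.powersetCard (Fin K × Fin K) n,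
      setRel (wreathPower (Fin K)) (Fin K × Fin K) n A B ↔
      setRel (wreathPower Ω) (Ω × Ω) n (Φ A) (Φ B) := by
    intro A B
    rw [orbitRel_iff_gen, orbitRel_iff_gen, relW_iff, relW_iff, hΦ, hΦ]
    constructor
    · rintro ⟨g, h, hA | hA⟩
      · obtain ⟨g', h', h1⟩ := (transferP_iff ι _ _).1 ⟨g, h, hA⟩
        exact ⟨g', h', Or.inl h1⟩
      · obtain ⟨g', h', h1⟩ := (transferP_iff ι _ _).1 ⟨g, h, hA⟩
        rw [pushP_swE] at h1
        exact ⟨g', h', Or.inr h1⟩
    · rintro ⟨g, h, hA | hA⟩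
      · obtain ⟨g', h', h1⟩ := (transferP_iff ι _ _).2 ⟨g, h, hA⟩
        exact ⟨g', h', Or.inl h1⟩
      · rw [← pushP_swE] at hA
        obtain ⟨g', h', h1⟩ := (transferP_iff ι _ _).2 ⟨g, h, hA⟩
        exact ⟨g', h', Or.inr h1⟩
  let f : Quotient (setRel (wreathPower (Fin K)) (Fin K × Fin K) n) →
      Quotient (setRel (wreathPower Ω) (Ω × Ω) n) :=
    Quotient.map' Φ (fun A B h => (hrel A B).1 h)
  apply Nat.card_eq_of_bijective f
  constructor
  · intro a b
    induction a using Quotient.inductionOn' with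
    | h A =>
    induction b using Quotient.inductionOn' with
    | h B =>
    intro h
    simp only [f, Quotient.map'_mk''] at h
    exact Quotient.sound' ((hrel A B).2 (Quotient.exact' h))
  · intro c
    induction c using Quotient.inductionOn' with
    | h C =>
    have hC : C.1.card = n := C.2
    have hK' : Fintype.card (Fin K) = K := Fintype.card_fin K
    obtain ⟨g, h, E, hE⟩ := exists_pushP ι C.1
      ((card_P1_le _).trans (by rw [hC, hK']; exact hK))
      ((card_P2_le _).trans (by rw [hC, hK']; exact hK))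
    have hEc : E.card = n := by
      have h3 := congrArg card hE
      rw [pushP, card_map, actP, Finset.card_image_of_injective _ (Equiv.injective _)] at h3
      rw [h3, hC]
    let A : Set.powersetCard (Fin K × Fin K) n := ⟨E, Set.powersetCard.mem_iff.2 hEc⟩
    refine ⟨Quotient.mk'' A, ?_⟩
    simp only [f, Quotient.map'_mk'']
    apply Quotient.sound'
    have h5 : setRel (wreathPower Ω) (Ω × Ω) n (Φ A) C := by
      rw [orbitRel_iff_gen, relW_iff]
      exact ⟨g, h, Or.inl hE⟩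
    exact h5

end transfer

/-- Burnside for a general finite action -/
theorem burnside_gen {G X : Type} [Group G] [MulAction G X] [DecidableEq X] [Fintype G] [Fintype X]
    (n : ℕ) :
    ∑ g : G, (((univ : Finset X).powersetCard n).filter
      (fun E => E.image (fun x => g • x) = E)).card = numOrbits G X n * Fintype.card G := by
  classical
  have h := MulAction.sum_card_fixedBy_eq_card_orbits_mul_card_group G (Set.powersetCard X n)
  unfold numOrbits
  rw [Nat.card_eq_fintype_card]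
  rw [← h]
  apply Finset.sum_congr rfl
  intro σ _
  symm
  rw [← Fintype.card_coe]
  have hmem : ∀ A : fixedBy (Set.powersetCard X n) σ,
      A.1.1 ∈ ((univ : Finset X).powersetCard n).filter
        (fun E => E.image (fun x => σ • x) = E) := by
    intro A
    rw [mem_filter, mem_powersetCard]
    refine ⟨⟨subset_univ _, A.1.2⟩, ?_⟩
    have h1 := A.2
    rw [mem_fixedBy] at h1
    have h2 := congrArg Subtype.val h1
    rw [Set.powersetCard.coe_smul] at h2
    exact h2
  apply Fintype.card_of_bijective (f := fun A => ⟨A.1.1, hmem A⟩)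
  constructor
  · intro A B hAB
    have h9 := congrArg Subtype.val hAB
    simp only at h9
    exact Subtype.ext (Subtype.ext h9)
  · rintro ⟨E, hE⟩
    have hE' := hE
    rw [mem_filter, mem_powersetCard] at hE'
    obtain ⟨⟨h1, h2⟩, h3⟩ := hE'
    refine ⟨⟨⟨E, h2⟩, ?_⟩, rfl⟩
    rw [mem_fixedBy]
    apply Subtype.ext
    rw [Set.powersetCard.coe_smul]
    exact h3

/-- parametrisation of the wreath product -/
noncomputable def wreathEquiv {K : ℕ} (hK : 2 ≤ K) :
    (Equiv.Perm (Fin K) × Equiv.Perm (Fin K)) × Bool ≃ wreathPower (Fin K) := by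
  refine Equiv.ofBijective (fun p => ⟨if p.2 then bs p.1.1 p.1.2 * sw (Fin K) else bs p.1.1 p.1.2,
    mem_wreathPower.2 ⟨p.1.1, p.1.2, by split_ifs <;> simp⟩⟩) ⟨?_, ?_⟩
  · have : Nonempty (Fin K) := ⟨⟨0, by omega⟩⟩
    have x0 : Fin K := ⟨0, by omega⟩
    have h01 : (⟨0, by omega⟩ : Fin K) ≠ ⟨1, by omega⟩ := by
      intro h
      have := congrArg Fin.val h
      simp at this
    have key1 : ∀ g h g' h' : Equiv.Perm (Fin K), bs g h = bs g' h' → g = g' ∧ h = h' := by
      intro g h g' h' heq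
      constructor
      · ext x
        have := congrArg (fun σ : Equiv.Perm (Fin K × Fin K) => (σ (x, x0)).1) heq
        exact congrArg Fin.val this
      · ext x
        have := congrArg (fun σ : Equiv.Perm (Fin K × Fin K) => (σ (x0, x)).2) heq
        exact congrArg Fin.val this
    have key2 : ∀ g h g' h' : Equiv.Perm (Fin K), bs g h ≠ bs g' h' * sw (Fin K) := by
      intro g h g' h' heq
      have h1 := congrArg (fun σ : Equiv.Perm (Fin K × Fin K) =>
        (σ (⟨0, by omega⟩, ⟨0, by omega⟩)).1) heq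
      have h2 := congrArg (fun σ : Equiv.Perm (Fin K × Fin K) =>
        (σ (⟨0, by omega⟩, ⟨1, by omega⟩)).1) heq
      have h3 : g ⟨0, by omega⟩ = g' ⟨0, by omega⟩ := h1
      have h4 : g ⟨0, by omega⟩ = g' ⟨1, by omega⟩ := h2
      exact h01 (g'.injective (h3.symm.trans h4))
    rintro ⟨⟨g, h⟩, b⟩ ⟨⟨g', h'⟩, b'⟩ heq
    have heq' := congrArg Subtype.val heq
    simp only at heq'
    cases b <;> cases b'
    · simp only [Bool.false_eq_true, if_false] at heq'
      obtain ⟨h1, h2⟩ := key1 _ _ _ _ heq'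
      rw [h1, h2]
    · simp only [Bool.false_eq_true, if_false, if_true] at heq'
      exact absurd heq' (key2 _ _ _ _)
    · simp only [Bool.false_eq_true, if_false, if_true] at heq'
      exact absurd heq'.symm (key2 _ _ _ _)
    · simp only [if_true] at heq'
      obtain ⟨h1, h2⟩ := key1 _ _ _ _ (mul_right_cancel heq')
      rw [h1, h2]
  · rintro ⟨σ, hσ⟩
    obtain ⟨g, h, h1 | h1⟩ := mem_wreathPower.1 hσ
    · exact ⟨((g, h), false), Subtype.ext h1.symm⟩
    · exact ⟨((g, h), true), Subtype.ext h1.symm⟩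

/-- Burnside for the wreath product -/
theorem burnside_wreath {K n : ℕ} (hK : 2 ≤ K) :
    ∑ p : Equiv.Perm (Fin K) × Equiv.Perm (Fin K),
      ((BG (univ : Finset (Fin K)) (univ : Finset (Fin K)) n).filter
        (fun E => act2 p.1 p.2 E = E)).card +
    ∑ p : Equiv.Perm (Fin K) × Equiv.Perm (Fin K),
      (((univ : Finset (Fin K × Fin K)).powersetCard n).filter
      (fun E => E.image (Equiv.prodCongr p.1 p.2 * Equiv.prodComm (Fin K) (Fin K) :
        Equiv.Perm (Fin K × Fin K)) = E)).card =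
      numOrbits (wreathPower (Fin K)) (Fin K × Fin K) n * (2 * (K ! * K !)) := by
  classical
  have : Fintype (wreathPower (Fin K)) := Fintype.ofFinite _
  have h := burnside_gen (G := wreathPower (Fin K)) (X := Fin K × Fin K) n
  have hc : Fintype.card (wreathPower (Fin K)) = 2 * (K ! * K !) := by
    rw [← Fintype.card_congr (wreathEquiv hK), Fintype.card_prod, Fintype.card_prod,
      Fintype.card_perm, Fintype.card_fin, Fintype.card_bool]
    ring
  rw [hc] at h
  rw [← h, ← Equiv.sum_comp (wreathEquiv hK)]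
  have h1 : ∀ F : (Equiv.Perm (Fin K) × Equiv.Perm (Fin K)) × Bool → ℕ,
      ∑ i, F i = ∑ p, F (p, true) + ∑ p, F (p, false) := by
    intro F
    rw [Fintype.sum_prod_type]
    simp only [Fintype.sum_bool]
    rw [Finset.sum_add_distrib]
  rw [h1, add_comm]
  congr 1

end Pool.Agent.H244R2
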