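import Mathlib

set_option autoImplicit false

namespace Pool.Agent.H244R2.Cvx

lemma x_pos {x y : ℝ} (hy : 0 < y) (h : (x - 1) ^ 2 + y ^ 2 ≤ 1) : 0 < x := by
  nlinarith only [hy, h, sq_nonneg x, mul_pos hy hy]

lemma x_lt_one {x y : ℝ} (hy : 0 < y) (h : x ^ 2 + y ^ 2 ≤ 1) : x < 1 := by
  nlinarith only [hy, h, sq_nonneg x, mul_pos hy hy, sq_nonneg (x - 1)]

lemma x_mono {p q r s : ℝ} (hp : 0 < p) (hp1 : p < 1) (hq : 0 < q)
    (h1 : 0 < (p - 1) * (s - 0) - (q - 0) * (r - 1))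
    (h2 : 0 < (r - p) * (0 - q) - (s - q) * (0 - p)) : r < p := by
  by_contra hcon
  push Not at hcon
  rcases le_or_gt q s with hs | hs
  · nlinarith only [h1, h2, mul_nonneg (sub_nonneg.2 hcon) hq.le,
      mul_nonneg (sub_nonneg.2 hs) (sub_nonneg.2 hp1.le)]
  · nlinarith only [h1, h2, mul_nonneg (sub_nonneg.2 hcon) hq.le, mul_pos (sub_pos.2 hs) hp]

/-- a point above the chord `(x1,y1)`, `(x2,y2)` and between them is above the lower endpoint -/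
lemma above_min {x1 y1 x2 y2 x4 y4 : ℝ} (m24 : x2 < x4) (m41 : x4 < x1)
    (o : 0 < (x4 - x1) * (y2 - y1) - (y4 - y1) * (x2 - x1)) : min y1 y2 < y4 := by
  by_contra hcon
  push Not at hcon
  have h41 : y4 ≤ y1 := le_trans hcon (min_le_left _ _)
  have h42 : y4 ≤ y2 := le_trans hcon (min_le_right _ _)
  nlinarith only [o, mul_nonneg (sub_nonneg.2 h41) (sub_nonneg.2 m24.le),
    mul_nonneg (sub_nonneg.2 h42) (sub_nonneg.2 m41.le)]

lemma high_point {x1 y1 x2 y2 x4 y4 : ℝ} (m24 : x2 < x4) (m41 : x4 < x1)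
    (o : 0 < (x4 - x1) * (y2 - y1) - (y4 - y1) * (x2 - x1))
    (h1 : (x2 - x1) ^ 2 + (y2 - y1) ^ 2 ≤ (x4 - x1) ^ 2 + (y4 - y1) ^ 2) : y2 < y4 ∧ y1 < y4 := by
  have hmin4 := above_min m24 m41 o
  have sq4 : (y2 - y1) ^ 2 < (y4 - y1) ^ 2 := by
    nlinarith only [h1, mul_pos (sub_pos.2 m24) (sub_pos.2 m41), mul_pos (sub_pos.2 m24) (sub_pos.2 m24)]
  rcases le_total y1 y2 with h | h
  · rw [min_eq_left h] at hmin4
    have : y2 - y1 < y4 - y1 := by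
      by_contra hc
      push Not at hc
      nlinarith only [sq4, hc, hmin4, h]
    exact ⟨by linarith, hmin4⟩
  · rw [min_eq_right h] at hmin4
    have : y1 - y2 < y4 - y1 := by
      by_contra hc
      push Not at hc
      nlinarith only [sq4, hc, hmin4, h]
    exact ⟨hmin4, by linarith⟩

/-- one half of the bottom estimate: `x' = x1 - σ u' > 1`, `x'' = x2 - τ u < 0`. -/
lemma bottom1 {u v x2 y2 A τ : ℝ} (hτ : τ * v = y2) (hτpos : 0 < τ) (hA : 1 < A)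
    (hs' : 0 < τ * u - x2) (hx4 : 0 < x2 + u)
    (d_ad' : (x2 + u - 1) ^ 2 + (y2 + v) ^ 2 ≤ 1) (d_bd' : (x2 + u) ^ 2 + (y2 + v) ^ 2 ≤ 1)
    (hx4' : x2 + u < 1) :
    (τ + 1) * (u ^ 2 + v ^ 2) + 2 * (u * ((x2 - τ * u) - A)) < 0 := by
  have key : (τ + 1) * ((τ + 1) * (u ^ 2 + v ^ 2) + 2 * (u * ((x2 - τ * u) - A))) < 0 := by
    have e : (τ + 1) * ((τ + 1) * (u ^ 2 + v ^ 2) + 2 * (u * ((x2 - τ * u) - A))) =
        (A - (x2 + u)) ^ 2 + (y2 + v) ^ 2 - (A - (x2 - τ * u)) ^ 2 := by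
      rw [← hτ]; ring
    rw [e]
    have i1 : (A - (x2 + u)) ^ 2 + (y2 + v) ^ 2 ≤ A ^ 2 := by
      nlinarith only [d_ad', mul_pos (sub_pos.2 hA) hx4]
    have i2 : A ^ 2 < (A - (x2 - τ * u)) ^ 2 := by
      nlinarith only [hA, hs', mul_pos hs' hs', mul_pos hs' (by linarith : (0:ℝ) < A)]
    linarith
  by_contra hc
  push Not at hc
  nlinarith only [key, hc, hτpos, mul_nonneg (by linarith : (0:ℝ) ≤ τ + 1) hc]

lemma bottom2 {u' v' x1 y1 B σ : ℝ} (hσ : σ * v' = y1) (hσpos : 0 < σ) (hB : B < 0)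
    (hs : 0 < x1 - σ * u' - 1) (hx3 : x1 + u' < 1)
    (d_bc' : (x1 + u') ^ 2 + (y1 + v') ^ 2 ≤ 1) :
    (σ + 1) * (u' ^ 2 + v' ^ 2) + 2 * (u' * ((x1 - σ * u') - B)) < 0 := by
  have key : (σ + 1) * ((σ + 1) * (u' ^ 2 + v' ^ 2) + 2 * (u' * ((x1 - σ * u') - B))) < 0 := by
    have e : (σ + 1) * ((σ + 1) * (u' ^ 2 + v' ^ 2) + 2 * (u' * ((x1 - σ * u') - B))) =
        (B - (x1 + u')) ^ 2 + (y1 + v') ^ 2 - ((x1 - σ * u') - B) ^ 2 := by
      rw [← hσ]; ring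
    rw [e]
    have i1 : (B - (x1 + u')) ^ 2 + (y1 + v') ^ 2 ≤ (1 - B) ^ 2 := by
      nlinarith only [d_bc', mul_pos (neg_pos.2 hB) (sub_pos.2 hx3)]
    have i2 : (1 - B) ^ 2 < ((x1 - σ * u') - B) ^ 2 := by
      nlinarith only [hB, hs, mul_pos hs hs, mul_pos hs (by linarith : (0:ℝ) < 1 - B)]
    linarith
  by_contra hc
  push Not at hc
  nlinarith only [key, hc, hσpos, mul_nonneg (by linarith : (0:ℝ) ≤ σ + 1) hc]

/-- The algebraic core of the no-deadlock lemma. -/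
lemma core {x1 y1 x2 y2 u v u' v' σ τ : ℝ} (hupos : 0 < u) (hvpos : 0 < v)
    (hu'neg : u' < 0) (hv'pos : 0 < v')
    (hσ : σ * v' = y1) (hτ : τ * v = y2) (hσpos : 0 < σ) (hτpos : 0 < τ)
    (B1 : (τ + 1) * (u ^ 2 + v ^ 2) + 2 * (u * ((x2 - τ * u) - (x1 - σ * u'))) < 0)
    (B2 : (σ + 1) * (u' ^ 2 + v' ^ 2) + 2 * (u' * ((x1 - σ * u') - (x2 - τ * u))) < 0)
    (I1 : 0 ≤ (u ^ 2 + v ^ 2) + 2 * (u * (x2 - x1) + v * (y2 - y1)))
    (I2 : 0 ≤ (u' ^ 2 + v' ^ 2) + 2 * (u' * (x1 - x2) + v' * (y1 - y2)))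
    (hG : u * v' - v * u' ≤ (x1 - x2) * v - (y1 - y2) * u)
    (hD : u * v' - v * u' ≤ (x1 - x2) * v' - (y1 - y2) * u') : False := by
  obtain ⟨X, hX⟩ : ∃ X, X = u * u' + v * v' := ⟨_, rfl⟩
  obtain ⟨W, hW⟩ : ∃ W, W = u ^ 2 + v ^ 2 := ⟨_, rfl⟩
  obtain ⟨W', hW'⟩ : ∃ W', W' = u' ^ 2 + v' ^ 2 := ⟨_, rfl⟩
  have hWpos : 0 < W := by rw [hW]; positivity
  have hW'pos : 0 < W' := by rw [hW']; positivity
  -- (6): τ W > 2 σ X
  have C1 : 2 * σ * X < τ * W := by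
    have e : (u ^ 2 + v ^ 2) + 2 * (u * (x2 - x1) + v * (y2 - y1)) =
        ((τ + 1) * (u ^ 2 + v ^ 2) + 2 * (u * ((x2 - τ * u) - (x1 - σ * u')))) + τ * W - 2 * σ * X := by
      rw [hX, hW, ← hσ, ← hτ]; ring
    rw [e] at I1
    linarith only [I1, B1]
  have C2 : 2 * τ * X < σ * W' := by
    have e : (u' ^ 2 + v' ^ 2) + 2 * (u' * (x1 - x2) + v' * (y1 - y2)) =
        ((σ + 1) * (u' ^ 2 + v' ^ 2) + 2 * (u' * ((x1 - σ * u') - (x2 - τ * u)))) + σ * W' -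
          2 * τ * X := by
      rw [hX, hW', ← hσ, ← hτ]; ring
    rw [e] at I2
    linarith only [I2, B2]
  -- the point Z
  have hcr : 0 < u * v' - v * u' := by
    have h1 := mul_pos hupos hv'pos
    have h2 := mul_pos hvpos (neg_pos.2 hu'neg)
    nlinarith only [h1, h2]
  obtain ⟨γ, hγ⟩ : ∃ γ, γ * (u * v' - v * u') = (x1 - x2) * v - (y1 - y2) * u :=
    ⟨((x1 - x2) * v - (y1 - y2) * u) / (u * v' - v * u'), div_mul_cancel₀ _ hcr.ne'⟩
  obtain ⟨δ, hδ⟩ : ∃ δ, δ * (u * v' - v * u') = (x1 - x2) * v' - (y1 - y2) * u' :=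
    ⟨((x1 - x2) * v' - (y1 - y2) * u') / (u * v' - v * u'), div_mul_cancel₀ _ hcr.ne'⟩
  have hγ1 : 1 ≤ γ := by
    rw [← hγ] at hG
    by_contra hc
    push Not at hc
    nlinarith only [hG, hc, hcr]
  have hδ1 : 1 ≤ δ := by
    rw [← hδ] at hD
    by_contra hc
    push Not at hc
    nlinarith only [hD, hc, hcr]
  -- d - c = γ w' - δ w
  have zx : x2 - x1 = γ * u' - δ * u := by
    have : (x2 - x1 - (γ * u' - δ * u)) * (u * v' - v * u') = 0 := by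
      have e : (x2 - x1 - (γ * u' - δ * u)) * (u * v' - v * u') =
        (x2 - x1) * (u * v' - v * u') - (γ * (u * v' - v * u')) * u' +
          (δ * (u * v' - v * u')) * u := by ring
      rw [e, hγ, hδ]; ring
    rcases mul_eq_zero.1 this with h | h
    · linarith only [h]
    · exact absurd h hcr.ne'
  have zy : y2 - y1 = γ * v' - δ * v := by
    have : (y2 - y1 - (γ * v' - δ * v)) * (u * v' - v * u') = 0 := by
      have e : (y2 - y1 - (γ * v' - δ * v)) * (u * v' - v * u') =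
        (y2 - y1) * (u * v' - v * u') - (γ * (u * v' - v * u')) * v' +
          (δ * (u * v' - v * u')) * v := by ring
      rw [e, hγ, hδ]; ring
    rcases mul_eq_zero.1 this with h | h
    · linarith only [h]
    · exact absurd h hcr.ne'
  have D1 : δ * W ≤ 2 * γ * X := by
    have e : (u ^ 2 + v ^ 2) + 2 * (u * (x2 - x1) + v * (y2 - y1)) = W + 2 * γ * X - 2 * δ * W := by
      rw [zx, zy, hX, hW]; ring
    rw [e] at I1
    nlinarith only [I1, hδ1, hWpos, mul_nonneg (sub_nonneg.2 hδ1) hWpos.le]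
  have D2 : γ * W' ≤ 2 * δ * X := by
    have e : (u' ^ 2 + v' ^ 2) + 2 * (u' * (x1 - x2) + v' * (y1 - y2)) =
        W' + 2 * δ * X - 2 * γ * W' := by
      have zx' : x1 - x2 = δ * u - γ * u' := by linarith only [zx]
      have zy' : y1 - y2 = δ * v - γ * v' := by linarith only [zy]
      rw [zx', zy', hX, hW']; ring
    rw [e] at I2
    nlinarith only [I2, hγ1, hW'pos, mul_nonneg (sub_nonneg.2 hγ1) hW'pos.le]
  have hγpos : 0 < γ := by linarith only [hγ1]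
  have hδpos : 0 < δ := by linarith only [hδ1]
  have hXpos : 0 < X := by
    have : 0 < 2 * γ * X := lt_of_lt_of_le (by positivity) D1
    exact (pos_iff_pos_of_mul_pos this).1 (by positivity)
  -- contradiction
  have E1 : 4 * X ^ 2 < W * W' := by
    have h : (2 * σ * X) * (2 * τ * X) < (τ * W) * (σ * W') :=
      mul_lt_mul'' C1 C2 (by positivity) (by positivity)
    have hστ : 0 < σ * τ := by positivity
    have : σ * τ * (4 * X ^ 2) < σ * τ * (W * W') := by nlinarith only [h]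
    exact lt_of_mul_lt_mul_left this hστ.le
  have E2 : W * W' ≤ 4 * X ^ 2 := by
    have h : (δ * W) * (γ * W') ≤ (2 * γ * X) * (2 * δ * X) :=
      mul_le_mul D1 D2 (by positivity) (by positivity)
    have hγδ : 0 < γ * δ := by positivity
    have : γ * δ * (W * W') ≤ γ * δ * (4 * X ^ 2) := by nlinarith only [h]
    exact le_of_mul_le_mul_left this hγδ
  linarith only [E1, E2]

/-- real-number form of the no-deadlock lemma, in coordinates where `a = (1,0)`, `b = (0,0)`,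
`c = (x1,y1)`, `c' = (x3,y3)`, `d' = (x4,y4)`, `d = (x2,y2)`; the points `a, c, c', d', d, b` are in
convex position in counterclockwise order (`c' = d'` allowed). -/
lemma no_deadlock_real {x1 y1 x2 y2 x3 y3 x4 y4 : ℝ}
    (hy1 : 0 < y1) (hy2 : 0 < y2) (hy3 : 0 < y3) (hy4 : 0 < y4)
    -- orientations
    (o_acc' : 0 < (x1 - 1) * (y3 - 0) - (y1 - 0) * (x3 - 1))
    (o_cc'b : 0 < (x3 - x1) * (0 - y1) - (y3 - y1) * (0 - x1))
    (o_ad'd : 0 < (x4 - 1) * (y2 - 0) - (y4 - 0) * (x2 - 1))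
    (o_d'db : 0 < (x2 - x4) * (0 - y4) - (y2 - y4) * (0 - x4))
    (o_acd' : 0 < (x1 - 1) * (y4 - 0) - (y1 - 0) * (x4 - 1))
    (o_cd'b : 0 < (x4 - x1) * (0 - y1) - (y4 - y1) * (0 - x1))
    (o_ac'd : 0 < (x3 - 1) * (y2 - 0) - (y3 - 0) * (x2 - 1))
    (o_c'db : 0 < (x2 - x3) * (0 - y3) - (y2 - y3) * (0 - x3))
    (o_cd'd : 0 < (x4 - x1) * (y2 - y1) - (y4 - y1) * (x2 - x1))
    (o_cc'd : 0 < (x3 - x1) * (y2 - y1) - (y3 - y1) * (x2 - x1))
    (o_c'd'd : 0 ≤ (x4 - x3) * (y2 - y3) - (y4 - y3) * (x2 - x3))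
    (o_cc'd' : 0 ≤ (x3 - x1) * (y4 - y1) - (y3 - y1) * (x4 - x1))
    -- diameter
    (d_ad' : (x4 - 1) ^ 2 + y4 ^ 2 ≤ 1) (d_bd' : x4 ^ 2 + y4 ^ 2 ≤ 1)
    (d_ac' : (x3 - 1) ^ 2 + y3 ^ 2 ≤ 1) (d_bc' : x3 ^ 2 + y3 ^ 2 ≤ 1)
    (d_ac : (x1 - 1) ^ 2 + y1 ^ 2 ≤ 1) (d_bc : x1 ^ 2 + y1 ^ 2 ≤ 1)
    -- deadlock
    (h1 : (x2 - x1) ^ 2 + (y2 - y1) ^ 2 ≤ (x4 - x1) ^ 2 + (y4 - y1) ^ 2)
    (h2 : (x2 - x1) ^ 2 + (y2 - y1) ^ 2 ≤ (x3 - x2) ^ 2 + (y3 - y2) ^ 2) : False := by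
  -- x ranges
  have hx1 : 0 < x1 := x_pos hy1 d_ac
  have hx1' : x1 < 1 := x_lt_one hy1 d_bc
  have hx3 : 0 < x3 := x_pos hy3 d_ac'
  have hx3' : x3 < 1 := x_lt_one hy3 d_bc'
  have hx4 : 0 < x4 := x_pos hy4 d_ad'
  have hx4' : x4 < 1 := x_lt_one hy4 d_bd'
  -- x monotone
  have m31 : x3 < x1 := x_mono hx1 hx1' hy1 o_acc' o_cc'b
  have m24 : x2 < x4 := x_mono hx4 hx4' hy4 o_ad'd o_d'db
  have m41 : x4 < x1 := x_mono hx1 hx1' hy1 o_acd' o_cd'b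
  have m23 : x2 < x3 := x_mono hx3 hx3' hy3 o_ac'd o_c'db
  -- heights
  have hv4 : y2 < y4 ∧ y1 < y4 := high_point m24 m41 o_cd'd h1
  have hv3 : y2 < y3 ∧ y1 < y3 := by
    -- reflect: exchange the roles of c and d
    have h := high_point (x1 := -x2) (y1 := y2) (x2 := -x1) (y2 := y1) (x4 := -x3) (y4 := y3)
      (by linarith) (by linarith) (by nlinarith only [o_cc'd]) (by nlinarith only [h2])
    exact ⟨h.2, h.1⟩
  -- directions w' = c' - c = (u', v'), w = d' - d = (u, v)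
  obtain ⟨u', hu'⟩ : ∃ u', u' = x3 - x1 := ⟨_, rfl⟩
  obtain ⟨v', hv'⟩ : ∃ v', v' = y3 - y1 := ⟨_, rfl⟩
  obtain ⟨u, hu⟩ : ∃ u, u = x4 - x2 := ⟨_, rfl⟩
  obtain ⟨v, hv⟩ : ∃ v, v = y4 - y2 := ⟨_, rfl⟩
  have hu'neg : u' < 0 := by linarith only [hu', m31]
  have hv'pos : 0 < v' := by linarith only [hv', hv3.2]
  have hupos : 0 < u := by linarith only [hu, m24]
  have hvpos : 0 < v := by linarith only [hv, hv4.1]
  have e3 : x3 = x1 + u' := by linarith only [hu']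
  have e3' : y3 = y1 + v' := by linarith only [hv']
  have e4 : x4 = x2 + u := by linarith only [hu]
  have e4' : y4 = y2 + v := by linarith only [hv]
  clear hu' hv' hu hv
  subst e3 e3' e4 e4'
  -- the points a', b'
  obtain ⟨σ, hσ⟩ : ∃ σ, σ * v' = y1 := ⟨y1 / v', div_mul_cancel₀ _ hv'pos.ne'⟩
  obtain ⟨τ, hτ⟩ : ∃ τ, τ * v = y2 := ⟨y2 / v, div_mul_cancel₀ _ hvpos.ne'⟩
  have hσpos : 0 < σ := by
    have : 0 < σ * v' := by rw [hσ]; exact hy1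
    exact (pos_iff_pos_of_mul_pos this).2 hv'pos
  have hτpos : 0 < τ := by
    have : 0 < τ * v := by rw [hτ]; exact hy2
    exact (pos_iff_pos_of_mul_pos this).2 hvpos
  have hs : 0 < x1 - σ * u' - 1 := by
    have : 0 < v' * (x1 - σ * u' - 1) := by
      have e : v' * (x1 - σ * u' - 1) =
        (x1 - 1) * (y1 + v' - 0) - (y1 - 0) * (x1 + u' - 1) + (y1 - σ * v') * u' := by ring
      rw [e, hσ]
      linarith only [o_acc']
    exact (pos_iff_pos_of_mul_pos this).1 hv'pos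
  have hs' : 0 < τ * u - x2 := by
    have : 0 < v * (τ * u - x2) := by
      have e : v * (τ * u - x2) =
        (x2 - (x2 + u)) * (0 - (y2 + v)) - (y2 - (y2 + v)) * (0 - (x2 + u)) +
          (τ * v - y2) * u := by ring
      rw [e, hτ]
      linarith only [o_d'db]
    exact (pos_iff_pos_of_mul_pos this).1 hvpos
  have B1 := bottom1 (A := x1 - σ * u') hτ hτpos (by linarith only [hs]) hs' hx4 d_ad' d_bd' hx4'
  have B2 := bottom2 (B := x2 - τ * u) hσ hσpos (by linarith only [hs']) hs hx3' d_bc'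
  have I1 : 0 ≤ (u ^ 2 + v ^ 2) + 2 * (u * (x2 - x1) + v * (y2 - y1)) := by
    nlinarith only [h1]
  have I2 : 0 ≤ (u' ^ 2 + v' ^ 2) + 2 * (u' * (x1 - x2) + v' * (y1 - y2)) := by
    nlinarith only [h2]
  refine core hupos hvpos hu'neg hv'pos hσ hτ hσpos hτpos B1 B2 I1 I2 ?_ ?_
  · nlinarith only [o_c'd'd]
  · nlinarith only [o_cc'd']

end Pool.Agent.H244R2.Cvx
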