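import Mathlib
import Pool.Agent.H244R2.CvxA

set_option autoImplicit false

namespace Pool.Agent.H244R2.Cvx

/-- twice the signed area of the triangle `p q r` (positive if counterclockwise). -/
def orient (p q r : ℂ) : ℝ := (q.re - p.re) * (r.im - p.im) - (q.im - p.im) * (r.re - p.re)

lemma orient_rot (p q r : ℂ) : orient p q r = orient q r p := by
  unfold orient; ring

lemma orient_rot' (p q r : ℂ) : orient p q r = orient r p q := by
  unfold orient; ring

lemma orient_self (p q : ℂ) : orient p q p = 0 := by
  unfold orient; ring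

lemma orient_line (p q r : ℂ) (t : ℝ) : orient p q (p + t * (r - p)) = t * orient p q r := by
  unfold orient
  simp only [Complex.add_re, Complex.add_im, Complex.mul_re, Complex.mul_im, Complex.sub_re,
    Complex.sub_im, Complex.ofReal_re, Complex.ofReal_im]
  ring

/-- Kalmanson inequality: in a convex quadrilateral, the sum of the diagonals exceeds the sum of two
opposite sides. -/
lemma kal1 {p q r s : ℂ} (h1 : 0 < orient p q r) (h2 : 0 < orient p q s) (h3 : 0 < orient p r s)
    (h4 : 0 < orient q r s) : dist p q + dist r s < dist p r + dist q s := by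
  have hT : orient p q s + orient q r s = orient p q r + orient p r s := by
    unfold orient; ring
  have hTpos : 0 < orient p q s + orient q r s := by linarith
  obtain ⟨lam, hlam⟩ : ∃ lam : ℝ, lam * (orient p q s + orient q r s) = orient p q s :=
    ⟨_, div_mul_cancel₀ _ hTpos.ne'⟩
  obtain ⟨mu, hmu⟩ : ∃ mu : ℝ, mu * (orient p q s + orient q r s) = orient p q r :=
    ⟨_, div_mul_cancel₀ _ hTpos.ne'⟩
  have hl0 : 0 < lam := by
    have : 0 < lam * (orient p q s + orient q r s) := by rw [hlam]; exact h2
    exact (pos_iff_pos_of_mul_pos this).2 hTpos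
  have hl1 : lam < 1 := by
    by_contra hc
    push Not at hc
    nlinarith
  have hm0 : 0 < mu := by
    have : 0 < mu * (orient p q s + orient q r s) := by rw [hmu]; exact h1
    exact (pos_iff_pos_of_mul_pos this).2 hTpos
  have hm1 : mu < 1 := by
    by_contra hc
    push Not at hc
    nlinarith
  set O : ℂ := p + lam * (r - p) with hO
  have hO2 : O = q + mu * (s - q) := by
    have e1 : (orient p q s + orient q r s) * (p.re + lam * (r.re - p.re)) =
        (orient p q s + orient q r s) * (q.re + mu * (s.re - q.re)) := by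
      have : (orient p q s + orient q r s) * (p.re + lam * (r.re - p.re)) =
        (orient p q s + orient q r s) * p.re +
          (lam * (orient p q s + orient q r s)) * (r.re - p.re) := by ring
      rw [this, hlam]
      have : (orient p q s + orient q r s) * (q.re + mu * (s.re - q.re)) =
        (orient p q s + orient q r s) * q.re +
          (mu * (orient p q s + orient q r s)) * (s.re - q.re) := by ring
      rw [this, hmu]
      unfold orient; ring
    have e2 : (orient p q s + orient q r s) * (p.im + lam * (r.im - p.im)) =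
        (orient p q s + orient q r s) * (q.im + mu * (s.im - q.im)) := by
      have : (orient p q s + orient q r s) * (p.im + lam * (r.im - p.im)) =
        (orient p q s + orient q r s) * p.im +
          (lam * (orient p q s + orient q r s)) * (r.im - p.im) := by ring
      rw [this, hlam]
      have : (orient p q s + orient q r s) * (q.im + mu * (s.im - q.im)) =
        (orient p q s + orient q r s) * q.im +
          (mu * (orient p q s + orient q r s)) * (s.im - q.im) := by ring
      rw [this, hmu]
      unfold orient; ring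
    have e1' := mul_left_cancel₀ hTpos.ne' e1
    have e2' := mul_left_cancel₀ hTpos.ne' e2
    apply Complex.ext
    · simp only [hO, Complex.add_re, Complex.mul_re, Complex.sub_re, Complex.sub_im,
        Complex.ofReal_re, Complex.ofReal_im]
      linarith
    · simp only [hO, Complex.add_im, Complex.mul_im, Complex.sub_re, Complex.sub_im,
        Complex.ofReal_re, Complex.ofReal_im]
      linarith
  have dpr : dist p O + dist O r = dist p r := by
    have a1 : dist p O = lam * dist p r := by
      rw [dist_eq_norm, dist_eq_norm]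
      have : p - O = (lam : ℂ) * (p - r) := by rw [hO]; ring
      rw [this, norm_mul, Complex.norm_real, Real.norm_of_nonneg hl0.le]
    have a2 : dist O r = (1 - lam) * dist p r := by
      rw [dist_eq_norm, dist_eq_norm]
      have : O - r = ((1 - lam : ℝ) : ℂ) * (p - r) := by rw [hO]; push_cast; ring
      rw [this, norm_mul, Complex.norm_real, Real.norm_of_nonneg (by linarith)]
    rw [a1, a2]; ring
  have dqs : dist q O + dist O s = dist q s := by
    have a1 : dist q O = mu * dist q s := by
      rw [dist_eq_norm, dist_eq_norm]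
      have : q - O = (mu : ℂ) * (q - s) := by rw [hO2]; ring
      rw [this, norm_mul, Complex.norm_real, Real.norm_of_nonneg hm0.le]
    have a2 : dist O s = (1 - mu) * dist q s := by
      rw [dist_eq_norm, dist_eq_norm]
      have : O - s = ((1 - mu : ℝ) : ℂ) * (q - s) := by rw [hO2]; push_cast; ring
      rw [this, norm_mul, Complex.norm_real, Real.norm_of_nonneg (by linarith)]
    rw [a1, a2]; ring
  have t1 : dist p q < dist p O + dist O q := by
    rcases (dist_triangle p O q).lt_or_eq with h | h
    · exact h
    · exfalso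
      have hw : Wbtw ℝ p O q := dist_add_dist_eq_iff.1 h.symm
      obtain ⟨t, -, ht⟩ := hw
      have e0 : O = p + t * (q - p) := by
        rw [← ht, AffineMap.lineMap_apply]
        simp [add_comm]
      have e1 : orient p q O = t * orient p q q := by rw [e0]; exact orient_line p q q t
      have e2 : orient p q O = lam * orient p q r := by rw [hO]; exact orient_line p q r lam
      have e3 : orient p q q = 0 := by unfold orient; ring
      rw [e3, mul_zero] at e1
      rw [e1] at e2
      have := mul_pos hl0 h1
      linarith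
  have t2 : dist r s ≤ dist r O + dist O s := dist_triangle _ _ _
  rw [dist_comm r O] at t2
  rw [dist_comm O q] at t1
  linarith

lemma kal2 {p q r s : ℂ} (h1 : 0 < orient p q r) (h2 : 0 < orient p q s) (h3 : 0 < orient p r s)
    (h4 : 0 < orient q r s) : dist q r + dist p s < dist p r + dist q s := by
  have := kal1 (p := q) (q := r) (r := s) (s := p) h4 (by rw [← orient_rot]; exact h1)
    (by rw [← orient_rot]; exact h2) (by rw [← orient_rot]; exact h3)
  rw [dist_comm s p, dist_comm r p] at this
  linarith

/-- normalisation -/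
lemma orient_norm (p q r b k : ℂ) :
    orient ((p - b) * k) ((q - b) * k) ((r - b) * k) = (k.re ^ 2 + k.im ^ 2) * orient p q r := by
  unfold orient
  simp only [Complex.mul_re, Complex.mul_im, Complex.sub_re, Complex.sub_im]
  ring

lemma sq_dist (p q : ℂ) : dist p q ^ 2 = (p.re - q.re) ^ 2 + (p.im - q.im) ^ 2 := by
  rw [Complex.dist_eq_re_im, Real.sq_sqrt (by positivity)]

/-- The no-deadlock lemma. The points `a, c, c', d', d, b` are in convex position in
counterclockwise order (`c' = d'` allowed) and `a b` is a longest segment. Then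
`|c d'| < |c d|` or `|c' d| < |c d|`. -/
lemma no_deadlock {a b c d c' d' : ℂ}
    (hc : 0 < orient a c b) (hd : 0 < orient a d b) (hc' : 0 < orient a c' b)
    (hd' : 0 < orient a d' b)
    (o_acc' : 0 < orient a c c') (o_cc'b : 0 < orient c c' b)
    (o_ad'd : 0 < orient a d' d) (o_d'db : 0 < orient d' d b)
    (o_acd' : 0 < orient a c d') (o_cd'b : 0 < orient c d' b)
    (o_ac'd : 0 < orient a c' d) (o_c'db : 0 < orient c' d b)
    (o_cd'd : 0 < orient c d' d) (o_cc'd : 0 < orient c c' d)
    (o_c'd'd : 0 ≤ orient c' d' d) (o_cc'd' : 0 ≤ orient c c' d')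
    (d_ad' : dist a d' ≤ dist a b) (d_bd' : dist b d' ≤ dist a b)
    (d_ac' : dist a c' ≤ dist a b) (d_bc' : dist b c' ≤ dist a b)
    (d_ac : dist a c ≤ dist a b) (d_bc : dist b c ≤ dist a b) :
    dist c d' < dist c d ∨ dist c' d < dist c d := by
  by_contra hcon
  push Not at hcon
  obtain ⟨h1, h2⟩ := hcon
  have hab : a ≠ b := by
    rintro rfl
    rw [orient_self] at hc
    exact lt_irrefl _ hc
  have hab' : a - b ≠ 0 := sub_ne_zero.2 hab
  obtain ⟨k, hk⟩ : ∃ k : ℂ, (a - b) * k = 1 := ⟨(a - b)⁻¹, mul_inv_cancel₀ hab'⟩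
  have hk0 : k ≠ 0 := by
    rintro rfl
    simp at hk
  have hkpos : 0 < k.re ^ 2 + k.im ^ 2 := by
    have := Complex.normSq_pos.2 hk0
    rw [Complex.normSq_apply] at this
    nlinarith
  set f : ℂ → ℂ := fun z => (z - b) * k with hf
  have hfo : ∀ p q r, 0 < orient p q r → 0 < orient (f p) (f q) (f r) := by
    intro p q r h
    rw [hf]; simp only
    rw [orient_norm]
    exact mul_pos hkpos h
  have hfo' : ∀ p q r, 0 ≤ orient p q r → 0 ≤ orient (f p) (f q) (f r) := by
    intro p q r h
    rw [hf]; simp only
    rw [orient_norm]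
    exact mul_nonneg hkpos.le h
  have hfa : f a = 1 := hk
  have hfb : f b = 0 := by simp [hf]
  have hfd : ∀ p q, dist (f p) (f q) = dist p q * ‖k‖ := by
    intro p q
    rw [dist_eq_norm, dist_eq_norm, ← norm_mul]
    congr 1
    simp only [hf]; ring
  have hk1 : dist a b * ‖k‖ = 1 := by
    rw [dist_eq_norm, ← norm_mul, hk, norm_one]
  have hkn : 0 ≤ ‖k‖ := norm_nonneg _
  have hle1 : ∀ p q, dist p q ≤ dist a b → (((f p).re - (f q).re) ^ 2 + ((f p).im - (f q).im) ^ 2) ≤ 1 := by
    intro p q h
    rw [← sq_dist]
    have : dist (f p) (f q) ≤ 1 := by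
      rw [hfd, ← hk1]
      exact mul_le_mul_of_nonneg_right h hkn
    have h0 : 0 ≤ dist (f p) (f q) := dist_nonneg
    nlinarith
  have hle : ∀ p q r s, dist p q ≤ dist r s →
      (((f p).re - (f q).re) ^ 2 + ((f p).im - (f q).im) ^ 2) ≤
      (((f r).re - (f s).re) ^ 2 + ((f r).im - (f s).im) ^ 2) := by
    intro p q r s h
    rw [← sq_dist, ← sq_dist]
    have : dist (f p) (f q) ≤ dist (f r) (f s) := by
      rw [hfd, hfd]
      exact mul_le_mul_of_nonneg_right h hkn
    have h0 : 0 ≤ dist (f p) (f q) := dist_nonneg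
    nlinarith
  have im_pos : ∀ z, 0 < orient a z b → 0 < (f z).im := by
    intro z hz
    have := hfo a z b hz
    rw [hfa, hfb] at this
    unfold orient at this
    simp only [Complex.one_re, Complex.one_im, Complex.zero_re, Complex.zero_im] at this
    linarith
  have E1 := hfo _ _ _ o_acc'
  have E2 := hfo _ _ _ o_cc'b
  have E3 := hfo _ _ _ o_ad'd
  have E4 := hfo _ _ _ o_d'db
  have E5 := hfo _ _ _ o_acd'
  have E6 := hfo _ _ _ o_cd'b
  have E7 := hfo _ _ _ o_ac'd
  have E8 := hfo _ _ _ o_c'db
  have E9 := hfo _ _ _ o_cd'd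
  have E10 := hfo _ _ _ o_cc'd
  have E11 := hfo' _ _ _ o_c'd'd
  have E12 := hfo' _ _ _ o_cc'd'
  have F1 := hle1 _ _ d_ad'
  have F2 := hle1 _ _ d_bd'
  have F3 := hle1 _ _ d_ac'
  have F4 := hle1 _ _ d_bc'
  have F5 := hle1 _ _ d_ac
  have F6 := hle1 _ _ d_bc
  have G1 := hle _ _ _ _ h1
  have G2 := hle _ _ _ _ h2
  rw [hfa] at E1 E3 E5 E7 F1 F3 F5
  rw [hfb] at E2 E4 E6 E8 F2 F4 F6
  unfold orient at E1 E2 E3 E4 E5 E6 E7 E8 E9 E10 E11 E12
  simp only [Complex.one_re, Complex.one_im, Complex.zero_re, Complex.zero_im] at E1 E2 E3 E4 E5 E6 E7 E8 F1 F2 F3 F4 F5 F6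
  refine no_deadlock_real (im_pos c hc) (im_pos d hd) (im_pos c' hc') (im_pos d' hd')
    E1 E2 E3 E4 E5 E6 E7 E8 E9 E10 E11 E12 ?_ ?_ ?_ ?_ ?_ ?_ ?_ ?_
  · nlinarith only [F1]
  · nlinarith only [F2]
  · nlinarith only [F3]
  · nlinarith only [F4]
  · nlinarith only [F5]
  · nlinarith only [F6]
  · nlinarith only [G1]
  · nlinarith only [G2]

end Pool.Agent.H244R2.Cvx
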