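import Mathlib

set_option autoImplicit false

namespace Pool.Agent.H244R2.Cvx

/-- The combinatorial properties of the distances of a convex `m`-gon (vertices indexed by `ℕ`
periodically mod `m`). -/
structure Poly (m : ℕ) (D : ℕ → ℕ → ℝ) : Prop where
  symm : ∀ i j, D i j = D j i
  per : ∀ i j, D (i + m) j = D i j
  self : ∀ i, D i i = 0
  kal1 : ∀ i j k l, i < j → j < k → k < l → l < i + m → D i j + D k l < D i k + D j l
  kal2 : ∀ i j k l, i < j → j < k → k < l → l < i + m → D j k + D i l < D i k + D j l
  nod : ∀ a c d b, a < c → c + 2 ≤ d → d < b → b < a + m → (∀ i j, D i j ≤ D a b) →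
    D c (d - 1) < D c d ∨ D (c + 1) d < D c d

/-- number of elements of `S` that are at most `x` -/
noncomputable def rk (S : Finset ℝ) (x : ℝ) : ℕ := (S.filter (· ≤ x)).card

lemma rk_le_card (S : Finset ℝ) (x : ℝ) : rk S x ≤ S.card := Finset.card_filter_le _ _

lemma rk_mono (S : Finset ℝ) {x y : ℝ} (h : x ≤ y) : rk S x ≤ rk S y := by
  unfold rk
  apply Finset.card_le_card
  intro z hz
  rw [Finset.mem_filter] at hz ⊢
  exact ⟨hz.1, hz.2.trans h⟩

lemma rk_lt (S : Finset ℝ) {x y : ℝ} (h : x < y) (hy : y ∈ S) : rk S x + 1 ≤ rk S y := by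
  unfold rk
  apply Nat.succ_le_of_lt
  apply Finset.card_lt_card
  rw [Finset.ssubset_iff_of_subset]
  · exact ⟨y, by simp [hy], by simp [h]⟩
  · intro z hz
    rw [Finset.mem_filter] at hz ⊢
    exact ⟨hz.1, hz.2.trans h.le⟩

lemma rk_pos (S : Finset ℝ) {x : ℝ} (hx : x ∈ S) : 1 ≤ rk S x := by
  unfold rk
  apply Finset.card_pos.2
  exact ⟨x, by simp [hx]⟩

lemma exists_of_rk_pos {S : Finset ℝ} {x : ℝ} (h : 1 ≤ rk S x) : ∃ z ∈ S, z ≤ x := by
  unfold rk at h
  obtain ⟨z, hz⟩ := Finset.card_pos.1 h
  rw [Finset.mem_filter] at hz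
  exact ⟨z, hz.1, hz.2⟩

lemma rk_inj {S : Finset ℝ} {x y : ℝ} (hx : x ∈ S) (hy : y ∈ S) (h : rk S x = rk S y) : x = y := by
  rcases lt_trichotomy x y with h' | h' | h'
  · have := rk_lt S h' hy; omega
  · exact h'
  · have := rk_lt S h' hx; omega

namespace Poly

variable {m : ℕ} {D : ℕ → ℕ → ℝ}

lemma per' (hP : Poly m D) (i j : ℕ) : D i (j + m) = D i j := by
  rw [hP.symm, hP.per, hP.symm]

lemma per_mul (hP : Poly m D) (i j e : ℕ) : D (i + m * e) j = D i j := by
  induction e with
  | zero => simp
  | succ e ih => rw [Nat.mul_succ, ← add_assoc, hP.per, ih]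

lemma per_mul' (hP : Poly m D) (i j e : ℕ) : D i (j + m * e) = D i j := by
  rw [hP.symm, hP.per_mul, hP.symm]

lemma mod_eq (hP : Poly m D) (i j : ℕ) : D (i % m) (j % m) = D i j := by
  conv_rhs => rw [← Nat.mod_add_div i m, ← Nat.mod_add_div j m]
  rw [hP.per_mul, hP.per_mul']

/-- the arc lemma -/
lemma arc_rank (hP : Poly m D) {S : Finset ℝ} {t : ℝ} (hS : ∀ i j, t ≤ D i j → D i j ∈ S)
    (hSt : ∀ x ∈ S, t ≤ x) (hside : ∀ i, t ≤ D i (i + 1)) {a b : ℕ} (hbm : b < a + m)
    (hmax : ∀ i j, D i j ≤ D a b) :
    ∀ s, 1 ≤ s → ∀ c, a ≤ c → c + s ≤ b → a + s < b → s ≤ rk S (D c (c + s)) := by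
  intro s hs
  induction s, hs using Nat.le_induction with
  | base =>
    intro c _ _ _
    exact rk_pos S (hS _ _ (hside c))
  | succ s hs ih =>
    intro c hac hcb hsb
    have ih1 : s ≤ rk S (D c (c + s)) := ih c hac (by omega) (by omega)
    have ih2 : s ≤ rk S (D (c + 1) (c + 1 + s)) := ih (c + 1) (by omega) (by omega) (by omega)
    have e2 : c + 1 + s = c + (s + 1) := by omega
    rw [e2] at ih2
    have key : D c (c + s) < D c (c + (s + 1)) ∨ D (c + 1) (c + (s + 1)) < D c (c + (s + 1)) := by
      rcases Nat.eq_or_lt_of_le hac with h | h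
      · -- c = a
        right
        subst h
        have h1 := hP.kal2 a (a + 1) (a + (s + 1)) b (by omega) (by omega) (by omega) hbm
        have h2 := hmax (a + 1) b
        linarith
      · rcases Nat.eq_or_lt_of_le hcb with h' | h'
        · -- d = b
          left
          subst h'
          have h1 := hP.kal2 a c (c + s) (c + (s + 1)) (by omega) (by omega) (by omega) hbm
          have h2 := hmax a (c + s)
          linarith
        · have h1 := hP.nod a c (c + (s + 1)) b h (by omega) h' hbm hmax
          have e : c + (s + 1) - 1 = c + s := by omega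
          rw [e] at h1
          exact h1
    have fin : ∀ x y, x < y → (y = D c (c + (s + 1))) → s ≤ rk S x → s + 1 ≤ rk S y := by
      intro x y hxy hy hsx
      obtain ⟨z, hz, hzx⟩ := exists_of_rk_pos (hs.trans hsx)
      have hyS : y ∈ S := by
        rw [hy]
        apply hS
        rw [← hy]
        exact ((hSt z hz).trans hzx).trans hxy.le
      exact (Nat.succ_le_succ hsx).trans (rk_lt S hxy hyS)
    rcases key with h | h
    · exact fin _ _ h rfl ih1
    · exact fin _ _ h rfl ih2

/-- a closed polygon with `2K+1` long sides and at most `K` long distances behaves like the regular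
polygon. -/
theorem closed {K : ℕ} (hK : 1 ≤ K) (hP : Poly (2 * K + 1) D) {S : Finset ℝ} {t : ℝ} (ht : 0 < t)
    (hS : ∀ i j, t ≤ D i j → D i j ∈ S) (hSt : ∀ x ∈ S, t ≤ x)
    (hside : ∀ i, t ≤ D i (i + 1)) (hcard : S.card ≤ K) :
    (∀ i, ∀ x ∈ S, D i (i + 1) ≤ x) ∧ (∀ i, ∀ x ∈ S, x ≤ D i (i + K)) := by
  set m := 2 * K + 1 with hm
  -- a longest distance
  obtain ⟨a, b, hab, hbm, hmax⟩ : ∃ a b, a < b ∧ b < a + m ∧ ∀ i j, D i j ≤ D a b := by
    obtain ⟨⟨i0, j0⟩, hmem, hmx⟩ := Finset.exists_max_image
      (Finset.range m ×ˢ Finset.range m) (fun q => D q.1 q.2) ⟨(0, 0), by simp [hm]⟩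
    simp only at hmx
    have hall : ∀ i j, D i j ≤ D i0 j0 := by
      intro i j
      have := hmx (i % m, j % m) (by
        simp only [Finset.mem_product, Finset.mem_range]
        exact ⟨Nat.mod_lt _ (by omega), Nat.mod_lt _ (by omega)⟩)
      simpa [hP.mod_eq] using this
    simp only [Finset.mem_product, Finset.mem_range] at hmem
    have hne : i0 ≠ j0 := by
      rintro rfl
      have h1 := hall 0 (0 + 1)
      rw [hP.self] at h1
      have h2 := hside 0
      linarith
    rcases lt_or_gt_of_ne hne with h | h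
    · exact ⟨i0, j0, h, by omega, hall⟩
    · exact ⟨j0, i0, h, by omega, fun i j => by rw [hP.symm j0 i0]; exact hall i j⟩
  -- choose the long side
  obtain ⟨a, b, hab, hbm, hmax, hlong⟩ : ∃ a b, a < b ∧ b < a + m ∧ (∀ i j, D i j ≤ D a b) ∧
      a + (K + 1) ≤ b := by
    by_cases h : a + (K + 1) ≤ b
    · exact ⟨a, b, hab, hbm, hmax, h⟩
    · refine ⟨b, a + m, by omega, by omega, ?_, by omega⟩
      intro i j
      rw [hP.per', hP.symm b a]
      exact hmax i j
  set M := D a b with hM
  have hMS : M ∈ S := hS _ _ ((hside 0).trans (hmax _ _))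
  have hrM : rk S M ≤ K := (rk_le_card S M).trans hcard
  -- step: from a `(K+1)`-step longest chord
  have step : ∀ a, D a (a + (K + 1)) = M → D a (a + K) = M ∧ D (a + 1) (a + 1 + K) = M := by
    intro a ha
    have hmax' : ∀ i j, D i j ≤ D a (a + (K + 1)) := by rw [ha]; exact hmax
    have r1 := hP.arc_rank hS hSt hside (a := a) (b := a + (K + 1)) (by omega) hmax' K hK a le_rfl
      (by omega) (by omega)
    have r2 := hP.arc_rank hS hSt hside (a := a) (b := a + (K + 1)) (by omega) hmax' K hK (a + 1)
      (by omega) (by omega) (by omega)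
    constructor
    · by_contra hne
      have hlt : D a (a + K) < M := lt_of_le_of_ne (hmax _ _) hne
      have := rk_lt S hlt hMS
      omega
    · by_contra hne
      have hlt : D (a + 1) (a + 1 + K) < M := lt_of_le_of_ne (hmax _ _) hne
      have := rk_lt S hlt hMS
      omega
  have hbK : b = a + (K + 1) := by
    by_contra hne
    have h1 : a + (K + 1) < b := by omega
    have := hP.arc_rank hS hSt hside hbm hmax (K + 1) (by omega) a le_rfl (by omega) (by omega)
    have := (rk_le_card S (D a (a + (K + 1)))).trans hcard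
    omega
  -- all K-step chords are longest
  have T0 : D a (a + K) = M := (step a (by rw [← hbK])).1
  have Tsucc : ∀ i, D i (i + K) = M → D i (i + (K + 1)) = M ∧ D (i + 1) (i + 1 + K) = M := by
    intro i hi
    have h1 : D (i + K) (i + K + (K + 1)) = M := by
      have e : i + K + (K + 1) = i + m := by omega
      rw [e, hP.per', hP.symm, hi]
    obtain ⟨h2, h3⟩ := step _ h1
    have h4 : D i (i + (K + 1)) = M := by
      have e : i + K + 1 + K = i + m := by omega
      rw [e, hP.per', hP.symm] at h3
      rw [← h3]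
      congr 1
    exact ⟨h4, (step i h4).2⟩
  have Tge : ∀ e, D (a + e) (a + e + K) = M := by
    intro e
    induction e with
    | zero => exact T0
    | succ e ih => exact (Tsucc _ ih).2
  have T : ∀ i, D i (i + K) = M := by
    intro i
    have h1 := Tge (i + m * a - a)
    have hle : a ≤ i + m * a := by
      have : a ≤ m * a := Nat.le_mul_of_pos_left a (by omega)
      omega
    have e : a + (i + m * a - a) = i + m * a := by omega
    rw [e] at h1
    have e2 : i + m * a + K = (i + K) + m * a := by ring
    rw [e2, hP.per_mul, hP.per_mul'] at h1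
    exact h1
  have T' : ∀ i, D i (i + (K + 1)) = M := fun i => (Tsucc i (T i)).1
  -- lower bounds on ranks
  have low : ∀ j, 1 ≤ j → j ≤ K → ∀ i, j ≤ rk S (D i (i + j)) := by
    intro j h1 h2 i
    have hmax' : ∀ i' j', D i' j' ≤ D i (i + (K + 1)) := by rw [T']; exact hmax
    exact hP.arc_rank hS hSt hside (a := i) (b := i + (K + 1)) (by omega) hmax' j h1 i le_rfl
      (by omega) (by omega)
  have memS : ∀ j, 1 ≤ j → j ≤ K → ∀ i, D i (i + j) ∈ S := by
    intro j h1 h2 i
    obtain ⟨z, hz, hzx⟩ := exists_of_rk_pos (h1.trans (low j h1 h2 i))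
    exact hS _ _ ((hSt z hz).trans hzx)
  -- upper bounds, by downward induction
  have up : ∀ e, ∀ j, 1 ≤ j → j + e = K → ∀ i, rk S (D i (i + j)) ≤ j := by
    intro e
    induction e with
    | zero =>
      intro j h1 h2 i
      have := (rk_le_card S (D i (i + j))).trans hcard
      omega
    | succ e ih =>
      intro j h1 h2 i
      have ihj := ih (j + 1) (by omega) (by omega)
      -- all (j+1)-step chords are equal
      have heq : ∀ i i', D i (i + (j + 1)) = D i' (i' + (j + 1)) := by
        intro i i'
        apply rk_inj (memS (j + 1) (by omega) (by omega) i) (memS (j + 1) (by omega) (by omega) i')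
        have a1 := ihj i
        have a2 := ihj i'
        have a3 := low (j + 1) (by omega) (by omega) i
        have a4 := low (j + 1) (by omega) (by omega) i'
        omega
      set i' := i + 2 * K with hi'
      have hk := hP.kal2 i' (i' + 1) (i' + (j + 1)) (i' + (j + 2)) (by omega) (by omega) (by omega)
        (by omega)
      have e1 : D (i' + 1) (i' + (j + 1)) = D i (i + j) := by
        have e : i' + 1 = i + m := by omega
        have e' : i' + (j + 1) = i + j + m := by omega
        rw [e, e', hP.per, hP.per']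
      have e2 : D (i' + 1) (i' + (j + 2)) = D i (i + (j + 1)) := by
        have e : i' + 1 = i + m := by omega
        have e' : i' + (j + 2) = i + (j + 1) + m := by omega
        rw [e, e', hP.per, hP.per']
      have e3 : D i' (i' + (j + 1)) = D i (i + (j + 1)) := heq _ _
      -- D i' (i'+j+2) ≥ D i (i + (j+1))
      have e4 : D i (i + (j + 1)) ≤ D i' (i' + (j + 2)) := by
        by_cases hj : j + 2 = K + 1
        · rw [hj, T']
          exact hmax _ _
        · by_contra hc
          push Not at hc
          have b1 := rk_mono S hc.le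
          have b2 := low (j + 2) (by omega) (by omega) i'
          have b3 := ihj i
          omega
      rw [e1, e2, e3] at hk
      have hlt : D i (i + j) < D i (i + (j + 1)) := by linarith
      have b1 := rk_lt S hlt (memS (j + 1) (by omega) (by omega) i)
      have b2 := ihj i
      omega
  refine ⟨?_, ?_⟩
  · intro i x hx
    by_contra hc
    push Not at hc
    have b1 := rk_lt S hc (memS 1 le_rfl hK i)
    have b2 := up (K - 1) 1 le_rfl (by omega) i
    have b3 := rk_pos S hx
    omega
  · intro i x hx
    by_contra hc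
    push Not at hc
    have b1 := rk_lt S hc hx
    have b2 := low K hK le_rfl i
    have b3 := (rk_le_card S x).trans hcard
    omega

end Poly

end Pool.Agent.H244R2.Cvx
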