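import Mathlib
import Pool.Agent.H244R2.CvxB
import Pool.Agent.H244R2.CvxC

set_option autoImplicit false

namespace Pool.Agent.H244R2.Cvx

lemma poly_of_orient {m : ℕ} {q : ℕ → ℂ} (hper : ∀ i, q (i + m) = q i)
    (ho : ∀ i j k, i < j → j < k → k < i + m → 0 < orient (q i) (q j) (q k)) :
    Poly m (fun i j => dist (q i) (q j)) where
  symm i j := dist_comm _ _
  per i j := by simp only [hper]
  self i := dist_self _
  kal1 i j k l h1 h2 h3 h4 := kal1 (ho _ _ _ h1 h2 (by omega)) (ho _ _ _ h1 (by omega) h4)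
    (ho _ _ _ (by omega) h3 h4) (ho _ _ _ h2 h3 (by omega))
  kal2 i j k l h1 h2 h3 h4 := kal2 (ho _ _ _ h1 h2 (by omega)) (ho _ _ _ h1 (by omega) h4)
    (ho _ _ _ (by omega) h3 h4) (ho _ _ _ h2 h3 (by omega))
  nod a c d b h1 h2 h3 h4 hmax := by
    have hmax1 : ∀ i, dist (q a) (q i) ≤ dist (q a) (q b) := fun i => hmax a i
    have hmax2 : ∀ i, dist (q b) (q i) ≤ dist (q a) (q b) := fun i => hmax b i
    refine no_deadlock (c' := q (c + 1)) (d' := q (d - 1)) ?_ ?_ ?_ ?_ ?_ ?_ ?_ ?_ ?_ ?_ ?_ ?_ ?_ ?_
      ?_ ?_ (hmax1 _) (hmax2 _) (hmax1 _) (hmax2 _) (hmax1 _) (hmax2 _)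
    · exact ho _ _ _ (by omega) (by omega) (by omega)
    · exact ho _ _ _ (by omega) (by omega) (by omega)
    · exact ho _ _ _ (by omega) (by omega) (by omega)
    · exact ho _ _ _ (by omega) (by omega) (by omega)
    · exact ho _ _ _ (by omega) (by omega) (by omega)
    · exact ho _ _ _ (by omega) (by omega) (by omega)
    · exact ho _ _ _ (by omega) (by omega) (by omega)
    · exact ho _ _ _ (by omega) (by omega) (by omega)
    · exact ho _ _ _ (by omega) (by omega) (by omega)
    · exact ho _ _ _ (by omega) (by omega) (by omega)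
    · exact ho _ _ _ (by omega) (by omega) (by omega)
    · exact ho _ _ _ (by omega) (by omega) (by omega)
    · exact ho _ _ _ (by omega) (by omega) (by omega)
    · exact ho _ _ _ (by omega) (by omega) (by omega)
    · rcases eq_or_ne (c + 1) (d - 1) with h | h
      · rw [h]; unfold orient; apply le_of_eq; ring
      · exact (ho _ _ _ (by omega) (by omega) (by omega)).le
    · rcases eq_or_ne (c + 1) (d - 1) with h | h
      · rw [h]; unfold orient; apply le_of_eq; ring
      · exact (ho _ _ _ (by omega) (by omega) (by omega)).le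

lemma cyc_of_lin {m : ℕ} (hm : 0 < m) {g : ℕ → ℂ}
    (hg : ∀ i j k, i < j → j < k → k < m → 0 < orient (g i) (g j) (g k)) :
    ∀ i j k, i < j → j < k → k < i + m → 0 < orient (g (i % m)) (g (j % m)) (g (k % m)) := by
  intro i j k hij hjk hk
  have hi := Nat.mod_add_div i m
  have hj := Nat.mod_add_div j m
  have hk' := Nat.mod_add_div k m
  have li := Nat.mod_lt i hm
  have lj := Nat.mod_lt j hm
  have lk := Nat.mod_lt k hm
  set i0 := i % m
  set j0 := j % m
  set k0 := k % m
  set ei := i / m
  set ej := j / m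
  set ek := k / m
  -- quotients
  have h1 : ei ≤ ej := by
    by_contra hc
    push Not at hc
    have : m * (ej + 1) ≤ m * ei := Nat.mul_le_mul_left m hc
    rw [Nat.mul_add, mul_one] at this
    omega
  have h2 : ej ≤ ek := by
    by_contra hc
    push Not at hc
    have : m * (ek + 1) ≤ m * ej := Nat.mul_le_mul_left m hc
    rw [Nat.mul_add, mul_one] at this
    omega
  have h3 : ek ≤ ei + 1 := by
    by_contra hc
    push Not at hc
    have : m * (ei + 1 + 1) ≤ m * ek := Nat.mul_le_mul_left m hc
    rw [Nat.mul_add, Nat.mul_add, mul_one] at this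
    omega
  rcases Nat.lt_or_ge ej (ei + 1) with hj1 | hj1
  · have e1 : ej = ei := by omega
    rcases Nat.lt_or_ge ek (ei + 1) with hk1 | hk1
    · have e2 : ek = ei := by omega
      rw [e1] at hj
      rw [e2] at hk'
      exact hg _ _ _ (by omega) (by omega) lk
    · have e2 : ek = ei + 1 := by omega
      rw [e1] at hj
      rw [e2, Nat.mul_add, mul_one] at hk'
      rw [orient_rot']
      exact hg _ _ _ (by omega) (by omega) lj
  · have e1 : ej = ei + 1 := by omega
    have e2 : ek = ei + 1 := by omega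
    rw [e1, Nat.mul_add, mul_one] at hj
    rw [e2, Nat.mul_add, mul_one] at hk'
    rw [orient_rot]
    exact hg _ _ _ (by omega) (by omega) li

theorem chain_bound {K : ℕ} (hK : 1 ≤ K) {f : ℕ → ℂ}
    (hf : ∀ i j k, i < j → j < k → k ≤ 2 * K + 1 → 0 < orient (f i) (f j) (f k))
    {S : Finset ℝ} {t : ℝ} (ht : 0 < t)
    (hS : ∀ i j, i ≤ 2 * K + 1 → j ≤ 2 * K + 1 → t ≤ dist (f i) (f j) → dist (f i) (f j) ∈ S)
    (hSt : ∀ x ∈ S, t ≤ x) (hside : ∀ i, i < 2 * K + 1 → t ≤ dist (f i) (f (i + 1)))
    (hcard : S.card ≤ K) : False := by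
  have kal : ∀ i j k l, i < j → j < k → k < l → l ≤ 2 * K + 1 →
      dist (f i) (f j) + dist (f k) (f l) < dist (f i) (f k) + dist (f j) (f l) := by
    intro i j k l h1 h2 h3 h4
    exact kal1 (hf _ _ _ h1 h2 (by omega)) (hf _ _ _ h1 (by omega) h4)
      (hf _ _ _ (by omega) h3 h4) (hf _ _ _ h2 h3 h4)
  have h0 := kal 0 1 (2 * K) (2 * K + 1) (by omega) (by omega) (by omega) (by omega)
  have s0 := hside 0 (by omega)
  have s1 := hside (2 * K) (by omega)
  have hor : t ≤ dist (f 1) (f (2 * K + 1)) ∨ t ≤ dist (f 0) (f (2 * K)) := by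
    by_contra hc
    push Not at hc
    simp only [zero_add] at s0
    linarith [hc.1, hc.2]
  rcases hor with h | h
  · -- vertices 1, ..., 2K+1
    set g : ℕ → ℂ := fun i => f (i + 1) with hg
    have hgo : ∀ i j k, i < j → j < k → k < 2 * K + 1 → 0 < orient (g i) (g j) (g k) :=
      fun i j k h1 h2 h3 => hf _ _ _ (by omega) (by omega) (by omega)
    have hP := poly_of_orient (m := 2 * K + 1) (q := fun i => g (i % (2 * K + 1)))
      (by intro i; simp) (cyc_of_lin (by omega) hgo)
    have hmod : ∀ i, i % (2 * K + 1) < 2 * K + 1 := fun i => Nat.mod_lt _ (by omega)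
    have hS' : ∀ i j, t ≤ dist (g (i % (2 * K + 1))) (g (j % (2 * K + 1))) →
        dist (g (i % (2 * K + 1))) (g (j % (2 * K + 1))) ∈ S := by
      intro i j hij
      have := hmod i
      have := hmod j
      exact hS _ _ (by omega) (by omega) hij
    have hside' : ∀ i, t ≤ dist (g (i % (2 * K + 1))) (g ((i + 1) % (2 * K + 1))) := by
      intro i
      have hi := hmod i
      by_cases hc : i % (2 * K + 1) = 2 * K
      · have e : (i + 1) % (2 * K + 1) = 0 := by
          rw [Nat.add_mod, hc, Nat.mod_eq_of_lt (a := 1) (by omega)]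
          exact Nat.mod_self _
        rw [hc, e, dist_comm]
        simpa [hg] using h
      · have e : (i + 1) % (2 * K + 1) = i % (2 * K + 1) + 1 := by
          rw [Nat.add_mod, Nat.mod_eq_of_lt (a := 1) (by omega)]
          exact Nat.mod_eq_of_lt (by omega)
        rw [e]
        exact hside _ (by omega)
    obtain ⟨c1, c2⟩ := hP.closed hK ht hS' hSt hside' hcard
    have m01 : dist (f 0) (f 1) ∈ S := hS _ _ (by omega) (by omega) (by simpa using s0)
    have r1 := c1 (2 * K) _ m01
    have e1 : (2 * K) % (2 * K + 1) = 2 * K := Nat.mod_eq_of_lt (by omega)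
    have e2 : (2 * K + 1) % (2 * K + 1) = 0 := Nat.mod_self _
    simp only [e1, e2, hg] at r1
    have kk := kal 0 1 (K + 1) (2 * K + 1) (by omega) (by omega) (by omega) (by omega)
    have e3 : K % (2 * K + 1) = K := Nat.mod_eq_of_lt (by omega)
    have e4 : (K + K) % (2 * K + 1) = 2 * K := by
      rw [← two_mul]; exact Nat.mod_eq_of_lt (by omega)
    have r2 := fun x hx => c2 K x hx
    simp only [e3, e4, hg] at r2
    simp only [zero_add] at r1
    rw [dist_comm (f (2 * K + 1)) (f 1)] at r1
    have hK1 : dist (f (K + 1)) (f (2 * K + 1)) < dist (f 0) (f (K + 1)) := by linarith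
    have r3 := r2 (dist (f (K + 1)) (f (2 * K + 1)))
    have mem : dist (f 0) (f (K + 1)) ∈ S := by
      apply hS _ _ (by omega) (by omega)
      have := r2 _ m01
      have s0' : t ≤ dist (f 0) (f 1) := by simpa using s0
      linarith
    have r4 := r2 _ mem
    linarith
  · -- vertices 0, ..., 2K
    have hgo : ∀ i j k, i < j → j < k → k < 2 * K + 1 → 0 < orient (f i) (f j) (f k) :=
      fun i j k h1 h2 h3 => hf _ _ _ (by omega) (by omega) (by omega)
    have hP := poly_of_orient (m := 2 * K + 1) (q := fun i => f (i % (2 * K + 1)))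
      (by intro i; simp) (cyc_of_lin (by omega) hgo)
    have hmod : ∀ i, i % (2 * K + 1) < 2 * K + 1 := fun i => Nat.mod_lt _ (by omega)
    have hS' : ∀ i j, t ≤ dist (f (i % (2 * K + 1))) (f (j % (2 * K + 1))) →
        dist (f (i % (2 * K + 1))) (f (j % (2 * K + 1))) ∈ S := by
      intro i j hij
      have := hmod i
      have := hmod j
      exact hS _ _ (by omega) (by omega) hij
    have hside' : ∀ i, t ≤ dist (f (i % (2 * K + 1))) (f ((i + 1) % (2 * K + 1))) := by
      intro i
      have hi := hmod i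
      by_cases hc : i % (2 * K + 1) = 2 * K
      · have e : (i + 1) % (2 * K + 1) = 0 := by
          rw [Nat.add_mod, hc, Nat.mod_eq_of_lt (a := 1) (by omega)]
          exact Nat.mod_self _
        rw [hc, e, dist_comm]
        exact h
      · have e : (i + 1) % (2 * K + 1) = i % (2 * K + 1) + 1 := by
          rw [Nat.add_mod, Nat.mod_eq_of_lt (a := 1) (by omega)]
          exact Nat.mod_eq_of_lt (by omega)
        rw [e]
        exact hside _ (by omega)
    obtain ⟨c1, c2⟩ := hP.closed hK ht hS' hSt hside' hcard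
    have m01 : dist (f (2 * K)) (f (2 * K + 1)) ∈ S := hS _ _ (by omega) (by omega) s1
    have r1 := c1 (2 * K) _ m01
    have e1 : (2 * K) % (2 * K + 1) = 2 * K := Nat.mod_eq_of_lt (by omega)
    have e2 : (2 * K + 1) % (2 * K + 1) = 0 := Nat.mod_self _
    simp only [e1, e2] at r1
    rw [dist_comm (f (2 * K)) (f 0)] at r1
    have kk := kal 0 K (2 * K) (2 * K + 1) (by omega) (by omega) (by omega) (by omega)
    have e3 : K % (2 * K + 1) = K := Nat.mod_eq_of_lt (by omega)
    have e4 : 0 % (2 * K + 1) = 0 := Nat.zero_mod _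
    have r2 := fun x hx => c2 0 x hx
    simp only [zero_add, e3, e4] at r2
    have hK1 : dist (f 0) (f K) < dist (f K) (f (2 * K + 1)) := by linarith
    have mem : dist (f K) (f (2 * K + 1)) ∈ S := by
      apply hS _ _ (by omega) (by omega)
      have := r2 _ m01
      linarith
    have r4 := r2 _ mem
    linarith

end Pool.Agent.H244R2.Cvx
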