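import Mathlib
import Pool.Agent.H244R2.CvxD

set_option autoImplicit false

namespace Pool.Agent.H244R2.Cvx

abbrev E2 := EuclideanSpace ℝ (Fin 2)

/-- the complex number of a point of the plane -/
def toC (v : E2) : ℂ := ⟨v 0, v 1⟩

lemma dist_toC (v w : E2) : dist (toC v) (toC w) = dist v w := by
  rw [Complex.dist_eq_re_im, EuclideanSpace.dist_eq, Fin.sum_univ_two]
  simp only [toC, Real.dist_eq, sq_abs]

lemma mem_hull_two {s : Set E2} {x y w : E2} (hx : x ∈ convexHull ℝ s) (hy : y ∈ convexHull ℝ s)
    {r : ℝ} (h0 : 0 ≤ r) (h1 : r ≤ 1) (hw : ∀ i, w i = (1 - r) * x i + r * y i) :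
    w ∈ convexHull ℝ s := by
  have h := (convex_convexHull ℝ s) hx hy (a := 1 - r) (b := r) (by linarith) h0 (by ring)
  have e : w = (1 - r) • x + r • y := by
    ext i
    rw [hw i]
    simp
  rw [e]
  exact h

lemma mem_hull_three {s : Set E2} {x y z w : E2} (hx : x ∈ convexHull ℝ s)
    (hy : y ∈ convexHull ℝ s) (hz : z ∈ convexHull ℝ s)
    {a b : ℝ} (ha : 0 ≤ a) (hb : 0 ≤ b) (hab : a + b ≤ 1)
    (hw : ∀ i, w i = (1 - a - b) * x i + a * y i + b * z i) :
    w ∈ convexHull ℝ s := by
  have h := (convex_convexHull ℝ s).sum_mem (t := Finset.univ) (w := ![1 - a - b, a, b])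
    (z := ![x, y, z]) (by
      intro i _
      fin_cases i
      · simp; linarith
      · simpa using ha
      · simpa using hb) (by
      rw [Fin.sum_univ_three]
      simp only [Matrix.cons_val_zero, Matrix.cons_val_one, Matrix.cons_val]
      ring) (by
      intro i _
      fin_cases i
      · simpa using hx
      · simpa using hy
      · simpa using hz)
  have e : w = ∑ i, (![1 - a - b, a, b] : Fin 3 → ℝ) i • (![x, y, z] : Fin 3 → E2) i := by
    rw [Fin.sum_univ_three]
    ext i
    rw [hw i]
    simp
  rw [e]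
  exact h

/-- Points in strictly convex position can be ordered so that all triples are counterclockwise. -/
lemma key_exists {n : ℕ} (p : Fin n → E2)
    (h : ∀ i : Fin n, p i ∉ convexHull ℝ (p '' {j : Fin n | j ≠ i})) (o : Fin n) :
    ∃ key : Fin n → ℝ, Function.Injective key ∧
      ∀ i j k, key i < key j → key j < key k → 0 < orient (toC (p i)) (toC (p j)) (toC (p k)) := by
  classical
  have hfin : (p '' {j : Fin n | j ≠ o}).Finite := Set.toFinite _
  have hcl : IsClosed (convexHull ℝ (p '' {j : Fin n | j ≠ o})) :=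
    (hfin.isCompact_convexHull ℝ).isClosed
  obtain ⟨f, u, hfo, hfu⟩ := geometric_hahn_banach_point_closed
    (convex_convexHull ℝ (p '' {j : Fin n | j ≠ o})) hcl (h o)
  have hmem : ∀ i j, j ≠ i → p j ∈ convexHull ℝ (p '' {j : Fin n | j ≠ i}) := by
    intro i j hj
    exact subset_convexHull ℝ _ ⟨j, hj, rfl⟩
  obtain ⟨α, hα⟩ : ∃ α, α = f (EuclideanSpace.single 0 1) := ⟨_, rfl⟩
  obtain ⟨β, hβ⟩ : ∃ β, β = f (EuclideanSpace.single 1 1) := ⟨_, rfl⟩
  have hf : ∀ v : E2, f v = α * v 0 + β * v 1 := by
    intro v
    have e : v = v 0 • EuclideanSpace.single 0 1 + v 1 • EuclideanSpace.single 1 1 := by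
      ext i
      fin_cases i <;> simp
    conv_lhs => rw [e]
    rw [map_add, map_smul, map_smul, ← hα, ← hβ]
    simp only [smul_eq_mul]
    ring
  set dt : Fin n → ℝ := fun j => α * (p j 0 - p o 0) + β * (p j 1 - p o 1) with hdt
  set cr : Fin n → ℝ := fun j => α * (p j 1 - p o 1) - β * (p j 0 - p o 0) with hcr
  have dpos : ∀ j, j ≠ o → 0 < dt j := by
    intro j hj
    have h1 := hfu _ (hmem o j hj)
    rw [hf] at h1 hfo
    simp only [hdt]
    linarith
  have ident : ∀ j k, dt j * cr k - cr j * dt k =
      (α ^ 2 + β ^ 2) * orient (toC (p o)) (toC (p j)) (toC (p k)) := by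
    intro j k
    simp only [hdt, hcr, orient, toC]
    ring
  have Npos : ∀ j, j ≠ o → 0 < α ^ 2 + β ^ 2 := by
    intro j hj
    have h1 := dpos j hj
    by_contra hc
    push Not at hc
    have hα0 : α = 0 := by nlinarith [sq_nonneg α, sq_nonneg β]
    have hβ0 : β = 0 := by nlinarith [sq_nonneg α, sq_nonneg β]
    simp [hdt, hα0, hβ0] at h1
  set key0 : Fin n → ℝ := fun j => cr j / dt j with hkey0
  have lt_or : ∀ j k, j ≠ o → k ≠ o → key0 j < key0 k →
      0 < orient (toC (p o)) (toC (p j)) (toC (p k)) := by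
    intro j k hj hk hlt
    have dj := dpos j hj
    have dk := dpos k hk
    simp only [hkey0] at hlt
    rw [div_lt_div_iff₀ dj dk] at hlt
    have h1 := ident j k
    have h2 : 0 < (α ^ 2 + β ^ 2) * orient (toC (p o)) (toC (p j)) (toC (p k)) := by
      rw [← h1]; linarith
    exact (pos_iff_pos_of_mul_pos h2).1 (Npos j hj)
  have inj0 : ∀ j k, j ≠ o → k ≠ o → j ≠ k → dt j ≤ dt k → key0 j ≠ key0 k := by
    intro j k hj hk hjk hle heq
    have dj := dpos j hj
    have dk := dpos k hk
    have N := Npos j hj
    simp only [hkey0] at heq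
    rw [div_eq_div_iff dj.ne' dk.ne'] at heq
    apply h j
    -- p j = (1 - r) p o + r p k with r = dt j / dt k
    refine mem_hull_two (hmem j o (Ne.symm hj)) (hmem j k (Ne.symm hjk)) (r := dt j / dt k)
      (by positivity) ((div_le_one dk).2 hle) ?_
    have e0 : (p j 0 - p o 0) * dt k = (p k 0 - p o 0) * dt j := by
      have : (α ^ 2 + β ^ 2) * ((p j 0 - p o 0) * dt k - (p k 0 - p o 0) * dt j) = 0 := by
        have e : (α ^ 2 + β ^ 2) * ((p j 0 - p o 0) * dt k - (p k 0 - p o 0) * dt j) =
          - β * (cr j * dt k - cr k * dt j) := by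
          simp only [hdt, hcr]; ring
        rw [e, heq]; ring
      rcases mul_eq_zero.1 this with h' | h'
      · exact absurd h' N.ne'
      · linarith
    have e1 : (p j 1 - p o 1) * dt k = (p k 1 - p o 1) * dt j := by
      have : (α ^ 2 + β ^ 2) * ((p j 1 - p o 1) * dt k - (p k 1 - p o 1) * dt j) = 0 := by
        have e : (α ^ 2 + β ^ 2) * ((p j 1 - p o 1) * dt k - (p k 1 - p o 1) * dt j) =
          α * (cr j * dt k - cr k * dt j) := by
          simp only [hdt, hcr]; ring
        rw [e, heq]; ring
      rcases mul_eq_zero.1 this with h' | h'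
      · exact absurd h' N.ne'
      · linarith
    intro i
    have hdk := dk.ne'
    fin_cases i
    · show p j 0 = (1 - dt j / dt k) * p o 0 + dt j / dt k * p k 0
      have : p j 0 = p o 0 + (p k 0 - p o 0) * (dt j / dt k) := by
        rw [mul_div_assoc', ← e0, mul_div_assoc, div_self hdk]; ring
      linarith
    · show p j 1 = (1 - dt j / dt k) * p o 1 + dt j / dt k * p k 1
      have : p j 1 = p o 1 + (p k 1 - p o 1) * (dt j / dt k) := by
        rw [mul_div_assoc', ← e1, mul_div_assoc, div_self hdk]; ring
      linarith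
  have inj0' : ∀ j k, j ≠ o → k ≠ o → key0 j = key0 k → j = k := by
    intro j k hj hk heq
    by_contra hne
    rcases le_total (dt j) (dt k) with hle | hle
    · exact inj0 j k hj hk hne hle heq
    · exact inj0 k j hk hj (Ne.symm hne) hle heq.symm
  -- the key
  set key : Fin n → ℝ := fun j => if j = o then -1 - ∑ i, |key0 i| else key0 j with hkey
  have ko : key o = -1 - ∑ i, |key0 i| := by simp [hkey]
  have kj : ∀ j, j ≠ o → key j = key0 j := fun j hj => by simp [hkey, hj]
  have klt : ∀ j, j ≠ o → key o < key j := by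
    intro j hj
    rw [ko, kj j hj]
    have h1 : |key0 j| ≤ ∑ i, |key0 i| :=
      Finset.single_le_sum (f := fun i => |key0 i|) (fun i _ => abs_nonneg _) (Finset.mem_univ j)
    have h2 := neg_abs_le (key0 j)
    linarith
  refine ⟨key, ?_, ?_⟩
  · intro j k hjk
    by_cases hj : j = o
    · by_cases hk : k = o
      · rw [hj, hk]
      · exfalso
        have := klt k hk
        rw [hj] at hjk
        linarith
    · by_cases hk : k = o
      · exfalso
        have := klt j hj
        rw [hk] at hjk
        linarith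
      · rw [kj j hj, kj k hk] at hjk
        exact inj0' j k hj hk hjk
  · intro i j k hij hjk
    have hj : j ≠ o := by
      rintro rfl
      by_cases hi : i = j
      · rw [hi] at hij; exact lt_irrefl _ hij
      · have := klt i hi; linarith
    have hk : k ≠ o := by
      rintro rfl
      have := klt j hj; linarith
    have hjk0 : key0 j < key0 k := by rw [← kj j hj, ← kj k hk]; exact hjk
    have B := lt_or j k hj hk hjk0
    by_cases hi : i = o
    · rw [hi]; exact B
    · have hij0 : key0 i < key0 j := by rw [← kj i hi, ← kj j hj]; exact hij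
      have A := lt_or i j hi hj hij0
      have C := lt_or i k hi hk (hij0.trans hjk0)
      by_contra hc
      push Not at hc
      set A' := orient (toC (p o)) (toC (p i)) (toC (p j)) with hA'
      set B' := orient (toC (p o)) (toC (p j)) (toC (p k)) with hB'
      set C' := orient (toC (p o)) (toC (p i)) (toC (p k)) with hC'
      have hsum : orient (toC (p i)) (toC (p j)) (toC (p k)) = A' + B' - C' := by
        simp only [hA', hB', hC', orient, toC]; ring
      rw [hsum] at hc
      have hij' : i ≠ j := by rintro rfl; exact lt_irrefl _ hij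
      have hkj' : k ≠ j := by rintro rfl; exact lt_irrefl _ hjk
      apply h j
      refine mem_hull_three (hmem j o (Ne.symm hj)) (hmem j i hij') (hmem j k hkj')
        (a := B' / C') (b := A' / C') (by positivity) (by positivity)
        (by rw [← add_div, div_le_one C]; linarith) ?_
      have e0 : C' * (p j 0 - p o 0) = B' * (p i 0 - p o 0) + A' * (p k 0 - p o 0) := by
        simp only [hA', hB', hC', orient, toC]; ring
      have e1 : C' * (p j 1 - p o 1) = B' * (p i 1 - p o 1) + A' * (p k 1 - p o 1) := by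
        simp only [hA', hB', hC', orient, toC]; ring
      have hC0 := C.ne'
      intro l
      fin_cases l
      · show p j 0 = (1 - B' / C' - A' / C') * p o 0 + B' / C' * p i 0 + A' / C' * p k 0
        have : p j 0 - p o 0 = (B' * (p i 0 - p o 0) + A' * (p k 0 - p o 0)) / C' := by
          rw [← e0, mul_div_assoc, mul_comm, div_mul_cancel₀ _ hC0]
        have e : p j 0 = p o 0 + (B' * (p i 0 - p o 0) + A' * (p k 0 - p o 0)) / C' := by linarith
        rw [e]; field_simp; ring
      · show p j 1 = (1 - B' / C' - A' / C') * p o 1 + B' / C' * p i 1 + A' / C' * p k 1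
        have : p j 1 - p o 1 = (B' * (p i 1 - p o 1) + A' * (p k 1 - p o 1)) / C' := by
          rw [← e1, mul_div_assoc, mul_comm, div_mul_cancel₀ _ hC0]
        have e : p j 1 = p o 1 + (B' * (p i 1 - p o 1) + A' * (p k 1 - p o 1)) / C' := by linarith
        rw [e]; field_simp; ring

/-- there is an increasing long path of length `r` ending at `x` -/
def Ch {n : ℕ} (z : Fin n → ℂ) (key : Fin n → ℝ) (t : ℝ) : ℕ → Fin n → Prop
  | 0, _ => True
  | r + 1, x => ∃ y, key y < key x ∧ t ≤ dist (z y) (z x) ∧ Ch z key t r y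

lemma Ch.extract {n : ℕ} {z : Fin n → ℂ} {key : Fin n → ℝ} {t : ℝ} :
    ∀ r x, Ch z key t r x → ∃ f : ℕ → Fin n, f r = x ∧
      ∀ i, i < r → key (f i) < key (f (i + 1)) ∧ t ≤ dist (z (f i)) (z (f (i + 1))) := by
  intro r
  induction r with
  | zero => intro x _; exact ⟨fun _ => x, rfl, by intro i hi; omega⟩
  | succ r ih =>
    rintro x ⟨y, h1, h2, h3⟩
    obtain ⟨f, hf1, hf2⟩ := ih y h3
    refine ⟨fun i => if i ≤ r then f i else x, by simp, ?_⟩
    intro i hi
    by_cases h : i < r
    · have a1 : i ≤ r := by omega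
      have a2 : i + 1 ≤ r := by omega
      simp only [a1, a2, if_true]
      exact hf2 i h
    · have a1 : i = r := by omega
      subst a1
      simp only [le_refl, if_true, Nat.succ_le_iff, lt_irrefl, if_false, hf1]
      exact ⟨h1, h2⟩

theorem colorable {n : ℕ} (p : Fin n → E2)
    (h : ∀ i : Fin n, p i ∉ convexHull ℝ (p '' {j : Fin n | j ≠ i})) (i j : Fin n) (hij : i ≠ j)
    (S : Finset ℝ)
    (hS : ∀ a b : Fin n, a ≠ b → dist (p i) (p j) ≤ dist (p a) (p b) → dist (p a) (p b) ∈ S)
    (hSt : ∀ x ∈ S, dist (p i) (p j) ≤ x) :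
    (SimpleGraph.fromRel
      (fun a b : Fin n => dist (p i) (p j) ≤ dist (p a) (p b))).Colorable (2 * S.card + 1) := by
  classical
  have hinj : ∀ a b : Fin n, a ≠ b → p a ≠ p b := by
    intro a b hab heq
    apply h a
    rw [heq]
    exact subset_convexHull ℝ _ ⟨b, Ne.symm hab, rfl⟩
  have ht : 0 < dist (p i) (p j) := dist_pos.2 (hinj i j hij)
  set t := dist (p i) (p j) with htdef
  have hK : 1 ≤ S.card := Finset.card_pos.2 ⟨t, hS i j hij le_rfl⟩
  obtain ⟨key, hkinj, hor⟩ := key_exists p h i
  set z : Fin n → ℂ := fun a => toC (p a) with hz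
  have hdz : ∀ a b, dist (z a) (z b) = dist (p a) (p b) := fun a b => dist_toC _ _
  -- no long chain
  have nochain : ∀ x, ¬ Ch z key t (2 * S.card + 1) x := by
    intro x hx
    obtain ⟨f, hf1, hf2⟩ := Ch.extract _ _ hx
    have hmono : ∀ d a, a + (d + 1) ≤ 2 * S.card + 1 → key (f a) < key (f (a + (d + 1))) := by
      intro d
      induction d with
      | zero => intro a ha; exact (hf2 a (by omega)).1
      | succ d ih =>
        intro a ha
        exact (ih a (by omega)).trans (hf2 (a + (d + 1)) (by omega)).1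
    have hmono' : ∀ a b, a < b → b ≤ 2 * S.card + 1 → key (f a) < key (f b) := by
      intro a b hab hb
      have := hmono (b - a - 1) a (by omega)
      have e : a + (b - a - 1 + 1) = b := by omega
      rwa [e] at this
    refine chain_bound hK (f := fun a => z (f a)) ?_ ht (S := S) ?_ hSt ?_ le_rfl
    · intro a b c hab hbc hc
      exact hor _ _ _ (hmono' a b hab (by omega)) (hmono' b c hbc hc)
    · intro a b _ _ hab
      rw [hdz] at hab ⊢
      refine hS _ _ ?_ hab
      intro heq
      rw [heq, dist_self] at hab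
      linarith
    · intro a ha
      exact (hf2 a ha).2
  -- the coloring
  set P : Fin n → ℕ → Prop := fun x r => ∃ y, key y ≤ key x ∧ Ch z key t r y with hP
  set col : Fin n → ℕ := fun x => Nat.findGreatest (P x) (2 * S.card) with hcol
  have hcolspec : ∀ x, P x (col x) := by
    intro x
    exact Nat.findGreatest_spec (P := P x) (Nat.zero_le _) ⟨x, le_rfl, trivial⟩
  have stepP : ∀ a b r, key a < key b → t ≤ dist (z a) (z b) → P a r → Ch z key t (r + 1) b := by
    intro a b r hab htab ⟨y, hy1, hy2⟩
    rcases hy1.eq_or_lt with heq | hlt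
    · have : y = a := hkinj heq
      subst this
      exact ⟨y, hab, htab, hy2⟩
    · cases r with
      | zero => exact ⟨a, hab, htab, trivial⟩
      | succ r =>
        obtain ⟨w, hw1, hw2, hw3⟩ := hy2
        have kk := kal1 (hor w y a hw1 hlt) (hor w y b hw1 (hlt.trans hab))
          (hor w a b (hw1.trans hlt) hab) (hor y a b hlt hab)
        by_cases hc : t ≤ dist (z w) (z a)
        · exact ⟨a, hab, htab, w, hw1.trans hlt, hc, hw3⟩
        · push Not at hc
          refine ⟨y, hlt.trans hab, ?_, w, hw1, hw2, hw3⟩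
          change dist (z w) (z y) + dist (z a) (z b) < dist (z w) (z a) + dist (z y) (z b) at kk
          linarith
  have collt : ∀ a b, key a < key b → t ≤ dist (z a) (z b) → col a < col b := by
    intro a b hab htab
    have h1 := stepP a b _ hab htab (hcolspec a)
    have h2 : col a ≤ 2 * S.card := Nat.findGreatest_le _
    have h3 : col a ≠ 2 * S.card := by
      intro h4
      rw [h4] at h1
      exact nochain b h1
    have h5 : col a + 1 ≤ col b :=
      Nat.le_findGreatest (by omega) ⟨b, le_rfl, h1⟩
    omega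
  refine ⟨SimpleGraph.Coloring.mk (fun x => (⟨col x, Nat.lt_succ_of_le (Nat.findGreatest_le _)⟩ :
    Fin (2 * S.card + 1))) ?_⟩
  intro a b hadj heq
  rw [SimpleGraph.fromRel_adj] at hadj
  obtain ⟨hne, hrel⟩ := hadj
  have heq' : col a = col b := congrArg Fin.val heq
  have htab : t ≤ dist (z a) (z b) := by
    rw [hdz]
    rcases hrel with h' | h'
    · exact h'
    · rw [dist_comm]; exact h'
  rcases lt_trichotomy (key a) (key b) with h' | h' | h'
  · have := collt a b h' htab; omega
  · exact hne (hkinj h')
  · have := collt b a h' (by rw [dist_comm]; exact htab); omega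

end Pool.Agent.H244R2.Cvx
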