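import Mathlib

set_option autoImplicit false

namespace Pool.Agent.H244R2

open Finset Nat

/-- the Dobinski weights -/
noncomputable def dob (N m : ℕ) : ℝ := (m : ℝ) ^ N / (m ! : ℝ)

lemma dob_nonneg (N m : ℕ) : 0 ≤ dob N m := by unfold dob; positivity

lemma dob_pos (N : ℕ) {m : ℕ} (hm : 0 < m) : 0 < dob N m := by
  unfold dob
  positivity

lemma summable_dob (N : ℕ) : Summable (dob N) := by
  have h1 : Summable (fun m : ℕ => (N ! : ℝ) * (Real.exp 1 ^ m / (m ! : ℝ))) :=
    (Real.summable_pow_div_factorial (Real.exp 1)).mul_left _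
  refine Summable.of_nonneg_of_le (fun m => dob_nonneg N m) (fun m => ?_) h1
  unfold dob
  have h2 : (m : ℝ) ^ N / (N ! : ℝ) ≤ Real.exp m := Real.pow_div_factorial_le_exp (m : ℝ) (by positivity) N
  have h3 : (m : ℝ) ^ N ≤ (N ! : ℝ) * Real.exp m := by
    rw [div_le_iff₀ (by positivity)] at h2
    linarith
  rw [← Real.exp_nat_mul, mul_one, ← mul_div_assoc]
  gcongr

/-- Dobinski's formula -/
theorem tsum_dob (N : ℕ) : ∑' m, dob N m = Real.exp 1 * (Nat.bell N : ℝ) := by
  induction N using Nat.strong_induction_on with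
  | _ N ih =>
  rcases N with _ | N
  · simp only [dob, pow_zero, Nat.bell_zero, Nat.cast_one, mul_one]
    rw [Real.exp_eq_exp_ℝ, NormedSpace.exp_eq_tsum_div]
    simp
  · have h0 : dob (N+1) 0 = 0 := by simp [dob]
    rw [(summable_dob (N+1)).tsum_eq_zero_add, h0, zero_add]
    have h1 : ∀ m : ℕ, dob (N+1) (m+1) = ∑ i ∈ range (N+1), (N.choose i : ℝ) * dob i m := by
      intro m
      unfold dob
      have : ((m+1 : ℕ) : ℝ)^(N+1) / ((m+1)! : ℝ) = ((m : ℝ)+1)^N / (m ! : ℝ) := by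
        rw [Nat.factorial_succ]
        push_cast
        have hm : ((m : ℝ) + 1) ≠ 0 := by positivity
        have hf : (m ! : ℝ) ≠ 0 := by positivity
        field_simp
        ring
      rw [this, add_pow, Finset.sum_div]
      apply Finset.sum_congr rfl
      intro i _
      simp
      ring
    simp_rw [h1]
    rw [Summable.tsum_finsetSum (fun i _ => (summable_dob i).mul_left _)]
    rw [Nat.bell_succ, ← Nat.range_succ_eq_Iic]
    push_cast
    rw [Finset.mul_sum, ← Finset.sum_range_reflect]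
    apply Finset.sum_congr rfl
    intro i hi
    rw [mem_range] at hi
    rw [tsum_mul_left]
    have h2 : N + 1 - 1 - i = N - i := by omega
    rw [h2, ih (N - i) (by omega), Nat.choose_symm (by omega)]
    ring

lemma dob_succ_le {N m : ℕ} {w δ : ℝ} (hw : 2 ≤ w) (hN : w * Real.exp w = N)
    (hδ0 : 0 ≤ δ) (hδ1 : δ ≤ 1) (hm : Real.exp w * (1 + δ) ≤ m) :
    dob N (m+1) ≤ Real.exp (-δ) * dob N m := by
  have hμ : 0 < Real.exp w := Real.exp_pos _
  have hm0 : (0:ℝ) < m := lt_of_lt_of_le (by positivity) hm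
  have h1 : (((m:ℝ) + 1) / m) ^ N ≤ Real.exp (w / (1 + δ)) := by
    have h2 : ((m:ℝ) + 1) / m ≤ Real.exp (1 / m) := by
      have := Real.add_one_le_exp (1 / (m:ℝ))
      calc ((m:ℝ) + 1) / m = 1 / m + 1 := by field_simp; ring
        _ ≤ _ := this
    calc (((m:ℝ) + 1) / m) ^ N ≤ (Real.exp (1 / m)) ^ N := by
          apply pow_le_pow_left₀ (by positivity) h2
      _ = Real.exp (N / m) := by
          rw [← Real.exp_nat_mul]; congr 1; ring
      _ ≤ Real.exp (w / (1 + δ)) := by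
          apply Real.exp_le_exp.2
          rw [div_le_div_iff₀ hm0 (by positivity), ← hN]
          calc w * Real.exp w * (1 + δ) = w * (Real.exp w * (1 + δ)) := by ring
            _ ≤ w * m := by apply mul_le_mul_of_nonneg_left hm (by linarith)
  have h3 : Real.exp w ≤ (m:ℝ) + 1 := by nlinarith
  have h4 : Real.exp (w / (1 + δ)) ≤ Real.exp (-δ) * ((m:ℝ) + 1) := by
    calc Real.exp (w / (1 + δ)) ≤ Real.exp (-δ + w) := by
          apply Real.exp_le_exp.2
          rw [div_le_iff₀ (by positivity)]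
          nlinarith
      _ = Real.exp (-δ) * Real.exp w := Real.exp_add _ _
      _ ≤ _ := by gcongr
  unfold dob
  have h5 : ((m+1 : ℕ) : ℝ)^N / ((m+1)! : ℝ) =
      ((((m:ℝ) + 1) / m) ^ N / ((m:ℝ) + 1)) * ((m:ℝ)^N / (m ! : ℝ)) := by
    rw [Nat.factorial_succ, div_pow]
    push_cast
    have hf : (m ! : ℝ) ≠ 0 := by positivity
    have hm' : ((m : ℝ) + 1) ≠ 0 := by positivity
    field_simp
  rw [h5]
  apply mul_le_mul_of_nonneg_right _ (by positivity)
  rw [div_le_iff₀ (by positivity)]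
  exact h1.trans h4

lemma dob_le_succ {N m : ℕ} {w δ : ℝ} (hw : 2 ≤ w) (hN : w * Real.exp w = N)
    (hδ0 : 0 ≤ δ) (hδ1 : δ < 1) (hm : (m : ℝ) + 1 ≤ Real.exp w * (1 - δ)) :
    dob N m ≤ Real.exp (-δ) * dob N (m+1) := by
  have hμ : 0 < Real.exp w := Real.exp_pos _
  have hN0 : 0 < N := by
    have : (0:ℝ) < N := by rw [← hN]; positivity
    exact_mod_cast this
  rcases Nat.eq_zero_or_pos m with rfl | hm0
  · have : dob N 0 = 0 := by simp [dob, hN0.ne']
    rw [this]
    have := dob_nonneg N (0+1)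
    positivity
  have hm0' : (0:ℝ) < m := by exact_mod_cast hm0
  have hmp : (0:ℝ) < (m:ℝ) + 1 := by positivity
  have h1 : ((m:ℝ) / ((m:ℝ) + 1)) ^ N ≤ Real.exp (-(w / (1 - δ))) := by
    have h2 : (m:ℝ) / ((m:ℝ) + 1) ≤ Real.exp (-(1 / ((m:ℝ)+1))) := by
      have := Real.add_one_le_exp (-(1 / ((m:ℝ)+1)))
      calc (m:ℝ) / ((m:ℝ) + 1) = -(1 / ((m:ℝ)+1)) + 1 := by field_simp; ring
        _ ≤ _ := this
    calc ((m:ℝ) / ((m:ℝ) + 1)) ^ N ≤ (Real.exp (-(1 / ((m:ℝ)+1)))) ^ N := by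
          apply pow_le_pow_left₀ (by positivity) h2
      _ = Real.exp (-(N / ((m:ℝ)+1))) := by
          rw [← Real.exp_nat_mul]; congr 1; ring
      _ ≤ Real.exp (-(w / (1 - δ))) := by
          apply Real.exp_le_exp.2
          apply neg_le_neg
          rw [div_le_div_iff₀ (by linarith) hmp, ← hN]
          calc w * ((m:ℝ) + 1) ≤ w * (Real.exp w * (1 - δ)) := by
                apply mul_le_mul_of_nonneg_left hm (by linarith)
            _ = _ := by ring
  have h3 : (m:ℝ) + 1 ≤ Real.exp w := by nlinarith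
  have h4 : ((m:ℝ) + 1) * Real.exp (-(w / (1 - δ))) ≤ Real.exp (-δ) := by
    calc ((m:ℝ) + 1) * Real.exp (-(w / (1 - δ))) ≤ Real.exp w * Real.exp (-(w / (1 - δ))) := by
          gcongr
      _ = Real.exp (w - w / (1 - δ)) := by rw [← Real.exp_add]; ring_nf
      _ ≤ Real.exp (-δ) := by
          apply Real.exp_le_exp.2
          have : w + δ ≤ w / (1 - δ) := by
            rw [le_div_iff₀ (by linarith)]
            nlinarith
          linarith
  unfold dob
  have h5 : (m:ℝ)^N / (m ! : ℝ) =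
      (((m:ℝ) + 1) * (((m:ℝ) / ((m:ℝ) + 1)) ^ N)) * (((m+1 : ℕ) : ℝ)^N / ((m+1)! : ℝ)) := by
    rw [Nat.factorial_succ, div_pow]
    push_cast
    have hf : (m ! : ℝ) ≠ 0 := by positivity
    have hm' : ((m : ℝ) + 1) ≠ 0 := by positivity
    field_simp
  rw [h5]
  apply mul_le_mul_of_nonneg_right _ (by positivity)
  refine le_trans ?_ h4
  apply mul_le_mul_of_nonneg_left h1 hmp.le

lemma one_sub_exp_neg_ge {δ : ℝ} (hδ0 : 0 < δ) (hδ1 : δ ≤ 1) : δ / 2 ≤ 1 - Real.exp (-δ) := by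
  have h1 : Real.exp (-δ) ≤ 1 - δ / 2 := by
    have h := Real.exp_bound_div_one_sub_of_interval hδ0.le
    have h2 : 1 + δ ≤ Real.exp δ := by linarith [Real.add_one_le_exp δ]
    rw [Real.exp_neg]
    have h3 : (Real.exp δ)⁻¹ ≤ (1 + δ)⁻¹ := by
      apply inv_anti₀ (by positivity) h2
    refine h3.trans ?_
    rw [inv_le_comm₀ (by positivity) (by linarith)]
    rw [inv_le_iff_one_le_mul₀ (by linarith)]
    nlinarith
  linarith

lemma right_tail {N m₁ J : ℕ} {w δ : ℝ} (hw : 2 ≤ w) (hN : w * Real.exp w = N)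
    (hδ0 : 0 < δ) (hδ1 : δ ≤ 1) (hm : Real.exp w * (1 + δ) ≤ m₁) :
    ∑' j, dob N (m₁ + J + j) ≤ (2 / δ) * Real.exp (-δ * J) * ∑' m, dob N m := by
  have h1 : ∀ j : ℕ, dob N (m₁ + j) ≤ Real.exp (-δ) ^ j * dob N m₁ := by
    intro j
    induction j with
    | zero => simp
    | succ j ih =>
      have h2 : dob N (m₁ + j + 1) ≤ Real.exp (-δ) * dob N (m₁ + j) := by
        apply dob_succ_le hw hN hδ0.le hδ1
        push_cast
        have : (0:ℝ) ≤ j := by positivity
        linarith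
      calc dob N (m₁ + (j+1)) = dob N (m₁ + j + 1) := by ring_nf
        _ ≤ Real.exp (-δ) * dob N (m₁ + j) := h2
        _ ≤ Real.exp (-δ) * (Real.exp (-δ) ^ j * dob N m₁) := by gcongr
        _ = _ := by ring
  have hq0 : 0 ≤ Real.exp (-δ) := (Real.exp_pos _).le
  have hq1 : Real.exp (-δ) < 1 := by
    rw [Real.exp_lt_one_iff]; linarith
  have hS : dob N m₁ ≤ ∑' m, dob N m := (summable_dob N).le_tsum m₁ (fun j _ => dob_nonneg N j)
  have hge := one_sub_exp_neg_ge hδ0 hδ1
  calc ∑' j, dob N (m₁ + J + j) ≤ ∑' j : ℕ, (Real.exp (-δ) ^ J * dob N m₁) * Real.exp (-δ) ^ j := by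
        apply Summable.tsum_le_tsum
        · intro j
          have := h1 (J + j)
          rw [← add_assoc] at this
          refine this.trans (le_of_eq ?_)
          rw [pow_add]; ring
        · have := (summable_nat_add_iff (m₁ + J)).2 (summable_dob N)
          refine this.congr (fun j => ?_)
          rw [add_comm]
        · exact (summable_geometric_of_lt_one hq0 hq1).mul_left _
    _ = (Real.exp (-δ) ^ J * dob N m₁) * (1 - Real.exp (-δ))⁻¹ := by
        rw [tsum_mul_left, tsum_geometric_of_lt_one hq0 hq1]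
    _ ≤ (Real.exp (-δ) ^ J * dob N m₁) * (2 / δ) := by
        apply mul_le_mul_of_nonneg_left
        · rw [inv_le_comm₀ (by linarith) (by positivity)]
          rw [inv_div]; exact hge
        · have := dob_nonneg N m₁
          positivity
    _ ≤ (Real.exp (-δ) ^ J * ∑' m, dob N m) * (2 / δ) := by gcongr
    _ = _ := by
        rw [← Real.exp_nat_mul]
        have : (J:ℝ) * -δ = -δ * J := by ring
        rw [this]; ring

lemma left_tail {N m₂ J : ℕ} {w δ : ℝ} (hw : 2 ≤ w) (hN : w * Real.exp w = N)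
    (hδ0 : 0 < δ) (hδ1 : δ < 1) (hm : (m₂ : ℝ) ≤ Real.exp w * (1 - δ)) (hJ : J ≤ m₂) :
    ∑ m ∈ range (m₂ - J + 1), dob N m ≤ (2 / δ) * Real.exp (-δ * J) * ∑' m, dob N m := by
  have h1 : ∀ j : ℕ, j ≤ m₂ → dob N (m₂ - j) ≤ Real.exp (-δ) ^ j * dob N m₂ := by
    intro j
    induction j with
    | zero => simp
    | succ j ih =>
      intro hj
      have h2 : dob N (m₂ - (j + 1)) ≤ Real.exp (-δ) * dob N (m₂ - (j+1) + 1) := by
        apply dob_le_succ hw hN hδ0.le hδ1
        have : (((m₂ - (j+1) : ℕ) : ℝ) + 1) ≤ m₂ := by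
          have : (m₂ - (j+1)) + 1 ≤ m₂ := by omega
          exact_mod_cast this
        linarith
      have h3 : m₂ - (j+1) + 1 = m₂ - j := by omega
      rw [h3] at h2
      calc dob N (m₂ - (j+1)) ≤ Real.exp (-δ) * dob N (m₂ - j) := h2
        _ ≤ Real.exp (-δ) * (Real.exp (-δ) ^ j * dob N m₂) := by
            gcongr
            exact ih (by omega)
        _ = _ := by ring
  have hq0 : 0 ≤ Real.exp (-δ) := (Real.exp_pos _).le
  have hq1 : Real.exp (-δ) < 1 := by
    rw [Real.exp_lt_one_iff]; linarith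
  have hS : dob N m₂ ≤ ∑' m, dob N m := (summable_dob N).le_tsum m₂ (fun j _ => dob_nonneg N j)
  have hge := one_sub_exp_neg_ge hδ0 hδ1.le
  calc ∑ m ∈ range (m₂ - J + 1), dob N m
      = ∑ i ∈ range (m₂ - J + 1), dob N (m₂ - J + 1 - 1 - i) :=
        (Finset.sum_range_reflect _ _).symm
    _ ≤ ∑ i ∈ range (m₂ - J + 1), (Real.exp (-δ) ^ J * dob N m₂) * Real.exp (-δ) ^ i := by
        apply Finset.sum_le_sum
        intro i hi
        rw [mem_range] at hi
        have h4 : m₂ - J + 1 - 1 - i = m₂ - (J + i) := by omega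
        rw [h4]
        refine (h1 (J + i) (by omega)).trans (le_of_eq ?_)
        rw [pow_add]; ring
    _ = (Real.exp (-δ) ^ J * dob N m₂) * ∑ i ∈ range (m₂ - J + 1), Real.exp (-δ) ^ i := by
        rw [Finset.mul_sum]
    _ ≤ (Real.exp (-δ) ^ J * dob N m₂) * (1 - Real.exp (-δ))⁻¹ := by
        apply mul_le_mul_of_nonneg_left
        · rw [← tsum_geometric_of_lt_one hq0 hq1]
          exact (summable_geometric_of_lt_one hq0 hq1).sum_le_tsum _ (fun i _ => by positivity)
        · have := dob_nonneg N m₂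
          positivity
    _ ≤ (Real.exp (-δ) ^ J * dob N m₂) * (2 / δ) := by
        apply mul_le_mul_of_nonneg_left
        · rw [inv_le_comm₀ (by linarith) (by positivity)]
          rw [inv_div]; exact hge
        · have := dob_nonneg N m₂
          positivity
    _ ≤ (Real.exp (-δ) ^ J * ∑' m, dob N m) * (2 / δ) := by gcongr
    _ = _ := by
        rw [← Real.exp_nat_mul]
        have : (J:ℝ) * -δ = -δ * J := by ring
        rw [this]; ring

/-- outside the window `|m - e^w| ≤ 3 e^w δ` the Dobinski weights are negligible -/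
theorem window_tail {N : ℕ} {w δ : ℝ} (hw : 2 ≤ w) (hN : w * Real.exp w = N)
    (hδ0 : 0 < δ) (hδ1 : δ ≤ 1 / 4) (hμδ : 2 ≤ Real.exp w * δ) :
    ∑' m : ℕ, (if |(m:ℝ) - Real.exp w| ≤ 3 * (Real.exp w * δ) then 0 else dob N m) ≤
      (4 / δ) * Real.exp (-(Real.exp w * δ ^ 2)) * ∑' m, dob N m := by
  set μ := Real.exp w with hμdef
  have hμ : 0 < μ := Real.exp_pos _
  set m₁ := ⌈μ * (1 + δ)⌉₊ with hm₁
  set m₂ := ⌊μ * (1 - δ)⌋₊ with hm₂
  set J := ⌈μ * δ⌉₊ with hJ
  have hJ1 : μ * δ ≤ J := Nat.le_ceil _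
  have hJ2 : (J:ℝ) < μ * δ + 1 := Nat.ceil_lt_add_one (by positivity)
  have hm₁1 : μ * (1 + δ) ≤ m₁ := Nat.le_ceil _
  have hm₁2 : (m₁:ℝ) < μ * (1 + δ) + 1 := Nat.ceil_lt_add_one (by positivity)
  have hm₂1 : (m₂:ℝ) ≤ μ * (1 - δ) := Nat.floor_le (by
    apply mul_nonneg hμ.le; linarith)
  have hm₂2 : μ * (1 - δ) < m₂ + 1 := Nat.lt_floor_add_one _
  have hJm : J ≤ m₂ := by
    have : (J:ℝ) < m₂ + 1 := by nlinarith
    have : J < m₂ + 1 := by exact_mod_cast this
    omega
  have hR := right_tail (J := J) hw hN hδ0 (by linarith) hm₁1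
  have hL := left_tail (J := J) hw hN hδ0 (by linarith) hm₂1 hJm
  have hexp : Real.exp (-δ * J) ≤ Real.exp (-(μ * δ ^ 2)) := by
    apply Real.exp_le_exp.2
    nlinarith
  have hS0 : 0 ≤ ∑' m, dob N m := tsum_nonneg (dob_nonneg N)
  set f : ℕ → ℝ := fun m => if |(m:ℝ) - μ| ≤ 3 * (μ * δ) then 0 else dob N m with hf
  have hf0 : ∀ m, 0 ≤ f m := by
    intro m
    simp only [hf]
    split_ifs
    · exact le_rfl
    · exact dob_nonneg N m
  have hfd : ∀ m, f m ≤ dob N m := by
    intro m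
    simp only [hf]
    split_ifs
    · exact dob_nonneg N m
    · exact le_rfl
  have hfs : Summable f := Summable.of_nonneg_of_le hf0 hfd (summable_dob N)
  have hmid : ∀ m : ℕ, m₂ - J + 1 ≤ m → m < m₁ + J → f m = 0 := by
    intro m h1 h2
    simp only [hf]
    rw [if_pos]
    have h1' : (m₂:ℝ) + 1 ≤ m + J := by
      have : m₂ + 1 ≤ m + J := by omega
      exact_mod_cast this
    have h2' : (m:ℝ) < m₁ + J := by exact_mod_cast h2
    rw [abs_le]
    constructor <;> nlinarith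
  have hle : m₂ - J + 1 ≤ m₁ + J := by
    have : (m₂:ℝ) ≤ m₁ := by nlinarith
    have : m₂ ≤ m₁ := by exact_mod_cast this
    have : 1 ≤ J := by
      have : (0:ℝ) < J := by nlinarith
      exact_mod_cast this
    omega
  rw [← hfs.sum_add_tsum_nat_add (m₁ + J)]
  have hA : ∑ i ∈ range (m₁ + J), f i ≤ ∑ m ∈ range (m₂ - J + 1), dob N m := by
    rw [← Finset.sum_range_add_sum_Ico _ hle]
    have hz : ∑ i ∈ Finset.Ico (m₂ - J + 1) (m₁ + J), f i = 0 := by
      apply Finset.sum_eq_zero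
      intro i hi
      rw [Finset.mem_Ico] at hi
      exact hmid i hi.1 hi.2
    rw [hz, add_zero]
    exact Finset.sum_le_sum (fun i _ => hfd i)
  have hB : ∑' i, f (i + (m₁ + J)) ≤ ∑' j, dob N (m₁ + J + j) := by
    apply Summable.tsum_le_tsum
    · intro i
      rw [add_comm]
      exact hfd _
    · exact (summable_nat_add_iff (m₁ + J)).2 hfs
    · have := (summable_nat_add_iff (m₁ + J)).2 (summable_dob N)
      refine this.congr (fun j => ?_)
      rw [add_comm]
  have h2δ : 0 ≤ 2 / δ := by positivity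
  calc _ ≤ (2 / δ) * Real.exp (-δ * J) * ∑' m, dob N m + (2 / δ) * Real.exp (-δ * J) * ∑' m, dob N m :=
        add_le_add (hA.trans hL) (hB.trans hR)
    _ ≤ (2 / δ) * Real.exp (-(μ * δ ^ 2)) * ∑' m, dob N m +
        (2 / δ) * Real.exp (-(μ * δ ^ 2)) * ∑' m, dob N m := by gcongr
    _ = _ := by ring

end Pool.Agent.H244R2
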