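import Pool.Agent.H244R2.Avg
import Pool.Agent.H244R2.Dobinski

set_option autoImplicit false

namespace Pool.Agent.H244R2

open Filter Topology Finset Nat

/-- `C(C(m,2),n) / m!` -/
noncomputable def gTerm (n m : ℕ) : ℝ := ((m.choose 2).choose n : ℝ) / (m ! : ℝ)

/-- `∑ C(C(m,2),n) / m!` -/
noncomputable def gSum (n : ℕ) : ℝ := ∑' m, gTerm n m

/-- correction factor -/
noncomputable def h2 (n m : ℕ) : ℝ :=
  ((m.choose 2).choose n : ℝ) * (n ! : ℝ) * 2 ^ n / (m : ℝ) ^ (2 * n)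

lemma cast_descFactorial_eq_prod (N n : ℕ) :
    ((N.descFactorial n : ℕ) : ℝ) = ∏ i ∈ range n, ((N : ℝ) - i) := by
  rw [Nat.descFactorial_eq_prod_range]
  push_cast
  by_cases h : n ≤ N + 1
  · apply Finset.prod_congr rfl
    intro i hi
    rw [mem_range] at hi
    rw [Nat.cast_sub (by omega)]
  · push Not at h
    rw [Finset.prod_eq_zero (i := N) (by simp; omega) (by simp)]
    rw [Finset.prod_eq_zero (i := N) (by simp; omega) (by simp)]

lemma h2_eq_prod (n : ℕ) {m : ℕ} (hm : 0 < m) :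
    h2 n m = ∏ i ∈ range n, (1 - (1 / (m:ℝ) + 2 * (i:ℝ) / (m:ℝ) ^ 2)) := by
  unfold h2
  have h1 : ((m.choose 2).choose n : ℝ) * (n ! : ℝ) = (((m.choose 2).descFactorial n : ℕ) : ℝ) := by
    rw [Nat.descFactorial_eq_factorial_mul_choose]
    push_cast; ring
  have hm' : (m:ℝ) ≠ 0 := by positivity
  rw [h1, cast_descFactorial_eq_prod]
  have h2 : (m:ℝ) ^ (2 * n) = ∏ _i ∈ range n, (m:ℝ) ^ 2 := by
    rw [Finset.prod_const, card_range, pow_mul]
  have h3 : (2:ℝ) ^ n = ∏ _i ∈ range n, (2:ℝ) := by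
    rw [Finset.prod_const, card_range]
  rw [h2, h3, ← Finset.prod_mul_distrib, ← Finset.prod_div_distrib]
  apply Finset.prod_congr rfl
  intro i _
  rw [Nat.cast_choose_two]
  field_simp
  ring

lemma h2_nonneg (n m : ℕ) : 0 ≤ h2 n m := by unfold h2; positivity

lemma h2_le_one (n m : ℕ) : h2 n m ≤ 1 := by
  unfold h2
  rcases Nat.eq_zero_or_pos m with rfl | hm
  · rcases Nat.eq_zero_or_pos n with rfl | hn
    · simp
    · simp [hn.ne']
  have hm' : (0:ℝ) < m := by exact_mod_cast hm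
  rw [div_le_one (by positivity)]
  have h1 : ((m.choose 2).choose n : ℝ) * (n ! : ℝ) = (((m.choose 2).descFactorial n : ℕ) : ℝ) := by
    rw [Nat.descFactorial_eq_factorial_mul_choose]
    push_cast; ring
  rw [h1]
  have h2 : (((m.choose 2).descFactorial n : ℕ) : ℝ) ≤ ((m.choose 2 : ℕ) : ℝ) ^ n := by
    exact_mod_cast Nat.descFactorial_le_pow _ _
  have h3 : ((m.choose 2 : ℕ) : ℝ) ≤ (m:ℝ) ^ 2 / 2 := by
    rw [Nat.cast_choose_two]
    nlinarith
  calc (((m.choose 2).descFactorial n : ℕ) : ℝ) * 2 ^ n ≤ ((m:ℝ) ^ 2 / 2) ^ n * 2 ^ n := by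
        gcongr
        exact h2.trans (pow_le_pow_left₀ (by positivity) h3 n)
    _ = (m:ℝ) ^ (2 * n) := by
        rw [← mul_pow, pow_mul]; congr 1; ring

lemma gTerm_eq {n : ℕ} (hn : 0 < n) (m : ℕ) :
    gTerm n m = (1 / ((n ! : ℝ) * 2 ^ n)) * (h2 n m * dob (2 * n) m) := by
  unfold gTerm h2 dob
  rcases Nat.eq_zero_or_pos m with rfl | hm
  · have : (0:ℕ).choose n = 0 := Nat.choose_eq_zero_of_lt hn
    simp [this]
  have hm' : (m:ℝ) ≠ 0 := by positivity
  have hn' : (n ! : ℝ) ≠ 0 := by positivity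
  have hm2 : (m ! : ℝ) ≠ 0 := by positivity
  field_simp

lemma gTerm_nonneg (n m : ℕ) : 0 ≤ gTerm n m := by unfold gTerm; positivity

lemma summable_gTerm (n : ℕ) : Summable (gTerm n) := by
  rcases Nat.eq_zero_or_pos n with rfl | hn
  · have : Summable (dob 0) := summable_dob 0
    refine this.congr (fun m => ?_)
    simp [gTerm, dob]
  · have h1 : Summable (fun m => h2 n m * dob (2 * n) m) :=
      Summable.of_nonneg_of_le (fun m => mul_nonneg (h2_nonneg n m) (dob_nonneg _ m))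
        (fun m => mul_le_of_le_one_left (dob_nonneg _ m) (h2_le_one n m)) (summable_dob (2 * n))
    refine (h1.mul_left (1 / ((n ! : ℝ) * 2 ^ n))).congr (fun m => ?_)
    rw [gTerm_eq hn]

lemma gSum_eq {n : ℕ} (hn : 0 < n) :
    gSum n = (1 / ((n ! : ℝ) * 2 ^ n)) * ∑' m, h2 n m * dob (2 * n) m := by
  unfold gSum
  rw [← tsum_mul_left]
  exact tsum_congr (gTerm_eq hn)

/-- the correction factor in the window -/
lemma h2_window {n m : ℕ} {w : ℝ} (hw : 16 ≤ w) (hN : w * Real.exp w = ((2 * n : ℕ) : ℝ))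
    (hm : |(m:ℝ) - Real.exp w| ≤ 3 * (Real.exp w * Real.exp (-(w / 4)))) :
    Real.exp (-(w / 2) - w ^ 2 / 4) * Real.exp (-(50 * (w ^ 3 * Real.exp (-(w / 4))))) ≤ h2 n m ∧
      h2 n m ≤ Real.exp (-(w / 2) - w ^ 2 / 4) * Real.exp (50 * (w ^ 3 * Real.exp (-(w / 4)))) := by
  set μ := Real.exp w with hμd
  set δ := Real.exp (-(w / 4)) with hδd
  have hμ : 0 < μ := Real.exp_pos _
  have hδ : 0 < δ := Real.exp_pos _
  have hδ1 : δ ≤ 1 / 50 := by
    have h1 : δ ≤ Real.exp (-4) := Real.exp_le_exp.2 (by linarith)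
    have h2 : Real.exp (-4) ≤ 1 / 50 := by
      rw [Real.exp_neg, inv_le_comm₀ (Real.exp_pos _) (by norm_num)]
      have h3 : (2.7:ℝ) ≤ Real.exp 1 := by linarith [Real.exp_one_gt_d9]
      have h4 : Real.exp 4 = Real.exp 1 ^ 4 := by rw [← Real.exp_nat_mul]; norm_num
      rw [h4]
      calc (1 / 50 : ℝ)⁻¹ ≤ 2.7 ^ 4 := by norm_num
        _ ≤ _ := pow_le_pow_left₀ (by norm_num) h3 4
    exact h1.trans h2
  have hμδ : 1 / μ ≤ δ := by
    rw [one_div, ← Real.exp_neg]
    exact Real.exp_le_exp.2 (by linarith)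
  rw [abs_le] at hm
  have hm1 : μ / 2 ≤ m := by nlinarith
  have hm0 : (0:ℝ) < m := by linarith [half_pos hμ]
  have hm0' : 0 < m := by exact_mod_cast hm0
  push_cast at hN
  have hn : (n:ℝ) = w * μ / 2 := by linarith
  have hn0 : (0:ℝ) ≤ n := by positivity
  set q := (n:ℝ) / m with hq
  have hq0 : 0 ≤ q := by positivity
  have hqw : q ≤ w := by
    rw [hq, div_le_iff₀ hm0, hn]
    nlinarith
  have hqd : |q - w / 2| ≤ 3 * w * δ := by
    have h1 : q - w / 2 = (w / 2) * (μ - m) / m := by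
      rw [hq, hn]; field_simp
    rw [h1, abs_div, abs_mul, abs_of_pos hm0, abs_of_nonneg (by linarith : (0:ℝ) ≤ w / 2),
      div_le_iff₀ hm0]
    have h2 : |μ - m| ≤ 3 * (μ * δ) := by rw [abs_le]; constructor <;> linarith
    calc w / 2 * |μ - m| ≤ w / 2 * (3 * (μ * δ)) := by gcongr
      _ = 3 * w * δ * (μ / 2) := by ring
      _ ≤ 3 * w * δ * m := by gcongr
  have h1m : 1 / (m:ℝ) ≤ 2 * δ := by
    calc 1 / (m:ℝ) ≤ 1 / (μ / 2) := by
          apply one_div_le_one_div_of_le (by positivity) hm1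
      _ = 2 * (1 / μ) := by field_simp
      _ ≤ 2 * δ := by linarith
  set u : ℕ → ℝ := fun i => 1 / (m:ℝ) + 2 * (i:ℝ) / (m:ℝ) ^ 2 with hu
  have hu0 : ∀ i < n, 0 ≤ u i := by intro i _; simp only [hu]; positivity
  have hub : ∀ i < n, u i ≤ (1 + 2 * q) / m := by
    intro i hi
    have : (i:ℝ) ≤ n := by exact_mod_cast hi.le
    simp only [hu]
    calc 1 / (m:ℝ) + 2 * (i:ℝ) / (m:ℝ) ^ 2 ≤ 1 / (m:ℝ) + 2 * (n:ℝ) / (m:ℝ) ^ 2 := by gcongr
      _ = (1 + 2 * q) / m := by rw [hq]; field_simp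
  have h3w : 1 + 2 * q ≤ 3 * w := by linarith
  have hub2 : (1 + 2 * q) / m ≤ 1 / 2 := by
    have h1 : (1 + 2 * q) / m ≤ 3 * w / (μ / 2) := by
      apply div_le_div₀ (by linarith) h3w (by positivity) hm1
    have h2 : 12 * w ≤ μ := by
      have h3 : μ = Real.exp (w / 2) ^ 2 := by
        rw [hμd, ← Real.exp_nat_mul]; congr 1; push_cast; ring
      have h4 : w / 2 + 1 ≤ Real.exp (w / 2) := Real.add_one_le_exp _
      have h5 : 8 ≤ Real.exp (w / 2) := by linarith
      have h6 : (28:ℝ) ≤ Real.exp (w / 2) := by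
        have h7 : Real.exp 8 ≤ Real.exp (w / 2) := Real.exp_le_exp.2 (by linarith)
        have h8 : Real.exp 8 = Real.exp 1 ^ 8 := by rw [← Real.exp_nat_mul]; norm_num
        have h9 : (2:ℝ) ≤ Real.exp 1 := by linarith [Real.exp_one_gt_d9]
        have h10 : (2:ℝ) ^ 8 ≤ Real.exp 1 ^ 8 := pow_le_pow_left₀ (by norm_num) h9 8
        rw [h8] at h7
        linarith
      rw [h3]
      nlinarith
    refine h1.trans ?_
    rw [div_le_iff₀ (by positivity)]
    linarith
  have hu1 : ∀ i < n, u i ≤ 1 / 2 := fun i hi => (hub i hi).trans hub2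
  have hsum : ∑ i ∈ range n, u i = q + q ^ 2 - q / m := by
    simp only [hu]
    rw [Finset.sum_add_distrib, Finset.sum_const, card_range, nsmul_eq_mul, ← Finset.sum_div,
      ← Finset.mul_sum]
    have h1 : ∑ i ∈ range n, (i:ℝ) = n * (n - 1) / 2 := by
      have := Finset.sum_range_id_mul_two n
      have h2 : ((∑ i ∈ range n, i : ℕ) : ℝ) * 2 = n * ((n - 1 : ℕ) : ℝ) := by exact_mod_cast this
      rcases Nat.eq_zero_or_pos n with h0 | h0
      · subst h0; simp
      · rw [Nat.cast_sub (by omega)] at h2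
        push_cast at h2
        linarith
    rw [h1, hq]
    field_simp
    ring
  have hsq : ∑ i ∈ range n, u i ^ 2 ≤ 18 * w ^ 3 * δ := by
    calc ∑ i ∈ range n, u i ^ 2 ≤ ∑ i ∈ range n, ((1 + 2 * q) / m) ^ 2 := by
          apply Finset.sum_le_sum
          intro i hi
          exact pow_le_pow_left₀ (hu0 i (mem_range.1 hi)) (hub i (mem_range.1 hi)) 2
      _ = (1 / m) * (q * (1 + 2 * q) ^ 2) := by
          rw [Finset.sum_const, card_range, nsmul_eq_mul, hq]; field_simp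
      _ ≤ (2 * δ) * (w * (3 * w) ^ 2) := by gcongr
      _ = 18 * w ^ 3 * δ := by ring
  have hdiff : |∑ i ∈ range n, u i - (w / 2 + w ^ 2 / 4)| ≤ 10 * w ^ 2 * δ := by
    rw [hsum]
    have h1 : q + q ^ 2 - q / m - (w / 2 + w ^ 2 / 4) = (q - w / 2) + (q - w / 2) * (q + w / 2) -
        q * (1 / m) := by ring
    rw [h1]
    have h2 : |(q - w / 2) * (q + w / 2)| ≤ 3 * w * δ * (3 / 2 * w) := by
      rw [abs_mul]
      apply mul_le_mul hqd _ (abs_nonneg _) (by positivity)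
      rw [abs_of_nonneg (by linarith)]
      linarith
    have h3 : |q * (1 / m)| ≤ w * (2 * δ) := by
      rw [abs_of_nonneg (by positivity)]
      gcongr
    have h4 := abs_sub ((q - w / 2) + (q - w / 2) * (q + w / 2)) (q * (1 / m))
    have h5 := abs_add_le (q - w / 2) ((q - w / 2) * (q + w / 2))
    have h6 : w * δ ≤ w ^ 2 * δ / 16 := by
      have : 0 ≤ w * δ * (w - 16) := by
        apply mul_nonneg (by positivity) (by linarith)
      nlinarith
    calc _ ≤ 3 * w * δ + 3 * w * δ * (3 / 2 * w) + w * (2 * δ) := by linarith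
      _ ≤ _ := by nlinarith [mul_nonneg (sq_nonneg w) hδ.le]
  have hw23 : w ^ 2 * δ ≤ w ^ 3 * δ / 16 := by
    have : 0 ≤ w ^ 2 * δ * (w - 16) := by
      apply mul_nonneg (by positivity) (by linarith)
    nlinarith
  have hw3 : 0 ≤ w ^ 3 * δ := by positivity
  rw [abs_le] at hdiff
  rw [h2_eq_prod n hm0']
  constructor
  · refine le_trans ?_ (prod_one_sub_ge hu0 hu1)
    rw [← Real.exp_add]
    apply Real.exp_le_exp.2
    linarith [hdiff.2]
  · refine (prod_one_sub_le (fun i hi => (hu1 i hi).trans (by norm_num))).trans ?_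
    rw [← Real.exp_add]
    apply Real.exp_le_exp.2
    linarith [hdiff.1]

end Pool.Agent.H244R2
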