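import Pool.Agent.H244R2.GraphAsym

set_option autoImplicit false

namespace Pool.Agent.H244R2

open Filter Topology Finset Nat

/-- tail error -/
noncomputable def tailErr (w : ℝ) : ℝ :=
  8 * Real.exp (w / 4) * Real.exp (w ^ 2) * Real.exp (-Real.exp (w / 2))

lemma tailErr_nonneg (w : ℝ) : 0 ≤ tailErr w := by unfold tailErr; positivity

lemma ratio_tendsto {R w : ℕ → ℝ} (hw : Tendsto w atTop atTop) {C : ℝ}
    (h : ∀ᶠ n in atTop, Real.exp (-(C * (w n ^ 3 * Real.exp (-(w n / 4))))) * (1 - tailErr (w n)) ≤ R n ∧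
      R n ≤ Real.exp (C * (w n ^ 3 * Real.exp (-(w n / 4)))) + tailErr (w n)) :
    Tendsto R atTop (𝓝 1) := by
  have h1 : Tendsto (fun n => C * (w n ^ 3 * Real.exp (-(w n / 4)))) atTop (𝓝 0) := by
    have := ((tendsto_pow_mul_exp_neg_quarter 3).comp hw).const_mul C
    rwa [mul_zero] at this
  have h2 : Tendsto (fun n => tailErr (w n)) atTop (𝓝 0) := tendsto_tail_error.comp hw
  have h3 : Tendsto (fun n => Real.exp (-(C * (w n ^ 3 * Real.exp (-(w n / 4))))) *
      (1 - tailErr (w n))) atTop (𝓝 1) := by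
    have h4 := (Real.continuous_exp.tendsto _).comp h1.neg
    have h5 := h4.mul (h2.const_sub 1)
    simpa using h5
  have h4 : Tendsto (fun n => Real.exp (C * (w n ^ 3 * Real.exp (-(w n / 4)))) + tailErr (w n))
      atTop (𝓝 1) := by
    have h4 := (Real.continuous_exp.tendsto _).comp h1
    have h5 := h4.add h2
    simpa using h5
  exact tendsto_of_tendsto_of_tendsto_of_le_of_le' h3 h4 (h.mono fun n hn => hn.1)
    (h.mono fun n hn => hn.2)

lemma eta_le {w : ℝ} :
    4 / Real.exp (-(w / 4)) * Real.exp (-(Real.exp w * Real.exp (-(w / 4)) ^ 2)) * 2 ≤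
      tailErr w * Real.exp (-w ^ 2) := by
  have h1 : Real.exp w * Real.exp (-(w / 4)) ^ 2 = Real.exp (w / 2) := by
    rw [← Real.exp_nat_mul, ← Real.exp_add]; congr 1; push_cast; ring
  rw [h1]
  have h2 : 4 / Real.exp (-(w / 4)) = 4 * Real.exp (w / 4) := by
    rw [Real.exp_neg, div_inv_eq_mul]
  rw [h2]
  unfold tailErr
  have h3 : Real.exp (w ^ 2) * Real.exp (-w ^ 2) = 1 := by
    rw [← Real.exp_add]; simp
  calc _ = 8 * Real.exp (w / 4) * Real.exp (-Real.exp (w / 2)) * 1 := by ring
    _ = 8 * Real.exp (w / 4) * Real.exp (-Real.exp (w / 2)) *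
          (Real.exp (w ^ 2) * Real.exp (-w ^ 2)) := by rw [h3]
    _ ≤ _ := le_of_eq (by ring)

lemma window_params {w : ℝ} (hw : 16 ≤ w) : Real.exp (-(w / 4)) ≤ 1 / 4 ∧
    2 ≤ Real.exp w * Real.exp (-(w / 4)) := by
  constructor
  · rw [Real.exp_neg, inv_le_comm₀ (Real.exp_pos _) (by norm_num)]
    have := Real.add_one_le_exp (w / 4)
    norm_num; linarith
  · rw [← Real.exp_add]
    have := Real.add_one_le_exp (w + -(w / 4))
    linarith

lemma bell_pos (N : ℕ) : 0 < Nat.bell N := by
  have h := tsum_dob N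
  have h1 : 0 < ∑' m, dob N m :=
    (summable_dob N).tsum_pos (dob_nonneg N) 1 (dob_pos N one_pos)
  rw [h] at h1
  have h2 : 0 < (Nat.bell N : ℝ) := by
    by_contra hcon
    push Not at hcon
    have : Real.exp 1 * (Nat.bell N : ℝ) ≤ 0 :=
      mul_nonpos_of_nonneg_of_nonpos (Real.exp_pos _).le hcon
    linarith
  exact_mod_cast h2

/-- asymptotics of the main sum in terms of the Lambert function -/
theorem gSum_asym : Tendsto (fun n : ℕ => gSum n /
    (Real.exp 1 * ((Nat.bell (2 * n) : ℝ) / (2 ^ n * (n ! : ℝ)) *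
      Real.exp (-(lamW ((2 * n : ℕ) : ℝ) / 2) - lamW ((2 * n : ℕ) : ℝ) ^ 2 / 4)))) atTop (𝓝 1) := by
  have hwt : Tendsto (fun n : ℕ => lamW ((2 * n : ℕ) : ℝ)) atTop atTop := by
    apply tendsto_lamW.comp
    apply tendsto_natCast_atTop_atTop.comp
    exact tendsto_id.const_mul_atTop' (by norm_num)
  apply ratio_tendsto hwt (C := 50)
  filter_upwards [hwt.eventually_ge_atTop 16, eventually_gt_atTop 0] with n hw hn
  set w := lamW ((2 * n : ℕ) : ℝ) with hwdef
  have hN : w * Real.exp w = ((2 * n : ℕ) : ℝ) := lamW_eq (by positivity)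
  obtain ⟨hδ1, hμδ⟩ := window_params hw
  have htail := window_tail (N := 2 * n) (by linarith) hN (Real.exp_pos _) hδ1 hμδ
  set S := ∑' m, dob (2 * n) m with hS
  have hSpos : 0 < S := (summable_dob _).tsum_pos (dob_nonneg _) 1 (dob_pos _ one_pos)
  set c := Real.exp (-(w / 2) - w ^ 2 / 4) with hc
  have hcpos : 0 < c := Real.exp_pos _
  have havg := avg_bounds (dob (2 * n)) (h2 n)
    (fun m : ℕ => |(m:ℝ) - Real.exp w| ≤ 3 * (Real.exp w * Real.exp (-(w / 4))))
    (dob_nonneg _) (summable_dob _) hS.symm (h2_nonneg n) (h2_le_one n) hcpos.le htail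
    (fun m hm => h2_window hw hN hm)
  set η := 4 / Real.exp (-(w / 4)) * Real.exp (-(Real.exp w * Real.exp (-(w / 4)) ^ 2)) with hη
  have hη2 := eta_le (w := w)
  rw [← hη] at hη2
  have hη0 : 0 ≤ η := by rw [hη]; positivity
  have hE0 := tailErr_nonneg w
  have hηE : η ≤ tailErr w := by
    have : Real.exp (-w ^ 2) ≤ 1 := by
      rw [Real.exp_le_one_iff]; nlinarith
    nlinarith
  have hηc : η ≤ tailErr w * c := by
    have h1 : Real.exp (-w ^ 2) ≤ c := by
      rw [hc]; apply Real.exp_le_exp.2; nlinarith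
    nlinarith
  have hgs : gSum n / (Real.exp 1 * ((Nat.bell (2 * n) : ℝ) / (2 ^ n * (n ! : ℝ)) * c)) =
      (∑' m, h2 n m * dob (2 * n) m) / (c * S) := by
    rw [gSum_eq hn, hS, tsum_dob]
    have hb : (Nat.bell (2 * n) : ℝ) ≠ 0 := by exact_mod_cast (bell_pos _).ne'
    have hn' : (n ! : ℝ) ≠ 0 := by positivity
    field_simp
  rw [hgs]
  constructor
  · rw [le_div_iff₀ (by positivity)]
    calc _ ≤ Real.exp (-(50 * (w ^ 3 * Real.exp (-(w / 4))))) * (1 - η) * (c * S) := by
          gcongr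
      _ = c * Real.exp (-(50 * (w ^ 3 * Real.exp (-(w / 4))))) * (1 - η) * S := by ring
      _ ≤ _ := havg.1
  · rw [div_le_iff₀ (by positivity)]
    refine havg.2.trans ?_
    calc (c * Real.exp (50 * (w ^ 3 * Real.exp (-(w / 4)))) + η) * S
        ≤ (c * Real.exp (50 * (w ^ 3 * Real.exp (-(w / 4)))) + tailErr w * c) * S := by gcongr
      _ = _ := by ring

/-- `log (1+a)` estimates -/
lemma log_one_add_bounds {a : ℝ} (ha : 0 ≤ a) : a - a ^ 2 ≤ Real.log (1 + a) ∧ Real.log (1 + a) ≤ a := by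
  constructor
  · have h1 : 0 < 1 + a := by linarith
    have h2 := Real.one_sub_inv_le_log_of_pos h1
    have h3 : a - a ^ 2 ≤ 1 - (1 + a)⁻¹ := by
      have h4 : (1 + a)⁻¹ ≤ 1 - a + a ^ 2 := by
        rw [inv_le_iff_one_le_mul₀ h1]
        nlinarith [mul_nonneg (mul_nonneg ha ha) ha]
      linarith
    linarith
  · have := Real.log_le_sub_one_of_pos (show 0 < 1 + a by linarith)
    linarith

lemma tendsto_log_sub_div (b : ℝ) : Tendsto (fun w : ℝ => (Real.log w - b) / w) atTop (𝓝 0) := by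
  have h1 : Tendsto (fun w : ℝ => Real.log w / w) atTop (𝓝 0) := by
    have := Real.isLittleO_log_id_atTop
    exact this.tendsto_div_nhds_zero
  have h2 : Tendsto (fun w : ℝ => b / w) atTop (𝓝 0) := tendsto_const_nhds.div_atTop tendsto_id
  have := h1.sub h2
  rw [sub_zero] at this
  refine this.congr (fun w => ?_)
  ring

lemma tendsto_sq_log_sub_div (b : ℝ) :
    Tendsto (fun w : ℝ => (Real.log w - b) ^ 2 / w) atTop (𝓝 0) := by
  have h1 : Tendsto (fun w : ℝ => Real.log w ^ 2 / w) atTop (𝓝 0) := by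
    have := (Real.isLittleO_pow_log_id_atTop (n := 2))
    exact this.tendsto_div_nhds_zero
  have h3 := tendsto_log_sub_div 0
  have h2 : Tendsto (fun w : ℝ => b ^ 2 / w) atTop (𝓝 0) := tendsto_const_nhds.div_atTop tendsto_id
  have := (h1.sub (h3.const_mul (2 * b))).add h2
  simp only [mul_zero, sub_zero, add_zero] at this
  refine this.congr (fun w => ?_)
  ring

/-- the correction term `w (a - log (1+a))` with `a = (log w - b)/w` tends to `0` -/
lemma tendsto_corr (b : ℝ) : Tendsto (fun w : ℝ => w * ((Real.log w - b) / w -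
    Real.log (1 + (Real.log w - b) / w))) atTop (𝓝 0) := by
  have hlog : ∀ᶠ w : ℝ in atTop, b ≤ Real.log w := Real.tendsto_log_atTop.eventually_ge_atTop b
  refine squeeze_zero' (g := fun w : ℝ => (Real.log w - b) ^ 2 / w) ?_ ?_ (tendsto_sq_log_sub_div b)
  · filter_upwards [hlog, eventually_gt_atTop 0] with w h1 h2
    have ha : 0 ≤ (Real.log w - b) / w := div_nonneg (by linarith) h2.le
    have := (log_one_add_bounds ha).2
    apply mul_nonneg h2.le
    linarith
  · filter_upwards [hlog, eventually_gt_atTop 0] with w h1 h2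
    have ha : 0 ≤ (Real.log w - b) / w := div_nonneg (by linarith) h2.le
    have h3 := (log_one_add_bounds ha).1
    calc w * ((Real.log w - b) / w - Real.log (1 + (Real.log w - b) / w))
        ≤ w * ((Real.log w - b) / w) ^ 2 := by
          apply mul_le_mul_of_nonneg_left _ h2.le
          linarith
      _ = (Real.log w - b) ^ 2 / w := by field_simp

lemma tendsto_beta (b : ℝ) : Tendsto (fun w : ℝ => Real.log (1 + (Real.log w - b) / w))
    atTop (𝓝 0) := by
  have h1 := (tendsto_log_sub_div b).const_add 1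
  rw [add_zero] at h1
  have h2 := (Real.continuousAt_log (by norm_num : (1:ℝ) ≠ 0)).tendsto.comp h1
  rwa [Real.log_one] at h2

/-- conversion of the Lambert expression to elementary functions, graph case -/
theorem conv2 : Tendsto (fun n : ℕ =>
    Real.exp (-(lamW ((2 * n : ℕ) : ℝ) / 2) - lamW ((2 * n : ℕ) : ℝ) ^ 2 / 4) /
      (Real.exp (-(1 / 4) * Real.log (2 * n / Real.log n) ^ 2) / Real.sqrt n)) atTop (𝓝 1) := by
  have hwt : Tendsto (fun n : ℕ => lamW ((2 * n : ℕ) : ℝ)) atTop atTop := by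
    apply tendsto_lamW.comp
    apply tendsto_natCast_atTop_atTop.comp
    exact tendsto_id.const_mul_atTop' (by norm_num)
  set b := Real.log 2 with hb
  have hlim : Tendsto (fun w : ℝ => 1 / 2 * (w * ((Real.log w - b) / w -
      Real.log (1 + (Real.log w - b) / w))) + 1 / 4 * (Real.log (1 + (Real.log w - b) / w)) ^ 2)
      atTop (𝓝 0) := by
    have := ((tendsto_corr b).const_mul (1/2)).add (((tendsto_beta b).pow 2).const_mul (1/4))
    simpa using this
  have h3 := (Real.continuous_exp.tendsto _).comp (hlim.comp hwt)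
  rw [Real.exp_zero] at h3
  refine h3.congr' ?_
  filter_upwards [hwt.eventually_ge_atTop 16, eventually_gt_atTop 0] with n hw hn
  simp only [Function.comp]
  set w := lamW ((2 * n : ℕ) : ℝ) with hwdef
  have hN : w * Real.exp w = ((2 * n : ℕ) : ℝ) := lamW_eq (by positivity)
  push_cast at hN
  have hw0 : 0 < w := by linarith
  have hn0 : (0:ℝ) < n := by exact_mod_cast hn
  have hlogw : 0 ≤ Real.log w - b := by
    rw [hb]
    have := Real.log_le_log (by norm_num : (0:ℝ) < 2) (by linarith : (2:ℝ) ≤ w)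
    linarith
  set a := (Real.log w - b) / w with ha
  have ha0 : 0 ≤ a := div_nonneg hlogw hw0.le
  have hwa : w * a = Real.log w - b := by rw [ha]; field_simp
  have hlog2n : Real.log (2 * n) = Real.log w + w := by
    rw [← hN, Real.log_mul hw0.ne' (Real.exp_pos _).ne', Real.log_exp]
  have hlogn : Real.log n = w * (1 + a) := by
    have : Real.log (2 * n) = Real.log 2 + Real.log n := Real.log_mul (by norm_num) hn0.ne'
    rw [mul_add, mul_one, hwa, hb]; linarith
  have hlogn0 : 0 < Real.log n := by rw [hlogn]; positivity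
  have hLL : Real.log (2 * n / Real.log n) = w - Real.log (1 + a) := by
    rw [Real.log_div (by positivity) hlogn0.ne', hlog2n, hlogn,
      Real.log_mul hw0.ne' (by positivity)]
    ring
  rw [hLL]
  have hsqrt : Real.sqrt n = Real.exp (1 / 2 * (w * (1 + a))) := by
    rw [Real.sqrt_eq_rpow, Real.rpow_def_of_pos hn0, hlogn]
    congr 1; ring
  rw [hsqrt, ← Real.exp_sub, ← Real.exp_sub]
  congr 1
  ring

end Pool.Agent.H244R2
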