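import Mathlib

set_option autoImplicit false

namespace Pool.Agent.H244R2

open Finset

/-- subsets of `Q` that are invariant under `π` -/
def invSets {α : Type*} [DecidableEq α] (π : α → α) (Q : Finset α) : Finset (Finset α) :=
  Q.powerset.filter (fun E => E.image π = E)

lemma one_add_pow_le_sqrt {z : ℝ} (hz : 0 ≤ z) {l : ℕ} (hl : 2 ≤ l) :
    1 + z ^ l ≤ (Real.sqrt (1 + z ^ 2)) ^ l := by
  set c := Real.sqrt (1 + z ^ 2) with hc
  have hc2 : c ^ 2 = 1 + z ^ 2 := Real.sq_sqrt (by positivity)
  have hc0 : 0 ≤ c := Real.sqrt_nonneg _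
  have hc1 : 1 ≤ c := by
    by_contra h
    push Not at h
    have : c ^ 2 < 1 := by nlinarith
    nlinarith [sq_nonneg z]
  have hcz : z ≤ c := by
    by_contra h
    push Not at h
    nlinarith
  obtain ⟨k, rfl⟩ : ∃ k, l = k + 2 := ⟨l - 2, by omega⟩
  have h1 : 1 ≤ c ^ k := one_le_pow₀ hc1
  have h2 : z ^ k ≤ c ^ k := pow_le_pow_left₀ hz hcz k
  calc 1 + z ^ (k + 2) = 1 + z ^ 2 * z ^ k := by ring
    _ ≤ c ^ k + z ^ 2 * c ^ k := by
        have := mul_le_mul_of_nonneg_left h2 (sq_nonneg z)
        linarith
    _ = c ^ (k + 2) := by rw [pow_add, hc2]; ring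

theorem invSets_sum_le {α : Type*} [DecidableEq α] (π : Equiv.Perm α) {z : ℝ} (hz : 0 ≤ z) :
    ∀ (Q : Finset α), (Q.image π = Q) →
      ∑ E ∈ invSets π Q, z ^ E.card ≤
        (1 + z) ^ (Q.filter (fun a => π a = a)).card *
          (Real.sqrt (1 + z ^ 2)) ^ (Q.filter (fun a => π a ≠ a)).card := by
  intro Q
  induction Q using Finset.strongInduction with
  | H Q ih =>
  intro hQ
  rcases Q.eq_empty_or_nonempty with rfl | ⟨a, ha⟩
  · simp [invSets, Finset.filter_singleton]
  classical
  set O := Q.filter (fun b => π.SameCycle a b) with hO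
  set Q' := Q.filter (fun b => ¬ π.SameCycle a b) with hQ'
  have haO : a ∈ O := by simp [hO, ha, Equiv.Perm.SameCycle.refl]
  have hpi : ∀ b, b ∈ Q ↔ π b ∈ Q := by
    intro b
    constructor
    · intro hb
      rw [← hQ]
      exact mem_image_of_mem _ hb
    · intro hb
      rw [← hQ, mem_image] at hb
      obtain ⟨c, hc, hcb⟩ := hb
      rwa [← π.injective hcb]
  have hQ'Q : Q' ⊂ Q := by
    rw [Finset.ssubset_iff_of_subset (filter_subset _ _)]
    refine ⟨a, ha, ?_⟩
    simp [Equiv.Perm.SameCycle.refl]
  have hQ'inv : Q'.image π = Q' := by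
    ext b
    simp only [mem_image, hQ', mem_filter]
    constructor
    · rintro ⟨c, ⟨hc1, hc2⟩, rfl⟩
      refine ⟨(hpi c).1 hc1, ?_⟩
      intro h
      exact hc2 (Equiv.Perm.sameCycle_apply_right.1 h)
    · rintro ⟨h1, h2⟩
      refine ⟨π.symm b, ⟨?_, ?_⟩, by simp⟩
      · rw [hpi]; simpa using h1
      · intro h
        apply h2
        have := Equiv.Perm.sameCycle_apply_right.2 h
        simpa using this
  have ih' := ih Q' hQ'Q hQ'inv
  -- closure of invariant sets
  have hcl : ∀ E : Finset α, E.image π = E → ∀ b, π.SameCycle a b → (a ∈ E ↔ b ∈ E) := by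
    intro E hE b hab
    have hE1 : ∀ c, c ∈ E ↔ π c ∈ E := by
      intro b
      constructor
      · intro hb
        rw [← hE]
        exact mem_image_of_mem _ hb
      · intro hb
        rw [← hE, mem_image] at hb
        obtain ⟨c, hc, hcb⟩ := hb
        rwa [← π.injective hcb]
    obtain ⟨i, rfl⟩ := hab
    induction i using Int.induction_on with
    | zero => simp
    | succ i hi =>
      refine hi.trans ?_
      rw [add_comm, zpow_add, Equiv.Perm.mul_apply, zpow_one]
      exact hE1 _
    | pred i hi =>
      refine hi.trans ?_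
      rw [sub_eq_add_neg, add_comm, zpow_add, Equiv.Perm.mul_apply, zpow_neg_one]
      rw [hE1 (π⁻¹ _)]
      simp
  -- split
  have hsplit : ∑ E ∈ invSets π Q, z ^ E.card ≤
      (1 + z ^ O.card) * ∑ E ∈ invSets π Q', z ^ E.card := by
    rw [← Finset.sum_filter_add_sum_filter_not (invSets π Q) (fun E => a ∉ E)]
    rw [add_mul, one_mul]
    apply add_le_add
    · apply Finset.sum_le_sum_of_subset_of_nonneg
      · intro E hE
        simp only [invSets, mem_filter, mem_powerset] at hE ⊢
        obtain ⟨⟨hEQ, hEi⟩, haE⟩ := hE
        refine ⟨?_, hEi⟩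
        intro b hb
        simp only [hQ', mem_filter]
        refine ⟨hEQ hb, ?_⟩
        intro hab
        exact haE ((hcl E hEi b hab).2 hb)
      · intros; positivity
    · rw [Finset.mul_sum]
      have hmap : ∀ E ∈ (invSets π Q).filter (fun E => ¬ a ∉ E), E \ O ∈ invSets π Q' := by
        intro E hE
        simp only [invSets, mem_filter, mem_powerset, not_not] at hE ⊢
        obtain ⟨⟨hEQ, hEi⟩, haE⟩ := hE
        constructor
        · intro b hb
          simp only [hQ', hO, mem_filter, mem_sdiff, not_and] at hb ⊢
          exact ⟨hEQ hb.1, hb.2 (hEQ hb.1)⟩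
        · have hE1 : ∀ c, c ∈ E ↔ π c ∈ E := by
            intro b
            constructor
            · intro hb
              rw [← hEi]
              exact mem_image_of_mem _ hb
            · intro hb
              rw [← hEi, mem_image] at hb
              obtain ⟨c, hc, hcb⟩ := hb
              rwa [← π.injective hcb]
          ext b
          simp only [mem_image, mem_sdiff, hO, mem_filter, not_and]
          constructor
          · rintro ⟨c, ⟨hc1, hc2⟩, rfl⟩
            refine ⟨(hE1 c).1 hc1, ?_⟩
            intro h3 h
            exact hc2 ((hpi c).2 h3) (Equiv.Perm.sameCycle_apply_right.1 h)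
          · rintro ⟨h1, h2⟩
            refine ⟨π.symm b, ⟨?_, ?_⟩, by simp⟩
            · rw [hE1]; simpa using h1
            · intro h3 h
              apply h2 (hEQ h1)
              have := Equiv.Perm.sameCycle_apply_right.2 h
              simpa using this
      have hOE : ∀ E ∈ (invSets π Q).filter (fun E => ¬ a ∉ E), O ⊆ E := by
        intro E hE
        simp only [invSets, mem_filter, mem_powerset, not_not] at hE
        obtain ⟨⟨hEQ, hEi⟩, haE⟩ := hE
        intro b hb
        simp only [hO, mem_filter] at hb
        exact (hcl E hEi b hb.2).1 haE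
      have hinj : Set.InjOn (fun E => E \ O)
          ((invSets π Q).filter (fun E => ¬ a ∉ E) : Finset (Finset α)) := by
        intro E hE F hF hEF
        have h1 := hOE E hE
        have h2 := hOE F hF
        simp only at hEF
        rw [← Finset.sdiff_union_of_subset h1, hEF, Finset.sdiff_union_of_subset h2]
      calc ∑ E ∈ (invSets π Q).filter (fun E => ¬ a ∉ E), z ^ E.card
          = ∑ E ∈ (invSets π Q).filter (fun E => ¬ a ∉ E), z ^ O.card * z ^ (E \ O).card := by
            apply Finset.sum_congr rfl
            intro E hE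
            rw [← pow_add, add_comm, Finset.card_sdiff_add_card_eq_card (hOE E hE)]
        _ = ∑ E ∈ ((invSets π Q).filter (fun E => ¬ a ∉ E)).image (fun E => E \ O),
              z ^ O.card * z ^ E.card := by
            rw [Finset.sum_image]
            exact hinj
        _ ≤ ∑ E ∈ invSets π Q', z ^ O.card * z ^ E.card := by
            apply Finset.sum_le_sum_of_subset_of_nonneg
            · intro E hE
              rw [mem_image] at hE
              obtain ⟨F, hF, rfl⟩ := hE
              exact hmap F hF
            · intros; positivity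
  have hs0 : 0 ≤ Real.sqrt (1 + z ^ 2) := Real.sqrt_nonneg _
  have hsum0 : 0 ≤ ∑ E ∈ invSets π Q', z ^ E.card := Finset.sum_nonneg (by intros; positivity)
  have hdisj : Disjoint O Q' := by
    rw [hO, hQ']
    exact Finset.disjoint_filter_filter_not _ _ _
  have hunion : O ∪ Q' = Q := by
    rw [hO, hQ']
    exact Finset.filter_union_filter_not_eq _ _
  have hcardf : ∀ (p : α → Prop) [DecidablePred p],
      (Q.filter p).card = (O.filter p).card + (Q'.filter p).card := by
    intro p _
    conv_lhs => rw [← hunion]
    rw [Finset.filter_union, Finset.card_union_of_disjoint]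
    exact Finset.disjoint_filter_filter hdisj
  have hfact : 1 + z ^ O.card ≤ (1 + z) ^ (O.filter (fun a => π a = a)).card *
      (Real.sqrt (1 + z ^ 2)) ^ (O.filter (fun a => π a ≠ a)).card := by
    by_cases hfix : π a = a
    · have hO1 : O = {a} := by
        ext b
        simp only [hO, mem_filter, mem_singleton]
        constructor
        · rintro ⟨_, i, hi⟩
          rw [← hi]
          exact (Equiv.Perm.zpow_apply_eq_self_of_apply_eq_self hfix i)
        · rintro rfl
          exact ⟨ha, Equiv.Perm.SameCycle.refl _ _⟩
      rw [hO1]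
      simp [Finset.filter_singleton, hfix]
    · have hnf : ∀ b ∈ O, π b ≠ b := by
        intro b hb hb2
        simp only [hO, mem_filter] at hb
        apply hfix
        have hba := hb.2.symm
        obtain ⟨i, hi⟩ := hba
        rw [Equiv.Perm.zpow_apply_eq_self_of_apply_eq_self hb2 i] at hi
        rw [← hi]
        exact hb2
      have h1 : O.filter (fun a => π a = a) = ∅ := by
        rw [Finset.filter_eq_empty_iff]
        exact fun b hb => hnf b hb
      have h2 : O.filter (fun a => π a ≠ a) = O := by
        rw [Finset.filter_eq_self]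
        exact fun b hb => hnf b hb
      rw [h1, h2]
      simp only [card_empty, pow_zero, one_mul]
      apply one_add_pow_le_sqrt hz
      have : ({a, π a} : Finset α) ⊆ O := by
        intro b hb
        simp only [mem_insert, mem_singleton] at hb
        rcases hb with rfl | rfl
        · exact haO
        · simp only [hO, mem_filter]
          refine ⟨(hpi _).1 ha, Equiv.Perm.sameCycle_apply_right.2 (Equiv.Perm.SameCycle.refl _ _)⟩
      calc 2 = ({a, π a} : Finset α).card := by
            rw [Finset.card_pair]
            exact fun h => hfix h.symm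
        _ ≤ O.card := Finset.card_le_card this
  calc ∑ E ∈ invSets π Q, z ^ E.card ≤ (1 + z ^ O.card) * ∑ E ∈ invSets π Q', z ^ E.card := hsplit
    _ ≤ ((1 + z) ^ (O.filter (fun a => π a = a)).card *
      (Real.sqrt (1 + z ^ 2)) ^ (O.filter (fun a => π a ≠ a)).card) *
        ((1 + z) ^ (Q'.filter (fun a => π a = a)).card *
          (Real.sqrt (1 + z ^ 2)) ^ (Q'.filter (fun a => π a ≠ a)).card) := by
        apply mul_le_mul hfact ih' hsum0
        positivity
    _ = _ := by
        rw [hcardf (fun a => π a = a), hcardf (fun a => π a ≠ a), pow_add, pow_add]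
        ring

end Pool.Agent.H244R2
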