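import Mathlib

set_option autoImplicit false

namespace Pool.Agent.H244R2

open Finset Nat

/-- binomial inversion, defined recursively -/
noncomputable def Lrec (c : ℕ → ℝ) : ℕ → ℝ
  | k => c k - ∑ i : Fin k, (k.choose i : ℝ) * Lrec c i
decreasing_by exact i.2

lemma Lrec_spec (c : ℕ → ℝ) (k : ℕ) :
    c k = ∑ i ∈ range (k + 1), (k.choose i : ℝ) * Lrec c i := by
  rw [Finset.sum_range_succ, Nat.choose_self, Nat.cast_one, one_mul]
  conv_rhs => rw [Lrec]
  rw [Fin.sum_univ_eq_sum_range (fun i => (k.choose i : ℝ) * Lrec c i) k]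
  ring

lemma sum_powerset_Lrec {V : Type*} (c : ℕ → ℝ) (S : Finset V) :
    ∑ T ∈ S.powerset, Lrec c T.card = c S.card := by
  rw [Finset.sum_powerset_apply_card, Lrec_spec c S.card]
  simp [nsmul_eq_mul]

lemma eq_Lrec {V : Type*} (c : ℕ → ℝ) (F : Finset V → ℝ)
    (h : ∀ S : Finset V, ∑ T ∈ S.powerset, F T = c S.card) :
    ∀ S : Finset V, F S = Lrec c S.card := by
  intro S
  induction S using Finset.strongInduction with
  | H S ih =>
  have h1 : ∑ T ∈ S.powerset, (F T - Lrec c T.card) = 0 := by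
    rw [Finset.sum_sub_distrib, h S, sum_powerset_Lrec, sub_self]
  rw [Finset.sum_eq_single S] at h1
  · linarith
  · intro T hT hne
    rw [Finset.mem_powerset] at hT
    rw [ih T (Finset.ssubset_iff_subset_ne.2 ⟨hT, hne⟩), sub_self]
  · intro hS
    exact absurd (Finset.mem_powerset_self S) hS

/-- exponential convolution -/
lemma tsum_c_div_factorial (c : ℕ → ℝ) (hL : Summable (fun k => ‖Lrec c k / (k ! : ℝ)‖)) :
    ∑' r, c r / (r ! : ℝ) = Real.exp 1 * ∑' k, Lrec c k / (k ! : ℝ) ∧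
      Summable (fun r => c r / (r ! : ℝ)) := by
  have hE : Summable (fun k : ℕ => ‖(1:ℝ) / (k ! : ℝ)‖) := by
    have := Real.summable_pow_div_factorial 1
    refine this.congr (fun k => ?_)
    rw [one_pow, Real.norm_of_nonneg (by positivity)]
  have h1 := tsum_mul_tsum_eq_tsum_sum_range_of_summable_norm hL hE
  have h2 : ∀ r, ∑ k ∈ range (r + 1), Lrec c k / (k ! : ℝ) * (1 / ((r - k)! : ℝ)) =
      c r / (r ! : ℝ) := by
    intro r
    rw [Lrec_spec c r, Finset.sum_div]
    apply Finset.sum_congr rfl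
    intro k hk
    rw [mem_range] at hk
    rw [Nat.cast_choose ℝ (by omega : k ≤ r)]
    have h1 : (k ! : ℝ) ≠ 0 := by positivity
    have h2 : ((r - k)! : ℝ) ≠ 0 := by positivity
    have h3 : (r ! : ℝ) ≠ 0 := by positivity
    field_simp
  simp_rw [h2] at h1
  have h3 : ∑' k : ℕ, (1:ℝ) / (k ! : ℝ) = Real.exp 1 := by
    rw [Real.exp_eq_exp_ℝ, NormedSpace.exp_eq_tsum_div]
    simp
  have h4 := (summable_norm_sum_mul_range_of_summable_norm hL hE).of_norm
  simp_rw [h2] at h4
  exact ⟨by rw [← h1, h3, mul_comm], h4⟩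

end Pool.Agent.H244R2
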