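import Pool.Agent.H244R2.GraphAsym
import Pool.Agent.H244R2.Moebius
import Pool.Agent.H244R2.InvSets

set_option autoImplicit false
set_option linter.unusedSectionVars false

namespace Pool.Agent.H244R2

open Finset Nat

section basics

variable {V : Type*} [DecidableEq V]

/-- the set of points covered by a family of sets -/
def U (E : Finset (Finset V)) : Finset V := E.biUnion id

/-- graphs with `n` edges on the vertex set `S` -/
def GG (S : Finset V) (n : ℕ) : Finset (Finset (Finset V)) := (S.powersetCard 2).powersetCard n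

lemma mem_U {E : Finset (Finset V)} {v : V} : v ∈ U E ↔ ∃ e ∈ E, v ∈ e := by simp [U]

lemma card_GG (S : Finset V) (n : ℕ) : (GG S n).card = (S.card.choose 2).choose n := by
  simp [GG]

lemma mem_GG {S : Finset V} {n : ℕ} {E : Finset (Finset V)} :
    E ∈ GG S n ↔ (∀ e ∈ E, e ⊆ S ∧ e.card = 2) ∧ E.card = n := by
  simp only [GG, mem_powersetCard]
  constructor
  · rintro ⟨h1, h2⟩
    exact ⟨fun e he => mem_powersetCard.1 (h1 he), h2⟩
  · rintro ⟨h1, h2⟩
    exact ⟨fun e he => mem_powersetCard.2 (h1 e he), h2⟩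

lemma U_subset {S : Finset V} {n : ℕ} {E : Finset (Finset V)} (h : E ∈ GG S n) : U E ⊆ S := by
  intro v hv
  obtain ⟨e, he, hve⟩ := mem_U.1 hv
  exact ((mem_GG.1 h).1 e he).1 hve

lemma card_U_le {E : Finset (Finset V)} (h : ∀ e ∈ E, e.card = 2) : (U E).card ≤ 2 * E.card := by
  unfold U
  calc (E.biUnion id).card ≤ ∑ e ∈ E, (id e).card := card_biUnion_le
    _ = ∑ e ∈ E, 2 := Finset.sum_congr rfl (fun e he => h e he)
    _ = 2 * E.card := by rw [sum_const, smul_eq_mul, mul_comm]

lemma filter_U_eq {S T : Finset V} {n : ℕ} (hTS : T ⊆ S) :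
    (GG S n).filter (fun E => U E = T) = (GG T n).filter (fun E => U E = T) := by
  ext E
  simp only [mem_filter, mem_GG]
  constructor
  · rintro ⟨⟨h1, h2⟩, h3⟩
    refine ⟨⟨fun e he => ⟨?_, (h1 e he).2⟩, h2⟩, h3⟩
    intro v hv
    rw [← h3]
    exact mem_U.2 ⟨e, he, hv⟩
  · rintro ⟨⟨h1, h2⟩, h3⟩
    exact ⟨⟨fun e he => ⟨(h1 e he).1.trans hTS, (h1 e he).2⟩, h2⟩, h3⟩

lemma sum_GG_eq (S : Finset V) (n : ℕ) (g : ℕ → ℝ) :
    ∑ E ∈ GG S n, g (U E).card =
      ∑ T ∈ S.powerset, (((GG T n).filter (fun E => U E = T)).card : ℝ) * g T.card := by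
  have hmaps : ∀ E ∈ GG S n, U E ∈ S.powerset := fun E hE => mem_powerset.2 (U_subset hE)
  rw [← Finset.sum_fiberwise_of_maps_to hmaps]
  apply Finset.sum_congr rfl
  intro T hT
  rw [filter_U_eq (mem_powerset.1 hT)]
  rw [Finset.sum_congr rfl (g := fun _ => g T.card)]
  · rw [sum_const, nsmul_eq_mul]
  · intro E hE
    rw [(mem_filter.1 hE).2]

/-- the numbers `C(C(k,2),n)` -/
noncomputable def gc (n k : ℕ) : ℝ := ((k.choose 2).choose n : ℝ)

lemma sum_cover (S : Finset V) (n : ℕ) :
    ∑ T ∈ S.powerset, (((GG T n).filter (fun E => U E = T)).card : ℝ) = gc n S.card := by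
  have := sum_GG_eq S n (fun _ => 1)
  simp only [mul_one, sum_const, nsmul_eq_mul] at this
  rw [← this, card_GG]
  rfl

lemma card_cover (S : Finset V) (n : ℕ) :
    (((GG S n).filter (fun E => U E = S)).card : ℝ) = Lrec (gc n) S.card :=
  eq_Lrec (gc n) (fun S => (((GG S n).filter (fun E => U E = S)).card : ℝ))
    (fun S => sum_cover S n) S

end basics

lemma L_nonneg (n k : ℕ) : 0 ≤ Lrec (gc n) k := by
  have := card_cover (univ : Finset (Fin k)) n
  rw [Finset.card_univ, Fintype.card_fin] at this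
  rw [← this]
  positivity

lemma L_zero {n k : ℕ} (h : 2 * n < k) : Lrec (gc n) k = 0 := by
  have := card_cover (univ : Finset (Fin k)) n
  rw [Finset.card_univ, Fintype.card_fin] at this
  rw [← this]
  rw [Nat.cast_eq_zero, Finset.card_eq_zero, filter_eq_empty_iff]
  intro E hE hU
  have h1 := card_U_le (fun e he => ((mem_GG.1 hE).1 e he).2)
  rw [hU, Finset.card_univ, Fintype.card_fin, (mem_GG.1 hE).2] at h1
  omega

lemma gSum_eq_L (n : ℕ) : gSum n =
    Real.exp 1 * ∑ k ∈ range (2 * n + 1), Lrec (gc n) k / (k ! : ℝ) := by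
  have hz : ∀ k ∉ range (2 * n + 1), Lrec (gc n) k / (k ! : ℝ) = 0 := by
    intro k hk
    rw [mem_range] at hk
    rw [L_zero (by omega), zero_div]
  have hs : Summable (fun k => ‖Lrec (gc n) k / (k ! : ℝ)‖) := by
    apply summable_of_ne_finset_zero (s := range (2 * n + 1))
    intro k hk
    rw [hz k hk, norm_zero]
  have := (tsum_c_div_factorial (gc n) hs).1
  rw [tsum_eq_sum hz] at this
  rw [← this]
  rfl

section sums

variable {V : Type*} [DecidableEq V]

lemma choose_mul_factorial_div {K k : ℕ} (hk : k ≤ K) :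
    (K.choose k : ℝ) * ((K - k)! : ℝ) = (K ! : ℝ) / (k ! : ℝ) := by
  rw [Nat.cast_choose ℝ hk]
  have h1 : (k ! : ℝ) ≠ 0 := by positivity
  have h2 : ((K - k)! : ℝ) ≠ 0 := by positivity
  field_simp

/-- the main sum, exactly -/
lemma main_sum (S : Finset V) (n : ℕ) (hS : 2 * n ≤ S.card) :
    ∑ E ∈ GG S n, ((S.card - (U E).card)! : ℝ) = (S.card ! : ℝ) * (gSum n / Real.exp 1) := by
  rw [sum_GG_eq S n (fun k => ((S.card - k)! : ℝ))]
  have h1 : ∀ T ∈ S.powerset, (((GG T n).filter (fun E => U E = T)).card : ℝ) *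
      ((S.card - T.card)! : ℝ) = (fun k => Lrec (gc n) k * ((S.card - k)! : ℝ)) T.card := by
    intro T _
    rw [card_cover]
  rw [Finset.sum_congr rfl h1,
    Finset.sum_powerset_apply_card (fun k => Lrec (gc n) k * ((S.card - k)! : ℝ)), gSum_eq_L,
    mul_div_cancel_left₀ _ (Real.exp_pos 1).ne']
  have h2 : ∑ k ∈ range (2 * n + 1), Lrec (gc n) k / (k ! : ℝ) =
      ∑ k ∈ range (S.card + 1), Lrec (gc n) k / (k ! : ℝ) := by
    apply Finset.sum_subset
    · intro k hk
      rw [mem_range] at *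
      omega
    · intro k _ hk
      rw [mem_range] at hk
      rw [L_zero (by omega), zero_div]
  rw [h2, Finset.mul_sum]
  apply Finset.sum_congr rfl
  intro k hk
  rw [mem_range] at hk
  rw [nsmul_eq_mul]
  have := choose_mul_factorial_div (show k ≤ S.card by omega)
  calc (S.card.choose k : ℝ) * (Lrec (gc n) k * ((S.card - k)! : ℝ))
      = ((S.card.choose k : ℝ) * ((S.card - k)! : ℝ)) * Lrec (gc n) k := by ring
    _ = _ := by rw [this]; ring

/-- the same sum, as an inequality without the size condition -/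
lemma sub_sum (S : Finset V) (n : ℕ) :
    ∑ E ∈ GG S n, ((S.card - (U E).card)! : ℝ) ≤ (S.card ! : ℝ) * gSum n := by
  rw [sum_GG_eq S n (fun k => ((S.card - k)! : ℝ))]
  have h1 : ∀ T ∈ S.powerset, (((GG T n).filter (fun E => U E = T)).card : ℝ) *
      ((S.card - T.card)! : ℝ) ≤ (fun k => gc n k * ((S.card - k)! : ℝ)) T.card := by
    intro T _
    have : (((GG T n).filter (fun E => U E = T)).card : ℝ) ≤ gc n T.card := by
      unfold gc
      rw [← card_GG]
      exact_mod_cast card_filter_le _ _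
    simp only
    gcongr
  refine (Finset.sum_le_sum h1).trans ?_
  rw [Finset.sum_powerset_apply_card (fun k => gc n k * ((S.card - k)! : ℝ))]
  have h2 : ∑ m ∈ range (S.card + 1), S.card.choose m • (gc n m * ((S.card - m)! : ℝ)) =
      (S.card ! : ℝ) * ∑ m ∈ range (S.card + 1), gTerm n m := by
    rw [Finset.mul_sum]
    apply Finset.sum_congr rfl
    intro k hk
    rw [mem_range] at hk
    rw [nsmul_eq_mul]
    have := choose_mul_factorial_div (show k ≤ S.card by omega)
    calc (S.card.choose k : ℝ) * (gc n k * ((S.card - k)! : ℝ))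
        = ((S.card.choose k : ℝ) * ((S.card - k)! : ℝ)) * gc n k := by ring
      _ = _ := by rw [this]; unfold gc gTerm; ring
  rw [h2]
  apply mul_le_mul_of_nonneg_left _ (by positivity)
  exact (summable_gTerm n).sum_le_tsum _ (fun i _ => gTerm_nonneg n i)

end sums

section stab

variable {V : Type*} [DecidableEq V] [Fintype V]

/-- the action of a permutation on families of sets -/
def act (σ : Equiv.Perm V) (E : Finset (Finset V)) : Finset (Finset V) :=
  E.image (Equiv.finsetCongr σ)

lemma mem_act {σ : Equiv.Perm V} {E : Finset (Finset V)} {e : Finset V} :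
    e ∈ act σ E ↔ ∃ f ∈ E, f.map σ.toEmbedding = e := by
  simp [act]

/-- number of permutations fixing a given set pointwise -/
lemma card_fix (S : Finset V) :
    (univ.filter (fun ρ : Equiv.Perm V => ∀ v ∈ S, ρ v = v)).card =
      (Fintype.card V - S.card)! := by
  have h1 : Fintype.card (Equiv.Perm {v // v ∉ S}) = (Fintype.card V - S.card)! := by
    rw [Fintype.card_perm]
    congr 1
    rw [Fintype.card_subtype_compl, Fintype.card_coe]
  rw [← h1, Fintype.card_congr (Equiv.Perm.subtypeEquivSubtypePerm (fun v => v ∉ S)),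
    Fintype.card_subtype]
  congr 1
  ext ρ
  simp

lemma map_eq_self_of_fix {S e : Finset V} {ρ : Equiv.Perm V} (h : ∀ v ∈ S, ρ v = v) (he : e ⊆ S) :
    e.map ρ.toEmbedding = e := by
  ext v
  simp only [mem_map, Equiv.coe_toEmbedding]
  constructor
  · rintro ⟨a, ha, rfl⟩
    rwa [h a (he ha)]
  · intro hv
    exact ⟨v, hv, h v (he hv)⟩

lemma subset_U {E : Finset (Finset V)} {e : Finset V} (he : e ∈ E) : e ⊆ U E :=
  fun _ hv => mem_U.2 ⟨e, he, hv⟩

lemma stab_lower (E : Finset (Finset V)) :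
    (Fintype.card V - (U E).card)! ≤ (univ.filter (fun σ : Equiv.Perm V => act σ E = E)).card := by
  rw [← card_fix (U E)]
  apply card_le_card
  intro ρ hρ
  simp only [mem_filter, mem_univ, true_and] at hρ ⊢
  ext e
  rw [mem_act]
  constructor
  · rintro ⟨f, hf, rfl⟩
    rwa [map_eq_self_of_fix hρ (subset_U hf)]
  · intro he
    exact ⟨e, he, map_eq_self_of_fix hρ (subset_U he)⟩

lemma mem_U_of_act {E : Finset (Finset V)} {σ : Equiv.Perm V} (h : act σ E = E) (v : V) :
    v ∈ U E ↔ σ v ∈ U E := by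
  constructor
  · intro hv
    obtain ⟨e, he, hve⟩ := mem_U.1 hv
    have h1 : e.map σ.toEmbedding ∈ E := by
      rw [← h]; exact mem_act.2 ⟨e, he, rfl⟩
    exact mem_U.2 ⟨_, h1, by simpa using hve⟩
  · intro hv
    obtain ⟨e, he, hve⟩ := mem_U.1 hv
    rw [← h] at he
    obtain ⟨f, hf, rfl⟩ := mem_act.1 he
    refine mem_U.2 ⟨f, hf, ?_⟩
    simpa using hve

lemma stab_upper (E : Finset (Finset V)) :
    (univ.filter (fun σ : Equiv.Perm V => act σ E = E)).card ≤
      (univ.filter (fun τ : Equiv.Perm V => act τ E = E ∧ τ.support ⊆ U E)).card *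
        (Fintype.card V - (U E).card)! := by
  rw [← card_fix (U E), ← card_product]
  -- the map
  let res : Equiv.Perm V → Equiv.Perm V := fun σ =>
    if h : ∀ v, v ∈ U E ↔ σ v ∈ U E then
      Equiv.Perm.ofSubtype (σ.subtypePerm (p := fun v => v ∈ U E) (fun v => (h v).symm)) else 1
  have hres : ∀ σ, act σ E = E → ∀ v ∈ U E, res σ v = σ v := by
    intro σ hσ v hv
    have h := mem_U_of_act hσ
    simp only [res]
    rw [dif_pos h]
    rw [Equiv.Perm.ofSubtype_apply_of_mem _ hv]
    simp
  have hres2 : ∀ σ, ∀ v ∉ U E, res σ v = v := by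
    intro σ v hv
    simp only [res]
    split_ifs with h
    · exact Equiv.Perm.ofSubtype_apply_of_not_mem _ hv
    · simp
  apply card_le_card_of_injOn (fun σ => (res σ, (res σ)⁻¹ * σ))
  · intro σ hσ
    simp only [coe_filter, mem_univ, true_and, Set.mem_ofPred_eq] at hσ
    simp only [coe_product, Set.mem_prod, coe_filter, mem_univ, true_and, Set.mem_ofPred_eq]
    refine ⟨⟨?_, ?_⟩, ?_⟩
    · conv_rhs => rw [← hσ]
      unfold act
      apply Finset.image_congr
      intro e he
      simp only [Equiv.finsetCongr_apply]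
      ext v
      simp only [mem_map, Equiv.coe_toEmbedding]
      constructor
      · rintro ⟨a, ha, rfl⟩
        exact ⟨a, ha, (hres σ hσ a (subset_U he ha)).symm⟩
      · rintro ⟨a, ha, rfl⟩
        exact ⟨a, ha, hres σ hσ a (subset_U he ha)⟩
    · intro v hv
      by_contra hcon
      exact (Equiv.Perm.mem_support.1 hv) (hres2 σ v hcon)
    · intro v hv
      rw [Equiv.Perm.mul_apply, Equiv.Perm.inv_eq_iff_eq]
      exact (hres σ hσ v hv).symm
  · intro σ _ σ' _ h
    simp only [Prod.mk.injEq] at h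
    obtain ⟨h1, h2⟩ := h
    rw [h1] at h2
    exact mul_left_cancel h2

end stab

end Pool.Agent.H244R2
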