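import Pool.Agent.H244R2.GraphCount

set_option autoImplicit false
set_option linter.unusedSectionVars false

namespace Pool.Agent.H244R2

open Finset Nat

variable {V : Type*} [DecidableEq V] [Fintype V]

/-- pairs of points meeting `T` -/
def QT (T : Finset V) : Finset (Finset V) :=
  ((univ : Finset V).powersetCard 2).filter (fun e => ¬ Disjoint e T)

/-- the invariant edge sets that cover the support -/
def CC (τ : Equiv.Perm V) (n : ℕ) : Finset (Finset (Finset V)) :=
  (invSets (Equiv.finsetCongr τ) (QT τ.support)).filter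
    (fun E => τ.support.card ≤ 2 * E.card ∧ E.card ≤ n)

lemma disjoint_map_support {τ : Equiv.Perm V} (e : Finset V) :
    Disjoint (e.map τ.toEmbedding) τ.support ↔ Disjoint e τ.support := by
  simp only [Finset.disjoint_left, mem_map, Equiv.coe_toEmbedding]
  constructor
  · intro h a ha hs
    exact h ⟨a, ha, rfl⟩ (Equiv.Perm.apply_mem_support.2 hs)
  · rintro h _ ⟨a, ha, rfl⟩ hs
    exact h ha (Equiv.Perm.apply_mem_support.1 hs)

lemma sum_le_sum_of_injOn {α β : Type*} [DecidableEq β] {A : Finset α} {B : Finset β}
    (i : α → β) (hi : ∀ a ∈ A, i a ∈ B) (hinj : Set.InjOn i A) (f : α → ℝ) (g : β → ℝ)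
    (hfg : ∀ a ∈ A, f a ≤ g (i a)) (hg : ∀ b ∈ B, 0 ≤ g b) : ∑ a ∈ A, f a ≤ ∑ b ∈ B, g b := by
  calc ∑ a ∈ A, f a ≤ ∑ a ∈ A, g (i a) := Finset.sum_le_sum hfg
    _ = ∑ b ∈ A.image i, g b := by rw [Finset.sum_image hinj]
    _ ≤ ∑ b ∈ B, g b := by
        apply Finset.sum_le_sum_of_subset_of_nonneg
        · intro b hb
          obtain ⟨a, ha, rfl⟩ := mem_image.1 hb
          exact hi a ha
        · intro b hb _
          exact hg b hb

/-- contribution of a single permutation -/
lemma perm_contrib (τ : Equiv.Perm V) (n : ℕ) :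
    ∑ E ∈ (GG (univ : Finset V) n).filter (fun E => act τ E = E ∧ τ.support ⊆ U E),
      ((Fintype.card V - (U E).card)! : ℝ) ≤
      ((Fintype.card V - τ.support.card)! : ℝ) * ∑ E ∈ CC τ n, gSum (n - E.card) := by
  set T := τ.support with hT
  have hTc : Tᶜ.card = Fintype.card V - T.card := Finset.card_compl T
  have h1 : ∑ E ∈ (GG (univ : Finset V) n).filter (fun E => act τ E = E ∧ T ⊆ U E),
      ((Fintype.card V - (U E).card)! : ℝ) ≤
      ∑ x ∈ (CC τ n).sigma (fun E₁ => GG Tᶜ (n - E₁.card)),
        ((Tᶜ.card - (U x.2).card)! : ℝ) := by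
    apply sum_le_sum_of_injOn
      (i := fun E => (⟨E.filter (fun e => ¬ Disjoint e T), E.filter (fun e => Disjoint e T)⟩ :
        Σ _ : Finset (Finset V), Finset (Finset V)))
    · intro E hE
      rw [mem_filter] at hE
      obtain ⟨hEG, hact, hTU⟩ := hE
      rw [mem_GG] at hEG
      rw [mem_sigma]
      have hcard : (E.filter (fun e => ¬ Disjoint e T)).card + (E.filter (fun e => Disjoint e T)).card
          = n := by
        rw [add_comm, Finset.card_filter_add_card_filter_not, hEG.2]
      refine ⟨?_, ?_⟩
      · simp only [CC, mem_filter, invSets, mem_powerset]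
        refine ⟨⟨?_, ?_⟩, ?_, ?_⟩
        · intro e he
          rw [mem_filter] at he
          simp only [QT, mem_filter, mem_powersetCard]
          exact ⟨hEG.1 e he.1, he.2⟩
        · ext e
          simp only [mem_image, mem_filter, Equiv.finsetCongr_apply]
          constructor
          · rintro ⟨f, ⟨hf1, hf2⟩, rfl⟩
            refine ⟨?_, ?_⟩
            · rw [← hact]; exact mem_act.2 ⟨f, hf1, rfl⟩
            · rw [hT, disjoint_map_support]; exact hf2
          · rintro ⟨he1, he2⟩
            rw [← hact] at he1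
            obtain ⟨f, hf, rfl⟩ := mem_act.1 he1
            refine ⟨f, ⟨hf, ?_⟩, rfl⟩
            rw [hT, disjoint_map_support] at he2
            exact he2
        · rw [← hT]
          calc T.card ≤ (U (E.filter (fun e => ¬ Disjoint e T))).card := by
                apply card_le_card
                intro v hv
                obtain ⟨e, he, hve⟩ := mem_U.1 (hTU hv)
                refine mem_U.2 ⟨e, ?_, hve⟩
                rw [mem_filter]
                refine ⟨he, ?_⟩
                rw [Finset.not_disjoint_iff]
                exact ⟨v, hve, hv⟩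
            _ ≤ 2 * (E.filter (fun e => ¬ Disjoint e T)).card := by
                apply card_U_le
                intro e he
                exact (hEG.1 e (mem_filter.1 he).1).2
        · omega
      · rw [mem_GG]
        refine ⟨?_, by simp only; omega⟩
        intro e he
        simp only at he
        rw [mem_filter] at he
        refine ⟨?_, (hEG.1 e he.1).2⟩
        intro v hv
        rw [mem_compl]
        exact fun hvT => Finset.disjoint_left.1 he.2 hv hvT
    · intro E _ F _ h
      simp only [Sigma.mk.injEq, heq_eq_eq] at h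
      rw [← Finset.filter_union_filter_not_eq (fun e => Disjoint e T) E, h.1, h.2,
        Finset.filter_union_filter_not_eq]
    · intro E hE
      rw [mem_filter] at hE
      obtain ⟨hEG, hact, hTU⟩ := hE
      simp only
      have h2 : T.card + (U (E.filter (fun e => Disjoint e T))).card ≤ (U E).card := by
        rw [← card_union_of_disjoint]
        · apply card_le_card
          apply union_subset hTU
          intro v hv
          obtain ⟨e, he, hve⟩ := mem_U.1 hv
          exact mem_U.2 ⟨e, (mem_filter.1 he).1, hve⟩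
        · rw [Finset.disjoint_right]
          intro v hv
          obtain ⟨e, he, hve⟩ := mem_U.1 hv
          exact Finset.disjoint_left.1 (mem_filter.1 he).2 hve
      rw [hTc]
      have h3 : Fintype.card V - (U E).card ≤
          Fintype.card V - T.card - (U (E.filter (fun e => Disjoint e T))).card := by omega
      exact_mod_cast Nat.factorial_le h3
    · intro b _
      positivity
  refine h1.trans ?_
  rw [Finset.sum_sigma, Finset.mul_sum]
  apply Finset.sum_le_sum
  intro E₁ _
  rw [← hTc]
  exact sub_sum Tᶜ (n - E₁.card)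

/-- number of permutations with a given support -/
lemma card_support_eq_le (T : Finset V) :
    (univ.filter (fun τ : Equiv.Perm V => τ.support = T)).card ≤ T.card ! := by
  have h := card_fix (Tᶜ : Finset V)
  have h2 : Fintype.card V - (Tᶜ : Finset V).card = T.card := by
    rw [card_compl]
    have := card_le_univ T
    omega
  rw [h2] at h
  rw [← h]
  apply card_le_card
  intro τ hτ
  simp only [mem_filter, mem_univ, true_and] at hτ ⊢
  intro v hv
  rw [mem_compl, ← hτ, Equiv.Perm.notMem_support] at hv
  exact hv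

/-- summing over all non-trivial permutations -/
lemma sum_perm_le (Y : ℕ → ℝ) (hY : ∀ s, 0 ≤ Y s) :
    ∑ τ ∈ (univ : Finset (Equiv.Perm V)).erase 1,
      ((Fintype.card V - τ.support.card)! : ℝ) * Y τ.support.card ≤
      ((Fintype.card V)! : ℝ) * ∑ s ∈ Finset.Icc 2 (Fintype.card V), Y s := by
  set K := Fintype.card V with hK
  set g : ℕ → ℝ := fun s => if 2 ≤ s then ((K - s)! : ℝ) * Y s else 0 with hg
  have hg0 : ∀ s, 0 ≤ g s := by
    intro s
    simp only [hg]
    split_ifs
    · have := hY s
      positivity
    · exact le_rfl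
  calc ∑ τ ∈ (univ : Finset (Equiv.Perm V)).erase 1, ((K - τ.support.card)! : ℝ) * Y τ.support.card
      = ∑ τ ∈ (univ : Finset (Equiv.Perm V)).erase 1, g τ.support.card := by
        apply Finset.sum_congr rfl
        intro τ hτ
        have h1 : τ ≠ 1 := (mem_erase.1 hτ).1
        have h2 := Equiv.Perm.two_le_card_support_of_ne_one h1
        simp only [hg, h2, if_true]
    _ ≤ ∑ τ : Equiv.Perm V, g τ.support.card := by
        apply Finset.sum_le_sum_of_subset_of_nonneg (subset_univ _)
        intro τ _ _
        exact hg0 _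
    _ = ∑ T ∈ (univ : Finset V).powerset, ∑ τ ∈ univ.filter (fun τ : Equiv.Perm V => τ.support = T),
          g τ.support.card := by
        rw [Finset.sum_fiberwise_of_maps_to]
        intro τ _
        exact mem_powerset.2 (subset_univ _)
    _ ≤ ∑ T ∈ (univ : Finset V).powerset, (fun s => (s ! : ℝ) * g s) T.card := by
        apply Finset.sum_le_sum
        intro T _
        rw [Finset.sum_congr rfl (g := fun _ => g T.card)]
        · rw [sum_const, nsmul_eq_mul]
          apply mul_le_mul_of_nonneg_right _ (hg0 _)
          exact_mod_cast card_support_eq_le T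
        · intro τ hτ
          rw [(mem_filter.1 hτ).2]
    _ = ∑ s ∈ range (K + 1), (K.choose s : ℝ) * ((s ! : ℝ) * g s) := by
        rw [Finset.sum_powerset_apply_card (fun s => (s ! : ℝ) * g s), Finset.card_univ]
        simp only [nsmul_eq_mul, ← hK]
    _ = ∑ s ∈ range (K + 1), (if 2 ≤ s then (K ! : ℝ) * Y s else 0) := by
        apply Finset.sum_congr rfl
        intro s hs
        rw [mem_range] at hs
        simp only [hg]
        split_ifs with h2
        · have h3 := choose_mul_factorial_div (show s ≤ K by omega)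
          have h4 : (s ! : ℝ) ≠ 0 := by positivity
          calc (K.choose s : ℝ) * ((s ! : ℝ) * (((K - s)! : ℝ) * Y s))
              = ((K.choose s : ℝ) * ((K - s)! : ℝ)) * (s ! : ℝ) * Y s := by ring
            _ = _ := by rw [h3]; field_simp
        · ring
    _ = ∑ s ∈ Finset.Icc 2 K, (K ! : ℝ) * Y s := by
        rw [← Finset.sum_filter]
        apply Finset.sum_congr _ (fun _ _ => rfl)
        ext s
        simp only [mem_filter, mem_range, mem_Icc]
        omega
    _ = _ := by rw [Finset.mul_sum]

/-- total number of fixed pairs, upper bound -/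
theorem fixed_pairs_le (n : ℕ) (hV : 2 * n ≤ Fintype.card V) (Y : ℕ → ℝ) (hY : ∀ s, 0 ≤ Y s)
    (hCC : ∀ τ : Equiv.Perm V, τ ≠ 1 → ∑ E ∈ CC τ n, gSum (n - E.card) ≤ Y τ.support.card) :
    ∑ σ : Equiv.Perm V, (((GG (univ : Finset V) n).filter (fun E => act σ E = E)).card : ℝ) ≤
      ((Fintype.card V)! : ℝ) * (gSum n / Real.exp 1 + ∑ s ∈ Finset.Icc 2 (Fintype.card V), Y s) := by
  set K := Fintype.card V with hK
  have h1 : ∑ σ : Equiv.Perm V, (((GG (univ : Finset V) n).filter (fun E => act σ E = E)).card : ℝ)
      = ∑ E ∈ GG (univ : Finset V) n, ((univ.filter (fun σ : Equiv.Perm V => act σ E = E)).card : ℝ) := by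
    simp only [card_filter]
    push_cast
    rw [Finset.sum_comm]
  rw [h1]
  have h2 : ∑ E ∈ GG (univ : Finset V) n,
      ((univ.filter (fun σ : Equiv.Perm V => act σ E = E)).card : ℝ) ≤
      ∑ E ∈ GG (univ : Finset V) n,
        ((univ.filter (fun τ : Equiv.Perm V => act τ E = E ∧ τ.support ⊆ U E)).card : ℝ) *
        ((K - (U E).card)! : ℝ) := by
    apply Finset.sum_le_sum
    intro E _
    exact_mod_cast stab_upper E
  have h3 : ∑ E ∈ GG (univ : Finset V) n,
        ((univ.filter (fun τ : Equiv.Perm V => act τ E = E ∧ τ.support ⊆ U E)).card : ℝ) *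
        ((K - (U E).card)! : ℝ) =
      ∑ τ : Equiv.Perm V, ∑ E ∈ (GG (univ : Finset V) n).filter
        (fun E => act τ E = E ∧ τ.support ⊆ U E), ((K - (U E).card)! : ℝ) := by
    simp only [card_filter]
    push_cast
    simp_rw [Finset.sum_mul, Finset.sum_filter]
    rw [Finset.sum_comm]
    apply Finset.sum_congr rfl
    intro τ _
    apply Finset.sum_congr rfl
    intro E _
    split_ifs <;> simp
  have h4 : ∑ τ : Equiv.Perm V, ∑ E ∈ (GG (univ : Finset V) n).filter
        (fun E => act τ E = E ∧ τ.support ⊆ U E), ((K - (U E).card)! : ℝ) =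
      ∑ E ∈ GG (univ : Finset V) n, ((K - (U E).card)! : ℝ) +
      ∑ τ ∈ (univ : Finset (Equiv.Perm V)).erase 1, ∑ E ∈ (GG (univ : Finset V) n).filter
        (fun E => act τ E = E ∧ τ.support ⊆ U E), ((K - (U E).card)! : ℝ) := by
    rw [← Finset.add_sum_erase _ _ (mem_univ (1 : Equiv.Perm V))]
    congr 1
    apply Finset.sum_congr _ (fun _ _ => rfl)
    rw [Finset.filter_eq_self]
    intro E _
    refine ⟨?_, by simp⟩
    ext e
    rw [mem_act]
    constructor
    · rintro ⟨f, hf, rfl⟩
      rwa [map_eq_self_of_fix (S := f) (fun v _ => rfl) (Finset.Subset.refl _)]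
    · intro he
      exact ⟨e, he, map_eq_self_of_fix (S := e) (fun v _ => rfl) (Finset.Subset.refl _)⟩
  have h5 := main_sum (univ : Finset V) n (by rw [Finset.card_univ]; exact hV)
  rw [Finset.card_univ, ← hK] at h5
  have h6 : ∑ τ ∈ (univ : Finset (Equiv.Perm V)).erase 1, ∑ E ∈ (GG (univ : Finset V) n).filter
        (fun E => act τ E = E ∧ τ.support ⊆ U E), ((K - (U E).card)! : ℝ) ≤
      (K ! : ℝ) * ∑ s ∈ Finset.Icc 2 K, Y s := by
    refine le_trans ?_ (sum_perm_le Y hY)
    apply Finset.sum_le_sum
    intro τ hτ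
    refine (perm_contrib τ n).trans ?_
    apply mul_le_mul_of_nonneg_left (hCC τ (mem_erase.1 hτ).1) (by positivity)
  calc _ ≤ _ := h2
    _ = _ := h3
    _ = _ := h4
    _ ≤ (K ! : ℝ) * (gSum n / Real.exp 1) + (K ! : ℝ) * ∑ s ∈ Finset.Icc 2 K, Y s := by
        rw [h5]; linarith
    _ = _ := by ring

/-- total number of fixed pairs, lower bound -/
theorem fixed_pairs_ge (n : ℕ) (hV : 2 * n ≤ Fintype.card V) :
    ((Fintype.card V)! : ℝ) * (gSum n / Real.exp 1) ≤
    ∑ σ : Equiv.Perm V, (((GG (univ : Finset V) n).filter (fun E => act σ E = E)).card : ℝ) := by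
  set K := Fintype.card V with hK
  have h1 : ∑ σ : Equiv.Perm V, (((GG (univ : Finset V) n).filter (fun E => act σ E = E)).card : ℝ)
      = ∑ E ∈ GG (univ : Finset V) n, ((univ.filter (fun σ : Equiv.Perm V => act σ E = E)).card : ℝ) := by
    simp only [card_filter]
    push_cast
    rw [Finset.sum_comm]
  have h5 := main_sum (univ : Finset V) n (by rw [Finset.card_univ]; exact hV)
  rw [Finset.card_univ, ← hK] at h5
  rw [h1, ← h5]
  apply Finset.sum_le_sum
  intro E _
  exact_mod_cast stab_lower E

end Pool.Agent.H244R2
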